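import Mathlib

set_option autoImplicit false

/-!
Mertens' first theorem, and the proper prime powers.
-/

namespace Pool.Agent.MPbca

open Finset ArithmeticFunction Filter

lemma log_factorial_eq (N : ℕ) : Real.log (N.factorial : ℝ) =
    ∑ d ∈ Icc 1 N, vonMangoldt d * ((N / d : ℕ) : ℝ) := by
  classical
  have h0 : Real.log (N.factorial : ℝ) = ∑ n ∈ Icc 1 N, Real.log (n : ℝ) := by
    have h00 : ∏ x ∈ Icc 1 N, x = N.factorial := by
      rw [← Finset.prod_Ico_id_eq_factorial]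
      apply Finset.prod_congr _ fun _ _ => rfl
      ext x
      rw [mem_Icc, mem_Ico]
      omega
    rw [← h00, Nat.cast_prod, Real.log_prod]
    intro n hn
    have := (mem_Icc.1 hn).1
    exact_mod_cast (by omega : n ≠ 0)
  rw [h0]
  have h1 : ∀ n ∈ Icc 1 N, Real.log (n : ℝ) =
      ∑ d ∈ Icc 1 N, if d ∣ n then vonMangoldt d else 0 := by
    intro n hn
    rw [mem_Icc] at hn
    rw [← vonMangoldt_sum (n := n), ← sum_filter]
    apply sum_congr _ fun _ _ => rfl
    ext d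
    rw [Nat.mem_divisors, mem_filter, mem_Icc]
    constructor
    · rintro ⟨h2, h3⟩
      have h4 := Nat.pos_of_dvd_of_pos h2 (by omega)
      have h5 := Nat.le_of_dvd (by omega) h2
      exact ⟨⟨h4, by omega⟩, h2⟩
    · rintro ⟨_, h2⟩
      exact ⟨h2, by omega⟩
  rw [sum_congr rfl h1, sum_comm]
  apply sum_congr rfl
  intro d hd
  rw [← sum_filter, sum_const, nsmul_eq_mul, mul_comm]
  congr 2
  have h2 := Nat.Ioc_filter_dvd_card_eq_div N d
  rw [← h2]
  congr 1

lemma log_factorial_bounds (N : ℕ) (hN : 1 ≤ N) :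
    (N : ℝ) * Real.log N - N ≤ Real.log (N.factorial : ℝ) ∧
    Real.log (N.factorial : ℝ) ≤ N * Real.log N := by
  have hN0 : (0 : ℝ) < N := by exact_mod_cast hN
  constructor
  · have h1 := Real.exp_le_exp.2 (le_refl (N : ℝ))
    have h2 : (N : ℝ) ^ N / N.factorial ≤ Real.exp N := Real.pow_div_factorial_le_exp _ hN0.le N
    have hf : (0 : ℝ) < N.factorial := by exact_mod_cast Nat.factorial_pos N
    have h3 := Real.log_le_log (by positivity) h2
    rw [Real.log_exp, Real.log_div (by positivity) hf.ne', Real.log_pow] at h3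
    linarith
  · have h2 : (N.factorial : ℝ) ≤ (N : ℝ) ^ N := by exact_mod_cast Nat.factorial_le_pow N
    have hf : (0 : ℝ) < N.factorial := by exact_mod_cast Nat.factorial_pos N
    have h3 := Real.log_le_log hf h2
    rwa [Real.log_pow] at h3

lemma mertens_lower (N : ℕ) (hN : 1 ≤ N) :
    Real.log N - 1 ≤ ∑ d ∈ Icc 1 N, vonMangoldt d / d := by
  have hN0 : (0 : ℝ) < N := by exact_mod_cast hN
  have h1 := (log_factorial_bounds N hN).1
  rw [log_factorial_eq] at h1
  have h2 : ∑ d ∈ Icc 1 N, vonMangoldt d * ((N / d : ℕ) : ℝ) ≤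
      N * ∑ d ∈ Icc 1 N, vonMangoldt d / d := by
    rw [mul_sum]
    apply sum_le_sum
    intro d _
    have h3 : ((N / d : ℕ) : ℝ) ≤ N / d := Nat.cast_div_le
    have h4 : 0 ≤ vonMangoldt d := vonMangoldt_nonneg
    calc vonMangoldt d * ((N / d : ℕ) : ℝ) ≤ vonMangoldt d * (N / d) :=
          mul_le_mul_of_nonneg_left h3 h4
      _ = N * (vonMangoldt d / d) := by ring
  have h3 : (N : ℝ) * (Real.log N - 1) ≤ N * ∑ d ∈ Icc 1 N, vonMangoldt d / d := by linarith
  exact le_of_mul_le_mul_left h3 hN0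

lemma psi_le_six (N : ℕ) : ∑ d ∈ Icc 1 N, vonMangoldt d ≤ 6 * N := by
  have h1 := Chebyshev.psi_le_const_mul_self (x := (N : ℝ)) (Nat.cast_nonneg _)
  have h2 : Chebyshev.psi N = ∑ d ∈ Icc 1 N, vonMangoldt d := by
    unfold Chebyshev.psi
    rw [Nat.floor_natCast]
    rfl
  rw [h2] at h1
  have h3 := Real.log_two_lt_d9
  have hlog4 : Real.log 4 = 2 * Real.log 2 := by
    rw [show (4 : ℝ) = 2 ^ 2 by norm_num, Real.log_pow]
    norm_num
  have h4 : (0 : ℝ) ≤ N := Nat.cast_nonneg _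
  nlinarith

lemma mertens_upper (N : ℕ) (hN : 1 ≤ N) :
    ∑ d ∈ Icc 1 N, vonMangoldt d / d ≤ Real.log N + 6 := by
  have hN0 : (0 : ℝ) < N := by exact_mod_cast hN
  have h1 := (log_factorial_bounds N hN).2
  rw [log_factorial_eq] at h1
  have h2 : N * ∑ d ∈ Icc 1 N, vonMangoldt d / d ≤
      ∑ d ∈ Icc 1 N, vonMangoldt d * ((N / d : ℕ) : ℝ) + ∑ d ∈ Icc 1 N, vonMangoldt d := by
    rw [mul_sum, ← sum_add_distrib]
    apply sum_le_sum
    intro d hd
    have hd1 := (mem_Icc.1 hd).1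
    have hd0 : (0 : ℝ) < d := by exact_mod_cast hd1
    have h3 : (N : ℝ) / d ≤ ((N / d : ℕ) : ℝ) + 1 := by
      rw [div_le_iff₀ hd0]
      have h5 := (Nat.lt_mul_div_succ N (by omega : 0 < d)).le
      have h6 : (N : ℝ) ≤ d * ((N / d : ℕ) + 1) := by exact_mod_cast h5
      linarith
    have h4 : 0 ≤ vonMangoldt d := vonMangoldt_nonneg
    calc N * (vonMangoldt d / d) = vonMangoldt d * (N / d) := by ring
      _ ≤ vonMangoldt d * (((N / d : ℕ) : ℝ) + 1) := mul_le_mul_of_nonneg_left h3 h4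
      _ = _ := by ring
  have h3 := psi_le_six N
  have h4 : (N : ℝ) * ∑ d ∈ Icc 1 N, vonMangoldt d / d ≤ N * (Real.log N + 6) := by linarith
  exact le_of_mul_le_mul_left h4 hN0

/-- Mertens in an interval -/
lemma mertens_Ioc {D1 D2 : ℕ} (h1 : 1 ≤ D1) (h2 : D1 ≤ D2) :
    ∑ d ∈ Ioc D1 D2, vonMangoldt d / d ≤ Real.log (D2 / D1) + 7 := by
  classical
  have h3 := mertens_lower D1 h1
  have h4 := mertens_upper D2 (h1.trans h2)
  have h5 : ∑ d ∈ Icc 1 D1, vonMangoldt d / (d : ℝ) + ∑ d ∈ Ioc D1 D2, vonMangoldt d / (d : ℝ) =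
      ∑ d ∈ Icc 1 D2, vonMangoldt d / (d : ℝ) := by
    rw [← Finset.sum_union]
    · apply sum_congr _ fun _ _ => rfl
      ext d
      rw [mem_union, mem_Icc, mem_Ioc, mem_Icc]
      omega
    · rw [Finset.disjoint_left]
      intro d hd hd'
      rw [mem_Icc] at hd
      rw [mem_Ioc] at hd'
      omega
  have h6 : (0 : ℝ) < D1 := by exact_mod_cast h1
  have h7 : (0 : ℝ) < D2 := by exact_mod_cast (h1.trans h2)
  rw [Real.log_div h7.ne' h6.ne']
  linarith

/-- the proper prime powers -/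
lemma nonprime_tail {η : ℝ} (hη : 0 < η) : ∃ D : ℕ, 1 ≤ D ∧ ∀ N : ℕ,
    ∑ d ∈ (Ioc D N).filter (fun d => ¬ d.Prime), vonMangoldt d / d ≤ η := by
  classical
  have h1 := ArithmeticFunction.vonMangoldt.summable_residueClass_non_primes_div (q := 1) 0
  have h2 := summable_iff_vanishing_norm.1 h1 η hη
  obtain ⟨s, hs⟩ := h2
  obtain ⟨D, hD⟩ := s.exists_nat_subset_range
  refine ⟨D + 1, by omega, fun N => ?_⟩
  have h3 := hs ((Ioc (D + 1) N).filter (fun d => ¬ d.Prime)) (by
    rw [Finset.disjoint_left]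
    intro d hd hd'
    have := mem_range.1 (hD hd')
    rw [mem_filter, mem_Ioc] at hd
    omega)
  refine le_trans ?_ h3.le
  refine le_trans (le_of_eq ?_) (le_abs_self _)
  apply sum_congr rfl
  intro d hd
  rw [mem_filter] at hd
  rw [if_neg hd.2]
  congr 1
  unfold ArithmeticFunction.vonMangoldt.residueClass
  rw [Set.indicator_of_mem]
  show ((d : ℕ) : ZMod 1) = 0
  exact Subsingleton.elim _ _

end Pool.Agent.MPbca
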