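import Pool.Agent.Lib.MP_bca3e5_nt.Gf1

set_option autoImplicit false

/-!
The upper bound sieve for the primes `m ≡ 1` modulo a prime `p`.
-/

namespace Pool.Agent.MPbca

open Finset ArithmeticFunction Filter
open Pool.Agent.MP89da58 (tri cX Om psiAP psiX Om_nonneg Om_le Om_eq_zero_of_large
  Om_eq_zero_of_small psiX_lower)

/-- the excluded class -/
def Q1 (p q k : ℕ) : Prop := q ∣ p * k + 1

instance (p q : ℕ) : DecidablePred (Q1 p q) := fun k => by
  unfold Q1
  infer_instance

lemma Q1_per (p q x : ℕ) : Q1 p q (x % q) ↔ Q1 p q x := by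
  unfold Q1
  rw [← ZMod.natCast_eq_zero_iff, ← ZMod.natCast_eq_zero_iff]
  push_cast
  rw [ZMod.natCast_mod]

lemma om_Q1 (p q : ℕ) : om (Q1 p) q = (Rt q p).card := rfl

/-- the count -/
lemma card_ap_le : ∃ C : ℝ, 0 < C ∧ ∃ Y0 : ℕ, ∀ Y : ℕ, Y0 ≤ Y → ∀ p : ℕ, p.Prime →
    (((Icc 1 Y).filter (fun k => (p * k + 1).Prime)).card : ℝ) ≤ C * (Y / Real.log Y) := by
  classical
  obtain ⟨C, hC, X0, hX0⟩ := upper_uniform 1 le_rfl
  obtain ⟨X1, hX1⟩ := sqrt_le_div 1
  refine ⟨C * Real.exp 1 + 1, by positivity, max X0 (max X1 2), fun Y hY p hp => ?_⟩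
  have hYX0 : X0 ≤ Y := le_trans (le_max_left _ _) hY
  have hYX1 : X1 ≤ Y := le_trans (le_trans (le_max_left _ _) (le_max_right _ _)) hY
  have hY2 : 2 ≤ Y := le_trans (le_trans (le_max_right _ _) (le_max_right _ _)) hY
  have hlog : 0 < Real.log Y := Real.log_pos (by exact_mod_cast (by omega : 1 < Y))
  set T := (Icc 1 Y).filter (fun k => (p * k + 1).Prime) with hT
  set S := T.filter (fun k => Y < (p * k + 1) ^ 2) with hS
  have h2 := hX0 Y hYX0 (Q1 p) (fun q x => Q1_per p q x)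
    (fun q hq => card_Rt_le hq p)
    (fun q hq => lt_of_le_of_lt (card_Rt_le hq p) hq.one_lt)
    {p} (fun q hq _ hqp => by
      rw [om_Q1]
      apply card_Rt_eq hq
      intro h
      apply hqp
      rw [mem_singleton]
      exact (Nat.prime_dvd_prime_iff_eq hq hp).1 h) S (by
      intro k hk
      exact (mem_filter.1 (mem_filter.1 hk).1).1) (by
      intro k hk q hq hqY hQ
      rw [hS, mem_filter, hT, mem_filter] at hk
      unfold Q1 at hQ
      have h3 : q = p * k + 1 := (Nat.prime_dvd_prime_iff_eq hq hk.1.2).1 hQ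
      subst h3
      omega)
  rw [sum_singleton] at h2
  have h3 : Real.exp ((1 : ℕ) * ((1 : ℝ) / p)) ≤ Real.exp 1 := by
    apply Real.exp_le_exp.2
    have : (1 : ℝ) ≤ p := by exact_mod_cast hp.one_le
    rw [Nat.cast_one, one_mul, div_le_one (by linarith)]
    exact this
  have h4 : (T.card : ℝ) ≤ S.card + Nat.sqrt Y := by
    have h5 : T.card ≤ S.card + Nat.sqrt Y := by
      rw [← Finset.card_filter_add_card_filter_not (s := T) (fun k => Y < (p * k + 1) ^ 2), ← hS]
      apply Nat.add_le_add_left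
      have h6 : (T.filter (fun k => ¬ Y < (p * k + 1) ^ 2)) ⊆ Icc 1 (Nat.sqrt Y) := by
        intro k hk
        rw [mem_filter, hT, mem_filter, mem_Icc, not_lt] at hk
        rw [mem_Icc]
        refine ⟨hk.1.1.1, Nat.le_sqrt'.2 (le_trans ?_ hk.2)⟩
        apply Nat.pow_le_pow_left
        have := hp.one_le
        nlinarith
      have := card_le_card h6
      rwa [Nat.card_Icc, Nat.add_sub_cancel] at this
    exact_mod_cast h5
  have h5 := hX1 Y hYX1
  rw [pow_one] at h5 h2
  have h6 : 0 ≤ (Y : ℝ) / Real.log Y := by positivity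
  calc (T.card : ℝ) ≤ S.card + Nat.sqrt Y := h4
    _ ≤ C * (Y / Real.log Y) * Real.exp 1 + Y / Real.log Y := by
        apply add_le_add _ h5
        refine h2.trans ?_
        exact mul_le_mul_of_nonneg_left h3 (by positivity)
    _ = _ := by ring

/-- from weights to counts -/
lemma thAP_le_card {X : ℝ} (hX : Real.exp 1 ≤ X) {p : ℕ} (hp : 1 ≤ p) :
    thAP X p ≤ 8 * Real.log (3 * X) *
      (((Icc 1 ⌊Real.exp 1 * (X / p)⌋₊).filter (fun k => (p * k + 1).Prime)).card : ℝ) := by
  classical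
  have hX0 : 0 < X := lt_of_lt_of_le (Real.exp_pos 1) hX
  have hX1 : 1 ≤ X := le_trans (Real.one_le_exp (by norm_num)) hX
  have hlogX : 1 ≤ Real.log X := (Real.le_log_iff_exp_le hX0).2 hX
  have hp0 : (0 : ℝ) < p := by exact_mod_cast hp
  have hl30 : 0 ≤ Real.log (3 * X) := Real.log_nonneg (by linarith)
  set Y : ℕ := ⌊Real.exp 1 * (X / p)⌋₊ with hY
  unfold thAP
  have h4 : ∀ m ∈ ((Icc 1 ⌊3 * X⌋₊).filter Nat.Prime).filter (fun m => m ≡ 1 [MOD p]),
      vonMangoldt m * Om X m ≤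
      if (m : ℝ) < Real.exp 1 * X then 8 * Real.log (3 * X) else 0 := by
    intro m hm
    rw [mem_filter, mem_filter, mem_Icc] at hm
    have hm0 : (0 : ℝ) < m := by exact_mod_cast hm.1.1.1
    split_ifs with h'
    · have h5 : vonMangoldt m ≤ Real.log (3 * X) := by
        refine vonMangoldt_le_log.trans ?_
        apply Real.log_le_log hm0
        exact (Nat.le_floor_iff (by positivity)).1 hm.1.1.2
      have h6 := Om_le hX0.le hlogX m
      have h7 := Om_nonneg hX0.le m
      have h8 : 0 ≤ vonMangoldt m := vonMangoldt_nonneg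
      nlinarith
    · rw [Om_eq_zero_of_large hX0 (not_lt.1 h'), mul_zero]
  refine (sum_le_sum h4).trans ?_
  rw [← sum_filter, sum_const, nsmul_eq_mul, mul_comm]
  apply mul_le_mul_of_nonneg_left _ (by positivity)
  have h9 : ((((Icc 1 ⌊3 * X⌋₊).filter Nat.Prime).filter (fun m => m ≡ 1 [MOD p])).filter
      (fun m : ℕ => (m : ℝ) < Real.exp 1 * X)).card ≤
      ((Icc 1 Y).filter (fun k => (p * k + 1).Prime)).card := by
    apply Finset.card_le_card_of_injOn (fun m => (m - 1) / p)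
    · intro m hm
      simp only [coe_filter, mem_filter, mem_Icc, Set.mem_ofPred_eq] at hm
      obtain ⟨⟨⟨⟨hm1, hm2⟩, hmp⟩, hmod⟩, hme⟩ := hm
      have hdvd : p ∣ m - 1 := (Nat.modEq_iff_dvd' hmp.one_le).1 hmod.symm
      obtain ⟨a, ha⟩ := hdvd
      have hmtwo := hmp.two_le
      have ha1 : 1 ≤ a := by
        rcases Nat.eq_zero_or_pos a with h' | h'
        · subst h'; omega
        · exact h'
      have hmeq : m = p * a + 1 := by omega
      have hdiv : (m - 1) / p = a := by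
        rw [ha, Nat.mul_div_cancel_left a (by omega)]
      simp only [coe_filter, mem_Icc, Set.mem_ofPred_eq]
      rw [hdiv]
      refine ⟨⟨ha1, ?_⟩, ?_⟩
      · rw [hY, Nat.le_floor_iff (by positivity), ← mul_div_assoc, le_div_iff₀ hp0]
        have : (m : ℝ) = p * a + 1 := by exact_mod_cast hmeq
        linarith
      · rw [← hmeq]; exact hmp
    · intro m hm m' hm' h'
      simp only [coe_filter, mem_filter, mem_Icc, Set.mem_ofPred_eq] at hm hm'
      obtain ⟨⟨⟨⟨hm1, hm2⟩, hmp⟩, hmod⟩, hme⟩ := hm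
      obtain ⟨⟨⟨⟨hm1', hm2'⟩, hmp'⟩, hmod'⟩, hme'⟩ := hm'
      obtain ⟨a, ha⟩ := (Nat.modEq_iff_dvd' hmp.one_le).1 hmod.symm
      obtain ⟨b, hb⟩ := (Nat.modEq_iff_dvd' hmp'.one_le).1 hmod'.symm
      simp only at h'
      rw [ha, hb, Nat.mul_div_cancel_left a (by omega), Nat.mul_div_cancel_left b (by omega)] at h'
      subst h'
      have := hmp.one_le
      have := hmp'.one_le
      omega
  exact_mod_cast h9

/-- the sum over the primes `m ≡ 1` modulo a prime `p`, upper bound -/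
theorem thAP_upper : ∃ C : ℝ, 0 < C ∧ ∃ Y0 : ℝ, 1 < Y0 ∧ ∀ X : ℝ, 3 ≤ X → ∀ p : ℕ, p.Prime →
    Y0 * p ≤ X → thAP X p ≤ C * (X / p) * (Real.log X / Real.log (X / p)) := by
  classical
  obtain ⟨C, hC, Y0, h⟩ := card_ap_le
  refine ⟨48 * C, by positivity, max (Y0 : ℝ) 3, lt_of_lt_of_le (by norm_num) (le_max_right _ _),
    fun X hX p hp hpX => ?_⟩
  have hX0 : 0 < X := by linarith
  have hp0 : (0 : ℝ) < p := by exact_mod_cast hp.pos
  have he : Real.exp 1 ≤ 3 := by
    have := Real.exp_one_lt_d9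
    linarith
  have he2 : 2 ≤ Real.exp 1 := by
    have := Real.add_one_le_exp (1 : ℝ)
    linarith
  set y : ℝ := X / p with hy
  have hyY0 : max (Y0 : ℝ) 3 ≤ y := by rw [hy, le_div_iff₀ hp0]; exact hpX
  have hy3 : 3 ≤ y := le_trans (le_max_right _ _) hyY0
  have hyY : (Y0 : ℝ) ≤ y := le_trans (le_max_left _ _) hyY0
  set Y : ℕ := ⌊Real.exp 1 * y⌋₊ with hY
  have hYle : (Y : ℝ) ≤ Real.exp 1 * y := Nat.floor_le (by positivity)
  have hYge : y ≤ Y := by
    have h1 := Nat.lt_floor_add_one (Real.exp 1 * y)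
    rw [← hY] at h1
    nlinarith
  have hYY0 : Y0 ≤ Y := by exact_mod_cast hyY.trans hYge
  have h1 := h Y hYY0 p hp
  have hlogy : 0 < Real.log y := Real.log_pos (by linarith)
  have hlogY : Real.log y ≤ Real.log Y := Real.log_le_log (by linarith) hYge
  have h2 : (Y : ℝ) / Real.log Y ≤ 3 * y / Real.log y := by
    apply div_le_div₀ (by positivity) _ hlogy hlogY
    nlinarith
  have hl3 : Real.log (3 * X) ≤ 2 * Real.log X := by
    rw [Real.log_mul (by norm_num) hX0.ne', two_mul]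
    apply add_le_add _ le_rfl
    exact Real.log_le_log (by norm_num) hX
  have hl30 : 0 ≤ Real.log (3 * X) := Real.log_nonneg (by linarith)
  have hlogX0 : 0 ≤ Real.log X := Real.log_nonneg (by linarith)
  have h3 := thAP_le_card (he.trans hX) hp.one_le
  rw [← hy, ← hY] at h3
  calc thAP X p ≤ 8 * Real.log (3 * X) *
      (((Icc 1 Y).filter (fun k => (p * k + 1).Prime)).card : ℝ) := h3
    _ ≤ 8 * (2 * Real.log X) * (C * (3 * y / Real.log y)) := by
        apply mul_le_mul
        · exact mul_le_mul_of_nonneg_left hl3 (by norm_num)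
        · exact h1.trans (mul_le_mul_of_nonneg_left h2 hC.le)
        · exact Nat.cast_nonneg _
        · positivity
    _ = 48 * C * y * (Real.log X / Real.log y) := by ring

end Pool.Agent.MPbca
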