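import Mathlib

set_option autoImplicit false

/-!
The analytic large sieve inequality (Gallagher's proof) at the fractions `a / p`, `p` prime.
-/

namespace Pool.Agent.MPbca

open Finset MeasureTheory

/-- the exponential `e(k t)` -/
noncomputable def ee (k : ℕ) (t : ℝ) : ℂ := Complex.exp (2 * Real.pi * Complex.I * k * t)

/-- a trigonometric polynomial -/
noncomputable def SS (N : ℕ) (x : ℕ → ℂ) (t : ℝ) : ℂ := ∑ n ∈ Icc 1 N, x n * ee n t

lemma norm_ee (k : ℕ) (t : ℝ) : ‖ee k t‖ = 1 := by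
  unfold ee
  rw [show (2 * Real.pi * Complex.I * k * t : ℂ) = ((2 * Real.pi * k * t : ℝ) : ℂ) * Complex.I by
    push_cast; ring]
  exact Complex.norm_exp_ofReal_mul_I _

lemma hasDerivAt_ee (k : ℕ) (t : ℝ) :
    HasDerivAt (ee k) (2 * Real.pi * Complex.I * k * ee k t) t := by
  unfold ee
  have h1 : HasDerivAt (fun t : ℝ => (2 * Real.pi * Complex.I * k * t : ℂ))
      (2 * Real.pi * Complex.I * k) t := by
    have := (Complex.ofRealCLM.hasDerivAt (x := t)).const_mul (2 * Real.pi * Complex.I * k : ℂ)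
    simpa using this
  have := h1.cexp
  rw [mul_comm (2 * Real.pi * Complex.I * k : ℂ)]
  exact this

lemma hasDerivAt_SS (N : ℕ) (x : ℕ → ℂ) (t : ℝ) :
    HasDerivAt (SS N x) (SS N (fun n => 2 * Real.pi * Complex.I * n * x n) t) t := by
  unfold SS
  have h := HasDerivAt.fun_sum (u := Icc 1 N) (A := fun n t => x n * ee n t)
    (A' := fun n => x n * (2 * Real.pi * Complex.I * n * ee n t)) (x := t)
    (fun n _ => (hasDerivAt_ee n t).const_mul (x n))
  have e : ∑ n ∈ Icc 1 N, x n * (2 * Real.pi * Complex.I * n * ee n t) =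
      ∑ n ∈ Icc 1 N, 2 * Real.pi * Complex.I * n * x n * ee n t :=
    Finset.sum_congr rfl fun n _ => by ring
  rw [← e]
  exact h

lemma continuous_ee (k : ℕ) : Continuous (ee k) :=
  continuous_iff_continuousAt.2 fun t => (hasDerivAt_ee k t).continuousAt

lemma continuous_SS (N : ℕ) (x : ℕ → ℂ) : Continuous (SS N x) :=
  continuous_iff_continuousAt.2 fun t => (hasDerivAt_SS N x t).continuousAt

/-- orthogonality -/
lemma integral_ee_mul (m n : ℕ) :
    ∫ t in (0 : ℝ)..1, ee m t * (starRingEnd ℂ) (ee n t) = if m = n then 1 else 0 := by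
  have h1 : ∀ t : ℝ, ee m t * (starRingEnd ℂ) (ee n t) =
      Complex.exp ((2 * Real.pi * Complex.I * ((m : ℂ) - n)) * t) := by
    intro t
    unfold ee
    rw [← Complex.exp_conj, ← Complex.exp_add]
    congr 1
    simp only [map_mul, Complex.conj_ofReal, Complex.conj_I, map_natCast, map_ofNat]
    ring
  simp_rw [h1]
  split_ifs with h
  · subst h
    simp
  · have hc : (2 * Real.pi * Complex.I * ((m : ℂ) - n)) ≠ 0 := by
      have h2 : ((m : ℂ) - n) ≠ 0 := by
        rw [sub_ne_zero]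
        exact_mod_cast h
      have := Real.pi_ne_zero
      simp [h2, this]
    rw [integral_exp_mul_complex hc]
    simp only [Complex.ofReal_one, mul_one, Complex.ofReal_zero, mul_zero, Complex.exp_zero]
    have h3 : Complex.exp (2 * Real.pi * Complex.I * ((m : ℂ) - n)) = 1 := by
      rw [Complex.exp_eq_one_iff]
      exact ⟨(m : ℤ) - n, by push_cast; ring⟩
    rw [h3]
    simp

lemma normSq_SS (N : ℕ) (x : ℕ → ℂ) (t : ℝ) :
    ((‖SS N x t‖ ^ 2 : ℝ) : ℂ) = ∑ m ∈ Icc 1 N, ∑ n ∈ Icc 1 N,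
      (x m * (starRingEnd ℂ) (x n)) * (ee m t * (starRingEnd ℂ) (ee n t)) := by
  push_cast
  rw [← Complex.mul_conj', SS, map_sum, sum_mul_sum]
  apply sum_congr rfl
  intro m _
  apply sum_congr rfl
  intro n _
  rw [map_mul]
  ring

/-- Parseval -/
lemma integral_SS (N : ℕ) (x : ℕ → ℂ) :
    ∫ t in (0 : ℝ)..1, ‖SS N x t‖ ^ 2 = ∑ n ∈ Icc 1 N, ‖x n‖ ^ 2 := by
  have h1 : ((∫ t in (0 : ℝ)..1, ‖SS N x t‖ ^ 2 : ℝ) : ℂ) =
      ∫ t in (0 : ℝ)..1, ((‖SS N x t‖ ^ 2 : ℝ) : ℂ) := by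
    rw [intervalIntegral.integral_ofReal]
  have hcont : ∀ m n : ℕ, Continuous fun t : ℝ =>
      (x m * (starRingEnd ℂ) (x n)) * (ee m t * (starRingEnd ℂ) (ee n t)) := by
    intro m n
    exact continuous_const.mul ((continuous_ee m).mul (Complex.continuous_conj.comp (continuous_ee n)))
  have h2 : ((∫ t in (0 : ℝ)..1, ‖SS N x t‖ ^ 2 : ℝ) : ℂ) =
      ((∑ n ∈ Icc 1 N, ‖x n‖ ^ 2 : ℝ) : ℂ) := by
    rw [h1]
    simp_rw [normSq_SS]
    rw [intervalIntegral.integral_finsetSum]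
    · have : ∀ m ∈ Icc 1 N, ∫ t in (0 : ℝ)..1, ∑ n ∈ Icc 1 N,
          (x m * (starRingEnd ℂ) (x n)) * (ee m t * (starRingEnd ℂ) (ee n t)) =
          ((‖x m‖ ^ 2 : ℝ) : ℂ) := by
        intro m hm
        rw [intervalIntegral.integral_finsetSum]
        · simp_rw [intervalIntegral.integral_const_mul, integral_ee_mul]
          simp only [mul_ite, mul_one, mul_zero]
          rw [Finset.sum_ite_eq, if_pos hm, Complex.mul_conj']
          push_cast
          rfl
        · intro n _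
          exact (hcont m n).intervalIntegrable _ _
      rw [sum_congr rfl this]
      push_cast
      rfl
    · intro m _
      exact (continuous_finsetSum _ fun n _ => hcont m n).intervalIntegrable _ _
  exact_mod_cast h2

/-- the coefficients of the derivative -/
noncomputable def dx (x : ℕ → ℂ) : ℕ → ℂ := fun n => 2 * Real.pi * Complex.I * n * x n

lemma norm_dx (x : ℕ → ℂ) (n : ℕ) : ‖dx x n‖ = 2 * Real.pi * n * ‖x n‖ := by
  unfold dx
  rw [norm_mul, norm_mul, norm_mul, norm_mul]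
  simp [Real.pi_pos.le]

lemma gallagher_point (N : ℕ) (x : ℕ → ℂ) {α a b : ℝ} (hab : a < b) (h1 : a ≤ α) (h2 : α ≤ b) :
    (b - a) * ‖SS N x α‖ ^ 2 ≤ (∫ t in a..b, ‖SS N x t‖ ^ 2) +
      (b - a) * ∫ t in a..b, 2 * (‖SS N x t‖ * ‖SS N (dx x) t‖) := by
  have hc1 : Continuous fun t => ‖SS N x t‖ ^ 2 := (continuous_SS N x).norm.pow 2
  have hc2 : Continuous fun t => 2 * (‖SS N x t‖ * ‖SS N (dx x) t‖) :=
    continuous_const.mul ((continuous_SS N x).norm.mul (continuous_SS N (dx x)).norm)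
  set D : ℝ := ∫ t in a..b, 2 * (‖SS N x t‖ * ‖SS N (dx x) t‖) with hD
  have hder : ∀ t, HasDerivAt (fun t => ‖SS N x t‖ ^ 2)
      (2 * Inner.inner ℝ (SS N x t) (SS N (dx x) t)) t := fun t => (hasDerivAt_SS N x t).norm_sq
  have hc3 : Continuous fun t => 2 * Inner.inner ℝ (SS N x t) (SS N (dx x) t) :=
    continuous_const.mul ((continuous_SS N x).inner (continuous_SS N (dx x)))
  have hbd : ∀ t, ‖2 * Inner.inner ℝ (SS N x t) (SS N (dx x) t)‖ ≤
      2 * (‖SS N x t‖ * ‖SS N (dx x) t‖) := by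
    intro t
    rw [norm_mul, Real.norm_eq_abs, abs_of_pos (by norm_num : (0 : ℝ) < 2)]
    exact mul_le_mul_of_nonneg_left (norm_inner_le_norm _ _) (by norm_num)
  have key : ∀ β ∈ Set.Icc a b, ‖SS N x α‖ ^ 2 ≤ ‖SS N x β‖ ^ 2 + D := by
    intro β hβ
    have h3 := intervalIntegral.integral_eq_sub_of_hasDerivAt (a := β) (b := α)
      (fun t _ => hder t) (hc3.intervalIntegrable _ _)
    have h4 : ‖∫ t in β..α, 2 * Inner.inner ℝ (SS N x t) (SS N (dx x) t)‖ ≤ D := by
      refine (intervalIntegral.norm_integral_le_integral_norm_uIoc).trans ?_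
      have h5 : ∫ t in Set.uIoc β α, ‖2 * Inner.inner ℝ (SS N x t) (SS N (dx x) t)‖ ≤
          ∫ t in Set.uIoc β α, 2 * (‖SS N x t‖ * ‖SS N (dx x) t‖) := by
        apply MeasureTheory.setIntegral_mono
        · exact hc3.norm.integrableOn_uIoc
        · exact hc2.integrableOn_uIoc
        · exact hbd
      refine h5.trans ?_
      rw [hD, intervalIntegral.integral_of_le hab.le]
      apply MeasureTheory.setIntegral_mono_set
      · exact hc2.integrableOn_Ioc
      · exact Filter.Eventually.of_forall fun t => by positivity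
      · apply LE.le.eventuallyLE
        intro t ht
        rw [Set.mem_uIoc] at ht
        rcases ht with ht | ht
        · exact ⟨lt_of_le_of_lt hβ.1 ht.1, ht.2.trans h2⟩
        · exact ⟨lt_of_le_of_lt h1 ht.1, ht.2.trans hβ.2⟩
    rw [h3, Real.norm_eq_abs] at h4
    have := (abs_le.1 h4).2
    linarith
  have h6 : ∫ _t in a..b, ‖SS N x α‖ ^ 2 ≤ ∫ t in a..b, (‖SS N x t‖ ^ 2 + D) := by
    apply intervalIntegral.integral_mono_on hab.le
    · exact continuous_const.intervalIntegrable _ _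
    · exact (hc1.add continuous_const).intervalIntegrable _ _
    · exact key
  rw [intervalIntegral.integral_add (hc1.intervalIntegrable _ _)
    (continuous_const.intervalIntegrable _ _), intervalIntegral.integral_const,
    intervalIntegral.integral_const, smul_eq_mul, smul_eq_mul] at h6
  exact h6

lemma sum_integral_le {ι : Type*} (I : Finset ι) (pt : ι → ℝ) {δ : ℝ} (hδ : 0 < δ)
    (hsep : ∀ i ∈ I, ∀ j ∈ I, i ≠ j → δ ≤ |pt i - pt j|)
    (hin : ∀ i ∈ I, δ / 2 ≤ pt i ∧ pt i ≤ 1 - δ / 2) (G : ℝ → ℝ) (hG : Continuous G)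
    (hG0 : ∀ t, 0 ≤ G t) :
    ∑ i ∈ I, ∫ t in (pt i - δ / 2)..(pt i + δ / 2), G t ≤ ∫ t in (0 : ℝ)..1, G t := by
  have e1 : ∀ i ∈ I, ∫ t in (pt i - δ / 2)..(pt i + δ / 2), G t =
      ∫ t in Set.Ioc (pt i - δ / 2) (pt i + δ / 2), G t := by
    intro i _
    rw [intervalIntegral.integral_of_le (by linarith)]
  rw [sum_congr rfl e1, ← MeasureTheory.integral_biUnion_finset, intervalIntegral.integral_of_le
    (by norm_num)]
  · apply MeasureTheory.setIntegral_mono_set
    · exact hG.integrableOn_Ioc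
    · exact Filter.Eventually.of_forall hG0
    · apply LE.le.eventuallyLE
      intro t ht
      rw [Set.mem_iUnion₂] at ht
      obtain ⟨i, hi, ht1, ht2⟩ := ht
      have := hin i hi
      exact ⟨by linarith, by linarith⟩
  · intro i _
    exact measurableSet_Ioc
  · intro i hi j hj hij
    show Disjoint (Set.Ioc (pt i - δ / 2) (pt i + δ / 2)) (Set.Ioc (pt j - δ / 2) (pt j + δ / 2))
    rw [Set.disjoint_left]
    rintro t ⟨a1, a2⟩ ⟨b1, b2⟩
    have := hsep i hi j hj hij
    have h3 : |pt i - pt j| < δ := by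
      rw [abs_lt]
      constructor <;> linarith
    linarith
  · intro i _
    exact hG.integrableOn_Ioc

/-- the large sieve at well spaced points -/
theorem large_sieve_points {ι : Type*} (I : Finset ι) (pt : ι → ℝ) {δ : ℝ} (hδ : 0 < δ)
    (hsep : ∀ i ∈ I, ∀ j ∈ I, i ≠ j → δ ≤ |pt i - pt j|)
    (hin : ∀ i ∈ I, δ / 2 ≤ pt i ∧ pt i ≤ 1 - δ / 2) (N : ℕ) (x : ℕ → ℂ) :
    ∑ i ∈ I, ‖SS N x (pt i)‖ ^ 2 ≤ (δ⁻¹ + 4 * Real.pi * N) * ∑ n ∈ Icc 1 N, ‖x n‖ ^ 2 := by
  rcases Nat.eq_zero_or_pos N with hN | hN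
  · subst hN
    simp [SS]
  have hN' : (0 : ℝ) < N := by exact_mod_cast hN
  have hc1 : Continuous fun t => ‖SS N x t‖ ^ 2 := (continuous_SS N x).norm.pow 2
  have hc1' : Continuous fun t => ‖SS N (dx x) t‖ ^ 2 := (continuous_SS N (dx x)).norm.pow 2
  have hc2 : Continuous fun t => 2 * (‖SS N x t‖ * ‖SS N (dx x) t‖) :=
    continuous_const.mul ((continuous_SS N x).norm.mul (continuous_SS N (dx x)).norm)
  set Sx : ℝ := ∑ n ∈ Icc 1 N, ‖x n‖ ^ 2 with hSx
  have h1 : ∀ i ∈ I, ‖SS N x (pt i)‖ ^ 2 ≤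
      δ⁻¹ * (∫ t in (pt i - δ / 2)..(pt i + δ / 2), ‖SS N x t‖ ^ 2) +
        ∫ t in (pt i - δ / 2)..(pt i + δ / 2), 2 * (‖SS N x t‖ * ‖SS N (dx x) t‖) := by
    intro i _
    have := gallagher_point N x (α := pt i) (a := pt i - δ / 2) (b := pt i + δ / 2)
      (by linarith) (by linarith) (by linarith)
    rw [show pt i + δ / 2 - (pt i - δ / 2) = δ by ring] at this
    have h2 := mul_le_mul_of_nonneg_left this (inv_pos.2 hδ).le
    rw [← mul_assoc, inv_mul_cancel₀ hδ.ne', one_mul, mul_add, ← mul_assoc δ⁻¹ δ,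
      inv_mul_cancel₀ hδ.ne', one_mul] at h2
    exact h2
  have h2 := sum_integral_le I pt hδ hsep hin _ hc1 (fun t => by positivity)
  have h3 := sum_integral_le I pt hδ hsep hin _ hc2 (fun t => by positivity)
  rw [integral_SS] at h2
  have h4 : ∫ t in (0 : ℝ)..1, 2 * (‖SS N x t‖ * ‖SS N (dx x) t‖) ≤ 4 * Real.pi * N * Sx := by
    set l : ℝ := 2 * Real.pi * N with hl
    have hl0 : 0 < l := by have := Real.pi_pos; positivity
    have hk1 : Continuous fun t => l * ‖SS N x t‖ ^ 2 := continuous_const.mul hc1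
    have hk2 : Continuous fun t => l⁻¹ * ‖SS N (dx x) t‖ ^ 2 := continuous_const.mul hc1'
    have h5 : ∫ t in (0 : ℝ)..1, 2 * (‖SS N x t‖ * ‖SS N (dx x) t‖) ≤
        ∫ t in (0 : ℝ)..1, (l * ‖SS N x t‖ ^ 2 + l⁻¹ * ‖SS N (dx x) t‖ ^ 2) := by
      apply intervalIntegral.integral_mono_on (by norm_num)
      · exact hc2.intervalIntegrable _ _
      · exact (hk1.add hk2).intervalIntegrable _ _
      · intro t _
        have h6 : 0 ≤ l⁻¹ * (l * ‖SS N x t‖ - ‖SS N (dx x) t‖) ^ 2 := by positivity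
        have h7 : l⁻¹ * (l * ‖SS N x t‖ - ‖SS N (dx x) t‖) ^ 2 =
            l * ‖SS N x t‖ ^ 2 + l⁻¹ * ‖SS N (dx x) t‖ ^ 2 -
              2 * (‖SS N x t‖ * ‖SS N (dx x) t‖) := by
          field_simp
          ring
        linarith
    refine h5.trans ?_
    rw [intervalIntegral.integral_add (hk1.intervalIntegrable _ _) (hk2.intervalIntegrable _ _),
      intervalIntegral.integral_const_mul, intervalIntegral.integral_const_mul, integral_SS,
      integral_SS, ← hSx]
    have h8 : ∑ n ∈ Icc 1 N, ‖dx x n‖ ^ 2 ≤ l ^ 2 * Sx := by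
      rw [hSx, mul_sum]
      apply sum_le_sum
      intro n hn
      rw [norm_dx, mul_pow]
      apply mul_le_mul_of_nonneg_right _ (by positivity)
      rw [hl]
      have : (n : ℝ) ≤ N := by exact_mod_cast (mem_Icc.1 hn).2
      have := Real.pi_pos
      gcongr
    have h9 : l⁻¹ * ∑ n ∈ Icc 1 N, ‖dx x n‖ ^ 2 ≤ l⁻¹ * (l ^ 2 * Sx) :=
      mul_le_mul_of_nonneg_left h8 (by positivity)
    have h10 : l⁻¹ * (l ^ 2 * Sx) = l * Sx := by field_simp
    rw [h10] at h9
    calc _ ≤ l * Sx + l * Sx := by linarith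
      _ = _ := by rw [hl]; ring
  refine (sum_le_sum h1).trans ?_
  rw [sum_add_distrib, ← mul_sum, add_mul]
  apply add_le_add
  · exact mul_le_mul_of_nonneg_left h2 (by positivity)
  · exact h3.trans h4

end Pool.Agent.MPbca
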