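import Mathlib

set_option autoImplicit false

/-!
A lower bound for the sum of the reciprocals of the primes.
-/

namespace Pool.Agent.MPbca

open Finset

lemma sum_inv_sq_le (N : ℕ) : ∑ n ∈ Icc 2 N, (1 : ℝ) / (n : ℝ) ^ 2 ≤ 1 := by
  have key : ∀ N : ℕ, ∑ n ∈ Icc 2 (N + 1), (1 : ℝ) / (n : ℝ) ^ 2 ≤ 1 - 1 / ((N : ℝ) + 1) := by
    intro N
    induction N with
    | zero => simp
    | succ N ih =>
      rw [Finset.sum_Icc_succ_top (by omega)]
      have h1 : (1 : ℝ) / ((N + 1 + 1 : ℕ) : ℝ) ^ 2 ≤ 1 / ((N : ℝ) + 1) - 1 / ((N : ℝ) + 1 + 1) := by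
        push_cast
        rw [div_sub_div _ _ (by positivity) (by positivity), div_le_div_iff₀ (by positivity)
          (by positivity)]
        nlinarith [Nat.cast_nonneg (α := ℝ) N]
      push_cast at ih h1 ⊢
      linarith
  rcases Nat.eq_zero_or_pos N with h | h
  · subst h; simp
  · obtain ⟨M, rfl⟩ : ∃ M, N = M + 1 := ⟨N - 1, by omega⟩
    refine (key M).trans ?_
    have : (0 : ℝ) ≤ 1 / ((M : ℝ) + 1) := by positivity
    linarith

/-- the inverse as a monoid homomorphism -/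
noncomputable def invHom : ℕ →* ℝ where
  toFun n := (n : ℝ)⁻¹
  map_one' := by simp
  map_mul' a b := by push_cast; rw [mul_inv]

lemma log_le_prod (N : ℕ) (hN : 1 ≤ N) :
    Real.log N ≤ ∏ p ∈ (N + 1).primesBelow, (1 - (p : ℝ)⁻¹)⁻¹ := by
  have h1 := (EulerProduct.summable_and_hasSum_smoothNumbers_prod_primesBelow_geometric
    (f := invHom) (by
      intro p hp
      show ‖((p : ℝ)⁻¹)‖ < 1
      rw [norm_inv, Real.norm_natCast]
      exact inv_lt_one_of_one_lt₀ (by exact_mod_cast hp.one_lt)) (N + 1)).2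
  have h2 : ∑ m ∈ Icc 1 N, (m : ℝ)⁻¹ ≤ ∏ p ∈ (N + 1).primesBelow, (1 - (p : ℝ)⁻¹)⁻¹ := by
    have hmem : ∀ m : ℕ, m ∈ Icc 1 N → m ∈ (N + 1).smoothNumbers := by
      intro m hm
      rw [mem_Icc] at hm
      exact Nat.mem_smoothNumbers_of_lt (by omega) (by omega)
    have h3 := sum_le_hasSum ((Icc 1 N).attach.map
      ⟨fun m => (⟨m.1, hmem m.1 m.2⟩ : (N + 1).smoothNumbers), by
        intro a b hab
        simp only [Subtype.mk.injEq] at hab
        exact Subtype.ext hab⟩) (fun m _ => by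
          show (0 : ℝ) ≤ ((m : ℕ) : ℝ)⁻¹
          positivity) h1
    rw [Finset.sum_map] at h3
    have h4 : ∑ x ∈ (Icc 1 N).attach, ((x.1 : ℕ) : ℝ)⁻¹ = ∑ m ∈ Icc 1 N, (m : ℝ)⁻¹ :=
      Finset.sum_attach (Icc 1 N) (fun m => ((m : ℕ) : ℝ)⁻¹)
    rw [← h4]
    exact h3
  refine le_trans ?_ h2
  have h5 := log_add_one_le_harmonic N
  rw [harmonic_eq_sum_Icc] at h5
  push_cast at h5
  refine le_trans ?_ h5
  apply Real.log_le_log
  · exact_mod_cast hN
  · linarith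

/-- a form of Mertens' theorem -/
theorem sum_inv_prime_ge (N : ℕ) (hN : 2 ≤ N) :
    Real.log (Real.log N) - 2 ≤ ∑ p ∈ (Icc 1 N).filter Nat.Prime, (1 : ℝ) / p := by
  have hset : (N + 1).primesBelow = (Icc 1 N).filter Nat.Prime := by
    ext p
    rw [Nat.mem_primesBelow, mem_filter, mem_Icc]
    constructor
    · rintro ⟨h1, h2⟩
      exact ⟨⟨h2.one_le, by omega⟩, h2⟩
    · rintro ⟨h1, h2⟩
      exact ⟨by omega, h2⟩
  have h1 := log_le_prod N (by omega)
  rw [hset] at h1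
  have hlog : 0 < Real.log N := Real.log_pos (by exact_mod_cast hN)
  have h2 : ∏ p ∈ (Icc 1 N).filter Nat.Prime, (1 - (p : ℝ)⁻¹)⁻¹ ≤
      Real.exp (∑ p ∈ (Icc 1 N).filter Nat.Prime, ((1 : ℝ) / p + 2 * (1 / (p : ℝ) ^ 2))) := by
    rw [Real.exp_sum]
    apply Finset.prod_le_prod
    · intro p hp
      have hp2 : (2 : ℝ) ≤ p := by exact_mod_cast (mem_filter.1 hp).2.two_le
      have : (p : ℝ)⁻¹ ≤ 1 := inv_le_one_of_one_le₀ (by linarith)
      have : 0 ≤ 1 - (p : ℝ)⁻¹ := by linarith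
      positivity
    · intro p hp
      have hp2 : (2 : ℝ) ≤ p := by exact_mod_cast (mem_filter.1 hp).2.two_le
      have hp0 : (0 : ℝ) < p := by linarith
      have h3 : (1 - (p : ℝ)⁻¹)⁻¹ = 1 + 1 / ((p : ℝ) - 1) := by
        have : (p : ℝ) - 1 ≠ 0 := by linarith
        field_simp
        ring
      rw [h3]
      have h4 : 1 / ((p : ℝ) - 1) ≤ 1 / p + 2 * (1 / (p : ℝ) ^ 2) := by
        have h5 : 1 / (p : ℝ) + 2 * (1 / (p : ℝ) ^ 2) = (p + 2) / (p : ℝ) ^ 2 := by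
          field_simp
        rw [h5, div_le_div_iff₀ (by linarith) (by positivity)]
        nlinarith
      have h6 := Real.add_one_le_exp (1 / (p : ℝ) + 2 * (1 / (p : ℝ) ^ 2))
      linarith
  have h3 := h1.trans h2
  rw [← Real.log_le_iff_le_exp hlog] at h3
  rw [sum_add_distrib, ← mul_sum] at h3
  have h4 : ∑ p ∈ (Icc 1 N).filter Nat.Prime, (1 : ℝ) / (p : ℝ) ^ 2 ≤ 1 := by
    refine le_trans ?_ (sum_inv_sq_le N)
    apply sum_le_sum_of_subset_of_nonneg
    · intro p hp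
      rw [mem_filter, mem_Icc] at hp
      rw [mem_Icc]
      exact ⟨hp.2.two_le, hp.1.2⟩
    · intro _ _ _
      positivity
  linarith

end Pool.Agent.MPbca
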