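import Pool.Agent.Lib.MP_bca3e5_nt.Ded
import Pool.Agent.Lib.MP_89da58_nt.Large
import Pool.Agent.Lib.MP_89da58_nt.Bv

set_option autoImplicit false

/-!
From weighted sums over primes in progressions to counting `a ≤ H` with `a n + 1` prime.
-/

namespace Pool.Agent.MPbca

open Finset ArithmeticFunction Filter
open Pool.Agent.MP89da58 (tri cX Om psiAP psiX Om_nonneg Om_le Om_eq_zero_of_large psiX_lower)

/-- the contribution of the proper prime powers -/
lemma nonprime_sum_le {X : ℝ} (hX : 1 ≤ X) (S : Finset ℕ) (hS : S ⊆ Icc 1 ⌊3 * X⌋₊) :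
    ∑ m ∈ S.filter (fun m => ¬ m.Prime), vonMangoldt m ≤ 2 * Real.sqrt (3 * X) * Real.log (3 * X) := by
  have h1 := Chebyshev.psi_sub_theta_le (x := 3 * X) (by linarith)
  rw [Chebyshev.psi_sub_theta_eq_sum_not_prime] at h1
  refine le_trans ?_ h1
  apply sum_le_sum_of_subset_of_nonneg
  · intro m hm
    rw [mem_filter] at hm
    have := mem_Icc.1 (hS hm.1)
    rw [mem_filter, mem_Ioc]
    exact ⟨⟨by omega, this.2⟩, hm.2⟩
  · intro _ _ _
    exact vonMangoldt_nonneg

lemma psiAP_le_cnt {X : ℝ} (hX : Real.exp 1 ≤ X) {n H : ℕ} (hn : 2 ≤ n)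
    (hH : Real.exp 1 * X ≤ (n : ℝ) * H) :
    psiAP X n 1 ≤ 8 * Real.log (3 * X) * cnt n H +
      16 * Real.sqrt (3 * X) * Real.log (3 * X) := by
  classical
  have hX0 : 0 < X := lt_of_lt_of_le (Real.exp_pos 1) hX
  have hX1 : 1 ≤ X := le_trans (Real.one_le_exp (by norm_num)) hX
  have hlogX : 1 ≤ Real.log X := (Real.le_log_iff_exp_le hX0).2 hX
  have hl3 : 0 ≤ Real.log (3 * X) := Real.log_nonneg (by linarith)
  set S := (Icc 1 ⌊3 * X⌋₊).filter (fun m => m ≡ 1 [MOD n]) with hS
  have hsub : S ⊆ Icc 1 ⌊3 * X⌋₊ := filter_subset _ _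
  unfold psiAP
  rw [← hS, ← Finset.sum_filter_add_sum_filter_not S (fun m => m.Prime)]
  apply add_le_add
  · have h1 : ∀ m ∈ S.filter (fun m => m.Prime), vonMangoldt m * Om X m ≤
        if (m : ℝ) < Real.exp 1 * X then 8 * Real.log (3 * X) else 0 := by
      intro m hm
      rw [mem_filter] at hm
      have hm1 := mem_Icc.1 (hsub hm.1)
      have hm0 : (0 : ℝ) < m := by exact_mod_cast hm1.1
      split_ifs with h
      · have h2 : vonMangoldt m ≤ Real.log (3 * X) := by
          refine vonMangoldt_le_log.trans ?_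
          apply Real.log_le_log hm0
          exact (Nat.le_floor_iff (by positivity)).1 hm1.2
        have h3 := Om_le hX0.le hlogX m
        have h4 := Om_nonneg hX0.le m
        have h5 : 0 ≤ vonMangoldt m := vonMangoldt_nonneg
        nlinarith
      · rw [Om_eq_zero_of_large hX0 (not_lt.1 h), mul_zero]
    refine (sum_le_sum h1).trans ?_
    rw [← sum_filter, sum_const, nsmul_eq_mul, mul_comm]
    apply mul_le_mul_of_nonneg_left _ (by positivity)
    have h6 : ((S.filter (fun m => m.Prime)).filter (fun m : ℕ => (m : ℝ) < Real.exp 1 * X)).card ≤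
        cnt n H := by
      unfold cnt
      apply Finset.card_le_card_of_injOn (fun m => (m - 1) / n)
      · intro m hm
        simp only [coe_filter, mem_filter, Set.mem_ofPred_eq] at hm
        obtain ⟨⟨hmS, hmp⟩, hme⟩ := hm
        rw [hS, mem_filter] at hmS
        have hdvd : n ∣ m - 1 := (Nat.modEq_iff_dvd' hmp.one_le).1 hmS.2.symm
        obtain ⟨a, ha⟩ := hdvd
        have hm2 := hmp.two_le
        have ha1 : 1 ≤ a := by
          rcases Nat.eq_zero_or_pos a with h | h
          · subst h; omega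
          · exact h
        have hmeq : m = a * n + 1 := by
          rw [mul_comm] at ha
          omega
        have hdiv : (m - 1) / n = a := by
          rw [ha, Nat.mul_div_cancel_left a (by omega)]
        simp only [coe_filter, mem_Icc, Set.mem_ofPred_eq]
        rw [hdiv]
        refine ⟨⟨ha1, ?_⟩, ?_⟩
        · have h7 : (a : ℝ) * n < n * H := by
            have : (m : ℝ) = a * n + 1 := by exact_mod_cast hmeq
            linarith
          have h8 : a * n < n * H := by exact_mod_cast h7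
          have h9 : n * a < n * H := by rw [mul_comm n a]; exact h8
          exact (Nat.lt_of_mul_lt_mul_left h9).le
        · rw [← hmeq]; exact hmp
      · intro m hm m' hm' h
        simp only [coe_filter, mem_filter, Set.mem_ofPred_eq] at hm hm'
        obtain ⟨⟨hmS, hmp⟩, _⟩ := hm
        obtain ⟨⟨hmS', hmp'⟩, _⟩ := hm'
        rw [hS, mem_filter] at hmS hmS'
        obtain ⟨a, ha⟩ := (Nat.modEq_iff_dvd' hmp.one_le).1 hmS.2.symm
        obtain ⟨b, hb⟩ := (Nat.modEq_iff_dvd' hmp'.one_le).1 hmS'.2.symm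
        simp only at h
        rw [ha, hb, Nat.mul_div_cancel_left a (by omega), Nat.mul_div_cancel_left b (by omega)] at h
        subst h
        have := hmp.one_le
        have := hmp'.one_le
        omega
    exact_mod_cast h6
  · have h1 : ∀ m ∈ S.filter (fun m => ¬ m.Prime), vonMangoldt m * Om X m ≤ vonMangoldt m * 8 := by
      intro m _
      exact mul_le_mul_of_nonneg_left (Om_le hX0.le hlogX m) vonMangoldt_nonneg
    refine (sum_le_sum h1).trans ?_
    rw [← sum_mul]
    have := nonprime_sum_le hX1 S hsub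
    linarith

/-- many primes in a window -/
lemma card_window : ∃ X0 : ℕ, ∀ x : ℕ, X0 ≤ x → ∀ R0 : ℕ, (R0 : ℝ) ≤ x / 8 + 1 →
    (x : ℝ) / (4 * Real.log x) ≤ (((Ioc R0 x).filter Nat.Prime).card : ℝ) := by
  have h1 : ∀ᶠ x : ℕ in atTop, Real.log ((x : ℝ) + 1) + 2 * Real.sqrt x * Real.log x + 2 ≤ x / 8 := by
    have e1 : ∀ᶠ x : ℝ in atTop, Real.log x ≤ 1 / 64 * x ^ (1 / 2 : ℝ) := by
      have h := (isLittleO_log_rpow_atTop (show (0 : ℝ) < 1 / 2 by norm_num)).def
        (show (0 : ℝ) < 1 / 64 by norm_num)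
      filter_upwards [h, eventually_ge_atTop 1] with x hx hx1
      rwa [Real.norm_of_nonneg (Real.log_nonneg hx1), Real.norm_of_nonneg (by positivity)] at hx
    have e2 := (tendsto_natCast_atTop_atTop (R := ℝ)).eventually e1
    filter_upwards [e2, eventually_ge_atTop 400] with x hx hx4
    have hx0 : (400 : ℝ) ≤ x := by exact_mod_cast hx4
    rw [← Real.sqrt_eq_rpow] at hx
    have hs : Real.sqrt x * Real.sqrt x = x := Real.mul_self_sqrt (by linarith)
    have hs20 : 20 ≤ Real.sqrt x := by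
      apply Real.le_sqrt_of_sq_le
      norm_num
      linarith
    have hl : Real.log ((x : ℝ) + 1) ≤ Real.log x + 1 := by
      rw [show (x : ℝ) + 1 = x * (1 + 1 / x) by field_simp]
      rw [Real.log_mul (by positivity) (by positivity)]
      have := Real.log_le_sub_one_of_pos (show 0 < 1 + 1 / (x : ℝ) by positivity)
      have h3 : 1 / (x : ℝ) ≤ 1 := by
        rw [div_le_one (by linarith)]; linarith
      linarith
    nlinarith
  obtain ⟨X0, hX0⟩ := eventually_atTop.1 h1
  refine ⟨max X0 3, fun x hx R0 hR0 => ?_⟩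
  have h2 := hX0 x (le_trans (le_max_left _ _) hx)
  have hx3 : 3 ≤ x := le_trans (le_max_right _ _) hx
  have hx3' : (3 : ℝ) ≤ x := by exact_mod_cast hx3
  have hlog : 0 < Real.log x := Real.log_pos (by linarith)
  have h3 := Chebyshev.theta_ge x
  have h4 := Chebyshev.theta_le_log4_mul_x (x := (R0 : ℝ)) (Nat.cast_nonneg _)
  have hlog4 : Real.log 4 = 2 * Real.log 2 := by
    rw [show (4 : ℝ) = 2 ^ 2 by norm_num, Real.log_pow]
    norm_num
  have h5 : Chebyshev.theta x ≤ Chebyshev.theta R0 +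
      (((Ioc R0 x).filter Nat.Prime).card : ℝ) * Real.log x := by
    unfold Chebyshev.theta
    rw [Nat.floor_natCast, Nat.floor_natCast]
    have e1 : (Ioc 0 x).filter Nat.Prime ⊆ (Ioc 0 R0).filter Nat.Prime ∪ (Ioc R0 x).filter Nat.Prime := by
      intro p hp
      rw [mem_filter, mem_Ioc] at hp
      rw [mem_union, mem_filter, mem_filter, mem_Ioc, mem_Ioc]
      by_cases h : p ≤ R0
      · left; exact ⟨⟨hp.1.1, h⟩, hp.2⟩
      · right; exact ⟨⟨by omega, hp.1.2⟩, hp.2⟩
    have hlognn : ∀ p : ℕ, 0 ≤ Real.log (p : ℝ) := fun p => Real.log_natCast_nonneg p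
    refine (sum_le_sum_of_subset_of_nonneg e1 fun _ _ _ => hlognn _).trans ?_
    have e2 := Finset.sum_union_inter (s₁ := (Ioc 0 R0).filter Nat.Prime)
      (s₂ := (Ioc R0 x).filter Nat.Prime) (f := fun p : ℕ => Real.log (p : ℝ))
    have e3 : 0 ≤ ∑ p ∈ (Ioc 0 R0).filter Nat.Prime ∩ (Ioc R0 x).filter Nat.Prime,
        Real.log (p : ℝ) := sum_nonneg fun _ _ => hlognn _
    have e4 : ∑ p ∈ (Ioc R0 x).filter Nat.Prime, Real.log (p : ℝ) ≤
        (((Ioc R0 x).filter Nat.Prime).card : ℝ) * Real.log x := by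
      rw [← nsmul_eq_mul]
      apply Finset.sum_le_card_nsmul
      intro p hp
      rw [mem_filter, mem_Ioc] at hp
      apply Real.log_le_log
      · exact_mod_cast hp.2.pos
      · exact_mod_cast hp.1.2
    linarith
  have h6 := Real.log_two_gt_d9
  have h7 := Real.log_two_lt_d9
  rw [hlog4] at h4
  have h8 : 2 * Real.log 2 * (R0 : ℝ) ≤ 2 * Real.log 2 * (x / 8 + 1) :=
    mul_le_mul_of_nonneg_left hR0 (by positivity)
  have h9 : (x : ℝ) / 4 ≤ (((Ioc R0 x).filter Nat.Prime).card : ℝ) * Real.log x := by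
    nlinarith
  rw [div_le_iff₀ (by positivity)]
  linarith

end Pool.Agent.MPbca
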