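import Pool.Agent.Lib.MP_bca3e5_nt.Mom2

set_option autoImplicit false

/-!
From the average over `a ≤ H` to a positive proportion of the sets `A`.
-/

namespace Pool.Agent.MPbca

open Finset

/-- the number of `a ≤ H` with `a n + 1` prime -/
def cnt (n H : ℕ) : ℕ := ((Icc 1 H).filter (fun a => (a * n + 1).Prime)).card

/-- the primes up to `x` -/
def Px (x : ℕ) : Finset ℕ := (Icc 1 x).filter Nat.Prime

lemma sum_NA (s H x : ℕ) : ∑ A ∈ (Icc 1 H).powersetCard s, NA A x =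
    ∑ n ∈ Px x, (cnt n H).choose s := by
  classical
  have h1 : ∀ A ∈ (Icc 1 H).powersetCard s, NA A x =
      ∑ n ∈ Px x, if A ⊆ (Icc 1 H).filter (fun a => (a * n + 1).Prime) then 1 else 0 := by
    intro A hA
    rw [mem_powersetCard] at hA
    rw [← Finset.card_filter]
    unfold NA Px
    rw [Finset.filter_filter]
    congr 1
    apply Finset.filter_congr
    intro n _
    constructor
    · rintro ⟨h1, h2⟩
      exact ⟨h1, fun a ha => mem_filter.2 ⟨hA.1 ha, h2 a ha⟩⟩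
    · rintro ⟨h1, h2⟩
      exact ⟨h1, fun a ha => (mem_filter.1 (h2 ha)).2⟩
  rw [sum_congr rfl h1, sum_comm]
  apply sum_congr rfl
  intro n _
  rw [← Finset.card_filter]
  unfold cnt
  rw [← Finset.card_powersetCard]
  congr 1
  ext A
  rw [mem_filter, mem_powersetCard, mem_powersetCard]
  constructor
  · rintro ⟨⟨_, h2⟩, h3⟩
    exact ⟨h3, h2⟩
  · rintro ⟨h1, h2⟩
    exact ⟨⟨h1.trans (filter_subset _ _), h2⟩, h1⟩

/-- Chebyshev's upper bound -/
lemma card_Px : ∃ C : ℝ, 0 < C ∧ ∃ X0 : ℕ, ∀ X : ℕ, X0 ≤ X →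
    ((Px X).card : ℝ) ≤ C * (X / Real.log X) := by
  obtain ⟨C, hC, X0, h⟩ := NA_upper 0
  refine ⟨C, hC, X0, fun X hX => ?_⟩
  have h1 := h X hX ∅ (by simp) (by simp)
  have h2 : NA ∅ X = (Px X).card := by
    unfold NA Px
    simp
  have h3 : Bad ∅ = ∅ := by
    unfold Bad
    simp
  rw [h2, h3] at h1
  simpa using h1

/-- from the average over `a` to a positive proportion of the sets `A` -/
theorem deduce {s : ℕ} (hs : 1 ≤ s) {c1 : ℝ} (hc1 : 0 < c1) : ∃ c : ℝ, 0 < c ∧ ∃ X0 : ℕ,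
    ∀ X : ℕ, X0 ≤ X → ∀ H : ℕ, (Real.log X) ^ 2 ≤ (H : ℝ) →
    c1 * (X * H / (Real.log X) ^ 2) ≤ ∑ n ∈ Px X, (cnt n H : ℝ) →
    c * (H : ℝ) ^ s ≤ ((((Icc 1 H).powersetCard s).filter
      (fun A => c * (X / (Real.log X) ^ (s + 1)) ≤ (NA A X : ℝ))).card : ℝ) := by
  classical
  obtain ⟨C2, hC2, X2, hX2⟩ := card_Px
  obtain ⟨C3, hC3, X3, hX3⟩ := NA_upper s
  obtain ⟨C4, hC4, hmom⟩ := moment hs (R := 2 * (s + 1 : ℕ)) (by positivity)
  set c3 : ℝ := (c1 / 2) ^ s / (s.factorial * C2 ^ (s - 1)) with hc3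
  have hfac : (0 : ℝ) < s.factorial := by exact_mod_cast Nat.factorial_pos s
  have hc3pos : 0 < c3 := by positivity
  set C5 : ℝ := C3 ^ 2 * C4 with hC5
  have hC5pos : 0 < C5 := by positivity
  set c : ℝ := min (c3 / 2) (c3 ^ 2 / (4 * C5)) with hc
  have hcpos : 0 < c := lt_min (by positivity) (by positivity)
  have hlogbig : ∀ᶠ X : ℕ in Filter.atTop, max 1 (2 * s * C2 / c1) ≤ Real.log X :=
    (Real.tendsto_log_atTop.comp tendsto_natCast_atTop_atTop).eventually_ge_atTop _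
  obtain ⟨X4, hX4⟩ := Filter.eventually_atTop.1 hlogbig
  refine ⟨c, hcpos, max (max X2 X3) X4, fun X hX H hH hsum => ?_⟩
  have hP := hX2 X (le_trans (le_trans (le_max_left _ _) (le_max_left _ _)) hX)
  have hNA := hX3 X (le_trans (le_trans (le_max_right _ _) (le_max_left _ _)) hX)
  have hL := hX4 X (le_trans (le_max_right _ _) hX)
  have hL1 : 1 ≤ Real.log X := le_trans (le_max_left _ _) hL
  have hL2 : 2 * s * C2 / c1 ≤ Real.log X := le_trans (le_max_right _ _) hL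
  set L := Real.log X with hLdef
  have hL0 : 0 < L := by linarith
  have hX0 : (0 : ℝ) < X := by
    rcases Nat.eq_zero_or_pos X with h | h
    · subst h; simp at hLdef; linarith
    · exact_mod_cast h
  have hH0 : (0 : ℝ) < H := lt_of_lt_of_le (by positivity) hH
  have hH1 : 1 ≤ H := by
    have : 0 < H := by exact_mod_cast hH0
    omega
  set Y : ℝ := X / L ^ (s + 1) with hY
  have hYpos : 0 < Y := by positivity
  -- the first moment
  have hfirst : c3 * (H : ℝ) ^ s * Y ≤ ∑ A ∈ (Icc 1 H).powersetCard s, (NA A X : ℝ) := by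
    have e1 : ∑ A ∈ (Icc 1 H).powersetCard s, (NA A X : ℝ) =
        ∑ n ∈ Px X, ((cnt n H).choose s : ℝ) := by
      exact_mod_cast sum_NA s H X
    rw [e1]
    have e2 : ∀ n ∈ Px X, (((cnt n H - s : ℕ) : ℝ)) ^ s / s.factorial ≤ ((cnt n H).choose s : ℝ) := by
      intro n _
      rw [div_le_iff₀ hfac]
      have h1 : (cnt n H - s) ^ s ≤ (cnt n H).choose s * s.factorial := by
        have h2 := Nat.pow_sub_le_descFactorial (cnt n H) s
        rw [Nat.descFactorial_eq_factorial_mul_choose] at h2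
        calc (cnt n H - s) ^ s ≤ (cnt n H + 1 - s) ^ s := Nat.pow_le_pow_left (by omega) s
          _ ≤ _ := by rw [mul_comm]; exact h2
      exact_mod_cast h1
    refine le_trans ?_ (sum_le_sum e2)
    rw [← sum_div]
    obtain ⟨t, rfl⟩ : ∃ t, s = t + 1 := ⟨s - 1, by omega⟩
    have e3 := pow_sum_div_card_le_sum_pow (s := Px X) (f := fun n => ((cnt n H - (t + 1) : ℕ) : ℝ))
      (fun _ _ => Nat.cast_nonneg _) t
    have e4 : c1 / 2 * (X * H / L ^ 2) ≤ ∑ n ∈ Px X, ((cnt n H - (t + 1) : ℕ) : ℝ) := by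
      have h1 : ∑ n ∈ Px X, ((cnt n H : ℝ) - (t + 1 : ℕ)) ≤
          ∑ n ∈ Px X, ((cnt n H - (t + 1) : ℕ) : ℝ) := by
        apply sum_le_sum
        intro n _
        have : cnt n H ≤ (cnt n H - (t + 1)) + (t + 1) := by omega
        have h2 : (cnt n H : ℝ) ≤ ((cnt n H - (t + 1) : ℕ) : ℝ) + ((t + 1 : ℕ) : ℝ) := by
          exact_mod_cast this
        linarith
      refine le_trans ?_ h1
      rw [sum_sub_distrib, sum_const, nsmul_eq_mul]
      have h2 : ((Px X).card : ℝ) * (t + 1 : ℕ) ≤ c1 / 2 * (X * H / L ^ 2) := by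
        have h3 : ((Px X).card : ℝ) * (t + 1 : ℕ) ≤ C2 * (X / L) * (t + 1 : ℕ) :=
          mul_le_mul_of_nonneg_right hP (by positivity)
        refine h3.trans ?_
        have h4 : 2 * ((t + 1 : ℕ) : ℝ) * C2 ≤ c1 * L := by
          rw [div_le_iff₀ hc1] at hL2
          linarith
        have h5 : C2 * (X / L) * (t + 1 : ℕ) = (2 * ((t + 1 : ℕ) : ℝ) * C2) * (X / (2 * L)) := by
          field_simp
        rw [h5]
        calc (2 * ((t + 1 : ℕ) : ℝ) * C2) * (X / (2 * L)) ≤ (c1 * L) * (X / (2 * L)) :=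
              mul_le_mul_of_nonneg_right h4 (by positivity)
          _ = c1 / 2 * (X * L ^ 2 / L ^ 2) := by field_simp
          _ ≤ c1 / 2 * (X * H / L ^ 2) := by gcongr
      linarith
    have hPpos : 0 < ((Px X).card : ℝ) := by
      rcases Nat.eq_zero_or_pos (Px X).card with h | h
      · rw [Finset.card_eq_zero] at h
        rw [h, sum_empty] at e4
        have : 0 < c1 / 2 * (X * H / L ^ 2) := by positivity
        linarith
      · exact_mod_cast h
    have e5 : (c1 / 2 * (X * H / L ^ 2)) ^ (t + 1) / (C2 * (X / L)) ^ t ≤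
        (∑ n ∈ Px X, ((cnt n H - (t + 1) : ℕ) : ℝ)) ^ (t + 1) / ((Px X).card : ℝ) ^ t := by
      apply div_le_div₀
      · positivity
      · exact pow_le_pow_left₀ (by positivity) e4 _
      · positivity
      · exact pow_le_pow_left₀ hPpos.le hP _
    have e6 := e5.trans e3
    refine le_trans (le_of_eq ?_) (div_le_div_of_nonneg_right e6 hfac.le)
    rw [hc3, hY, Nat.add_sub_cancel]
    have hL' : (L ^ 2) ^ (t + 1) = L ^ (t + 1 + 1) * L ^ t := by
      rw [← pow_mul, ← pow_add]; congr 1; ring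
    rw [mul_pow (c1 / 2), div_pow (X * (H : ℝ)), mul_pow (X : ℝ) (H : ℝ), mul_pow C2, div_pow (X : ℝ) L,
      hL', pow_succ (X : ℝ) t]
    have hLt : L ^ t ≠ 0 := by positivity
    have hLt2 : L ^ (t + 1 + 1) ≠ 0 := by positivity
    have hXt : (X : ℝ) ^ t ≠ 0 := by positivity
    have hCt : C2 ^ t ≠ 0 := by positivity
    generalize L ^ t = l1 at *
    generalize L ^ (t + 1 + 1) = l2 at *
    generalize (X : ℝ) ^ t = x1 at *
    generalize C2 ^ t = k1 at *
    field_simp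
  -- the second moment
  have hsecond : ∑ A ∈ (Icc 1 H).powersetCard s, (NA A X : ℝ) ^ 2 ≤ C5 * (H : ℝ) ^ s * Y ^ 2 := by
    have e1 : ∀ A ∈ (Icc 1 H).powersetCard s, (NA A X : ℝ) ^ 2 ≤
        (C3 * Y) ^ 2 * Real.exp (2 * (s + 1 : ℕ) * ∑ p ∈ Bad A, (1 : ℝ) / p) := by
      intro A hA
      rw [mem_powersetCard] at hA
      have h1 := hNA A hA.2 (fun a ha => (mem_Icc.1 (hA.1 ha)).1)
      calc (NA A X : ℝ) ^ 2 ≤
            (C3 * Y * Real.exp ((s + 1 : ℕ) * ∑ p ∈ Bad A, (1 : ℝ) / p)) ^ 2 :=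
            pow_le_pow_left₀ (Nat.cast_nonneg _) h1 2
        _ = _ := by
            rw [mul_pow (C3 * Y), ← Real.exp_nat_mul]
            congr 2
            push_cast
            ring
    refine (sum_le_sum e1).trans ?_
    rw [← mul_sum]
    calc _ ≤ (C3 * Y) ^ 2 * (C4 * (H : ℝ) ^ s) :=
          mul_le_mul_of_nonneg_left (hmom H hH1) (by positivity)
      _ = _ := by rw [hC5]; ring
  -- Cauchy-Schwarz
  set G := ((Icc 1 H).powersetCard s).filter (fun A => c * Y ≤ (NA A X : ℝ)) with hG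
  have hbad : ∑ A ∈ ((Icc 1 H).powersetCard s).filter (fun A => ¬ c * Y ≤ (NA A X : ℝ)),
      (NA A X : ℝ) ≤ c3 / 2 * (H : ℝ) ^ s * Y := by
    calc _ ≤ ∑ A ∈ ((Icc 1 H).powersetCard s).filter (fun A => ¬ c * Y ≤ (NA A X : ℝ)), (c * Y) := by
          apply sum_le_sum
          intro A hA
          rw [mem_filter, not_le] at hA
          exact hA.2.le
      _ ≤ (H : ℝ) ^ s * (c * Y) := by
          rw [sum_const, nsmul_eq_mul]
          apply mul_le_mul_of_nonneg_right _ (by positivity)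
          have h1 : (((Icc 1 H).powersetCard s).filter (fun A => ¬ c * Y ≤ (NA A X : ℝ))).card ≤
              H ^ s := by
            refine (card_filter_le _ _).trans ?_
            rw [card_powersetCard, Nat.card_Icc, Nat.add_sub_cancel]
            exact Nat.choose_le_pow _ _
          exact_mod_cast h1
      _ ≤ (H : ℝ) ^ s * (c3 / 2 * Y) := by
          apply mul_le_mul_of_nonneg_left _ (by positivity)
          exact mul_le_mul_of_nonneg_right (min_le_left _ _) hYpos.le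
      _ = _ := by ring
  have hgood : c3 / 2 * (H : ℝ) ^ s * Y ≤ ∑ A ∈ G, (NA A X : ℝ) := by
    have h1 := Finset.sum_filter_add_sum_filter_not ((Icc 1 H).powersetCard s)
      (fun A => c * Y ≤ (NA A X : ℝ)) (fun A => (NA A X : ℝ))
    rw [← hG] at h1
    linarith
  have hCS : (∑ A ∈ G, (NA A X : ℝ)) ^ 2 ≤ (G.card : ℝ) * ∑ A ∈ G, (NA A X : ℝ) ^ 2 :=
    sq_sum_le_card_mul_sum_sq
  have hG2 : ∑ A ∈ G, (NA A X : ℝ) ^ 2 ≤ C5 * (H : ℝ) ^ s * Y ^ 2 := by
    refine le_trans ?_ hsecond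
    exact sum_le_sum_of_subset_of_nonneg (filter_subset _ _) fun _ _ _ => by positivity
  have h1 : (c3 / 2 * (H : ℝ) ^ s * Y) ^ 2 ≤ (G.card : ℝ) * (C5 * (H : ℝ) ^ s * Y ^ 2) := by
    calc _ ≤ (∑ A ∈ G, (NA A X : ℝ)) ^ 2 := pow_le_pow_left₀ (by positivity) hgood 2
      _ ≤ _ := hCS.trans (mul_le_mul_of_nonneg_left hG2 (Nat.cast_nonneg _))
  have h2 : c3 ^ 2 / (4 * C5) * (H : ℝ) ^ s ≤ G.card := by
    have h3 : 0 < C5 * (H : ℝ) ^ s * Y ^ 2 := by positivity
    have h4 : c3 ^ 2 / (4 * C5) * (H : ℝ) ^ s * (C5 * (H : ℝ) ^ s * Y ^ 2) =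
        (c3 / 2 * (H : ℝ) ^ s * Y) ^ 2 := by
      field_simp
      ring
    rw [← h4] at h1
    exact le_of_mul_le_mul_right h1 h3
  calc c * (H : ℝ) ^ s ≤ c3 ^ 2 / (4 * C5) * (H : ℝ) ^ s :=
        mul_le_mul_of_nonneg_right (min_le_right _ _) (by positivity)
    _ ≤ G.card := h2

end Pool.Agent.MPbca
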