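import Pool.Agent.Lib.MP_bca3e5_nt.Cnt

set_option autoImplicit false

/-!
The sum over the primes `m` of `log (m - 1)`, expanded over the divisors of `m - 1`.
-/

namespace Pool.Agent.MPbca

open Finset ArithmeticFunction Filter
open Pool.Agent.MP89da58 (tri cX Om psiAP psiX Om_nonneg Om_le Om_eq_zero_of_large
  Om_eq_zero_of_small psiX_lower)

/-- the sum over the primes `m ≡ 1` modulo `d` -/
noncomputable def thAP (X : ℝ) (d : ℕ) : ℝ :=
  ∑ m ∈ ((Icc 1 ⌊3 * X⌋₊).filter Nat.Prime).filter (fun m => m ≡ 1 [MOD d]),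
    vonMangoldt m * Om X m

lemma thAP_nonneg {X : ℝ} (hX : 0 ≤ X) (d : ℕ) : 0 ≤ thAP X d :=
  sum_nonneg fun _ _ => mul_nonneg vonMangoldt_nonneg (Om_nonneg hX _)

lemma thAP_le_psiAP {X : ℝ} (hX : 0 ≤ X) (d : ℕ) : thAP X d ≤ psiAP X d 1 := by
  unfold thAP psiAP
  apply sum_le_sum_of_subset_of_nonneg
  · intro m hm
    rw [mem_filter, mem_filter] at hm
    rw [mem_filter]
    exact ⟨hm.1.1, hm.2⟩
  · intro _ _ _
    exact mul_nonneg vonMangoldt_nonneg (Om_nonneg hX _)

/-- the sum over the primes `m` -/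
noncomputable def TG (X : ℝ) : ℝ :=
  ∑ m ∈ (Icc 1 ⌊3 * X⌋₊).filter Nat.Prime, vonMangoldt m * Om X m * Real.log ((m - 1 : ℕ) : ℝ)

lemma TG_eq (X : ℝ) : TG X = ∑ d ∈ Icc 1 ⌊3 * X⌋₊, vonMangoldt d * thAP X d := by
  classical
  set N := ⌊3 * X⌋₊ with hN
  unfold TG thAP
  rw [← hN]
  have h1 : ∀ m ∈ (Icc 1 N).filter Nat.Prime,
      vonMangoldt m * Om X m * Real.log ((m - 1 : ℕ) : ℝ) =
      ∑ d ∈ Icc 1 N, if m ≡ 1 [MOD d] then vonMangoldt d * (vonMangoldt m * Om X m) else 0 := by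
    intro m hm
    rw [mem_filter, mem_Icc] at hm
    have hm2 := hm.2.two_le
    rw [← vonMangoldt_sum (n := m - 1), mul_sum, ← sum_filter]
    have h2 : (m - 1).divisors = (Icc 1 N).filter (fun d => m ≡ 1 [MOD d]) := by
      ext d
      rw [Nat.mem_divisors, mem_filter, mem_Icc]
      have hmod : m ≡ 1 [MOD d] ↔ d ∣ m - 1 := by
        rw [← Nat.modEq_iff_dvd' hm.2.one_le]
        exact ⟨fun h => h.symm, fun h => h.symm⟩
      rw [hmod]
      constructor
      · rintro ⟨h3, h4⟩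
        have h5 := Nat.pos_of_dvd_of_pos h3 (by omega)
        have h6 := Nat.le_of_dvd (by omega) h3
        exact ⟨⟨h5, by omega⟩, h3⟩
      · rintro ⟨_, h3⟩
        exact ⟨h3, by omega⟩
    rw [h2]
    apply sum_congr rfl
    intro d _
    ring
  rw [sum_congr rfl h1, sum_comm]
  apply sum_congr rfl
  intro d _
  rw [← sum_filter, mul_sum]

lemma TG_lower {X : ℝ} (hX : Real.exp 2 ≤ X) :
    (Real.log X - 2) * (psiX X - 16 * Real.sqrt (3 * X) * Real.log (3 * X)) ≤ TG X := by
  classical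
  have hX0 : 0 < X := lt_of_lt_of_le (Real.exp_pos 2) hX
  have hX1 : 1 ≤ X := le_trans (Real.one_le_exp (by norm_num)) hX
  have hlogX2 : 2 ≤ Real.log X := (Real.le_log_iff_exp_le hX0).2 hX
  set N := ⌊3 * X⌋₊ with hN
  have h1 : psiX X - 16 * Real.sqrt (3 * X) * Real.log (3 * X) ≤
      ∑ m ∈ (Icc 1 N).filter Nat.Prime, vonMangoldt m * Om X m := by
    unfold psiX
    rw [← hN, ← Finset.sum_filter_add_sum_filter_not (Icc 1 N) Nat.Prime]
    have h2 : ∑ m ∈ (Icc 1 N).filter (fun m => ¬ m.Prime), vonMangoldt m * Om X m ≤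
        16 * Real.sqrt (3 * X) * Real.log (3 * X) := by
      have h3 := nonprime_sum_le hX1 (Icc 1 N) (by rw [hN])
      calc _ ≤ ∑ m ∈ (Icc 1 N).filter (fun m => ¬ m.Prime), vonMangoldt m * 8 := by
            apply sum_le_sum
            intro m _
            exact mul_le_mul_of_nonneg_left (Om_le hX0.le (by linarith) m) vonMangoldt_nonneg
        _ = (∑ m ∈ (Icc 1 N).filter (fun m => ¬ m.Prime), vonMangoldt m) * 8 := by rw [sum_mul]
        _ ≤ (2 * Real.sqrt (3 * X) * Real.log (3 * X)) * 8 :=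
            mul_le_mul_of_nonneg_right h3 (by norm_num)
        _ = _ := by ring
    linarith
  have h2 : (Real.log X - 2) * ∑ m ∈ (Icc 1 N).filter Nat.Prime, vonMangoldt m * Om X m ≤ TG X := by
    unfold TG
    rw [← hN, mul_sum]
    apply sum_le_sum
    intro m hm
    rw [mem_filter, mem_Icc] at hm
    have hm2 : (2 : ℝ) ≤ m := by exact_mod_cast hm.2.two_le
    have hw : 0 ≤ vonMangoldt m * Om X m := mul_nonneg vonMangoldt_nonneg (Om_nonneg hX0.le _)
    rw [mul_comm]
    by_cases hs : Real.exp 1 * m ≤ X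
    · rw [Om_eq_zero_of_small hX0 (by omega) hs]
      simp
    · push Not at hs
      apply mul_le_mul_of_nonneg_left _ hw
      rw [Nat.cast_sub hm.2.one_le]
      have h3 : X ≤ Real.exp 2 * ((m : ℝ) - (1 : ℕ)) := by
        have h4 : Real.exp 2 = Real.exp 1 * Real.exp 1 := by
          rw [← Real.exp_add]; norm_num
        have h5 : (m : ℝ) ≤ 2 * (m - (1 : ℕ)) := by push_cast; linarith
        have h6 : 2 ≤ Real.exp 1 := by
          have := Real.add_one_le_exp (1 : ℝ)
          linarith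
        have h7 : (0 : ℝ) ≤ m - (1 : ℕ) := by push_cast; linarith
        calc X ≤ Real.exp 1 * m := hs.le
          _ ≤ Real.exp 1 * (2 * (m - (1 : ℕ))) :=
              mul_le_mul_of_nonneg_left h5 (Real.exp_pos 1).le
          _ ≤ Real.exp 1 * (Real.exp 1 * (m - (1 : ℕ))) := by
              apply mul_le_mul_of_nonneg_left _ (Real.exp_pos 1).le
              exact mul_le_mul_of_nonneg_right h6 h7
          _ = _ := by rw [h4]; ring
      have h8 : (0 : ℝ) < m - (1 : ℕ) := by push_cast; linarith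
      have h9 := Real.log_le_log hX0 h3
      rw [Real.log_mul (Real.exp_pos 2).ne' h8.ne', Real.log_exp] at h9
      linarith
  refine le_trans ?_ h2
  exact mul_le_mul_of_nonneg_left h1 (by linarith)

end Pool.Agent.MPbca
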