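import Pool.Agent.Lib.MP_bca3e5_nt.LS5

set_option autoImplicit false

/-!
Primes in arithmetic progressions to prime moduli, on average, up to a power of the logarithm
below the square root.
-/

namespace Pool.Agent.MPbca

open Finset ArithmeticFunction Filter
open Pool.Agent.MP89da58 (tri cX Om psiChi psiAP psiX)

/-- powers beat polynomials in the logarithm -/
lemma ev_poly_log (C : ℝ) {δ : ℝ} (hδ : 0 < δ) (k : ℕ) :
    ∀ᶠ x : ℝ in atTop, C * (Real.log x) ^ k ≤ x ^ δ := by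
  have h := (isLittleO_log_rpow_rpow_atTop (k : ℝ) hδ).def
    (show (0 : ℝ) < 1 / (|C| + 1) by positivity)
  filter_upwards [h, eventually_ge_atTop 1] with x hx hx1
  have hl : 0 ≤ Real.log x := Real.log_nonneg hx1
  rw [Real.norm_of_nonneg (by positivity), Real.norm_of_nonneg (by positivity),
    Real.rpow_natCast] at hx
  have h1 : (|C| + 1) * Real.log x ^ k ≤ x ^ δ := by
    have h2 := mul_le_mul_of_nonneg_left hx (show 0 ≤ |C| + 1 by positivity)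
    have h3 : (|C| + 1) * (1 / (|C| + 1) * x ^ δ) = x ^ δ := by field_simp
    rwa [h3] at h2
  refine le_trans ?_ h1
  apply mul_le_mul_of_nonneg_right _ (by positivity)
  have := le_abs_self C
  linarith

/-- primes in progressions to prime moduli on average -/
theorem bv_log {ε : ℝ} (hε0 : 0 < ε) : ∀ᶠ X : ℝ in atTop, ∀ R0 R : ℕ,
    X ^ ε ≤ (R0 : ℝ) → (R : ℝ) ≤ 8 * R0 → (R : ℝ) * (Real.log X) ^ 27 ≤ Real.sqrt X →
    ∑ q ∈ (Ioc R0 R).filter Nat.Prime, |psiAP X q 1 - psiX X / ((q : ℝ) - 1)| ≤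
      300000 * (X / (Real.log X) ^ 2) := by
  have e1 : ∀ᶠ X : ℝ in atTop, 8 * (Real.log X) ^ 24 ≤ X ^ (1 : ℝ) := ev_poly_log 8 one_pos 24
  have e2 : ∀ᶠ X : ℝ in atTop, 1 * (Real.log X) ^ 6 ≤ X ^ ε := ev_poly_log 1 hε0 6
  filter_upwards [e1, e2, eventually_ge_atTop (Real.exp 6)] with X hX24 hX6 hXe
  intro R0 R hR0 hR8 hR
  have hX0 : 0 < X := lt_of_lt_of_le (Real.exp_pos 6) hXe
  have hXe3 : Real.exp 3 ≤ X := le_trans (Real.exp_le_exp.2 (by norm_num)) hXe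
  have hX1 : 1 ≤ X := le_trans (Real.one_le_exp (by norm_num)) hXe
  have hlog6 : 6 ≤ Real.log X := (Real.le_log_iff_exp_le hX0).mpr hXe
  set L := Real.log X with hL
  have hL0 : 0 < L := by linarith
  have hL1 : 1 ≤ L := by linarith
  rw [Real.rpow_one] at hX24
  rw [one_mul] at hX6
  set s : ℝ := Real.sqrt X with hs
  have hs0 : 0 < s := Real.sqrt_pos.2 hX0
  have hss : s * s = X := Real.mul_self_sqrt hX0.le
  set U : ℕ := ⌊L ^ 12⌋₊ with hU
  have hUle : (U : ℝ) ≤ L ^ 12 := Nat.floor_le (by positivity)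
  have hUge : L ^ 12 / 4 ≤ U := by
    have h1 := Nat.lt_floor_add_one (L ^ 12)
    have h2 : (4 : ℝ) ≤ L ^ 12 := by
      have : (6 : ℝ) ^ 12 ≤ L ^ 12 := pow_le_pow_left₀ (by norm_num) hlog6 12
      norm_num at this
      linarith
    rw [← hU] at h1
    linarith
  have hU1 : 1 ≤ U := by
    rw [hU, Nat.one_le_floor_iff]
    exact one_le_pow₀ hL1
  have hR0a : L ^ 6 ≤ R0 := hX6.trans hR0
  have hR0pos : 1 ≤ R0 := by
    have : (1 : ℝ) ≤ R0 := le_trans (one_le_pow₀ hL1) hR0a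
    exact_mod_cast this
  have hR0' : (0 : ℝ) < R0 := by exact_mod_cast hR0pos
  have hVX : Real.exp 2 * ((U ^ 2 : ℕ) : ℝ) ≤ X := by
    have h1 : Real.exp 2 ≤ 8 := by
      have : Real.exp 2 = Real.exp 1 ^ 2 := by rw [← Real.exp_nat_mul]; norm_num
      rw [this]
      have h1 := Real.exp_one_lt_d9
      have h2 := Real.exp_pos 1
      nlinarith
    have h2 : ((U ^ 2 : ℕ) : ℝ) ≤ (L ^ 12) ^ 2 := by
      push_cast
      exact pow_le_pow_left₀ (Nat.cast_nonneg _) hUle 2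
    calc Real.exp 2 * ((U ^ 2 : ℕ) : ℝ) ≤ 8 * (L ^ 12) ^ 2 :=
          mul_le_mul h1 h2 (Nat.cast_nonneg _) (by norm_num)
      _ = 8 * L ^ 24 := by ring
      _ ≤ X := hX24
  refine (window_le hXe3 R0 R U hR0pos hU1 hVX).trans ?_
  rw [← hL, ← hs]
  have hRn : (0 : ℝ) ≤ R := Nat.cast_nonneg R
  have hL3 : Real.log (3 * X) ≤ 2 * L := by
    rw [Real.log_mul (by norm_num) hX0.ne']
    have : Real.log 3 ≤ 3 := by
      have := Real.log_le_sub_one_of_pos (show (0 : ℝ) < 3 by norm_num)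
      linarith
    linarith
  have hs1 : 1 ≤ s := by
    rw [hs]
    exact Real.one_le_sqrt.2 hX1
  have hsX : s ≤ X := by nlinarith
  -- T0
  have T0 : (R : ℝ) * L ≤ X / L ^ 2 := by
    rw [le_div_iff₀ (by positivity)]
    calc (R : ℝ) * L * L ^ 2 = R * L ^ 3 := by ring
      _ ≤ R * L ^ 27 := mul_le_mul_of_nonneg_left (pow_le_pow_right₀ hL1 (by norm_num)) hRn
      _ ≤ s := hR
      _ ≤ X := hsX
  have T1 : L ^ 4 * ((R0 : ℝ)⁻¹ * ((R : ℝ) ^ 3 * (U : ℝ) ^ 4)) ≤ 8 * (X / L ^ 2) := by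
    have h1 : (R : ℝ) ^ 3 * (U : ℝ) ^ 4 ≤ R0 * (8 * ((R : ℝ) ^ 2 * L ^ 48)) := by
      have h2 : (U : ℝ) ^ 4 ≤ L ^ 48 := by
        calc (U : ℝ) ^ 4 ≤ (L ^ 12) ^ 4 := pow_le_pow_left₀ (Nat.cast_nonneg _) hUle 4
          _ = L ^ 48 := by ring
      calc (R : ℝ) ^ 3 * (U : ℝ) ^ 4 = R * ((R : ℝ) ^ 2 * (U : ℝ) ^ 4) := by ring
        _ ≤ (8 * R0) * ((R : ℝ) ^ 2 * L ^ 48) := by
            apply mul_le_mul hR8 _ (by positivity) (by positivity)
            exact mul_le_mul_of_nonneg_left h2 (by positivity)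
        _ = _ := by ring
    have h3 : L ^ 4 * ((R : ℝ) ^ 2 * L ^ 48) ≤ X / L ^ 2 := by
      rw [le_div_iff₀ (by positivity)]
      calc L ^ 4 * ((R : ℝ) ^ 2 * L ^ 48) * L ^ 2 = (R * L ^ 27) * (R * L ^ 27) := by ring
        _ ≤ s * s := mul_le_mul hR hR (by positivity) hs0.le
        _ = X := hss
    calc _ ≤ L ^ 4 * ((R0 : ℝ)⁻¹ * (R0 * (8 * ((R : ℝ) ^ 2 * L ^ 48)))) :=
          mul_le_mul_of_nonneg_left (mul_le_mul_of_nonneg_left h1 (by positivity)) (by positivity)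
      _ = 8 * (L ^ 4 * ((R : ℝ) ^ 2 * L ^ 48)) := by field_simp
      _ ≤ _ := by linarith
  have T2 : L ^ 4 * ((R0 : ℝ)⁻¹ * X) ≤ X / L ^ 2 := by
    rw [inv_mul_eq_div, ← mul_div_assoc, div_le_div_iff₀ hR0' (by positivity)]
    calc L ^ 4 * X * L ^ 2 = X * L ^ 6 := by ring
      _ ≤ X * R0 := mul_le_mul_of_nonneg_left hR0a hX0.le
  have T3 : L ^ 4 * ((R0 : ℝ)⁻¹ * (X * (2 * R / Real.sqrt U))) ≤ 32 * (X / L ^ 2) := by
    have h1 : L ^ 6 / 2 ≤ Real.sqrt U := by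
      apply Real.le_sqrt_of_sq_le
      calc (L ^ 6 / 2) ^ 2 = L ^ 12 / 4 := by ring
        _ ≤ (U : ℝ) := hUge
    have h2 : 2 * (R : ℝ) / Real.sqrt U ≤ (16 * R0) / (L ^ 6 / 2) := by
      apply div_le_div₀ (by positivity) (by linarith) (by positivity) h1
    calc _ ≤ L ^ 4 * ((R0 : ℝ)⁻¹ * (X * ((16 * R0) / (L ^ 6 / 2)))) := by gcongr
      _ = 32 * (X / L ^ 2) := by field_simp; ring
  have T4 : L ^ 4 * ((R0 : ℝ)⁻¹ * (X * ((R : ℝ) ^ 2 / s))) ≤ 8 * (X / L ^ 2) := by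
    have h1 : X * ((R : ℝ) ^ 2 / s) = R * (R * s) := by
      rw [← hss]; field_simp
    have h3 : L ^ 4 * ((R : ℝ) * s) ≤ X / L ^ 2 := by
      rw [le_div_iff₀ (by positivity)]
      calc L ^ 4 * ((R : ℝ) * s) * L ^ 2 = (R * L ^ 6) * s := by ring
        _ ≤ (R * L ^ 27) * s := by
            apply mul_le_mul_of_nonneg_right _ hs0.le
            exact mul_le_mul_of_nonneg_left (pow_le_pow_right₀ hL1 (by norm_num)) hRn
        _ ≤ s * s := mul_le_mul_of_nonneg_right hR hs0.le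
        _ = X := hss
    rw [h1]
    calc L ^ 4 * ((R0 : ℝ)⁻¹ * (R * (R * s))) ≤ L ^ 4 * ((R0 : ℝ)⁻¹ * ((8 * R0) * (R * s))) := by
          apply mul_le_mul_of_nonneg_left _ (by positivity)
          apply mul_le_mul_of_nonneg_left _ (by positivity)
          exact mul_le_mul_of_nonneg_right hR8 (by positivity)
      _ = 8 * (L ^ 4 * (R * s)) := by field_simp
      _ ≤ _ := by linarith
  have hXL : 0 ≤ X / L ^ 2 := by positivity
  have h1 : 16 * (R : ℝ) * Real.log (3 * X) ≤ 32 * (X / L ^ 2) := by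
    calc 16 * (R : ℝ) * Real.log (3 * X) ≤ 16 * (R : ℝ) * (2 * L) :=
          mul_le_mul_of_nonneg_left hL3 (by positivity)
      _ = 32 * (R * L) := by ring
      _ ≤ _ := by linarith
  have h2 : (R0 : ℝ)⁻¹ * (5000 * L ^ 4 *
      ((R : ℝ) ^ 3 * (U : ℝ) ^ 4 + X * (1 + 2 * R / Real.sqrt U + (R : ℝ) ^ 2 / s))) ≤
      245000 * (X / L ^ 2) := by
    calc _ = 5000 * (L ^ 4 * ((R0 : ℝ)⁻¹ * ((R : ℝ) ^ 3 * (U : ℝ) ^ 4)) + L ^ 4 * ((R0 : ℝ)⁻¹ * X) +
          L ^ 4 * ((R0 : ℝ)⁻¹ * (X * (2 * R / Real.sqrt U))) +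
          L ^ 4 * ((R0 : ℝ)⁻¹ * (X * ((R : ℝ) ^ 2 / s)))) := by ring
      _ ≤ _ := by linarith
  linarith

end Pool.Agent.MPbca
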