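import Pool.Agent.Lib.MP_bca3e5_nt.Gf3
import Pool.Agent.Lib.MP_bca3e5_nt.LS6

set_option autoImplicit false

/-!
The prime moduli up to the square root.
-/

namespace Pool.Agent.MPbca

open Finset ArithmeticFunction Filter
open Pool.Agent.MP89da58 (tri cX Om psiAP psiX Om_nonneg Om_le Om_eq_zero_of_large
  Om_eq_zero_of_small psiX_lower)

lemma psiX_nonneg {X : ℝ} (hX : 0 ≤ X) : 0 ≤ psiX X :=
  sum_nonneg fun _ _ => mul_nonneg vonMangoldt_nonneg (Om_nonneg hX _)

lemma psiX_upper {X : ℝ} (hX : Real.exp 1 ≤ X) : psiX X ≤ 144 * X := by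
  have hX0 : 0 < X := lt_of_lt_of_le (Real.exp_pos 1) hX
  have hlogX : 1 ≤ Real.log X := (Real.le_log_iff_exp_le hX0).2 hX
  unfold psiX
  calc _ ≤ ∑ n ∈ Icc 1 ⌊3 * X⌋₊, vonMangoldt n * 8 := by
        apply sum_le_sum
        intro m _
        exact mul_le_mul_of_nonneg_left (Om_le hX0.le hlogX m) vonMangoldt_nonneg
    _ = (∑ n ∈ Icc 1 ⌊3 * X⌋₊, vonMangoldt n) * 8 := by rw [sum_mul]
    _ ≤ (6 * ⌊3 * X⌋₊) * 8 := mul_le_mul_of_nonneg_right (psi_le_six _) (by norm_num)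
    _ ≤ (6 * (3 * X)) * 8 := by
        have := Nat.floor_le (show 0 ≤ 3 * X by positivity)
        linarith
    _ = _ := by ring

lemma windows {ε : ℝ} (hε0 : 0 < ε) (hε1 : ε < 1 / 2) : ∀ᶠ X : ℝ in atTop, ∀ D1 D2 : ℕ,
    X ^ ε ≤ (D1 : ℝ) → (D2 : ℝ) ≤ X ^ (1 / 2 - ε) → ∀ j : ℕ,
    ∑ q ∈ (Ioc D1 (min (2 ^ j * D1) D2)).filter Nat.Prime,
      |psiAP X q 1 - psiX X / ((q : ℝ) - 1)| ≤ j * X ^ (1 - ε / 16) := by
  classical
  filter_upwards [bv_prime hε0 hε1, eventually_ge_atTop 1] with X hX hX1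
  intro D1 D2 h1 h2 j
  induction j with
  | zero =>
    have : Ioc D1 (min (2 ^ 0 * D1) D2) = ∅ := by
      rw [Finset.Ioc_eq_empty_iff]
      simp
    rw [this]
    simp
  | succ j ih =>
    have h3 := hX (2 ^ j * D1) (min (2 ^ (j + 1) * D1) D2) (by
      refine h1.trans ?_
      have : D1 ≤ 2 ^ j * D1 := Nat.le_mul_of_pos_left _ (by positivity)
      exact_mod_cast this) (by
      have h4 : min (2 ^ (j + 1) * D1) D2 ≤ 8 * (2 ^ j * D1) := by
        refine (min_le_left _ _).trans ?_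
        rw [pow_succ]
        nlinarith [Nat.zero_le (2 ^ j * D1)]
      exact_mod_cast h4) (by
      refine le_trans ?_ h2
      exact_mod_cast min_le_right _ _)
    have h4 : (Ioc D1 (min (2 ^ (j + 1) * D1) D2)).filter Nat.Prime ⊆
        (Ioc D1 (min (2 ^ j * D1) D2)).filter Nat.Prime ∪
        (Ioc (2 ^ j * D1) (min (2 ^ (j + 1) * D1) D2)).filter Nat.Prime := by
      intro q hq
      rw [mem_filter, mem_Ioc, le_min_iff] at hq
      rw [mem_union, mem_filter, mem_filter, mem_Ioc, mem_Ioc, le_min_iff, le_min_iff]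
      by_cases h : q ≤ 2 ^ j * D1
      · left; exact ⟨⟨hq.1.1, h, hq.1.2.2⟩, hq.2⟩
      · right; exact ⟨⟨by omega, hq.1.2⟩, hq.2⟩
    refine (sum_le_sum_of_subset_of_nonneg h4 fun _ _ _ => abs_nonneg _).trans ?_
    have h5 := Finset.sum_union_inter (s₁ := (Ioc D1 (min (2 ^ j * D1) D2)).filter Nat.Prime)
      (s₂ := (Ioc (2 ^ j * D1) (min (2 ^ (j + 1) * D1) D2)).filter Nat.Prime)
      (f := fun q : ℕ => |psiAP X q 1 - psiX X / ((q : ℝ) - 1)|)
    have h6 : 0 ≤ ∑ q ∈ (Ioc D1 (min (2 ^ j * D1) D2)).filter Nat.Prime ∩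
        (Ioc (2 ^ j * D1) (min (2 ^ (j + 1) * D1) D2)).filter Nat.Prime,
        |psiAP X q 1 - psiX X / ((q : ℝ) - 1)| := sum_nonneg fun _ _ => abs_nonneg _
    push_cast
    linarith

/-- the prime moduli between `X^ε` and `X^(1/2-ε)` -/
theorem bv_range {ε : ℝ} (hε0 : 0 < ε) (hε1 : ε < 1 / 4) : ∀ᶠ X : ℝ in atTop, ∀ D1 D2 : ℕ,
    X ^ ε ≤ (D1 : ℝ) → D1 ≤ D2 → (D2 : ℝ) ≤ X ^ (1 / 2 - ε) →
    ∑ q ∈ (Ioc D1 D2).filter Nat.Prime, vonMangoldt q * psiAP X q 1 ≤
      psiX X * (Real.log (D2 / D1) + 8) + X := by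
  classical
  have e1 := ev_poly_log 14 hε0 1
  have e2 := ev_poly_log 4 (show 0 < ε / 16 by positivity) 2
  filter_upwards [windows hε0 (by linarith : ε < 1 / 2), e1, e2,
    eventually_ge_atTop (Real.exp 8)] with X hX hlog1 hlog2 hXe
  intro D1 D2 h1 h12 h2
  have hX0 : 0 < X := lt_of_lt_of_le (Real.exp_pos 8) hXe
  have hX1 : 1 ≤ X := le_trans (Real.one_le_exp (by norm_num)) hXe
  have hlog8 : 8 ≤ Real.log X := (Real.le_log_iff_exp_le hX0).mpr hXe
  set L := Real.log X with hL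
  have hD1 : (1 : ℝ) ≤ D1 := le_trans (Real.one_le_rpow hX1 hε0.le) h1
  have hD1n : 1 ≤ D1 := by exact_mod_cast hD1
  have hD2X : (D2 : ℝ) ≤ X := by
    refine h2.trans ?_
    calc X ^ (1 / 2 - ε) ≤ X ^ (1 : ℝ) := Real.rpow_le_rpow_of_exponent_le hX1 (by linarith)
      _ = X := Real.rpow_one X
  have hD12 : (D1 : ℝ) ≤ D2 := by exact_mod_cast h12
  have hP0 : 0 ≤ psiX X := psiX_nonneg hX0.le
  -- main term
  have hmer := mertens_Ioc hD1n h12
  have hlogq : 0 ≤ Real.log (D2 / D1) := by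
    apply Real.log_nonneg
    rw [le_div_iff₀ (by linarith)]
    linarith
  have hlogqL : Real.log (D2 / D1) ≤ L := by
    apply Real.log_le_log (div_pos (by linarith) (by linarith))
    calc (D2 : ℝ) / D1 ≤ D2 / 1 := div_le_div_of_nonneg_left (by linarith) one_pos hD1
      _ = D2 := div_one _
      _ ≤ X := hD2X
  have hmain : ∑ q ∈ (Ioc D1 D2).filter Nat.Prime, vonMangoldt q * (psiX X / ((q : ℝ) - 1)) ≤
      psiX X * (Real.log (D2 / D1) + 8) := by
    have h3 : ∀ q ∈ (Ioc D1 D2).filter Nat.Prime, vonMangoldt q * (psiX X / ((q : ℝ) - 1)) ≤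
        psiX X * (1 + 2 / D1) * (vonMangoldt q / q) := by
      intro q hq
      rw [mem_filter, mem_Ioc] at hq
      have hq2 : (2 : ℝ) ≤ q := by exact_mod_cast hq.2.two_le
      have hqD : (D1 : ℝ) ≤ q := by exact_mod_cast hq.1.1.le
      have h4 : 0 ≤ vonMangoldt q := vonMangoldt_nonneg
      have h5 : 1 / ((q : ℝ) - 1) ≤ (1 + 2 / D1) * (1 / q) := by
        have h6 : (1 + 2 / (q : ℝ)) ≤ 1 + 2 / D1 := by
          have : 2 / (q : ℝ) ≤ 2 / D1 := div_le_div_of_nonneg_left (by norm_num) (by linarith) hqD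
          linarith
        have h7 : 1 / ((q : ℝ) - 1) ≤ (1 + 2 / q) * (1 / q) := by
          rw [div_le_iff₀ (by linarith)]
          have h8 : (1 + 2 / (q : ℝ)) * (1 / q) * (q - 1) = 1 + (1 / q) * (1 - 2 / q) := by
            field_simp
            ring
          rw [h8]
          have h9 : 2 / (q : ℝ) ≤ 1 := by rw [div_le_one (by linarith)]; exact hq2
          have h10 : 0 ≤ (1 / (q : ℝ)) * (1 - 2 / q) :=
            mul_nonneg (by positivity) (by linarith)
          linarith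
        refine h7.trans ?_
        exact mul_le_mul_of_nonneg_right h6 (by positivity)
      calc vonMangoldt q * (psiX X / ((q : ℝ) - 1)) = vonMangoldt q * psiX X * (1 / ((q : ℝ) - 1)) := by
            ring
        _ ≤ vonMangoldt q * psiX X * ((1 + 2 / D1) * (1 / q)) :=
            mul_le_mul_of_nonneg_left h5 (mul_nonneg h4 hP0)
        _ = _ := by ring
    refine (sum_le_sum h3).trans ?_
    rw [← mul_sum, mul_assoc]
    apply mul_le_mul_of_nonneg_left _ hP0
    have h4 : ∑ q ∈ (Ioc D1 D2).filter Nat.Prime, vonMangoldt q / (q : ℝ) ≤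
        Real.log (D2 / D1) + 7 := by
      refine le_trans ?_ hmer
      apply sum_le_sum_of_subset_of_nonneg (filter_subset _ _)
      intro q _ _
      exact div_nonneg vonMangoldt_nonneg (Nat.cast_nonneg _)
    have h5 : (1 + 2 / (D1 : ℝ)) * (Real.log (D2 / D1) + 7) ≤ Real.log (D2 / D1) + 8 := by
      have h6 : 2 / (D1 : ℝ) * (Real.log (D2 / D1) + 7) ≤ 1 := by
        rw [div_mul_eq_mul_div, div_le_one (by linarith)]
        have h7 : 14 * L ≤ D1 := by
          refine le_trans ?_ h1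
          rw [pow_one] at hlog1
          exact hlog1
        linarith
      linarith
    refine le_trans ?_ h5
    exact mul_le_mul_of_nonneg_left h4 (by positivity)
  -- error term
  set J : ℕ := Nat.log 2 D2 + 1 with hJ
  have hJ1 : D2 ≤ 2 ^ J * D1 := by
    have h3 : D2 < 2 ^ J := Nat.lt_pow_succ_log_self (by norm_num) D2
    calc D2 ≤ 2 ^ J := h3.le
      _ ≤ 2 ^ J * D1 := Nat.le_mul_of_pos_right _ (by omega)
  have h3 := hX D1 D2 h1 h2 J
  rw [min_eq_right hJ1] at h3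
  have hJL : (J : ℝ) ≤ 4 * L := by
    have h4 : 2 ^ (Nat.log 2 D2) ≤ D2 := Nat.pow_log_le_self 2 (by omega)
    have h5 : ((2 : ℝ)) ^ (Nat.log 2 D2) ≤ X := by
      refine le_trans ?_ hD2X
      exact_mod_cast h4
    have h6 := Real.log_le_log (by positivity) h5
    rw [Real.log_pow] at h6
    have h7 := Real.log_two_gt_d9
    have h8 : (0 : ℝ) ≤ (Nat.log 2 D2 : ℝ) := Nat.cast_nonneg _
    rw [hJ]
    push_cast
    nlinarith
  have herr : ∑ q ∈ (Ioc D1 D2).filter Nat.Prime, vonMangoldt q *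
      |psiAP X q 1 - psiX X / ((q : ℝ) - 1)| ≤ X := by
    have h4 : ∀ q ∈ (Ioc D1 D2).filter Nat.Prime, vonMangoldt q *
      |psiAP X q 1 - psiX X / ((q : ℝ) - 1)| ≤ L * |psiAP X q 1 - psiX X / ((q : ℝ) - 1)| := by
      intro q hq
      rw [mem_filter, mem_Ioc] at hq
      apply mul_le_mul_of_nonneg_right _ (abs_nonneg _)
      refine vonMangoldt_le_log.trans ?_
      apply Real.log_le_log
      · exact_mod_cast hq.2.pos
      · refine le_trans ?_ hD2X
        exact_mod_cast hq.1.2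
    refine (sum_le_sum h4).trans ?_
    rw [← mul_sum]
    have h5 : 0 ≤ X ^ (1 - ε / 16) := by positivity
    have h6 : X ^ (1 - ε / 16) = X / X ^ (ε / 16) := by
      rw [Real.rpow_sub hX0, Real.rpow_one]
    calc _ ≤ L * (J * X ^ (1 - ε / 16)) := mul_le_mul_of_nonneg_left h3 (by linarith)
      _ ≤ L * (4 * L * X ^ (1 - ε / 16)) := by
          apply mul_le_mul_of_nonneg_left _ (by linarith)
          exact mul_le_mul_of_nonneg_right hJL h5
      _ = (4 * L ^ 2) * X ^ (1 - ε / 16) := by ring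
      _ ≤ X ^ (ε / 16) * X ^ (1 - ε / 16) := mul_le_mul_of_nonneg_right hlog2 h5
      _ = X := by
          rw [← Real.rpow_add hX0]
          have : ε / 16 + (1 - ε / 16) = 1 := by ring
          rw [this, Real.rpow_one]
  have hsum : ∀ q ∈ (Ioc D1 D2).filter Nat.Prime, vonMangoldt q * psiAP X q 1 ≤
      vonMangoldt q * (psiX X / ((q : ℝ) - 1)) +
      vonMangoldt q * |psiAP X q 1 - psiX X / ((q : ℝ) - 1)| := by
    intro q _
    rw [← mul_add]
    apply mul_le_mul_of_nonneg_left _ vonMangoldt_nonneg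
    have := le_abs_self (psiAP X q 1 - psiX X / ((q : ℝ) - 1))
    linarith
  refine (sum_le_sum hsum).trans ?_
  rw [sum_add_distrib]
  exact add_le_add hmain herr

end Pool.Agent.MPbca
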