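import Pool.Agent.Lib.MP_bca3e5_nt.Gf2

set_option autoImplicit false

/-!
The large prime moduli.
-/

namespace Pool.Agent.MPbca

open Finset ArithmeticFunction Filter
open Pool.Agent.MP89da58 (tri cX Om psiAP psiX Om_nonneg Om_le Om_eq_zero_of_large
  Om_eq_zero_of_small psiX_lower)

lemma sum_exp_hh_div {κ : ℝ} (hκ : 0 ≤ κ) (A : ℕ) (hA : 1 ≤ A) :
    ∑ k ∈ Icc 1 A, Real.exp (κ * hh k) / k ≤
      2 * Real.exp (κ * Real.exp κ) * (1 + 2 * Real.log A) := by
  classical
  set C := Real.exp (κ * Real.exp κ) with hC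
  have hC0 : 0 < C := Real.exp_pos _
  have h1 : ∀ j : ℕ, ∑ k ∈ Ico 1 (2 ^ j), Real.exp (κ * hh k) / k ≤ 2 * C * j := by
    intro j
    induction j with
    | zero => simp
    | succ j ih =>
      have h2 : ∑ k ∈ Ico 1 (2 ^ j), Real.exp (κ * hh k) / (k : ℝ) +
          ∑ k ∈ Ico (2 ^ j) (2 ^ (j + 1)), Real.exp (κ * hh k) / (k : ℝ) =
          ∑ k ∈ Ico 1 (2 ^ (j + 1)), Real.exp (κ * hh k) / (k : ℝ) :=
        Finset.sum_Ico_consecutive _ Nat.one_le_two_pow (Nat.pow_le_pow_right (by norm_num) (by omega))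
      rw [← h2]
      have h3 : ∑ k ∈ Ico (2 ^ j) (2 ^ (j + 1)), Real.exp (κ * hh k) / (k : ℝ) ≤ 2 * C := by
        have h4 : ∀ k ∈ Ico (2 ^ j) (2 ^ (j + 1)), Real.exp (κ * hh k) / (k : ℝ) ≤
            Real.exp (κ * hh k) / (2 ^ j : ℝ) := by
          intro k hk
          rw [mem_Ico] at hk
          apply div_le_div_of_nonneg_left (Real.exp_pos _).le (by positivity)
          exact_mod_cast hk.1
        refine (sum_le_sum h4).trans ?_
        rw [← sum_div, div_le_iff₀ (by positivity)]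
        calc ∑ k ∈ Ico (2 ^ j) (2 ^ (j + 1)), Real.exp (κ * hh k)
            ≤ ∑ k ∈ Icc 1 (2 ^ (j + 1)), Real.exp (κ * hh k) := by
              apply sum_le_sum_of_subset_of_nonneg
              · intro k hk
                rw [mem_Ico] at hk
                rw [mem_Icc]
                have := Nat.one_le_two_pow (n := j)
                omega
              · intro _ _ _; exact (Real.exp_pos _).le
          _ ≤ C * ((2 ^ (j + 1) : ℕ) : ℝ) := sum_exp_hh hκ _
          _ = 2 * C * 2 ^ j := by push_cast; ring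
      push_cast
      linarith
  set j := Nat.log 2 A + 1 with hj
  have h2 : A < 2 ^ j := Nat.lt_pow_succ_log_self (by norm_num) A
  have h3 : ∑ k ∈ Icc 1 A, Real.exp (κ * hh k) / (k : ℝ) ≤
      ∑ k ∈ Ico 1 (2 ^ j), Real.exp (κ * hh k) / (k : ℝ) := by
    apply sum_le_sum_of_subset_of_nonneg
    · intro k hk
      rw [mem_Icc] at hk
      rw [mem_Ico]
      omega
    · intro _ _ _; positivity
  refine (h3.trans (h1 j)).trans ?_
  apply mul_le_mul_of_nonneg_left _ (by positivity)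
  have h4 : 2 ^ (Nat.log 2 A) ≤ A := Nat.pow_log_le_self 2 (by omega)
  have h5 : ((2 : ℝ)) ^ (Nat.log 2 A) ≤ A := by exact_mod_cast h4
  have h6 := Real.log_le_log (by positivity) h5
  rw [Real.log_pow] at h6
  have h7 := Real.log_two_gt_d9
  have h8 : (0 : ℝ) ≤ (Nat.log 2 A : ℝ) := Nat.cast_nonneg _
  rw [hj]
  push_cast
  nlinarith

lemma Bad_singleton (k : ℕ) : Bad {k} = k.primeFactors := by
  unfold Bad
  rw [Finset.singleton_product_singleton, Finset.singleton_biUnion]
  unfold vv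
  simp

/-- the large prime moduli -/
theorem large_range : ∃ C : ℝ, 0 < C ∧ ∀ δ : ℝ, 0 < δ → δ ≤ 1 / 4 → ∀ᶠ X : ℝ in atTop,
    ∀ D : ℕ, X ^ (1 - δ) ≤ (D : ℝ) →
    ∑ q ∈ (Ioc D ⌊3 * X⌋₊).filter Nat.Prime, vonMangoldt q * thAP X q ≤
      C * X * (1 + δ * Real.log X) := by
  classical
  obtain ⟨C, hC, X0, hNA⟩ := NA_upper 1
  set C2 := Real.exp (2 * Real.exp 2) with hC2
  have hC20 : 0 < C2 := Real.exp_pos _
  refine ⟨8 * 4 * (12 * C) * (2 * C2) * 7, by positivity, fun δ hδ0 hδ1 => ?_⟩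
  have hX00 : ∀ᶠ X : ℝ in atTop, (X0 : ℝ) + 1 ≤ X ^ (1 / 2 : ℝ) :=
    (tendsto_rpow_atTop (by norm_num)).eventually_ge_atTop _
  have hX01 : ∀ᶠ X : ℝ in atTop, (2 : ℝ) ≤ X ^ (1 / 4 : ℝ) :=
    (tendsto_rpow_atTop (by norm_num)).eventually_ge_atTop _
  filter_upwards [hX00, hX01, eventually_ge_atTop (Real.exp 8)] with X hXX0 hX4 hXe
  intro D hD
  have hX0 : 0 < X := lt_of_lt_of_le (Real.exp_pos 8) hXe
  have hX1 : 1 ≤ X := le_trans (Real.one_le_exp (by norm_num)) hXe
  have hXe1 : Real.exp 1 ≤ X := le_trans (Real.exp_le_exp.2 (by norm_num)) hXe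
  have hlog8 : 8 ≤ Real.log X := (Real.le_log_iff_exp_le hX0).mpr hXe
  have hX3 : 3 ≤ X := by
    have := Real.add_one_le_exp (8 : ℝ)
    linarith
  have he : Real.exp 1 ≤ 3 := by
    have := Real.exp_one_lt_d9
    linarith
  set L := Real.log X with hL
  have hl3 : Real.log (3 * X) ≤ 2 * L := by
    rw [Real.log_mul (by norm_num) hX0.ne', two_mul]
    apply add_le_add _ le_rfl
    exact Real.log_le_log (by norm_num) hX3
  have hl30 : 0 ≤ Real.log (3 * X) := Real.log_nonneg (by linarith)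
  set N := ⌊3 * X⌋₊ with hN
  set A := ⌊3 * X ^ δ⌋₊ with hA
  have hXδ1 : 1 ≤ X ^ δ := Real.one_le_rpow hX1 hδ0.le
  have hAle : (A : ℝ) ≤ 3 * X ^ δ := Nat.floor_le (by positivity)
  have hA1 : 1 ≤ A := by
    rw [hA, Nat.one_le_floor_iff]
    linarith
  have hDpos : (0 : ℝ) < D := lt_of_lt_of_le (Real.rpow_pos_of_pos hX0 _) hD
  -- bound each term by a count
  have h1 : ∀ q ∈ (Ioc D N).filter Nat.Prime, vonMangoldt q * thAP X q ≤
      8 * (2 * L) ^ 2 * ∑ k ∈ Icc 1 A, if (q : ℝ) * k ≤ 3 * X ∧ (k * q + 1).Prime then (1 : ℝ) else 0 := by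
    intro q hq
    rw [mem_filter, mem_Ioc] at hq
    have hq0 : (0 : ℝ) < q := by exact_mod_cast hq.2.pos
    have h2 := thAP_le_card hXe1 hq.2.one_le
    have h3 : (((Icc 1 ⌊Real.exp 1 * (X / q)⌋₊).filter (fun k => (q * k + 1).Prime)).card : ℝ) ≤
        ∑ k ∈ Icc 1 A, if (q : ℝ) * k ≤ 3 * X ∧ (k * q + 1).Prime then (1 : ℝ) else 0 := by
      rw [← Finset.sum_filter, sum_const, nsmul_eq_mul, mul_one]
      have h4 : (Icc 1 ⌊Real.exp 1 * (X / q)⌋₊).filter (fun k => (q * k + 1).Prime) ⊆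
          (Icc 1 A).filter (fun k => (q : ℝ) * k ≤ 3 * X ∧ (k * q + 1).Prime) := by
        intro k hk
        rw [mem_filter, mem_Icc] at hk
        have h5 : (k : ℝ) ≤ Real.exp 1 * (X / q) := (Nat.le_floor_iff (by positivity)).1 hk.1.2
        have h6 : (q : ℝ) * k ≤ 3 * X := by
          calc (q : ℝ) * k ≤ q * (Real.exp 1 * (X / q)) := mul_le_mul_of_nonneg_left h5 hq0.le
            _ = Real.exp 1 * X := by field_simp
            _ ≤ 3 * X := mul_le_mul_of_nonneg_right he hX0.le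
        rw [mem_filter, mem_Icc]
        refine ⟨⟨hk.1.1, ?_⟩, h6, by rw [mul_comm]; exact hk.2⟩
        rw [hA, Nat.le_floor_iff (by positivity)]
        have h7 : X ^ (1 - δ) ≤ (q : ℝ) := hD.trans (by exact_mod_cast hq.1.1.le)
        have h8 : X / q ≤ X ^ δ := by
          rw [div_le_iff₀ hq0]
          calc X = X ^ δ * X ^ (1 - δ) := by
                rw [← Real.rpow_add hX0]
                have : δ + (1 - δ) = 1 := by ring
                rw [this, Real.rpow_one]
            _ ≤ X ^ δ * q := mul_le_mul_of_nonneg_left h7 (by positivity)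
        calc (k : ℝ) ≤ Real.exp 1 * (X / q) := h5
          _ ≤ 3 * X ^ δ := mul_le_mul he h8 (by positivity) (by norm_num)
      exact_mod_cast card_le_card h4
    have h5 : vonMangoldt q ≤ 2 * L := by
      refine vonMangoldt_le_log.trans (le_trans ?_ hl3)
      apply Real.log_le_log hq0
      exact (Nat.le_floor_iff (by positivity)).1 hq.1.2
    set S := ∑ k ∈ Icc 1 A, if (q : ℝ) * k ≤ 3 * X ∧ (k * q + 1).Prime then (1 : ℝ) else 0
    have hS0 : 0 ≤ S := le_trans (Nat.cast_nonneg _) h3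
    calc vonMangoldt q * thAP X q ≤ (2 * L) * (8 * Real.log (3 * X) * S) := by
          apply mul_le_mul h5 _ (thAP_nonneg hX0.le _) (by linarith)
          exact h2.trans (mul_le_mul_of_nonneg_left h3 (by positivity))
      _ ≤ (2 * L) * (8 * (2 * L) * S) := by
          apply mul_le_mul_of_nonneg_left _ (by linarith)
          apply mul_le_mul_of_nonneg_right _ hS0
          linarith
      _ = _ := by ring
  refine (sum_le_sum h1).trans ?_
  rw [← mul_sum, sum_comm]
  have h2 : ∀ k ∈ Icc 1 A, ∑ q ∈ (Ioc D N).filter Nat.Prime,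
      (if (q : ℝ) * k ≤ 3 * X ∧ (k * q + 1).Prime then (1 : ℝ) else 0) ≤
      (12 * C * X / L ^ 2) * (Real.exp (2 * hh k) / k) := by
    intro k hk
    rw [mem_Icc] at hk
    have hk0 : (0 : ℝ) < k := by exact_mod_cast hk.1
    set Y := ⌊3 * X / k⌋₊ with hY
    have h3 : ∑ q ∈ (Ioc D N).filter Nat.Prime,
      (if (q : ℝ) * k ≤ 3 * X ∧ (k * q + 1).Prime then (1 : ℝ) else 0) ≤ (NA {k} Y : ℝ) := by
      rw [← Finset.sum_filter, sum_const, nsmul_eq_mul, mul_one]
      have h4 : ((Ioc D N).filter Nat.Prime).filter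
          (fun q : ℕ => (q : ℝ) * k ≤ 3 * X ∧ (k * q + 1).Prime) ⊆
          (Icc 1 Y).filter (fun n => n.Prime ∧ ∀ a ∈ ({k} : Finset ℕ), (a * n + 1).Prime) := by
        intro q hq
        rw [mem_filter, mem_filter] at hq
        rw [mem_filter, mem_Icc]
        refine ⟨⟨hq.1.2.one_le, ?_⟩, hq.1.2, ?_⟩
        · rw [hY, Nat.le_floor_iff (by positivity), le_div_iff₀ hk0]
          exact hq.2.1
        · intro a ha
          rw [mem_singleton] at ha
          rw [ha]
          exact hq.2.2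
      exact_mod_cast card_le_card h4
    refine h3.trans ?_
    -- size of Y
    have hk3 : (k : ℝ) ≤ 3 * X ^ δ := le_trans (by exact_mod_cast hk.2) hAle
    have hYge : X ^ (1 - δ) ≤ 3 * X / k := by
      rw [le_div_iff₀ hk0]
      calc X ^ (1 - δ) * k ≤ X ^ (1 - δ) * (3 * X ^ δ) :=
            mul_le_mul_of_nonneg_left hk3 (by positivity)
        _ = 3 * (X ^ (1 - δ) * X ^ δ) := by ring
        _ = 3 * X := by
            rw [← Real.rpow_add hX0]
            have : 1 - δ + δ = 1 := by ring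
            rw [this, Real.rpow_one]
    have hYhalf : X ^ (1 / 2 : ℝ) ≤ Y := by
      have h5 := Nat.lt_floor_add_one (3 * X / k)
      rw [← hY] at h5
      have h6 : X ^ (3 / 4 : ℝ) ≤ X ^ (1 - δ) :=
        Real.rpow_le_rpow_of_exponent_le hX1 (by linarith)
      have h7 : X ^ (3 / 4 : ℝ) = X ^ (1 / 2 : ℝ) * X ^ (1 / 4 : ℝ) := by
        rw [← Real.rpow_add hX0]; norm_num
      have h8 : 1 ≤ X ^ (1 / 2 : ℝ) := Real.one_le_rpow hX1 (by norm_num)
      have h9 : X ^ (1 / 2 : ℝ) * 2 ≤ X ^ (1 / 2 : ℝ) * X ^ (1 / 4 : ℝ) :=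
        mul_le_mul_of_nonneg_left hX4 (by positivity)
      linarith
    have hYX0 : X0 ≤ Y := by
      have : (X0 : ℝ) ≤ Y := by linarith
      exact_mod_cast this
    have hYle : (Y : ℝ) ≤ 3 * X / k := Nat.floor_le (by positivity)
    have h5 := hNA Y hYX0 {k} (by simp) (by
      intro a ha
      rw [mem_singleton] at ha
      omega)
    rw [Bad_singleton] at h5
    have hlogY : L / 2 ≤ Real.log Y := by
      have := Real.log_le_log (by positivity) hYhalf
      rw [Real.log_rpow hX0] at this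
      linarith
    have h6 : (Y : ℝ) / Real.log Y ^ (1 + 1) ≤ (3 * X / k) / (L / 2) ^ 2 := by
      apply div_le_div₀ (by positivity) hYle (by positivity)
      exact pow_le_pow_left₀ (by linarith) hlogY 2
    calc (NA {k} Y : ℝ) ≤ C * ((Y : ℝ) / Real.log Y ^ (1 + 1)) *
          Real.exp ((1 + 1 : ℕ) * ∑ p ∈ k.primeFactors, (1 : ℝ) / p) := h5
      _ ≤ C * ((3 * X / k) / (L / 2) ^ 2) *
          Real.exp ((1 + 1 : ℕ) * ∑ p ∈ k.primeFactors, (1 : ℝ) / p) := by
          apply mul_le_mul_of_nonneg_right _ (Real.exp_pos _).le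
          exact mul_le_mul_of_nonneg_left h6 hC.le
      _ = (12 * C * X / L ^ 2) * (Real.exp (2 * hh k) / k) := by
          unfold hh
          push_cast
          have : L ≠ 0 := by linarith
          have hk' : (k : ℝ) ≠ 0 := hk0.ne'
          field_simp
          ring_nf
  have h3 := sum_le_sum h2
  rw [← mul_sum] at h3
  have h4 := sum_exp_hh_div (show (0 : ℝ) ≤ 2 by norm_num) A hA1
  have hlogA : Real.log A ≤ 2 + δ * L := by
    have h5 := Real.log_le_log (by exact_mod_cast hA1) hAle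
    rw [Real.log_mul (by norm_num) (by positivity), Real.log_rpow hX0] at h5
    have h6 : Real.log 3 ≤ 2 := by
      have := Real.log_le_sub_one_of_pos (show (0 : ℝ) < 3 by norm_num)
      linarith
    linarith
  have hδL : 0 ≤ δ * L := by positivity
  have hL2 : 0 < L ^ 2 := by positivity
  have h5 : ∑ k ∈ Icc 1 A, Real.exp (2 * hh k) / (k : ℝ) ≤ 2 * C2 * (7 * (1 + δ * L)) := by
    refine h4.trans ?_
    apply mul_le_mul_of_nonneg_left _ (by positivity)
    linarith
  calc _ ≤ 8 * (2 * L) ^ 2 * ((12 * C * X / L ^ 2) * (2 * C2 * (7 * (1 + δ * L)))) := by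
        apply mul_le_mul_of_nonneg_left _ (by positivity)
        refine h3.trans ?_
        exact mul_le_mul_of_nonneg_left h5 (by positivity)
    _ = 8 * 4 * (12 * C) * (2 * C2) * 7 * X * (1 + δ * L) := by
        field_simp
        ring

end Pool.Agent.MPbca
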