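import Pool.Agent.Lib.MP_bca3e5_nt.Gf5
import Pool.Agent.Lib.MP_bca3e5_nt.Gf4

set_option autoImplicit false

/-!
The mass of the prime moduli beyond the square root.
-/

namespace Pool.Agent.MPbca

open Finset ArithmeticFunction Filter
open Pool.Agent.MP89da58 (tri cX Om psiAP psiX Om_nonneg Om_le Om_eq_zero_of_large
  Om_eq_zero_of_small psiX_lower)

lemma split_le (f : ℕ → ℝ) (hf : ∀ d, 0 ≤ f d) {s t u : Finset ℕ} (h : s ⊆ t ∪ u) :
    ∑ d ∈ s, f d ≤ ∑ d ∈ t, f d + ∑ d ∈ u, f d := by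
  classical
  refine (sum_le_sum_of_subset_of_nonneg h fun _ _ _ => hf _).trans ?_
  have h1 := Finset.sum_union_inter (s₁ := t) (s₂ := u) (f := f)
  have h2 : 0 ≤ ∑ d ∈ t ∩ u, f d := sum_nonneg fun _ _ => hf _
  linarith

lemma split_prime (f : ℕ → ℝ) (hf : ∀ d, 0 ≤ f d) (a b c : ℕ) :
    ∑ d ∈ (Ioc a c).filter Nat.Prime, f d ≤
      ∑ d ∈ (Ioc a b).filter Nat.Prime, f d + ∑ d ∈ (Ioc b c).filter Nat.Prime, f d := by
  classical
  apply split_le f hf
  intro d hd
  rw [mem_filter, mem_Ioc] at hd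
  rw [mem_union, mem_filter, mem_filter, mem_Ioc, mem_Ioc]
  by_cases h : d ≤ b
  · left; exact ⟨⟨hd.1.1, h⟩, hd.2⟩
  · right; exact ⟨⟨by omega, hd.1.2⟩, hd.2⟩

/-- the sieve range -/
theorem sieve_range : ∃ C : ℝ, 0 < C ∧ ∀ᶠ X : ℝ in atTop, ∀ D D' : ℕ, 1 ≤ D → D ≤ D' →
    (D' : ℝ) ≤ X ^ (3 / 4 : ℝ) →
    ∑ q ∈ (Ioc D D').filter Nat.Prime, vonMangoldt q * thAP X q ≤
      C * X * (Real.log (D' / D) + 7) := by
  classical
  obtain ⟨C, hC, Y0, hY0, h⟩ := thAP_upper
  refine ⟨4 * C, by positivity, ?_⟩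
  have e1 : ∀ᶠ X : ℝ in atTop, Y0 ≤ X ^ (1 / 4 : ℝ) :=
    (tendsto_rpow_atTop (by norm_num)).eventually_ge_atTop _
  filter_upwards [e1, eventually_ge_atTop (Real.exp 8)] with X hXY hXe
  intro D D' hD hDD hD'
  have hX0 : 0 < X := lt_of_lt_of_le (Real.exp_pos 8) hXe
  have hX1 : 1 ≤ X := le_trans (Real.one_le_exp (by norm_num)) hXe
  have hX3 : 3 ≤ X := by
    have := Real.add_one_le_exp (8 : ℝ)
    linarith only [hXe, this]
  have hlog8 : 8 ≤ Real.log X := (Real.le_log_iff_exp_le hX0).mpr hXe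
  have hXX : X = X ^ (1 / 4 : ℝ) * X ^ (3 / 4 : ℝ) := by
    rw [← Real.rpow_add hX0]; norm_num
  have h1 : ∀ q ∈ (Ioc D D').filter Nat.Prime, vonMangoldt q * thAP X q ≤
      4 * C * X * (vonMangoldt q / q) := by
    intro q hq
    rw [mem_filter, mem_Ioc] at hq
    have hq0 : (0 : ℝ) < q := by exact_mod_cast hq.2.pos
    have hqX : (q : ℝ) ≤ X ^ (3 / 4 : ℝ) := le_trans (by exact_mod_cast hq.1.2) hD'
    have h2 := h X hX3 q hq.2 (by
      calc Y0 * q ≤ X ^ (1 / 4 : ℝ) * X ^ (3 / 4 : ℝ) := by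
            apply mul_le_mul hXY hqX hq0.le (by positivity)
        _ = X := hXX.symm)
    have h3 : X ^ (1 / 4 : ℝ) ≤ X / q := by
      rw [le_div_iff₀ hq0]
      calc X ^ (1 / 4 : ℝ) * q ≤ X ^ (1 / 4 : ℝ) * X ^ (3 / 4 : ℝ) :=
            mul_le_mul_of_nonneg_left hqX (by positivity)
        _ = X := hXX.symm
    have h4 : Real.log X / 4 ≤ Real.log (X / q) := by
      have := Real.log_le_log (by positivity) h3
      rw [Real.log_rpow hX0] at this
      linarith only [this]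
    have h5 : Real.log X / Real.log (X / q) ≤ 4 := by
      rw [div_le_iff₀ (by linarith only [hlog8, h4])]
      linarith only [h4]
    have h6 : 0 ≤ vonMangoldt q := vonMangoldt_nonneg
    calc vonMangoldt q * thAP X q ≤
          vonMangoldt q * (C * (X / q) * (Real.log X / Real.log (X / q))) :=
          mul_le_mul_of_nonneg_left h2 h6
      _ ≤ vonMangoldt q * (C * (X / q) * 4) := by
          apply mul_le_mul_of_nonneg_left _ h6
          exact mul_le_mul_of_nonneg_left h5 (by positivity)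
      _ = _ := by ring
  refine (sum_le_sum h1).trans ?_
  rw [← mul_sum]
  apply mul_le_mul_of_nonneg_left _ (by positivity)
  refine le_trans ?_ (mertens_Ioc hD hDD)
  apply sum_le_sum_of_subset_of_nonneg (filter_subset _ _)
  intro q _ _
  exact div_nonneg vonMangoldt_nonneg (Nat.cast_nonneg _)

lemma thAP_le_psiX {X : ℝ} (hX : 0 ≤ X) (d : ℕ) : thAP X d ≤ psiX X := by
  unfold thAP psiX
  apply sum_le_sum_of_subset_of_nonneg
  · intro m hm
    exact (mem_filter.1 (mem_filter.1 hm).1).1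
  · intro _ _ _
    exact mul_nonneg vonMangoldt_nonneg (Om_nonneg hX _)

/-- the proper prime powers -/
theorem nonprime_range {η : ℝ} (hη : 0 < η) : ∃ K : ℝ, 0 < K ∧ ∀ X : ℝ, 3 ≤ X →
    ∑ d ∈ (Icc 1 ⌊3 * X⌋₊).filter (fun d => ¬ d.Prime), vonMangoldt d * thAP X d ≤
      X * (K + η * Real.log X) := by
  classical
  obtain ⟨D, hD1, hD⟩ := nonprime_tail (show 0 < η / 48 by positivity)
  refine ⟨864 * D, by positivity, fun X hX => ?_⟩
  have he : Real.exp 1 ≤ 3 := by
    have := Real.exp_one_lt_d9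
    linarith only [this]
  have hX0 : 0 < X := by linarith
  have hlog0 : 0 ≤ Real.log X := Real.log_nonneg (by linarith)
  have hl3 : Real.log (3 * X) ≤ 2 * Real.log X := by
    rw [Real.log_mul (by norm_num) hX0.ne', two_mul]
    apply add_le_add _ le_rfl
    exact Real.log_le_log (by norm_num) hX
  have hl30 : 0 ≤ Real.log (3 * X) := Real.log_nonneg (by linarith)
  set N := ⌊3 * X⌋₊ with hN
  have hf : ∀ d, 0 ≤ vonMangoldt d * thAP X d := fun d =>
    mul_nonneg vonMangoldt_nonneg (thAP_nonneg hX0.le d)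
  have h1 : ∑ d ∈ (Icc 1 N).filter (fun d => ¬ d.Prime), vonMangoldt d * thAP X d ≤
      ∑ d ∈ Icc 1 D, vonMangoldt d * thAP X d +
      ∑ d ∈ (Ioc D N).filter (fun d => ¬ d.Prime), vonMangoldt d * thAP X d := by
    apply split_le _ hf
    intro d hd
    rw [mem_filter, mem_Icc] at hd
    rw [mem_union, mem_Icc, mem_filter, mem_Ioc]
    by_cases h : d ≤ D
    · left; exact ⟨hd.1.1, h⟩
    · right; exact ⟨⟨by omega, hd.1.2⟩, hd.2⟩
  have h2 : ∑ d ∈ Icc 1 D, vonMangoldt d * thAP X d ≤ X * (864 * D) := by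
    calc _ ≤ ∑ d ∈ Icc 1 D, vonMangoldt d * (144 * X) := by
          apply sum_le_sum
          intro d _
          apply mul_le_mul_of_nonneg_left _ vonMangoldt_nonneg
          exact (thAP_le_psiX hX0.le d).trans (psiX_upper (he.trans hX))
      _ = (∑ d ∈ Icc 1 D, vonMangoldt d) * (144 * X) := by rw [sum_mul]
      _ ≤ (6 * D) * (144 * X) := mul_le_mul_of_nonneg_right (psi_le_six D) (by positivity)
      _ = _ := by ring
  have h3 : ∑ d ∈ (Ioc D N).filter (fun d => ¬ d.Prime), vonMangoldt d * thAP X d ≤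
      X * (η * Real.log X) := by
    have h4 : ∀ d ∈ (Ioc D N).filter (fun d => ¬ d.Prime), vonMangoldt d * thAP X d ≤
        48 * Real.log X * X * (vonMangoldt d / d) := by
      intro d hd
      rw [mem_filter, mem_Ioc] at hd
      have hd1 : 1 ≤ d := by omega
      have hd0 : (0 : ℝ) < d := by exact_mod_cast hd1
      have h5 := thAP_le_card (he.trans hX) hd1
      have h6 : (((Icc 1 ⌊Real.exp 1 * (X / d)⌋₊).filter (fun k => (d * k + 1).Prime)).card : ℝ) ≤
          3 * (X / d) := by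
        calc (((Icc 1 ⌊Real.exp 1 * (X / d)⌋₊).filter (fun k => (d * k + 1).Prime)).card : ℝ)
            ≤ ((Icc 1 ⌊Real.exp 1 * (X / d)⌋₊).card : ℝ) := by
              exact_mod_cast card_filter_le _ _
          _ = (⌊Real.exp 1 * (X / d)⌋₊ : ℝ) := by rw [Nat.card_Icc, Nat.add_sub_cancel]
          _ ≤ Real.exp 1 * (X / d) := Nat.floor_le (by positivity)
          _ ≤ 3 * (X / d) := mul_le_mul_of_nonneg_right he (by positivity)
      calc vonMangoldt d * thAP X d ≤ vonMangoldt d * (8 * (2 * Real.log X) * (3 * (X / d))) := by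
            apply mul_le_mul_of_nonneg_left _ vonMangoldt_nonneg
            refine h5.trans ?_
            apply mul_le_mul _ h6 (Nat.cast_nonneg _) (by positivity)
            exact mul_le_mul_of_nonneg_left hl3 (by norm_num)
        _ = _ := by ring
    refine (sum_le_sum h4).trans ?_
    rw [← mul_sum]
    calc _ ≤ 48 * Real.log X * X * (η / 48) :=
          mul_le_mul_of_nonneg_left (hD N) (by positivity)
      _ = _ := by ring
  linarith

/-- the mass beyond the square root -/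
theorem mass : ∃ δ : ℝ, 0 < δ ∧ δ ≤ 1 / 8 ∧ ∃ c : ℝ, 0 < c ∧ ∀ᶠ X : ℝ in atTop,
    c * (X * Real.log X) ≤
      ∑ q ∈ (Ioc ⌊X ^ (1 / 2 + δ)⌋₊ ⌈X ^ (1 - δ)⌉₊).filter Nat.Prime, vonMangoldt q * thAP X q := by
  classical
  obtain ⟨c0, hc0, X0, hpsi⟩ := psiX_lower
  obtain ⟨C1, hC1, hsieve⟩ := sieve_range
  obtain ⟨C2, hC2, hlarge⟩ := large_range
  obtain ⟨K, hK, hnon⟩ := nonprime_range (show 0 < c0 / 64 by positivity)
  set δ : ℝ := min (1 / 8) (min (c0 / (64 * C1)) (c0 / (64 * C2))) with hδ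
  have hδ0 : 0 < δ := lt_min (by norm_num) (lt_min (by positivity) (by positivity))
  have hδ8 : δ ≤ 1 / 8 := min_le_left _ _
  have hδC1 : C1 * δ ≤ c0 / 64 := by
    have : δ ≤ c0 / (64 * C1) := (min_le_right _ _).trans (min_le_left _ _)
    rw [le_div_iff₀ (by positivity)] at this
    linarith
  have hδC2 : C2 * δ ≤ c0 / 64 := by
    have : δ ≤ c0 / (64 * C2) := (min_le_right _ _).trans (min_le_right _ _)
    rw [le_div_iff₀ (by positivity)] at this
    linarith only [this]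
  refine ⟨δ, hδ0, hδ8, c0 / 4, by positivity, ?_⟩
  have hlarge' := hlarge δ hδ0 (by linarith)
  have hbv := bv_range hδ0 (by linarith : δ < 1 / 4)
  have e1 : ∀ᶠ X : ℝ in atTop, (2 : ℝ) ≤ X ^ δ := (tendsto_rpow_atTop hδ0).eventually_ge_atTop _
  have e2 := ev_poly_log 1 (show (0 : ℝ) < 1 / 8 by norm_num) 2
  have e3 : ∀ᶠ X : ℝ in atTop, 64 / c0 * (1440 + 2 + K + 17 * C1 + C2 + 200) ≤ Real.log X :=
    Real.tendsto_log_atTop.eventually_ge_atTop _
  have e4 : ∀ᶠ X : ℝ in atTop, (64 : ℝ) ≤ X ^ (3 / 8 : ℝ) :=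
    (tendsto_rpow_atTop (by norm_num)).eventually_ge_atTop _
  filter_upwards [hsieve, hlarge', hbv, e1, e2, e3, e4, eventually_ge_atTop X0,
    eventually_ge_atTop (Real.exp 8)] with X hs hl hb hXδ hlog2 hbig h38 hXX0 hXe
  have hX0 : 0 < X := lt_of_lt_of_le (Real.exp_pos 8) hXe
  have hX1 : 1 ≤ X := le_trans (Real.one_le_exp (by norm_num)) hXe
  have hX3 : 3 ≤ X := by
    have := Real.add_one_le_exp (8 : ℝ)
    linarith only [hδ0, hδ8, hXe, this]
  have hXe1 : Real.exp 1 ≤ X := le_trans (Real.exp_le_exp.2 (by norm_num)) hXe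
  have hXe2 : Real.exp 2 ≤ X := le_trans (Real.exp_le_exp.2 (by norm_num)) hXe
  have hlog8 : 8 ≤ Real.log X := (Real.le_log_iff_exp_le hX0).mpr hXe
  set L := Real.log X with hL
  set P := psiX X with hP
  have hP0 : 0 ≤ P := psiX_nonneg hX0.le
  have hPup : P ≤ 144 * X := psiX_upper hXe1
  have hPlow : c0 * X ≤ P := hpsi X hXX0
  have hf : ∀ d, 0 ≤ vonMangoldt d * thAP X d := fun d =>
    mul_nonneg vonMangoldt_nonneg (thAP_nonneg hX0.le d)
  have rp : ∀ {a b : ℝ}, a ≤ b → X ^ a ≤ X ^ b := fun h =>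
    Real.rpow_le_rpow_of_exponent_le hX1 h
  set N := ⌊3 * X⌋₊ with hN
  set D1 := ⌈X ^ δ⌉₊ with hD1
  set D2 := ⌊X ^ (1 / 2 - δ)⌋₊ with hD2
  set D3 := ⌊X ^ (1 / 2 + δ)⌋₊ with hD3
  set D4 := ⌈X ^ (1 - δ)⌉₊ with hD4
  have hD1ge : X ^ δ ≤ D1 := Nat.le_ceil _
  have hD1le : (D1 : ℝ) ≤ 2 * X ^ δ := by
    have := Nat.ceil_lt_add_one (show 0 ≤ X ^ δ by positivity)
    rw [← hD1] at this
    linarith only [hδ0, hδ8, hXδ, this]
  have hD1n : 1 ≤ D1 := by
    have : (1 : ℝ) ≤ D1 := by linarith only [hδ0, hδ8, hXδ, hD1ge]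
    exact_mod_cast this
  have hD2le : (D2 : ℝ) ≤ X ^ (1 / 2 - δ) := Nat.floor_le (by positivity)
  have hD2ge : X ^ (1 / 2 - δ) / 2 ≤ D2 := by
    have h1 := Nat.lt_floor_add_one (X ^ (1 / 2 - δ))
    rw [← hD2] at h1
    have h2 : (64 : ℝ) ≤ X ^ (1 / 2 - δ) := h38.trans (rp (by linarith only [hδ8]))
    linarith only [hδ0, hδ8, h1, h2]
  have hD12 : D1 ≤ D2 := by
    have h1 : 2 * X ^ δ ≤ X ^ (1 / 2 - δ) / 2 := by
      have h2 : X ^ (1 / 2 - δ) = X ^ (1 / 2 - 2 * δ) * X ^ δ := by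
        rw [← Real.rpow_add hX0]; congr 1; ring
      have h3 : (8 : ℝ) ≤ X ^ (1 / 2 - 2 * δ) := by
        have h4 : X ^ (3 / 8 : ℝ) ≤ (X ^ (1 / 2 - 2 * δ)) ^ 2 := by
          rw [← Real.rpow_natCast, ← Real.rpow_mul hX0.le]
          apply rp
          push_cast
          linarith only [hδ0, hδ8]
        by_contra hcon
        push Not at hcon
        have h5 : 0 ≤ X ^ (1 / 2 - 2 * δ) := by positivity
        nlinarith only [h38, h4, hcon, hδ0, hδ8, hXδ, hD2le, h2]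
      rw [h2]
      nlinarith only [hXδ, h3, show 0 < X ^ δ by positivity]
    have : (D1 : ℝ) ≤ D2 := by linarith only [hD1le, hD2ge, h1]
    exact_mod_cast this
  have hD2n : 1 ≤ D2 := hD1n.trans hD12
  have hD23 : D2 ≤ D3 := by
    rw [hD2, hD3]
    apply Nat.floor_mono
    exact rp (by linarith only [hδ0])
  have hD3le : (D3 : ℝ) ≤ X ^ (1 / 2 + δ) := Nat.floor_le (by positivity)
  -- pieces
  have p1 := hs 1 D1 le_rfl hD1n (by
    refine hD1le.trans ?_
    calc 2 * X ^ δ ≤ X ^ δ * X ^ δ := mul_le_mul_of_nonneg_right hXδ (by positivity)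
      _ = X ^ (δ + δ) := by rw [Real.rpow_add hX0]
      _ ≤ X ^ (3 / 4 : ℝ) := rp (by linarith only [hδ0, hδ8]))
  have p2 := hb D1 D2 hD1ge hD12 hD2le
  have p3 := hs D2 D3 hD2n hD23 (hD3le.trans (rp (by linarith only [hδ0, hδ8])))
  have p5 := hl D4 (Nat.le_ceil _)
  have p6 := hnon X hX3
  rw [← hN, ← hL] at p6
  have p2' : ∑ q ∈ (Ioc D1 D2).filter Nat.Prime, vonMangoldt q * thAP X q ≤
      P * (Real.log (D2 / D1) + 8) + X := by
    refine le_trans ?_ p2
    apply sum_le_sum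
    intro q _
    exact mul_le_mul_of_nonneg_left (thAP_le_psiAP hX0.le q) vonMangoldt_nonneg
  -- logs
  have hl1 : Real.log ((D1 : ℝ) / (1 : ℕ)) ≤ δ * L + 1 := by
    rw [Nat.cast_one, div_one]
    have h1 := Real.log_le_log (by exact_mod_cast hD1n) hD1le
    rw [Real.log_mul (by norm_num) (by positivity), Real.log_rpow hX0] at h1
    have := Real.log_two_lt_d9
    linarith only [hδ0, hδ8, h1, this]
  have hD1r : (1 : ℝ) ≤ D1 := by exact_mod_cast hD1n
  have hD2r : (1 : ℝ) ≤ D2 := by exact_mod_cast hD2n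
  have hl2 : Real.log ((D2 : ℝ) / D1) ≤ L / 2 := by
    have h1 : (D2 : ℝ) / D1 ≤ X ^ (1 / 2 : ℝ) := by
      calc (D2 : ℝ) / D1 ≤ D2 / 1 := div_le_div_of_nonneg_left (by linarith only [hδ0, hδ8, hD2r]) one_pos hD1r
        _ = D2 := div_one _
        _ ≤ X ^ (1 / 2 - δ) := hD2le
        _ ≤ X ^ (1 / 2 : ℝ) := rp (by linarith only [hδ0])
    have h2 := Real.log_le_log (div_pos (by linarith only [hδ0, hδ8, hD2r]) (by linarith only [hδ0, hδ8, hXδ, hD1ge])) h1
    rw [Real.log_rpow hX0] at h2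
    linarith only [h2]
  have hl3 : Real.log ((D3 : ℝ) / D2) ≤ 2 * δ * L + 1 := by
    have h1 : (D3 : ℝ) / D2 ≤ 2 * X ^ (2 * δ) := by
      rw [div_le_iff₀ (by linarith only [hδ0, hδ8, hD2r])]
      have h2 : X ^ (1 / 2 + δ) = X ^ (2 * δ) * X ^ (1 / 2 - δ) := by
        rw [← Real.rpow_add hX0]; congr 1; ring
      calc (D3 : ℝ) ≤ X ^ (1 / 2 + δ) := hD3le
        _ = 2 * X ^ (2 * δ) * (X ^ (1 / 2 - δ) / 2) := by rw [h2]; ring
        _ ≤ 2 * X ^ (2 * δ) * D2 := mul_le_mul_of_nonneg_left hD2ge (by positivity)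
    have hD3r : (1 : ℝ) ≤ D3 := hD2r.trans (by exact_mod_cast hD23)
    have h2 := Real.log_le_log (div_pos (by linarith only [hδ0, hδ8, hD3r]) (by linarith only [hδ0, hδ8, hD2r])) h1
    rw [Real.log_mul (by norm_num) (by positivity), Real.log_rpow hX0] at h2
    have := Real.log_two_lt_d9
    linarith only [hδ0, hδ8, h2, this]
  -- total
  set M := ∑ q ∈ (Ioc D3 D4).filter Nat.Prime, vonMangoldt q * thAP X q with hM
  have htot : TG X ≤ ∑ q ∈ (Ioc 1 D1).filter Nat.Prime, vonMangoldt q * thAP X q +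
      (∑ q ∈ (Ioc D1 D2).filter Nat.Prime, vonMangoldt q * thAP X q +
      (∑ q ∈ (Ioc D2 D3).filter Nat.Prime, vonMangoldt q * thAP X q +
      (M + ∑ q ∈ (Ioc D4 N).filter Nat.Prime, vonMangoldt q * thAP X q))) +
      ∑ d ∈ (Icc 1 N).filter (fun d => ¬ d.Prime), vonMangoldt d * thAP X d := by
    rw [TG_eq, ← hN]
    have s0 : ∑ d ∈ Icc 1 N, vonMangoldt d * thAP X d ≤
        ∑ d ∈ (Ioc 1 N).filter Nat.Prime, vonMangoldt d * thAP X d +
        ∑ d ∈ (Icc 1 N).filter (fun d => ¬ d.Prime), vonMangoldt d * thAP X d := by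
      apply split_le _ hf
      intro d hd
      rw [mem_union, mem_filter, mem_filter, mem_Ioc]
      rw [mem_Icc] at hd
      by_cases h : d.Prime
      · left; exact ⟨⟨h.one_lt, hd.2⟩, h⟩
      · right; exact ⟨mem_Icc.2 hd, h⟩
    have s1 := split_prime _ hf 1 D1 N
    have s2 := split_prime _ hf D1 D2 N
    have s3 := split_prime _ hf D2 D3 N
    have s4 := split_prime _ hf D3 D4 N
    linarith only [s0, s1, s2, s3, s4]
  have hlow := TG_lower hXe2
  -- the small error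
  have hsmall : 16 * Real.sqrt (3 * X) * Real.log (3 * X) * L ≤ 64 * X := by
    have h1 : Real.sqrt (3 * X) ≤ 2 * Real.sqrt X := by
      rw [show (2 : ℝ) = Real.sqrt 4 by
        rw [show (4 : ℝ) = 2 ^ 2 by norm_num, Real.sqrt_sq (by norm_num)],
        ← Real.sqrt_mul (by norm_num)]
      apply Real.sqrt_le_sqrt
      linarith only [hδ0, hδ8, hX3]
    have h2 : Real.log (3 * X) ≤ 2 * L := by
      rw [Real.log_mul (by norm_num) hX0.ne', two_mul]
      apply add_le_add _ le_rfl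
      exact Real.log_le_log (by norm_num) hX3
    have h3 : L ^ 2 ≤ Real.sqrt X := by
      rw [one_mul] at hlog2
      refine hlog2.trans ?_
      rw [Real.sqrt_eq_rpow]
      exact rp (by norm_num)
    have h4 : 0 ≤ Real.log (3 * X) := Real.log_nonneg (by linarith only [hδ0, hδ8, hX3])
    have h5 : 0 ≤ Real.sqrt X := Real.sqrt_nonneg _
    calc 16 * Real.sqrt (3 * X) * Real.log (3 * X) * L ≤
          16 * (2 * Real.sqrt X) * (2 * L) * L := by (clear * - h1 h2 h4 hX0 hlog8; gcongr)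
      _ = 64 * Real.sqrt X * L ^ 2 := by ring
      _ ≤ 64 * Real.sqrt X * Real.sqrt X := mul_le_mul_of_nonneg_left h3 (by positivity)
      _ = 64 * X := by rw [mul_assoc, Real.mul_self_sqrt hX0.le]
  have hlow' : L * P - 2 * P - 64 * X ≤ TG X := by
    have h1 : 0 ≤ 16 * Real.sqrt (3 * X) * Real.log (3 * X) := by
      have : 0 ≤ Real.log (3 * X) := Real.log_nonneg (by linarith only [hδ0, hδ8, hX3])
      (clear * - hX0 this; positivity)
    have h2 : (L - 2) * (P - 16 * Real.sqrt (3 * X) * Real.log (3 * X)) =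
        L * P - 2 * P - 16 * Real.sqrt (3 * X) * Real.log (3 * X) * L +
        2 * (16 * Real.sqrt (3 * X) * Real.log (3 * X)) := by ring
    rw [h2] at hlow
    linarith only [hlow, hsmall, h1]
  -- combine
  have q1 : ∑ q ∈ (Ioc 1 D1).filter Nat.Prime, vonMangoldt q * thAP X q ≤
      C1 * X * (δ * L + 8) := by
    refine p1.trans ?_
    apply mul_le_mul_of_nonneg_left _ (by positivity)
    linarith only [hl1]
  have q2 : ∑ q ∈ (Ioc D1 D2).filter Nat.Prime, vonMangoldt q * thAP X q ≤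
      P * (L / 2 + 8) + X := by
    refine p2'.trans ?_
    have : P * (Real.log (D2 / D1) + 8) ≤ P * (L / 2 + 8) :=
      mul_le_mul_of_nonneg_left (by linarith only [hl2]) hP0
    linarith only [this]
  have q3 : ∑ q ∈ (Ioc D2 D3).filter Nat.Prime, vonMangoldt q * thAP X q ≤
      C1 * X * (2 * δ * L + 8) := by
    refine p3.trans ?_
    apply mul_le_mul_of_nonneg_left _ (by positivity)
    linarith only [hl3]
  have hXL : 0 ≤ X * L := by positivity
  have r1 : C1 * X * (δ * L + 8) ≤ c0 / 64 * (X * L) + 8 * C1 * X := by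
    have : C1 * δ * (X * L) ≤ c0 / 64 * (X * L) := mul_le_mul_of_nonneg_right hδC1 hXL
    calc C1 * X * (δ * L + 8) = C1 * δ * (X * L) + 8 * C1 * X := by ring
      _ ≤ _ := by linarith only [this]
  have r3 : C1 * X * (2 * δ * L + 8) ≤ 2 * (c0 / 64 * (X * L)) + 8 * C1 * X := by
    have : C1 * δ * (X * L) ≤ c0 / 64 * (X * L) := mul_le_mul_of_nonneg_right hδC1 hXL
    calc C1 * X * (2 * δ * L + 8) = 2 * (C1 * δ * (X * L)) + 8 * C1 * X := by ring
      _ ≤ _ := by linarith only [r1]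
  have r5 : C2 * X * (1 + δ * L) ≤ c0 / 64 * (X * L) + C2 * X := by
    have : C2 * δ * (X * L) ≤ c0 / 64 * (X * L) := mul_le_mul_of_nonneg_right hδC2 hXL
    calc C2 * X * (1 + δ * L) = C2 * δ * (X * L) + C2 * X := by ring
      _ ≤ _ := by linarith only [this]
  have r6 : X * (K + c0 / 64 * L) = K * X + c0 / 64 * (X * L) := by ring
  have rP : c0 / 2 * (X * L) ≤ P * L / 2 := by
    have : c0 * X * L ≤ P * L := mul_le_mul_of_nonneg_right hPlow (by linarith only [hδ0, hδ8, hlog8])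
    linarith only [this]
  have hbig' : (1440 + 2 + K + 17 * C1 + C2 + 200) * X ≤ c0 / 64 * (X * L) := by
    have h1 : (1440 + 2 + K + 17 * C1 + C2 + 200) ≤ c0 / 64 * L := by
      have h2 : 64 / c0 * (1440 + 2 + K + 17 * C1 + C2 + 200) * (c0 / 64) ≤ L * (c0 / 64) :=
        mul_le_mul_of_nonneg_right hbig (by positivity)
      have h3 : 64 / c0 * (1440 + 2 + K + 17 * C1 + C2 + 200) * (c0 / 64) =
          (1440 + 2 + K + 17 * C1 + C2 + 200) := by field_simp
      linarith only [h2, h3]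
    calc _ ≤ c0 / 64 * L * X := mul_le_mul_of_nonneg_right h1 hX0.le
      _ = _ := by ring
  have hexp : (1440 + 2 + K + 17 * C1 + C2 + 200) * X =
      1440 * X + 2 * X + K * X + 17 * (C1 * X) + C2 * X + 200 * X := by ring
  have hC1X : 0 ≤ C1 * X := by positivity
  have e8 : 8 * C1 * X = 8 * (C1 * X) := by ring
  have e9 : P * (L / 2 + 8) = P * L / 2 + 8 * P := by ring
  have e10 : L * P = P * L := mul_comm _ _
  have fin : c0 / 2 * (X * L) - 6 * (c0 / 64 * (X * L)) ≤ M := by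
    rw [e8] at r1 r3
    rw [e9] at q2
    rw [e10] at hlow'
    linarith only [hδ0, hδ8, hX3, hPup, p5, p6, htot, hlow', q1, q2, q3, r1, r5, rP, hbig', hC1X]
  have : c0 / 2 * (X * L) - 6 * (c0 / 64 * (X * L)) = c0 / 4 * (X * L) + 10 * (c0 / 64 * (X * L)) := by
    ring
  have h0 : 0 ≤ c0 / 64 * (X * L) := by positivity
  linarith only [hδ0, hδ8, hX3, hPup, p5, p6, htot, hlow', q1, q2, q3, r1, r5, rP, hbig', hC1X, h0]

end Pool.Agent.MPbca
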