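import Pool.Agent.Lib.MP_bca3e5_nt.Gf6

set_option autoImplicit false

/-!
Many good scales.
-/

namespace Pool.Agent.MPbca

open Finset ArithmeticFunction Filter
open Pool.Agent.MP89da58 (tri cX Om psiAP psiX Om_nonneg Om_le Om_eq_zero_of_large
  Om_eq_zero_of_small psiX_lower)

lemma sum_biUnion_le' {ι : Type*} (f : ℕ → ℝ) (hf : ∀ d, 0 ≤ f d) (s : Finset ι)
    (t : ι → Finset ℕ) : ∑ d ∈ s.biUnion t, f d ≤ ∑ k ∈ s, ∑ d ∈ t k, f d := by
  classical
  induction s using Finset.induction_on with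
  | empty => simp
  | insert a s ha ih =>
    rw [sum_insert ha, biUnion_insert]
    exact (split_le f hf (le_refl _)).trans (by linarith)

/-- the mass of one scale -/
noncomputable def mk (X : ℝ) (k : ℕ) : ℝ :=
  ∑ q ∈ (Ioc (2 ^ (k - 1)) (2 ^ k)).filter Nat.Prime, vonMangoldt q * thAP X q

/-- the upper bound for one scale -/
theorem mk_upper {δ : ℝ} (hδ : 0 < δ) (hδ1 : δ ≤ 1 / 8) : ∃ B : ℝ, 0 < B ∧ ∀ᶠ X : ℝ in atTop,
    ∀ k : ℕ, (2 : ℝ) ^ k ≤ 2 * X ^ (1 - δ) → mk X k ≤ B * X := by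
  classical
  obtain ⟨C, hC, Y0, hY0, h⟩ := thAP_upper
  refine ⟨16 * C / δ, by positivity, ?_⟩
  have e1 : ∀ᶠ X : ℝ in atTop, max Y0 2 ≤ X ^ (δ / 4) :=
    (tendsto_rpow_atTop (by positivity)).eventually_ge_atTop _
  filter_upwards [e1, eventually_ge_atTop (Real.exp 8)] with X hXY hXe
  intro k hk
  have hX0 : 0 < X := lt_of_lt_of_le (Real.exp_pos 8) hXe
  have hX1 : 1 ≤ X := le_trans (Real.one_le_exp (by norm_num)) hXe
  have hX3 : 3 ≤ X := by
    have := Real.add_one_le_exp (8 : ℝ)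
    linarith
  have hlog8 : 8 ≤ Real.log X := (Real.le_log_iff_exp_le hX0).mpr hXe
  have hXY0 : Y0 ≤ X ^ (δ / 4) := le_trans (le_max_left _ _) hXY
  have hX2 : 2 ≤ X ^ (δ / 4) := le_trans (le_max_right _ _) hXY
  have hXX : X = X ^ (δ / 4) * (X ^ (δ / 4) * (X ^ (δ / 2) * X ^ (1 - δ))) := by
    rw [← Real.rpow_add hX0, ← Real.rpow_add hX0, ← Real.rpow_add hX0]
    have : δ / 4 + (δ / 4 + (δ / 2 + (1 - δ))) = 1 := by ring
    rw [this, Real.rpow_one]
  have h1 : ∀ q ∈ (Ioc (2 ^ (k - 1)) (2 ^ k)).filter Nat.Prime, vonMangoldt q * thAP X q ≤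
      2 * C / δ * X * (vonMangoldt q / q) := by
    intro q hq
    rw [mem_filter, mem_Ioc] at hq
    have hq0 : (0 : ℝ) < q := by exact_mod_cast hq.2.pos
    have hqX : (q : ℝ) ≤ X ^ (δ / 4) * X ^ (1 - δ) := by
      have h2 : (q : ℝ) ≤ 2 ^ k := by exact_mod_cast hq.1.2
      refine (h2.trans hk).trans ?_
      exact mul_le_mul_of_nonneg_right hX2 (by positivity)
    have h2 := h X hX3 q hq.2 (by
      have h3 : 1 ≤ X ^ (δ / 2) := Real.one_le_rpow hX1 (by positivity)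
      calc Y0 * q ≤ X ^ (δ / 4) * (X ^ (δ / 4) * X ^ (1 - δ)) := by
            apply mul_le_mul hXY0 hqX hq0.le (by positivity)
        _ = X ^ (δ / 4) * (X ^ (δ / 4) * (1 * X ^ (1 - δ))) := by ring
        _ ≤ X ^ (δ / 4) * (X ^ (δ / 4) * (X ^ (δ / 2) * X ^ (1 - δ))) := by gcongr
        _ = X := hXX.symm)
    have h3 : X ^ (δ / 2) ≤ X / q := by
      rw [le_div_iff₀ hq0]
      have h4 : 1 ≤ X ^ (δ / 4) := Real.one_le_rpow hX1 (by positivity)
      calc X ^ (δ / 2) * q ≤ X ^ (δ / 2) * (X ^ (δ / 4) * X ^ (1 - δ)) :=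
            mul_le_mul_of_nonneg_left hqX (by positivity)
        _ = 1 * (X ^ (δ / 4) * (X ^ (δ / 2) * X ^ (1 - δ))) := by ring
        _ ≤ X ^ (δ / 4) * (X ^ (δ / 4) * (X ^ (δ / 2) * X ^ (1 - δ))) := by gcongr
        _ = X := hXX.symm
    have h4 : δ / 2 * Real.log X ≤ Real.log (X / q) := by
      have := Real.log_le_log (by positivity) h3
      rwa [Real.log_rpow hX0] at this
    have h4' : 0 < δ / 2 * Real.log X := by positivity
    have h5 : Real.log X / Real.log (X / q) ≤ 2 / δ := by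
      rw [div_le_iff₀ (by linarith)]
      calc Real.log X = 2 / δ * (δ / 2 * Real.log X) := by field_simp
        _ ≤ _ := mul_le_mul_of_nonneg_left h4 (by positivity)
    have h6 : 0 ≤ vonMangoldt q := vonMangoldt_nonneg
    calc vonMangoldt q * thAP X q ≤
          vonMangoldt q * (C * (X / q) * (Real.log X / Real.log (X / q))) :=
          mul_le_mul_of_nonneg_left h2 h6
      _ ≤ vonMangoldt q * (C * (X / q) * (2 / δ)) := by
          apply mul_le_mul_of_nonneg_left _ h6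
          exact mul_le_mul_of_nonneg_left h5 (by positivity)
      _ = _ := by ring
  unfold mk
  refine (sum_le_sum h1).trans ?_
  rw [← mul_sum]
  have h2 : ∑ q ∈ (Ioc (2 ^ (k - 1)) (2 ^ k)).filter Nat.Prime, vonMangoldt q / (q : ℝ) ≤ 8 := by
    have h3 := mertens_Ioc (D1 := 2 ^ (k - 1)) (D2 := 2 ^ k) Nat.one_le_two_pow
      (Nat.pow_le_pow_right (by norm_num) (by omega))
    have h4 : Real.log (((2 ^ k : ℕ) : ℝ) / ((2 ^ (k - 1) : ℕ) : ℝ)) ≤ 1 := by
      have h5 : (((2 ^ k : ℕ) : ℝ) / ((2 ^ (k - 1) : ℕ) : ℝ)) ≤ 2 := by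
        rw [div_le_iff₀ (by positivity)]
        have h6 : 2 ^ k ≤ 2 * 2 ^ (k - 1) := by
          rcases Nat.eq_zero_or_pos k with h | h
          · subst h; simp
          · obtain ⟨j, rfl⟩ : ∃ j, k = j + 1 := ⟨k - 1, by omega⟩
            rw [Nat.add_sub_cancel, pow_succ]
            omega
        exact_mod_cast h6
      have h7 := Real.log_le_log (by positivity) h5
      have := Real.log_two_lt_d9
      linarith
    have h5 : ∑ q ∈ (Ioc (2 ^ (k - 1)) (2 ^ k)).filter Nat.Prime, vonMangoldt q / (q : ℝ) ≤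
        ∑ q ∈ Ioc (2 ^ (k - 1)) (2 ^ k), vonMangoldt q / (q : ℝ) := by
      apply sum_le_sum_of_subset_of_nonneg (filter_subset _ _)
      intro q _ _
      exact div_nonneg vonMangoldt_nonneg (Nat.cast_nonneg _)
    linarith
  calc _ ≤ 2 * C / δ * X * 8 := mul_le_mul_of_nonneg_left h2 (by positivity)
    _ = _ := by ring

/-- many good scales -/
theorem scales : ∃ δ : ℝ, 0 < δ ∧ δ ≤ 1 / 8 ∧ ∃ c : ℝ, 0 < c ∧ ∀ᶠ X : ℝ in atTop,
    c * Real.log X ≤ (((range (⌊Real.log X / Real.log 2⌋₊ + 1)).filter (fun k : ℕ =>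
      X ^ (1 / 2 + δ) ≤ (2 : ℝ) ^ k ∧ (2 : ℝ) ^ k ≤ X ^ (1 - δ) ∧ c * X ≤ mk X k)).card : ℝ) := by
  classical
  obtain ⟨δ, hδ0, hδ8, c, hc, hmass⟩ := mass
  obtain ⟨B, hB, hmk⟩ := mk_upper hδ0 hδ8
  set c1 : ℝ := min (c / 6) (c / (2 * B)) with hc1
  have hc10 : 0 < c1 := lt_min (by positivity) (by positivity)
  refine ⟨δ / 2, by positivity, by linarith, c1, hc10, ?_⟩
  have e1 : ∀ᶠ X : ℝ in atTop, (2 : ℝ) ≤ X ^ (δ / 2) :=
    (tendsto_rpow_atTop (by positivity)).eventually_ge_atTop _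
  filter_upwards [hmass, hmk, e1, eventually_ge_atTop (Real.exp 8)] with X hM hmkX hXδ hXe
  have hX0 : 0 < X := lt_of_lt_of_le (Real.exp_pos 8) hXe
  have hX1 : 1 ≤ X := le_trans (Real.one_le_exp (by norm_num)) hXe
  have hlog8 : 8 ≤ Real.log X := (Real.le_log_iff_exp_le hX0).mpr hXe
  set L := Real.log X with hL
  have rp : ∀ {a b : ℝ}, a ≤ b → X ^ a ≤ X ^ b := fun h =>
    Real.rpow_le_rpow_of_exponent_le hX1 h
  have hlog2 : 0 < Real.log 2 := Real.log_pos (by norm_num)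
  have hf : ∀ d, 0 ≤ vonMangoldt d * thAP X d := fun d =>
    mul_nonneg vonMangoldt_nonneg (thAP_nonneg hX0.le d)
  have hmk0 : ∀ k, 0 ≤ mk X k := fun k => sum_nonneg fun _ _ => hf _
  set N := ⌊L / Real.log 2⌋₊ + 1 with hN
  have h2X : ∀ k : ℕ, (2 : ℝ) ^ k ≤ X → k < N := by
    intro k hk
    have h1 := Real.log_le_log (by positivity) hk
    rw [Real.log_pow] at h1
    rw [hN, Nat.lt_succ_iff, Nat.le_floor_iff (by positivity), le_div_iff₀ hlog2]
    exact h1
  -- the scales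
  have hXd : 2 * X ^ (1 - δ) ≤ X ^ (1 - δ / 2) := by
    calc 2 * X ^ (1 - δ) ≤ X ^ (δ / 2) * X ^ (1 - δ) :=
          mul_le_mul_of_nonneg_right hXδ (by positivity)
      _ = X ^ (1 - δ / 2) := by
          rw [← Real.rpow_add hX0]; congr 1; ring
  set K' := (range N).filter (fun k : ℕ => X ^ (1 / 2 + δ) ≤ (2 : ℝ) ^ k ∧
    (2 : ℝ) ^ k ≤ 2 * X ^ (1 - δ)) with hK'
  have hcover : ∑ q ∈ (Ioc ⌊X ^ (1 / 2 + δ)⌋₊ ⌈X ^ (1 - δ)⌉₊).filter Nat.Prime,
      vonMangoldt q * thAP X q ≤ ∑ k ∈ K', mk X k := by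
    have h1 : (Ioc ⌊X ^ (1 / 2 + δ)⌋₊ ⌈X ^ (1 - δ)⌉₊).filter Nat.Prime ⊆
        K'.biUnion (fun k => (Ioc (2 ^ (k - 1)) (2 ^ k)).filter Nat.Prime) := by
      intro q hq
      rw [mem_filter, mem_Ioc] at hq
      rw [mem_biUnion]
      have hq2 : 1 < q := hq.2.one_lt
      have h3 : q ≤ 2 ^ (Nat.clog 2 q) := Nat.le_pow_clog (by norm_num) q
      have h4 : 2 ^ (Nat.clog 2 q).pred < q := Nat.pow_pred_clog_lt_self (by norm_num) hq2
      have h5 : 0 < Nat.clog 2 q := Nat.clog_pos (by norm_num) (by omega)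
      refine ⟨Nat.clog 2 q, ?_, ?_⟩
      · rw [hK', mem_filter, mem_range]
        have h6 : X ^ (1 / 2 + δ) ≤ (2 : ℝ) ^ (Nat.clog 2 q) := by
          have h7 : X ^ (1 / 2 + δ) < q := (Nat.floor_lt (by positivity)).1 hq.1.1
          have h8 : (q : ℝ) ≤ 2 ^ (Nat.clog 2 q) := by exact_mod_cast h3
          linarith
        have h7 : (2 : ℝ) ^ (Nat.clog 2 q) ≤ 2 * X ^ (1 - δ) := by
          have h8 : 2 ^ (Nat.clog 2 q).pred < ⌈X ^ (1 - δ)⌉₊ := lt_of_lt_of_le h4 hq.1.2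
          rw [Nat.lt_ceil] at h8
          obtain ⟨j, hj⟩ : ∃ j, Nat.clog 2 q = j + 1 := ⟨Nat.clog 2 q - 1, by omega⟩
          rw [hj] at h8 ⊢
          rw [Nat.pred_succ] at h8
          push_cast at h8
          rw [pow_succ]
          linarith
        refine ⟨h2X _ ?_, h6, h7⟩
        refine (h7.trans hXd).trans ?_
        calc X ^ (1 - δ / 2) ≤ X ^ (1 : ℝ) := rp (by linarith)
          _ = X := Real.rpow_one X
      · rw [mem_filter, mem_Ioc]
        exact ⟨⟨h4, h3⟩, hq.2⟩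
    refine (sum_le_sum_of_subset_of_nonneg h1 fun _ _ _ => hf _).trans ?_
    unfold mk
    exact sum_biUnion_le' _ hf K' _
  -- the number of scales
  have hKcard : (K'.card : ℝ) ≤ 3 * L := by
    have h1 : K'.card ≤ N := by
      refine (card_filter_le _ _).trans ?_
      rw [card_range]
    have h2 : (N : ℝ) ≤ 3 * L := by
      rw [hN]
      push_cast
      have h3 : (⌊L / Real.log 2⌋₊ : ℝ) ≤ L / Real.log 2 := Nat.floor_le (by positivity)
      have h4 : L / Real.log 2 ≤ 2 * L := by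
        rw [div_le_iff₀ hlog2]
        have := Real.log_two_gt_d9
        nlinarith
      linarith
    have h3 : (K'.card : ℝ) ≤ N := by exact_mod_cast h1
    linarith
  -- the good scales
  set G := K'.filter (fun k => c1 * X ≤ mk X k) with hG
  have hbad : ∑ k ∈ K'.filter (fun k => ¬ c1 * X ≤ mk X k), mk X k ≤ c / 2 * (X * L) := by
    calc _ ≤ ∑ k ∈ K'.filter (fun k => ¬ c1 * X ≤ mk X k), c1 * X := by
          apply sum_le_sum
          intro k hk
          rw [mem_filter, not_le] at hk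
          exact hk.2.le
      _ = ((K'.filter (fun k => ¬ c1 * X ≤ mk X k)).card : ℝ) * (c1 * X) := by
          rw [sum_const, nsmul_eq_mul]
      _ ≤ (3 * L) * (c1 * X) := by
          apply mul_le_mul_of_nonneg_right _ (by positivity)
          refine le_trans ?_ hKcard
          exact_mod_cast card_filter_le _ _
      _ ≤ (3 * L) * (c / 6 * X) := by
          apply mul_le_mul_of_nonneg_left _ (by positivity)
          exact mul_le_mul_of_nonneg_right (min_le_left _ _) hX0.le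
      _ = _ := by ring
  have hgood : c / 2 * (X * L) ≤ ∑ k ∈ G, mk X k := by
    have h1 := Finset.sum_filter_add_sum_filter_not K' (fun k => c1 * X ≤ mk X k) (mk X)
    rw [← hG] at h1
    linarith
  have hgood2 : ∑ k ∈ G, mk X k ≤ (G.card : ℝ) * (B * X) := by
    rw [← nsmul_eq_mul]
    apply Finset.sum_le_card_nsmul
    intro k hk
    rw [hG, mem_filter, hK', mem_filter] at hk
    exact hmkX k hk.1.2.2
  have hGcard : c / (2 * B) * L ≤ G.card := by
    have h1 : c / 2 * (X * L) ≤ (G.card : ℝ) * (B * X) := hgood.trans hgood2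
    have h2 : c / 2 * (X * L) = c / (2 * B) * L * (B * X) := by
      field_simp
    rw [h2] at h1
    exact le_of_mul_le_mul_right h1 (by positivity)
  have hsub : G ⊆ (range N).filter (fun k : ℕ =>
      X ^ (1 / 2 + δ / 2) ≤ (2 : ℝ) ^ k ∧ (2 : ℝ) ^ k ≤ X ^ (1 - δ / 2) ∧ c1 * X ≤ mk X k) := by
    intro k hk
    rw [hG, mem_filter, hK', mem_filter] at hk
    rw [mem_filter]
    refine ⟨hk.1.1, (rp (by linarith)).trans hk.1.2.1, hk.1.2.2.trans hXd, hk.2⟩
  calc c1 * L ≤ c / (2 * B) * L := mul_le_mul_of_nonneg_right (min_le_right _ _) (by linarith)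
    _ ≤ G.card := hGcard
    _ ≤ _ := by exact_mod_cast card_le_card hsub

end Pool.Agent.MPbca
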