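import Pool.Agent.Lib.MP_bca3e5_nt.LS1

set_option autoImplicit false

/-!
The large sieve inequality for the nonprincipal characters to prime moduli.
-/

namespace Pool.Agent.MPbca

open Finset

section prime

variable {p : ℕ} [hp : Fact p.Prime]

/-- the exponential sum at `a / p` -/
noncomputable def TT (N : ℕ) (x : ℕ → ℂ) (a : ZMod p) : ℂ :=
  ∑ n ∈ Icc 1 N, x n * ZMod.stdAddChar (a * (n : ZMod p))

lemma TT_eq (N : ℕ) (x : ℕ → ℂ) (a : ℕ) : TT N x (a : ZMod p) = SS N x ((a : ℝ) / p) := by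
  unfold TT SS
  apply sum_congr rfl
  intro n _
  congr 1
  have h1 : ((a : ZMod p) * (n : ZMod p)) = (((a * n : ℕ) : ℤ) : ZMod p) := by push_cast; ring
  rw [h1, ZMod.stdAddChar_coe]
  unfold ee
  congr 1
  push_cast
  ring

lemma normSq_gauss (χ : DirichletCharacter ℂ p) (hχ : χ ≠ 1) :
    ‖gaussSum χ (ZMod.stdAddChar (N := p))‖ ^ 2 = p := by
  have h1 := gaussSum_mul_gaussSum_eq_card hχ (ZMod.isPrimitive_stdAddChar p)
  have h2 := star_gaussSum_eq χ (ZMod.stdAddChar (N := p))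
  rw [← h2, ZMod.card] at h1
  have h3 : ((‖gaussSum χ (ZMod.stdAddChar (N := p))‖ ^ 2 : ℝ) : ℂ) = ((p : ℝ) : ℂ) := by
    push_cast
    rw [← Complex.mul_conj']
    exact h1
  exact_mod_cast h3

lemma char_mul_gauss (χ : DirichletCharacter ℂ p) (hχ : χ ≠ 1) (n : ZMod p) :
    χ n * gaussSum χ⁻¹ (ZMod.stdAddChar (N := p)) =
      ∑ a : ZMod p, χ⁻¹ a * ZMod.stdAddChar (a * n) := by
  by_cases hn : n = 0
  · subst hn
    have h1 : χ (0 : ZMod p) = 0 := MulChar.map_zero χ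
    rw [h1, zero_mul]
    simp only [mul_zero, AddChar.map_zero_eq_one, mul_one]
    exact (MulChar.sum_eq_zero_of_ne_one (inv_ne_one.2 hχ)).symm
  · have hu : IsUnit n := (isUnit_iff_ne_zero).2 hn
    obtain ⟨u, rfl⟩ := hu
    have h1 := gaussSum_mulShift_eq χ⁻¹ (ZMod.stdAddChar (N := p)) u
    rw [inv_inv] at h1
    rw [← h1]
    unfold gaussSum
    apply sum_congr rfl
    intro a _
    rw [AddChar.mulShift_apply, mul_comm (u : ZMod p)]

lemma char_sum_mul_gauss (N : ℕ) (x : ℕ → ℂ) (χ : DirichletCharacter ℂ p) (hχ : χ ≠ 1) :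
    (∑ n ∈ Icc 1 N, x n * χ (n : ZMod p)) * gaussSum χ⁻¹ (ZMod.stdAddChar (N := p)) =
      ∑ a : ZMod p, χ⁻¹ a * TT N x a := by
  unfold TT
  simp_rw [mul_sum]
  rw [sum_comm, sum_mul]
  apply sum_congr rfl
  intro n _
  rw [mul_assoc, char_mul_gauss χ hχ, mul_sum]
  apply sum_congr rfl
  intro a _
  ring

/-- orthogonality -/
lemma sum_char_sq (T : ZMod p → ℂ) :
    ∑ χ : DirichletCharacter ℂ p, ‖∑ a : ZMod p, χ⁻¹ a * T a‖ ^ 2 =
      ((p : ℝ) - 1) * ∑ a ∈ (Finset.univ : Finset (ZMod p)).filter (fun a => a ≠ 0), ‖T a‖ ^ 2 := by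
  classical
  have h1 : ∀ χ : DirichletCharacter ℂ p, ((‖∑ a : ZMod p, χ⁻¹ a * T a‖ ^ 2 : ℝ) : ℂ) =
      ∑ a : ZMod p, ∑ b : ZMod p, (T a * (starRingEnd ℂ) (T b)) * (χ a⁻¹ * χ b) := by
    intro χ
    push_cast
    rw [← Complex.mul_conj', map_sum, sum_mul_sum]
    apply sum_congr rfl
    intro a _
    apply sum_congr rfl
    intro b _
    rw [map_mul]
    have h2 : (starRingEnd ℂ) (χ⁻¹ b) = χ b := by
      have := MulChar.star_apply' χ⁻¹ b
      rw [inv_inv] at this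
      exact this
    rw [h2, MulChar.inv_apply']
    ring
  have h3 : ((∑ χ : DirichletCharacter ℂ p, ‖∑ a : ZMod p, χ⁻¹ a * T a‖ ^ 2 : ℝ) : ℂ) =
      ((((p : ℝ) - 1) * ∑ a ∈ (Finset.univ : Finset (ZMod p)).filter (fun a => a ≠ 0),
        ‖T a‖ ^ 2 : ℝ) : ℂ) := by
    rw [Complex.ofReal_sum]
    simp_rw [h1]
    rw [sum_comm]
    have h4 : ∀ a : ZMod p, ∑ χ : DirichletCharacter ℂ p, ∑ b : ZMod p,
        (T a * (starRingEnd ℂ) (T b)) * (χ a⁻¹ * χ b) =
        if a ≠ 0 then (((p : ℝ) - 1 : ℝ) : ℂ) * ((‖T a‖ ^ 2 : ℝ) : ℂ) else 0 := by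
      intro a
      rw [sum_comm]
      simp_rw [← mul_sum]
      split_ifs with ha
      · have hu : IsUnit a := isUnit_iff_ne_zero.2 ha
        have h5 : ∀ b : ZMod p, ∑ χ : DirichletCharacter ℂ p, χ a⁻¹ * χ b =
            if a = b then ((p : ℂ) - 1) else 0 := by
          intro b
          rw [DirichletCharacter.sum_char_inv_mul_char_eq ℂ hu b, Nat.totient_prime hp.out]
          split_ifs
          · rw [Nat.cast_sub hp.out.one_le]; simp
          · rfl
        simp_rw [h5]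
        simp only [mul_ite, mul_zero]
        rw [Finset.sum_ite_eq, if_pos (Finset.mem_univ _), Complex.mul_conj']
        push_cast
        ring
      · push Not at ha
        subst ha
        simp only [inv_zero]
        have h6 : ∀ χ : DirichletCharacter ℂ p, χ (0 : ZMod p) = 0 := fun χ => MulChar.map_zero χ
        simp [h6]
    rw [sum_congr rfl fun a _ => h4 a, ← sum_filter, ← mul_sum]
    push_cast
    rfl
  exact_mod_cast h3

lemma sum_nonzero (f : ZMod p → ℝ) :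
    ∑ a ∈ (Finset.univ : Finset (ZMod p)).filter (fun a => a ≠ 0), f a =
      ∑ a ∈ Icc 1 (p - 1), f (a : ZMod p) := by
  classical
  symm
  refine Finset.sum_nbij (fun a : ℕ => (a : ZMod p)) ?_ ?_ ?_ ?_
  · intro a ha
    rw [mem_Icc] at ha
    rw [mem_filter]
    refine ⟨Finset.mem_univ _, ?_⟩
    rw [Ne, ZMod.natCast_eq_zero_iff]
    intro h
    have := Nat.le_of_dvd (by omega) h
    have := hp.out.one_lt
    omega
  · intro a ha b hb hab
    simp only [coe_Icc, Set.mem_Icc] at ha hb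
    have hp1 := hp.out.one_lt
    have := (ZMod.natCast_eq_natCast_iff a b p).mp hab
    rw [Nat.ModEq, Nat.mod_eq_of_lt (by omega), Nat.mod_eq_of_lt (by omega)] at this
    exact this
  · intro a ha
    simp only [coe_filter, Finset.mem_univ, true_and, Set.mem_ofPred_eq] at ha
    refine ⟨a.val, ?_, ZMod.natCast_zmod_val a⟩
    simp only [coe_Icc, Set.mem_Icc]
    have h1 := ZMod.val_lt a
    have h2 : a.val ≠ 0 := by rwa [Ne, ZMod.val_eq_zero]
    omega
  · intro a _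
    rfl

open scoped Classical in
/-- one prime modulus -/
lemma sum_char_prime_le (N : ℕ) (x : ℕ → ℂ) :
    ∑ χ ∈ (Finset.univ : Finset (DirichletCharacter ℂ p)).filter (fun χ => χ ≠ 1),
      ‖∑ n ∈ Icc 1 N, x n * χ (n : ZMod p)‖ ^ 2 ≤
      ∑ a ∈ Icc 1 (p - 1), ‖SS N x ((a : ℝ) / p)‖ ^ 2 := by
  have hp0 : (0 : ℝ) < p := by exact_mod_cast hp.out.pos
  have hp1 : (1 : ℝ) ≤ p := by exact_mod_cast hp.out.one_le
  have h1 : ∀ χ ∈ (Finset.univ : Finset (DirichletCharacter ℂ p)).filter (fun χ => χ ≠ 1),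
      ‖∑ n ∈ Icc 1 N, x n * χ (n : ZMod p)‖ ^ 2 = (p : ℝ)⁻¹ * ‖∑ a : ZMod p, χ⁻¹ a * TT N x a‖ ^ 2 := by
    intro χ hχ
    have hne := (mem_filter.1 hχ).2
    rw [← char_sum_mul_gauss N x χ hne, norm_mul, mul_pow, normSq_gauss _ (inv_ne_one.2 hne)]
    field_simp
  rw [sum_congr rfl h1, ← mul_sum]
  have h2 : ∑ χ ∈ (Finset.univ : Finset (DirichletCharacter ℂ p)).filter (fun χ => χ ≠ 1),
      ‖∑ a : ZMod p, χ⁻¹ a * TT N x a‖ ^ 2 ≤
      ∑ χ : DirichletCharacter ℂ p, ‖∑ a : ZMod p, χ⁻¹ a * TT N x a‖ ^ 2 :=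
    sum_le_sum_of_subset_of_nonneg (filter_subset _ _) fun _ _ _ => by positivity
  rw [sum_char_sq, sum_nonzero] at h2
  simp_rw [TT_eq] at h2
  calc (p : ℝ)⁻¹ * _ ≤ (p : ℝ)⁻¹ * (((p : ℝ) - 1) * ∑ a ∈ Icc 1 (p - 1), ‖SS N x ((a : ℝ) / p)‖ ^ 2) :=
        mul_le_mul_of_nonneg_left h2 (by positivity)
    _ = (((p : ℝ) - 1) / p) * ∑ a ∈ Icc 1 (p - 1), ‖SS N x ((a : ℝ) / p)‖ ^ 2 := by ring
    _ ≤ 1 * ∑ a ∈ Icc 1 (p - 1), ‖SS N x ((a : ℝ) / p)‖ ^ 2 := by
        apply mul_le_mul_of_nonneg_right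
        · rw [div_le_one hp0]; linarith
        · exact sum_nonneg fun _ _ => by positivity
    _ = _ := one_mul _

end prime

open scoped Classical in
/-- the nonprincipal characters to prime moduli at most `Q` -/
noncomputable def pChars (Q : ℕ) : Finset (Σ q, DirichletCharacter ℂ q) :=
  ((Icc 1 Q).filter Nat.Prime).sigma fun r => (Finset.univ : Finset (DirichletCharacter ℂ r)).filter
    fun χ => χ ≠ 1

lemma mem_pChars {Q : ℕ} {p : Σ q, DirichletCharacter ℂ q} (h : p ∈ pChars Q) :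
    p.1.Prime ∧ p.1 ≤ Q ∧ p.2 ≠ 1 := by
  classical
  rw [pChars, mem_sigma, mem_filter, mem_Icc, mem_filter] at h
  exact ⟨h.1.2, h.1.1.2, h.2.2⟩

/-- the large sieve inequality for prime moduli -/
theorem large_sieve_prime (Q N : ℕ) (x : ℕ → ℂ) :
    ∑ p ∈ pChars Q, ‖∑ n ∈ Icc 1 N, x n * p.2 (n : ZMod p.1)‖ ^ 2 ≤
      (13 * ((N : ℝ) + (Q : ℝ) ^ 2)) * ∑ n ∈ Icc 1 N, ‖x n‖ ^ 2 := by
  classical
  rcases Nat.eq_zero_or_pos Q with hQ | hQ
  · subst hQ
    have : pChars 0 = ∅ := by simp [pChars]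
    rw [this, sum_empty]
    positivity
  have hQ' : (1 : ℝ) ≤ Q := by exact_mod_cast hQ
  have h1 : ∑ p ∈ pChars Q, ‖∑ n ∈ Icc 1 N, x n * p.2 (n : ZMod p.1)‖ ^ 2 ≤
      ∑ i ∈ ((Icc 1 Q).filter Nat.Prime).sigma (fun p => Icc 1 (p - 1)),
        ‖SS N x ((i.2 : ℝ) / i.1)‖ ^ 2 := by
    rw [pChars, sum_sigma, sum_sigma]
    apply sum_le_sum
    intro p hp
    have : Fact p.Prime := ⟨(mem_filter.1 hp).2⟩
    have h := sum_char_prime_le (p := p) N x
    refine (le_of_eq ?_).trans h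
    apply Finset.sum_congr _ (fun _ _ => rfl)
    ext χ
    simp only [mem_filter, Finset.mem_univ, true_and]
  refine h1.trans ?_
  have h2 := large_sieve_points (((Icc 1 Q).filter Nat.Prime).sigma (fun p => Icc 1 (p - 1)))
    (fun i => (i.2 : ℝ) / i.1) (δ := 1 / (Q : ℝ) ^ 2) (by positivity) (by
      rintro ⟨p, a⟩ hi ⟨q, b⟩ hj hne
      simp only [mem_sigma, mem_filter, mem_Icc] at hi hj ⊢
      obtain ⟨⟨⟨_, hpQ⟩, hp⟩, ha1, ha2⟩ := hi
      obtain ⟨⟨⟨_, hqQ⟩, hq⟩, hb1, hb2⟩ := hj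
      have hp0 : (0 : ℝ) < p := by exact_mod_cast hp.pos
      have hq0 : (0 : ℝ) < q := by exact_mod_cast hq.pos
      have hp1 := hp.one_lt
      have hq1 := hq.one_lt
      have hcross : (a : ℤ) * q - b * p ≠ 0 := by
        intro h0
        have h1 : a * q = b * p := by
          have : (a : ℤ) * q = b * p := by linarith
          exact_mod_cast this
        by_cases hpq : p = q
        · subst hpq
          have : a = b := Nat.eq_of_mul_eq_mul_right hp.pos h1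
          subst this
          exact hne rfl
        · have h3 : p ∣ a * q := by rw [h1]; exact dvd_mul_left _ _
          have h4 : p.Coprime q := (Nat.coprime_primes hp hq).2 hpq
          have h5 : p ∣ a := h4.dvd_of_dvd_mul_right h3
          have := Nat.le_of_dvd (by omega) h5
          omega
      have h6 : (a : ℝ) / p - b / q = ((a : ℝ) * q - b * p) / (p * q) := by
        field_simp
      rw [h6, abs_div, abs_of_pos (mul_pos hp0 hq0)]
      have h7 : (1 : ℝ) ≤ |(a : ℝ) * q - b * p| := by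
        have : (1 : ℤ) ≤ |(a : ℤ) * q - b * p| := Int.one_le_abs hcross
        exact_mod_cast this
      apply div_le_div₀ (by positivity) h7 (mul_pos hp0 hq0)
      rw [pow_two]
      have e1 : (p : ℝ) ≤ Q := by exact_mod_cast hpQ
      have e2 : (q : ℝ) ≤ Q := by exact_mod_cast hqQ
      exact mul_le_mul e1 e2 hq0.le (by positivity)) (by
      rintro ⟨p, a⟩ hi
      simp only [mem_sigma, mem_filter, mem_Icc] at hi ⊢
      obtain ⟨⟨⟨_, hpQ⟩, hp⟩, ha1, ha2⟩ := hi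
      have hp0 : (0 : ℝ) < p := by exact_mod_cast hp.pos
      have hp1 := hp.one_lt
      have e1 : (p : ℝ) ≤ Q := by exact_mod_cast hpQ
      have e2 : (1 : ℝ) ≤ a := by exact_mod_cast ha1
      have e3 : (a : ℝ) + 1 ≤ p := by
        have : a + 1 ≤ p := by omega
        exact_mod_cast this
      have h8 : 1 / (Q : ℝ) ^ 2 / 2 ≤ 1 / p := by
        have h9 : 1 / (Q : ℝ) ^ 2 / 2 ≤ 1 / (Q : ℝ) ^ 2 := by
          have : 0 ≤ 1 / (Q : ℝ) ^ 2 := by positivity
          linarith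
        refine h9.trans ?_
        apply one_div_le_one_div_of_le hp0
        nlinarith
      constructor
      · refine h8.trans ?_
        exact div_le_div_of_nonneg_right e2 hp0.le
      · have h10 : (a : ℝ) / p ≤ 1 - 1 / p := by
          rw [div_le_iff₀ hp0]
          field_simp
          linarith
        linarith) N x
  refine h2.trans ?_
  apply mul_le_mul_of_nonneg_right _ (sum_nonneg fun _ _ => by positivity)
  rw [one_div, inv_inv]
  have h3 : Real.pi ≤ 3.2 := by linarith [Real.pi_lt_d2]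
  have h4 : (0 : ℝ) ≤ N := Nat.cast_nonneg N
  nlinarith [sq_nonneg (Q : ℝ)]

end Pool.Agent.MPbca
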