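import Pool.Agent.Lib.MP_bca3e5_nt.LS2
import Pool.Agent.Lib.MP_89da58_nt.LargeTypes

set_option autoImplicit false

/-!
Type II sums over the nonprincipal characters to prime moduli.
-/

namespace Pool.Agent.MPbca

open Finset MeasureTheory
open Pool.Agent.MP89da58 (tri cX Om box twA twB box_of_not box_nonneg box_le_one X_rpow_cX
  rpow_neg_cX_le sum_norm_bilinear_le sum_tau_sq)

/-- the `L²` bound for the first factor of a type II sum -/
lemma pII_A {X : ℝ} (hX : 1 ≤ X) (N R U : ℕ) (hN : N = ⌊3 * X⌋₊) (hU : 1 ≤ U)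
    (a : ℕ → ℂ) (ha : ∀ d, 1 ≤ d → ‖a d‖ ≤ Real.log d)
    (ha0 : ∀ d, d ≤ U → a d = 0) {s : ℝ} (hs : s ∈ Set.Icc (-1 : ℝ) (Real.log X)) :
    (∑ p ∈ pChars R, ‖twA X N (fun d => a d * p.2 (d : ZMod p.1)) s‖ ^ 2 ≤ 0) ∨
    ((U : ℝ) ≤ X * Real.exp (-s) ∧
    ∑ p ∈ pChars R, ‖twA X N (fun d => a d * p.2 (d : ZMod p.1)) s‖ ^ 2 ≤
      13 * (1 + (R : ℝ) ^ 2 / (X * Real.exp (-s))) * (Real.exp 1 ^ 2 * (Real.log X + 1) ^ 2)) := by
  rw [Set.mem_Icc] at hs
  have hX0 : 0 < X := by linarith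
  have hlog : 0 ≤ Real.log X := Real.log_nonneg hX
  set y : ℝ := X * Real.exp (-s) with hy
  have hy0 : 0 < y := by positivity
  set x : ℕ → ℂ := fun d => a d * (((d : ℝ) ^ (-cX X) * box (Real.log (X / d)) s : ℝ) : ℂ) with hx
  have hyN : ⌊y⌋₊ ≤ N := by
    rw [hN]
    apply Nat.floor_le_floor
    have h1 : Real.exp (-s) ≤ 3 := by
      calc Real.exp (-s) ≤ Real.exp 1 := Real.exp_le_exp.mpr (by linarith)
        _ ≤ 3 := by linarith [Real.exp_one_lt_d9]
    rw [hy, mul_comm]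
    exact mul_le_mul_of_nonneg_right h1 hX0.le
  have hlogXd : ∀ d : ℕ, 1 ≤ d → Real.log (X / d) = Real.log X - Real.log d := by
    intro d hd
    have : (0 : ℝ) < d := by exact_mod_cast hd
    rw [Real.log_div (by positivity) (by positivity)]
  have hlogy : Real.log y = Real.log X - s := by
    rw [hy, Real.log_mul (by positivity) (by positivity), Real.log_exp]
    ring
  have hxzero : ∀ d : ℕ, 1 ≤ d → ¬ ((d : ℝ) ≤ y ∧ y ≤ Real.exp 1 * d) → x d = 0 := by
    intro d hd hcon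
    have hd0 : (0 : ℝ) < d := by exact_mod_cast hd
    rw [hx]
    simp only
    rw [box_of_not]
    · simp
    · rintro ⟨h1, h2⟩
      apply hcon
      rw [hlogXd d hd] at h1 h2
      constructor
      · rw [← Real.log_le_log_iff hd0 hy0, hlogy]
        linarith
      · rw [← Real.log_le_log_iff hy0 (by positivity), hlogy,
          Real.log_mul (Real.exp_pos 1).ne' hd0.ne', Real.log_exp]
        linarith
  have h1 : ∀ p ∈ pChars R, twA X N (fun d => a d * p.2 (d : ZMod p.1)) s =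
      ∑ d ∈ Icc 1 ⌊y⌋₊, x d * p.2 (d : ZMod p.1) := by
    intro p _
    rw [twA]
    have hsub : Icc 1 ⌊y⌋₊ ⊆ Icc 1 N := Icc_subset_Icc le_rfl hyN
    rw [sum_subset hsub]
    · apply sum_congr rfl
      intro d _
      rw [hx]
      ring
    · intro d hd hd'
      rw [mem_Icc] at hd
      rw [mem_Icc, not_and, not_le] at hd'
      have h2 := hd' hd.1
      rw [Nat.floor_lt hy0.le] at h2
      rw [hxzero d hd.1 (by intro h; linarith [h.1])]
      simp
  rw [sum_congr rfl fun p hp => by rw [h1 p hp]]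
  have hls := large_sieve_prime R ⌊y⌋₊ x
  by_cases hyU : y < U + 1
  · left
    refine hls.trans ?_
    have : ∑ n ∈ Icc 1 ⌊y⌋₊, ‖x n‖ ^ 2 = 0 := by
      apply sum_eq_zero
      intro d hd
      rw [mem_Icc] at hd
      have h2 : ⌊y⌋₊ < U + 1 := (Nat.floor_lt hy0.le).mpr (by exact_mod_cast hyU)
      rw [hx]
      simp only
      rw [ha0 d (by omega)]
      simp
    rw [this, mul_zero]
  · right
    rw [not_lt] at hyU
    refine ⟨by linarith, hls.trans ?_⟩
    have hU1 : (1 : ℝ) ≤ U := by exact_mod_cast hU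
    have hy1 : 1 ≤ y := by linarith
    have hly : 0 ≤ Real.log y := Real.log_nonneg hy1
    have h2 : ∀ d ∈ Icc 1 ⌊y⌋₊, ‖x d‖ ^ 2 ≤ (Real.log y * (Real.exp 1 / y)) ^ 2 := by
      intro d hd
      rw [mem_Icc] at hd
      have hd0 : (0 : ℝ) < d := by exact_mod_cast hd.1
      have hd1 : (1 : ℝ) ≤ d := by exact_mod_cast hd.1
      apply pow_le_pow_left₀ (norm_nonneg _)
      by_cases hc : (d : ℝ) ≤ y ∧ y ≤ Real.exp 1 * d
      · rw [hx]
        simp only
        rw [norm_mul, Complex.norm_real,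
          Real.norm_of_nonneg (mul_nonneg (by positivity) (box_nonneg _ _))]
        apply mul_le_mul
        · exact (ha d hd.1).trans (Real.log_le_log hd0 hc.1)
        · calc (d : ℝ) ^ (-cX X) * box (Real.log (X / d)) s ≤ (d : ℝ)⁻¹ * 1 :=
                mul_le_mul (rpow_neg_cX_le hX hd1) (box_le_one _ _) (box_nonneg _ _)
                  (by positivity)
            _ ≤ Real.exp 1 / y := by
                rw [mul_one, inv_eq_one_div, div_le_div_iff₀ hd0 hy0]
                linarith [hc.2]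
        · exact mul_nonneg (by positivity) (box_nonneg _ _)
        · exact hly
      · rw [hxzero d hd.1 hc, norm_zero]
        positivity
    have h3 : ∑ n ∈ Icc 1 ⌊y⌋₊, ‖x n‖ ^ 2 ≤ y * (Real.log y * (Real.exp 1 / y)) ^ 2 := by
      refine (sum_le_sum h2).trans ?_
      rw [sum_const, nsmul_eq_mul, Nat.card_Icc, Nat.add_sub_cancel]
      exact mul_le_mul_of_nonneg_right (Nat.floor_le hy0.le) (by positivity)
    have h4 : 13 * ((⌊y⌋₊ : ℝ) + (R : ℝ) ^ 2) ≤ 13 * (y + (R : ℝ) ^ 2) := by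
      have := Nat.floor_le hy0.le
      linarith
    calc _ ≤ 13 * (y + (R : ℝ) ^ 2) * (y * (Real.log y * (Real.exp 1 / y)) ^ 2) :=
          mul_le_mul h4 h3 (sum_nonneg fun _ _ => by positivity) (by positivity)
      _ = 13 * (1 + (R : ℝ) ^ 2 / y) * (Real.exp 1 ^ 2 * (Real.log y) ^ 2) := by
          field_simp
      _ ≤ 13 * (1 + (R : ℝ) ^ 2 / y) * (Real.exp 1 ^ 2 * (Real.log X + 1) ^ 2) := by
          apply mul_le_mul_of_nonneg_left _ (by positivity)
          apply mul_le_mul_of_nonneg_left _ (by positivity)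
          apply pow_le_pow_left₀ hly
          rw [hlogy]
          linarith

/-- the `L²` bound for the second factor of a type II sum -/
lemma pII_B {X : ℝ} (hX : 1 ≤ X) (N R U : ℕ) (hN : N = ⌊3 * X⌋₊) (hU : 1 ≤ U)
    (b : ℕ → ℂ) (hb : ∀ d, 1 ≤ d → ‖b d‖ ≤ d.divisors.card)
    (hb0 : ∀ d, 1 ≤ d → d ≤ U → b d = 0) {s : ℝ} (hs : s ∈ Set.Icc (-1 : ℝ) (Real.log X)) :
    (∑ p ∈ pChars R, ‖twB X N (fun m => b m * p.2 (m : ZMod p.1)) s‖ ^ 2 ≤ 0) ∨
    ((U : ℝ) ≤ Real.exp (s + 1) ∧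
    ∑ p ∈ pChars R, ‖twB X N (fun m => b m * p.2 (m : ZMod p.1)) s‖ ^ 2 ≤
      13 * (1 + (R : ℝ) ^ 2 / Real.exp (s + 1)) * (Real.exp 1 ^ 2 * (Real.log X + 2) ^ 3)) := by
  rw [Set.mem_Icc] at hs
  have hX0 : 0 < X := by linarith
  have hlog : 0 ≤ Real.log X := Real.log_nonneg hX
  set y : ℝ := Real.exp (s + 1) with hy
  have hy0 : 0 < y := by positivity
  set x : ℕ → ℂ := fun m => b m * (((m : ℝ) ^ (-cX X) * box (Real.log m) s : ℝ) : ℂ) with hx
  have hlogy : Real.log y = s + 1 := by rw [hy, Real.log_exp]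
  have hyN : ⌊y⌋₊ ≤ N := by
    rw [hN]
    apply Nat.floor_le_floor
    calc y = Real.exp 1 * Real.exp s := by rw [hy, Real.exp_add, mul_comm]
      _ ≤ 3 * X := by
          apply mul_le_mul (by linarith [Real.exp_one_lt_d9]) _ (Real.exp_pos s).le (by norm_num)
          calc Real.exp s ≤ Real.exp (Real.log X) := Real.exp_le_exp.mpr hs.2
            _ = X := Real.exp_log hX0
  have hxzero : ∀ d : ℕ, 1 ≤ d → ¬ ((d : ℝ) ≤ y ∧ y ≤ Real.exp 1 * d) → x d = 0 := by
    intro d hd hcon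
    have hd0 : (0 : ℝ) < d := by exact_mod_cast hd
    rw [hx]
    simp only
    rw [box_of_not]
    · simp
    · rintro ⟨h1, h2⟩
      apply hcon
      constructor
      · rw [← Real.log_le_log_iff hd0 hy0, hlogy]
        linarith
      · rw [← Real.log_le_log_iff hy0 (by positivity), hlogy,
          Real.log_mul (Real.exp_pos 1).ne' hd0.ne', Real.log_exp]
        linarith
  have h1 : ∀ p ∈ pChars R, twB X N (fun m => b m * p.2 (m : ZMod p.1)) s =
      ∑ d ∈ Icc 1 ⌊y⌋₊, x d * p.2 (d : ZMod p.1) := by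
    intro p _
    rw [twB]
    have hsub : Icc 1 ⌊y⌋₊ ⊆ Icc 1 N := Icc_subset_Icc le_rfl hyN
    rw [sum_subset hsub]
    · apply sum_congr rfl
      intro d _
      rw [hx]
      ring
    · intro d hd hd'
      rw [mem_Icc] at hd
      rw [mem_Icc, not_and, not_le] at hd'
      have h2 := hd' hd.1
      rw [Nat.floor_lt hy0.le] at h2
      rw [hxzero d hd.1 (by intro h; linarith [h.1])]
      simp
  rw [sum_congr rfl fun p hp => by rw [h1 p hp]]
  have hls := large_sieve_prime R ⌊y⌋₊ x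
  by_cases hyU : y < U + 1
  · left
    refine hls.trans ?_
    have : ∑ n ∈ Icc 1 ⌊y⌋₊, ‖x n‖ ^ 2 = 0 := by
      apply sum_eq_zero
      intro d hd
      rw [mem_Icc] at hd
      have h2 : ⌊y⌋₊ < U + 1 := (Nat.floor_lt hy0.le).mpr (by exact_mod_cast hyU)
      rw [hx]
      simp only
      rw [hb0 d hd.1 (by omega)]
      simp
    rw [this, mul_zero]
  · right
    rw [not_lt] at hyU
    refine ⟨by linarith, hls.trans ?_⟩
    have hU1 : (1 : ℝ) ≤ U := by exact_mod_cast hU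
    have hy1 : 1 ≤ y := by linarith
    have hly : 0 ≤ Real.log y := Real.log_nonneg hy1
    have h2 : ∀ d ∈ Icc 1 ⌊y⌋₊, ‖x d‖ ^ 2 ≤ (d.divisors.card : ℝ) ^ 2 * (Real.exp 1 / y) ^ 2 := by
      intro d hd
      rw [mem_Icc] at hd
      have hd0 : (0 : ℝ) < d := by exact_mod_cast hd.1
      have hd1 : (1 : ℝ) ≤ d := by exact_mod_cast hd.1
      rw [← mul_pow]
      apply pow_le_pow_left₀ (norm_nonneg _)
      by_cases hc : (d : ℝ) ≤ y ∧ y ≤ Real.exp 1 * d
      · rw [hx]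
        simp only
        rw [norm_mul, Complex.norm_real,
          Real.norm_of_nonneg (mul_nonneg (by positivity) (box_nonneg _ _))]
        apply mul_le_mul
        · exact hb d hd.1
        · calc (d : ℝ) ^ (-cX X) * box (Real.log d) s ≤ (d : ℝ)⁻¹ * 1 :=
                mul_le_mul (rpow_neg_cX_le hX hd1) (box_le_one _ _) (box_nonneg _ _)
                  (by positivity)
            _ ≤ Real.exp 1 / y := by
                rw [mul_one, inv_eq_one_div, div_le_div_iff₀ hd0 hy0]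
                linarith [hc.2]
        · exact mul_nonneg (by positivity) (box_nonneg _ _)
        · positivity
      · rw [hxzero d hd.1 hc, norm_zero]
        positivity
    have hfl : (1 : ℝ) ≤ ⌊y⌋₊ := by
      exact_mod_cast (Nat.one_le_floor_iff y).mpr hy1
    have h3 : ∑ n ∈ Icc 1 ⌊y⌋₊, ‖x n‖ ^ 2 ≤ y * (1 + Real.log y) ^ 3 * (Real.exp 1 / y) ^ 2 := by
      refine (sum_le_sum h2).trans ?_
      rw [← sum_mul]
      apply mul_le_mul_of_nonneg_right _ (by positivity)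
      refine (sum_tau_sq _).trans ?_
      apply mul_le_mul (Nat.floor_le hy0.le) _ _ hy0.le
      · apply pow_le_pow_left₀
        · have := Real.log_nonneg hfl
          linarith
        · have := Real.log_le_log (by linarith) (Nat.floor_le hy0.le)
          linarith
      · have := Real.log_nonneg hfl
        positivity
    have h4 : 13 * ((⌊y⌋₊ : ℝ) + (R : ℝ) ^ 2) ≤ 13 * (y + (R : ℝ) ^ 2) := by
      have := Nat.floor_le hy0.le
      linarith
    calc _ ≤ 13 * (y + (R : ℝ) ^ 2) * (y * (1 + Real.log y) ^ 3 * (Real.exp 1 / y) ^ 2) :=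
          mul_le_mul h4 h3 (sum_nonneg fun _ _ => by positivity) (by positivity)
      _ = 13 * (1 + (R : ℝ) ^ 2 / y) * (Real.exp 1 ^ 2 * (1 + Real.log y) ^ 3) := by
          field_simp
      _ ≤ 13 * (1 + (R : ℝ) ^ 2 / y) * (Real.exp 1 ^ 2 * (Real.log X + 2) ^ 3) := by
          apply mul_le_mul_of_nonneg_left _ (by positivity)
          apply mul_le_mul_of_nonneg_left _ (by positivity)
          apply pow_le_pow_left₀ (by positivity)
          rw [hlogy]
          linarith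

/-- the arithmetic of the two large sieve factors -/
lemma factor_le {X s : ℝ} (hX : 1 ≤ X) (R U : ℕ) (hU : 1 ≤ U)
    (h1 : (U : ℝ) ≤ X * Real.exp (-s)) (h2 : (U : ℝ) ≤ Real.exp (s + 1)) :
    (1 + (R : ℝ) ^ 2 / (X * Real.exp (-s))) * (1 + (R : ℝ) ^ 2 / Real.exp (s + 1)) ≤
      (1 + 2 * R / Real.sqrt U + (R : ℝ) ^ 2 / Real.sqrt X) ^ 2 := by
  have hU0 : (0 : ℝ) < U := by exact_mod_cast hU
  have hX0 : 0 < X := by linarith
  have hy : 0 < X * Real.exp (-s) := by positivity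
  have hy' : 0 < Real.exp (s + 1) := Real.exp_pos _
  have hprod : X * Real.exp (-s) * Real.exp (s + 1) = X * Real.exp 1 := by
    rw [mul_assoc, ← Real.exp_add]
    congr 2
    ring
  have e1 : (R : ℝ) ^ 2 / (X * Real.exp (-s)) ≤ (R : ℝ) ^ 2 / U :=
    div_le_div_of_nonneg_left (by positivity) hU0 h1
  have e2 : (R : ℝ) ^ 2 / Real.exp (s + 1) ≤ (R : ℝ) ^ 2 / U :=
    div_le_div_of_nonneg_left (by positivity) hU0 h2
  have e3 : (R : ℝ) ^ 2 / (X * Real.exp (-s)) * ((R : ℝ) ^ 2 / Real.exp (s + 1)) ≤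
      (R : ℝ) ^ 4 / X := by
    rw [div_mul_div_comm, hprod, ← pow_add]
    apply div_le_div_of_nonneg_left (by positivity) hX0
    have : 1 ≤ Real.exp 1 := Real.one_le_exp (by norm_num)
    nlinarith
  set a : ℝ := R / Real.sqrt U with ha
  set b : ℝ := (R : ℝ) ^ 2 / Real.sqrt X with hb
  have ha0 : 0 ≤ a := by positivity
  have hb0 : 0 ≤ b := by positivity
  have ha2 : a ^ 2 = (R : ℝ) ^ 2 / U := by
    rw [ha, div_pow, Real.sq_sqrt hU0.le]
  have hb2 : b ^ 2 = (R : ℝ) ^ 4 / X := by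
    rw [hb, div_pow, Real.sq_sqrt hX0.le]
    ring
  have e4 : 2 * (R : ℝ) / Real.sqrt U = 2 * a := by rw [ha]; ring
  rw [e4]
  rw [← ha2] at e1 e2
  rw [← hb2] at e3
  nlinarith [mul_nonneg ha0 hb0]

/-- bound for the type II sums -/
lemma pII_bound {X : ℝ} (hX : 1 < X) (N R U : ℕ) (hN : N = ⌊3 * X⌋₊) (hU : 1 ≤ U)
    (a b : ℕ → ℂ) (ha : ∀ d, 1 ≤ d → ‖a d‖ ≤ Real.log d)
    (ha0 : ∀ d, d ≤ U → a d = 0) (hb : ∀ d, 1 ≤ d → ‖b d‖ ≤ d.divisors.card)
    (hb0 : ∀ d, 1 ≤ d → d ≤ U → b d = 0) :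
    ∑ p ∈ pChars R, ‖∑ d ∈ Icc 1 N, ∑ m ∈ Icc 1 N,
      (a d * p.2 (d : ZMod p.1)) * (b m * p.2 (m : ZMod p.1)) * (Om X (d * m) : ℂ)‖ ≤
      13 * Real.exp 1 ^ 3 * X * (Real.log X + 2) ^ 4 *
        (1 + 2 * R / Real.sqrt U + (R : ℝ) ^ 2 / Real.sqrt X) := by
  have hlog : 0 < Real.log X := Real.log_pos hX
  have hX0 : 0 < X := by linarith
  set M : ℝ := 1 + 2 * R / Real.sqrt U + (R : ℝ) ^ 2 / Real.sqrt X with hM
  have hM0 : 0 ≤ M := by positivity
  have key := sum_norm_bilinear_le hX.le N (I := pChars R)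
    (fun p d => a d * p.2 (d : ZMod p.1)) (fun p m => b m * p.2 (m : ZMod p.1))
    (K := 13 * Real.exp 1 ^ 2 * (Real.log X + 2) ^ 3 * M) (by
    intro s hs
    have h1 := pII_A hX.le N R U hN hU a ha ha0 hs
    have h2 := pII_B hX.le N R U hN hU b hb hb0 hs
    have h3 := sum_mul_sq_le_sq_mul_sq (pChars R)
      (fun p => ‖twA X N (fun d => a d * p.2 (d : ZMod p.1)) s‖)
      (fun p => ‖twB X N (fun m => b m * p.2 (m : ZMod p.1)) s‖)
    have hnA : 0 ≤ ∑ p ∈ pChars R, ‖twA X N (fun d => a d * p.2 (d : ZMod p.1)) s‖ ^ 2 :=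
      sum_nonneg fun _ _ => by positivity
    have hnB : 0 ≤ ∑ p ∈ pChars R, ‖twB X N (fun m => b m * p.2 (m : ZMod p.1)) s‖ ^ 2 :=
      sum_nonneg fun _ _ => by positivity
    have h4 : (Real.log X + 1) ^ 2 ≤ (Real.log X + 2) ^ 3 := by
      nlinarith [sq_nonneg (Real.log X), mul_pos hlog hlog, mul_pos (mul_pos hlog hlog) hlog]
    have h5 : (∑ p ∈ pChars R, ‖twA X N (fun d => a d * p.2 (d : ZMod p.1)) s‖ *
        ‖twB X N (fun m => b m * p.2 (m : ZMod p.1)) s‖) ^ 2 ≤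
        (13 * Real.exp 1 ^ 2 * (Real.log X + 2) ^ 3 * M) ^ 2 := by
      refine h3.trans ?_
      rcases h1 with h1 | ⟨h1u, h1⟩
      · have h0 := le_antisymm h1 hnA
        rw [h0, zero_mul]
        positivity
      rcases h2 with h2 | ⟨h2u, h2⟩
      · have h0 := le_antisymm h2 hnB
        rw [h0, mul_zero]
        positivity
      have h6 := factor_le hX.le R U hU h1u h2u
      rw [← hM] at h6
      have h7 : 0 < X * Real.exp (-s) := by positivity
      calc _ ≤ (13 * (1 + (R : ℝ) ^ 2 / (X * Real.exp (-s))) * (Real.exp 1 ^ 2 * (Real.log X + 1) ^ 2)) *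
            (13 * (1 + (R : ℝ) ^ 2 / Real.exp (s + 1)) * (Real.exp 1 ^ 2 * (Real.log X + 2) ^ 3)) :=
            mul_le_mul h1 h2 hnB (by positivity)
        _ ≤ (13 * (1 + (R : ℝ) ^ 2 / (X * Real.exp (-s))) * (Real.exp 1 ^ 2 * (Real.log X + 2) ^ 3)) *
            (13 * (1 + (R : ℝ) ^ 2 / Real.exp (s + 1)) * (Real.exp 1 ^ 2 * (Real.log X + 2) ^ 3)) := by
            gcongr
        _ = (13 * Real.exp 1 ^ 2 * (Real.log X + 2) ^ 3) ^ 2 *
            ((1 + (R : ℝ) ^ 2 / (X * Real.exp (-s))) * (1 + (R : ℝ) ^ 2 / Real.exp (s + 1))) := by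
            ring
        _ ≤ (13 * Real.exp 1 ^ 2 * (Real.log X + 2) ^ 3) ^ 2 * M ^ 2 :=
            mul_le_mul_of_nonneg_left h6 (by positivity)
        _ = _ := by ring
    exact (pow_le_pow_iff_left₀ (sum_nonneg fun _ _ => by positivity) (by positivity)
      (by norm_num)).mp h5)
  refine key.trans ?_
  rw [X_rpow_cX hX]
  have h6 : Real.log X + 1 ≤ Real.log X + 2 := by linarith
  calc Real.exp 1 * X * ((Real.log X + 1) * (13 * Real.exp 1 ^ 2 * (Real.log X + 2) ^ 3 * M))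
      ≤ Real.exp 1 * X * ((Real.log X + 2) * (13 * Real.exp 1 ^ 2 * (Real.log X + 2) ^ 3 * M)) := by
        gcongr
    _ = 13 * Real.exp 1 ^ 3 * X * (Real.log X + 2) ^ 4 * M := by ring

end Pool.Agent.MPbca
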