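import Pool.Agent.Lib.MP_bca3e5_nt.LS4
import Pool.Agent.Lib.MP_89da58_nt.Bv

set_option autoImplicit false

/-!
Primes in arithmetic progressions to prime moduli, on average, up to the square root.
-/

namespace Pool.Agent.MPbca

open Finset ArithmeticFunction Filter
open Pool.Agent.MP89da58 (tri cX Om psiChi psiAP psiX psiChi_sub_le psiChi_one_one
  totient_mul_psiAP DD)

open scoped Classical in
/-- one prime modulus -/
lemma ap_prime_le {X : ℝ} (hX0 : 1 ≤ X) (hX : 1 ≤ Real.log X) {q : ℕ} (hq : q.Prime) :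
    |psiAP X q 1 - psiX X / ((q : ℝ) - 1)| ≤
      ((q : ℝ) - 1)⁻¹ * (8 * (q * Real.log (3 * X)) +
        ∑ χ ∈ (Finset.univ : Finset (DirichletCharacter ℂ q)).filter (fun χ => χ ≠ 1),
          ‖psiChi X χ‖) := by
  have : NeZero q := ⟨hq.ne_zero⟩
  have hq2 : (2 : ℝ) ≤ q := by exact_mod_cast hq.two_le
  have hq1 : (0 : ℝ) < (q : ℝ) - 1 := by linarith
  have htot : ((Nat.totient q : ℕ) : ℂ) = (((q : ℝ) - 1 : ℝ) : ℂ) := by
    rw [Nat.totient_prime hq, Nat.cast_sub hq.one_le]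
    push_cast
    ring
  have h1 := totient_mul_psiAP X (q := q) 1 (Nat.coprime_one_left q)
  rw [htot] at h1
  have hone : ((1 : ℕ) : ZMod q)⁻¹ = 1 := by
    have : Fact q.Prime := ⟨hq⟩
    rw [Nat.cast_one]
    exact inv_one
  rw [hone] at h1
  simp only [map_one, one_mul] at h1
  have h2 : ∑ χ : DirichletCharacter ℂ q, psiChi X χ = psiChi X (1 : DirichletCharacter ℂ q) +
      ∑ χ ∈ (Finset.univ : Finset (DirichletCharacter ℂ q)).filter (fun χ => χ ≠ 1),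
        psiChi X χ := by
    rw [← Finset.sum_filter_add_sum_filter_not Finset.univ (fun χ : DirichletCharacter ℂ q => χ = 1)]
    congr 1
    rw [Finset.sum_filter]
    simp
  have h3 := psiChi_sub_le hX0 hX hq.ne_zero (1 : DirichletCharacter ℂ q)
    (1 : DirichletCharacter ℂ 1) (by
      intro n hn
      rw [MulChar.one_apply ((ZMod.isUnit_iff_coprime n q).2 hn),
        MulChar.one_apply (isUnit_of_subsingleton _)])
  rw [psiChi_one_one] at h3
  have h4 : ((((q : ℝ) - 1) * (psiAP X q 1 - psiX X / ((q : ℝ) - 1)) : ℝ) : ℂ) =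
      (psiChi X (1 : DirichletCharacter ℂ q) - (psiX X : ℂ)) +
      ∑ χ ∈ (Finset.univ : Finset (DirichletCharacter ℂ q)).filter (fun χ => χ ≠ 1),
        psiChi X χ := by
    have h5 : ((q : ℝ) - 1) * (psiAP X q 1 - psiX X / ((q : ℝ) - 1)) =
        ((q : ℝ) - 1) * psiAP X q 1 - psiX X := by
      field_simp
    rw [h5]
    push_cast
    push_cast at h1
    rw [h1, h2]
    ring
  have h6 : ((q : ℝ) - 1) * |psiAP X q 1 - psiX X / ((q : ℝ) - 1)| ≤
      8 * (q * Real.log (3 * X)) +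
        ∑ χ ∈ (Finset.univ : Finset (DirichletCharacter ℂ q)).filter (fun χ => χ ≠ 1),
          ‖psiChi X χ‖ := by
    have h7 : ((q : ℝ) - 1) * |psiAP X q 1 - psiX X / ((q : ℝ) - 1)| =
        ‖((((q : ℝ) - 1) * (psiAP X q 1 - psiX X / ((q : ℝ) - 1)) : ℝ) : ℂ)‖ := by
      rw [Complex.norm_real, Real.norm_eq_abs, abs_mul, abs_of_pos hq1]
    rw [h7, h4]
    refine (norm_add_le _ _).trans (add_le_add ?_ (norm_sum_le _ _))
    exact h3
  rw [inv_mul_eq_div, le_div_iff₀ hq1, mul_comm]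
  refine h6.trans (le_of_eq ?_)
  congr 1
  apply sum_congr _ fun _ _ => rfl
  ext χ
  simp only [mem_filter, Finset.mem_univ, true_and]

lemma window_le {X : ℝ} (hX : Real.exp 3 ≤ X) (R0 R U : ℕ) (hR0 : 1 ≤ R0) (hU1 : 1 ≤ U)
    (hVX : Real.exp 2 * ((U ^ 2 : ℕ) : ℝ) ≤ X) :
    ∑ q ∈ (Ioc R0 R).filter Nat.Prime, |psiAP X q 1 - psiX X / ((q : ℝ) - 1)| ≤
      16 * R * Real.log (3 * X) + (R0 : ℝ)⁻¹ * (5000 * (Real.log X) ^ 4 *
      ((R : ℝ) ^ 3 * (U : ℝ) ^ 4 + X * (1 + 2 * R / Real.sqrt U + (R : ℝ) ^ 2 / Real.sqrt X))) := by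
  classical
  have hX0 : 0 < X := lt_of_lt_of_le (Real.exp_pos 3) hX
  have hX1 : 1 ≤ X := le_trans (Real.one_le_exp (by norm_num)) hX
  have hlog3 : 3 ≤ Real.log X := (Real.le_log_iff_exp_le hX0).mpr hX
  have hR0' : (0 : ℝ) < R0 := by exact_mod_cast hR0
  have hl3 : 0 ≤ Real.log (3 * X) := Real.log_nonneg (by linarith)
  have h1 : ∀ q ∈ (Ioc R0 R).filter Nat.Prime, |psiAP X q 1 - psiX X / ((q : ℝ) - 1)| ≤
      16 * Real.log (3 * X) + (R0 : ℝ)⁻¹ *
        ∑ χ ∈ (Finset.univ : Finset (DirichletCharacter ℂ q)).filter (fun χ => χ ≠ 1),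
          ‖psiChi X χ‖ := by
    intro q hq
    rw [mem_filter, mem_Ioc] at hq
    have hq2 : (2 : ℝ) ≤ q := by exact_mod_cast hq.2.two_le
    have hq1 : (0 : ℝ) < (q : ℝ) - 1 := by linarith
    have hqR : (R0 : ℝ) ≤ (q : ℝ) - 1 := by
      have : (R0 : ℝ) + 1 ≤ q := by exact_mod_cast hq.1.1
      linarith
    refine (ap_prime_le hX1 (by linarith) hq.2).trans ?_
    rw [mul_add]
    apply add_le_add
    · rw [inv_mul_eq_div, div_le_iff₀ hq1]
      nlinarith only [hl3, hq2]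
    · apply mul_le_mul_of_nonneg_right
      · exact inv_anti₀ hR0' hqR
      · exact sum_nonneg fun _ _ => norm_nonneg _
  refine (sum_le_sum h1).trans ?_
  rw [sum_add_distrib]
  apply add_le_add
  · rw [sum_const, nsmul_eq_mul]
    have h2 : (((Ioc R0 R).filter Nat.Prime).card : ℝ) ≤ R := by
      have : ((Ioc R0 R).filter Nat.Prime).card ≤ R := by
        refine (card_filter_le _ _).trans ?_
        rw [Nat.card_Ioc]
        omega
      exact_mod_cast this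
    nlinarith only [hl3, h2]
  · rw [← mul_sum]
    apply mul_le_mul_of_nonneg_left _ (by positivity)
    refine le_trans ?_ (sum_psiChi_prime_le hX R U hU1 hVX)
    rw [pChars, sum_sigma]
    calc _ ≤ ∑ q ∈ (Icc 1 R).filter Nat.Prime,
          ∑ χ ∈ (Finset.univ : Finset (DirichletCharacter ℂ q)).filter (fun χ => χ ≠ 1),
          ‖psiChi X χ‖ := by
          apply sum_le_sum_of_subset_of_nonneg
          · intro q hq
            rw [mem_filter, mem_Ioc] at hq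
            rw [mem_filter, mem_Icc]
            exact ⟨⟨by omega, hq.1.2⟩, hq.2⟩
          · intro _ _ _
            exact sum_nonneg fun _ _ => norm_nonneg _
      _ = _ := by
          apply sum_congr rfl
          intro q _
          apply sum_congr _ fun _ _ => rfl
          ext χ
          simp only [mem_filter, Finset.mem_univ, true_and]

/-- primes in progressions to prime moduli on average, with a power saving -/
theorem bv_prime {ε : ℝ} (hε0 : 0 < ε) (hε1 : ε < 1 / 2) : ∀ᶠ X : ℝ in atTop, ∀ R0 R : ℕ,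
    X ^ ε ≤ (R0 : ℝ) → (R : ℝ) ≤ 8 * R0 → (R : ℝ) ≤ X ^ (1 / 2 - ε) →
    ∑ q ∈ (Ioc R0 R).filter Nat.Prime, |psiAP X q 1 - psiX X / ((q : ℝ) - 1)| ≤
      X ^ (1 - ε / 16) := by
  have hε16 : 0 < ε / 16 := by positivity
  have e1 : ∀ᶠ X : ℝ in atTop, (8 : ℝ) ≤ X ^ (ε / 16) :=
    (tendsto_rpow_atTop hε16).eventually_ge_atTop _
  have e2 : ∀ᶠ X : ℝ in atTop, 245100 * (Real.log X) ^ 4 ≤ X ^ (ε / 16) := by
    have h := (isLittleO_log_rpow_rpow_atTop (4 : ℝ) hε16).def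
      (show (0 : ℝ) < 1 / 245100 by norm_num)
    filter_upwards [h, eventually_ge_atTop 1] with X hX hX1
    have hl : 0 ≤ Real.log X := Real.log_nonneg hX1
    rw [Real.norm_of_nonneg (by positivity), Real.norm_of_nonneg (by positivity)] at hX
    have h4 : Real.log X ^ (4 : ℝ) = Real.log X ^ 4 := by
      rw [← Real.rpow_natCast]; norm_num
    rw [h4] at hX
    linarith
  filter_upwards [e1, e2, eventually_ge_atTop (Real.exp 6)] with X ha8 hlogs hXe
  intro R0 R hR0 hR8 hR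
  have hX0 : 0 < X := lt_of_lt_of_le (Real.exp_pos 6) hXe
  have hXe3 : Real.exp 3 ≤ X := le_trans (Real.exp_le_exp.2 (by norm_num)) hXe
  have hX1 : 1 ≤ X := le_trans (Real.one_le_exp (by norm_num)) hXe
  have hlog6 : 6 ≤ Real.log X := (Real.le_log_iff_exp_le hX0).mpr hXe
  set L := Real.log X with hL
  set a : ℝ := X ^ (ε / 16) with ha
  have ha0 : 0 < a := by positivity
  have ha1 : 1 ≤ a := by linarith
  have ha16 : X ^ ε = a ^ 16 := by
    rw [ha, ← Real.rpow_natCast, ← Real.rpow_mul hX0.le]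
    congr 1
    push_cast
    ring
  set s : ℝ := Real.sqrt X with hs
  have hs0 : 0 < s := Real.sqrt_pos.2 hX0
  have hss : s * s = X := Real.mul_self_sqrt hX0.le
  have hsX : X ^ (1 / 2 - ε) = s / a ^ 16 := by
    rw [Real.rpow_sub hX0, ha16, hs, Real.sqrt_eq_rpow]
  have hsa : a ^ 16 ≤ s := by
    rw [← ha16, hs, Real.sqrt_eq_rpow]
    exact Real.rpow_le_rpow_of_exponent_le hX1 hε1.le
  have hRs : (R : ℝ) * a ^ 16 ≤ s := by
    rw [hsX, le_div_iff₀ (by positivity)] at hR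
    exact hR
  set U : ℕ := ⌊a ^ 4⌋₊ with hU
  have hUle : (U : ℝ) ≤ a ^ 4 := Nat.floor_le (by positivity)
  have hUge : a ^ 4 / 2 ≤ U := by
    have h1 := Nat.lt_floor_add_one (a ^ 4)
    have h2 : (1 : ℝ) ≤ a ^ 4 / 2 := by
      have : (8 : ℝ) ^ 4 ≤ a ^ 4 := pow_le_pow_left₀ (by norm_num) ha8 4
      norm_num at this
      linarith only [hε0, hε1, this]
    rw [← hU] at h1
    linarith
  have hU1 : 1 ≤ U := by
    rw [hU, Nat.one_le_floor_iff]
    exact one_le_pow₀ ha1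
  have hR0pos : 1 ≤ R0 := by
    have : (1 : ℝ) ≤ R0 := le_trans (by rw [ha16]; exact one_le_pow₀ ha1) hR0
    exact_mod_cast this
  have hR0' : (0 : ℝ) < R0 := by exact_mod_cast hR0pos
  have hVX : Real.exp 2 * ((U ^ 2 : ℕ) : ℝ) ≤ X := by
    have h1 : Real.exp 2 ≤ 8 := by
      have : Real.exp 2 = Real.exp 1 ^ 2 := by rw [← Real.exp_nat_mul]; norm_num
      rw [this]
      have h1 := Real.exp_one_lt_d9
      have h2 := Real.exp_pos 1
      nlinarith only [hε0, hε1, h1, h2]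
    have h2 : ((U ^ 2 : ℕ) : ℝ) ≤ (a ^ 4) ^ 2 := by
      push_cast
      exact pow_le_pow_left₀ (Nat.cast_nonneg _) hUle 2
    calc Real.exp 2 * ((U ^ 2 : ℕ) : ℝ) ≤ a * (a ^ 4) ^ 2 :=
          mul_le_mul (h1.trans ha8) h2 (Nat.cast_nonneg _) ha0.le
      _ = a ^ 9 * 1 := by ring
      _ ≤ a ^ 9 * a ^ 23 := by
          apply mul_le_mul_of_nonneg_left (one_le_pow₀ ha1) (by positivity)
      _ = a ^ 16 * a ^ 16 := by ring
      _ ≤ s * s := mul_le_mul hsa hsa (by positivity) hs0.le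
      _ = X := hss
  refine (window_le hXe3 R0 R U hR0pos hU1 hVX).trans ?_
  rw [← hL, ← hs]
  have hRn : (0 : ℝ) ≤ R := Nat.cast_nonneg R
  have hL3 : Real.log (3 * X) ≤ 2 * L := by
    rw [Real.log_mul (by norm_num) hX0.ne']
    have : Real.log 3 ≤ 3 := by
      have := Real.log_le_sub_one_of_pos (show (0 : ℝ) < 3 by norm_num)
      linarith
    linarith
  have hXa : X ^ (1 - ε / 16) = X / a := by
    rw [Real.rpow_sub hX0, Real.rpow_one]
  rw [hXa]
  have ha2 : 0 < a ^ 2 := by positivity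
  -- T0
  have hRle : (R : ℝ) ≤ s := by
    have : (R : ℝ) * 1 ≤ R * a ^ 16 := mul_le_mul_of_nonneg_left (one_le_pow₀ ha1) hRn
    linarith
  have T0 : (R : ℝ) ≤ X / a ^ 2 := by
    rw [le_div_iff₀ ha2]
    calc (R : ℝ) * a ^ 2 ≤ R * a ^ 16 :=
          mul_le_mul_of_nonneg_left (pow_le_pow_right₀ ha1 (by norm_num)) hRn
      _ ≤ s := hRs
      _ ≤ s * s := by nlinarith only [hX1, hss, hs0, one_le_pow₀ ha1 (n := 16)]
      _ = X := hss
  -- T1
  have T1 : (R0 : ℝ)⁻¹ * ((R : ℝ) ^ 3 * (U : ℝ) ^ 4) ≤ 8 * (X / a ^ 2) := by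
    have h1 : (R : ℝ) ^ 3 * (U : ℝ) ^ 4 ≤ R0 * (8 * ((R : ℝ) ^ 2 * a ^ 16)) := by
      have h2 : (U : ℝ) ^ 4 ≤ a ^ 16 := by
        calc (U : ℝ) ^ 4 ≤ (a ^ 4) ^ 4 := pow_le_pow_left₀ (Nat.cast_nonneg _) hUle 4
          _ = a ^ 16 := by ring
      calc (R : ℝ) ^ 3 * (U : ℝ) ^ 4 = R * ((R : ℝ) ^ 2 * (U : ℝ) ^ 4) := by ring
        _ ≤ (8 * R0) * ((R : ℝ) ^ 2 * a ^ 16) := by
            apply mul_le_mul hR8 _ (by positivity) (by positivity)
            exact mul_le_mul_of_nonneg_left h2 (by positivity)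
        _ = _ := by ring
    have h3 : (R : ℝ) ^ 2 * a ^ 16 ≤ X / a ^ 2 := by
      rw [le_div_iff₀ ha2]
      calc (R : ℝ) ^ 2 * a ^ 16 * a ^ 2 ≤ (R : ℝ) ^ 2 * a ^ 16 * a ^ 16 := by
            apply mul_le_mul_of_nonneg_left (pow_le_pow_right₀ ha1 (by norm_num)) (by positivity)
        _ = (R * a ^ 16) * (R * a ^ 16) := by ring
        _ ≤ s * s := mul_le_mul hRs hRs (by positivity) hs0.le
        _ = X := hss
    calc _ ≤ (R0 : ℝ)⁻¹ * (R0 * (8 * ((R : ℝ) ^ 2 * a ^ 16))) :=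
          mul_le_mul_of_nonneg_left h1 (by positivity)
      _ = 8 * ((R : ℝ) ^ 2 * a ^ 16) := by field_simp
      _ ≤ _ := by linarith only [h3]
  have hR0a : a ^ 2 ≤ R0 := by
    refine le_trans ?_ hR0
    rw [ha16]
    exact pow_le_pow_right₀ ha1 (by norm_num)
  have T2 : (R0 : ℝ)⁻¹ * X ≤ X / a ^ 2 := by
    rw [inv_mul_eq_div]
    exact div_le_div_of_nonneg_left hX0.le ha2 hR0a
  have T3 : (R0 : ℝ)⁻¹ * (X * (2 * R / Real.sqrt U)) ≤ 32 * (X / a ^ 2) := by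
    have h1 : a ^ 2 / 2 ≤ Real.sqrt U := by
      apply Real.le_sqrt_of_sq_le
      calc (a ^ 2 / 2) ^ 2 = a ^ 4 / 4 := by ring
        _ ≤ a ^ 4 / 2 := by have : 0 ≤ a ^ 4 := by positivity
                            linarith only [hUle]
        _ ≤ U := hUge
    have h2 : 2 * (R : ℝ) / Real.sqrt U ≤ (16 * R0) / (a ^ 2 / 2) := by
      apply div_le_div₀ (by positivity) (by linarith only [hR8]) (by positivity) h1
    calc _ ≤ (R0 : ℝ)⁻¹ * (X * ((16 * R0) / (a ^ 2 / 2))) := by (clear * - h2 hX0 hR0pos; gcongr)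
      _ = 32 * (X / a ^ 2) := by field_simp; ring
  have T4 : (R0 : ℝ)⁻¹ * (X * ((R : ℝ) ^ 2 / s)) ≤ 8 * (X / a ^ 2) := by
    have h1 : X * ((R : ℝ) ^ 2 / s) = R * (R * s) := by
      rw [← hss]; field_simp
    have h3 : (R : ℝ) * s ≤ X / a ^ 2 := by
      rw [le_div_iff₀ ha2]
      calc (R : ℝ) * s * a ^ 2 ≤ (R : ℝ) * s * a ^ 16 := by
            apply mul_le_mul_of_nonneg_left (pow_le_pow_right₀ ha1 (by norm_num)) (by positivity)
        _ = (R * a ^ 16) * s := by ring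
        _ ≤ s * s := mul_le_mul_of_nonneg_right hRs hs0.le
        _ = X := hss
    rw [h1]
    calc (R0 : ℝ)⁻¹ * (R * (R * s)) ≤ (R0 : ℝ)⁻¹ * ((8 * R0) * (X / a ^ 2)) := by
          apply mul_le_mul_of_nonneg_left _ (by positivity)
          exact mul_le_mul hR8 h3 (by positivity) (by positivity)
      _ = 8 * (X / a ^ 2) := by field_simp
  have hsum : (R0 : ℝ)⁻¹ * ((R : ℝ) ^ 3 * (U : ℝ) ^ 4 + X * (1 + 2 * R / Real.sqrt U +
      (R : ℝ) ^ 2 / s)) ≤ 49 * (X / a ^ 2) := by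
    calc _ = (R0 : ℝ)⁻¹ * ((R : ℝ) ^ 3 * (U : ℝ) ^ 4) + (R0 : ℝ)⁻¹ * X +
          (R0 : ℝ)⁻¹ * (X * (2 * R / Real.sqrt U)) + (R0 : ℝ)⁻¹ * (X * ((R : ℝ) ^ 2 / s)) := by
            ring
      _ ≤ _ := by linarith only [T1, T2, T3, T4]
  have hL4 : L ≤ L ^ 4 := by
    calc L = L * 1 := by ring
      _ ≤ L * L ^ 3 := mul_le_mul_of_nonneg_left (one_le_pow₀ (by linarith only [hε0, hε1, hlog6])) (by linarith only [hε0, hε1, hlog6])
      _ = L ^ 4 := by ring
  have hXa2 : 0 ≤ X / a ^ 2 := by positivity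
  have hfin : 16 * (R : ℝ) * Real.log (3 * X) + (R0 : ℝ)⁻¹ * (5000 * L ^ 4 *
      ((R : ℝ) ^ 3 * (U : ℝ) ^ 4 + X * (1 + 2 * R / Real.sqrt U + (R : ℝ) ^ 2 / s))) ≤
      (245032 * L ^ 4) * (X / a ^ 2) := by
    have h1 : 16 * (R : ℝ) * Real.log (3 * X) ≤ 32 * L ^ 4 * (X / a ^ 2) := by
      calc 16 * (R : ℝ) * Real.log (3 * X) ≤ 16 * (X / a ^ 2) * (2 * L) := by
            apply mul_le_mul _ hL3 (Real.log_nonneg (by linarith only [hε0, hε1, hX1])) (by positivity)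
            linarith only [T0]
        _ = 32 * L * (X / a ^ 2) := by ring
        _ ≤ _ := by
            apply mul_le_mul_of_nonneg_right _ hXa2
            linarith only [hL4]
    have h2 : (R0 : ℝ)⁻¹ * (5000 * L ^ 4 *
      ((R : ℝ) ^ 3 * (U : ℝ) ^ 4 + X * (1 + 2 * R / Real.sqrt U + (R : ℝ) ^ 2 / s))) ≤
      (245000 * L ^ 4) * (X / a ^ 2) := by
      calc _ = 5000 * L ^ 4 * ((R0 : ℝ)⁻¹ * ((R : ℝ) ^ 3 * (U : ℝ) ^ 4 +
            X * (1 + 2 * R / Real.sqrt U + (R : ℝ) ^ 2 / s))) := by ring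
        _ ≤ 5000 * L ^ 4 * (49 * (X / a ^ 2)) := mul_le_mul_of_nonneg_left hsum (by positivity)
        _ = _ := by ring
    linarith only [h1, h2]
  refine hfin.trans ?_
  have h5 : (245032 * L ^ 4) ≤ a := by
    have : 0 ≤ L ^ 4 := by positivity
    linarith only [hε0, hε1, hlog6, hlogs, hL4]
  calc (245032 * L ^ 4) * (X / a ^ 2) ≤ a * (X / a ^ 2) := mul_le_mul_of_nonneg_right h5 hXa2
    _ = X / a := by field_simp

end Pool.Agent.MPbca
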