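import Pool.Agent.Lib.MP_bca3e5_nt.Mer

set_option autoImplicit false

/-!
Moments of `exp (κ ∑_{p ∣ d} 1/p)`.
-/

namespace Pool.Agent.MPbca

open Finset

/-- the sum of the reciprocals of the prime factors -/
noncomputable def hh (d : ℕ) : ℝ := ∑ p ∈ d.primeFactors, (1 : ℝ) / p

lemma hh_nonneg (d : ℕ) : 0 ≤ hh d := sum_nonneg fun _ _ => by positivity

lemma exp_div_le {κ : ℝ} (hκ : 0 ≤ κ) {p : ℕ} (hp : p.Prime) :
    Real.exp (κ * (1 / p)) ≤ 1 + κ * Real.exp κ / p := by
  have hp0 : (0 : ℝ) < p := by exact_mod_cast hp.pos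
  have hp1 : (1 : ℝ) ≤ p := by exact_mod_cast hp.one_le
  set t : ℝ := κ * (1 / p) with ht
  have ht0 : 0 ≤ t := by positivity
  have htκ : t ≤ κ := by
    rw [ht]
    have : 1 / (p : ℝ) ≤ 1 := by rw [div_le_one hp0]; exact hp1
    nlinarith
  have h1 : Real.exp t - 1 ≤ t * Real.exp t := by
    have h2 := Real.add_one_le_exp (-t)
    have h3 : Real.exp (-t) * Real.exp t = 1 := by rw [← Real.exp_add]; simp
    nlinarith [Real.exp_pos t]
  have h4 : Real.exp t ≤ Real.exp κ := Real.exp_le_exp.2 htκ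
  have h5 : t * Real.exp t ≤ t * Real.exp κ := mul_le_mul_of_nonneg_left h4 ht0
  have h6 : t * Real.exp κ = κ * Real.exp κ / p := by rw [ht]; ring
  linarith

lemma count_multiples (H : ℕ) {d : ℕ} (hd : 0 < d) :
    (((Icc 1 H).filter (fun m => d ∣ m)).card : ℝ) ≤ (H : ℝ) / d := by
  have h1 : ((Icc 1 H).filter (fun m => d ∣ m)).card = H / d := by
    have := Nat.Ioc_filter_dvd_card_eq_div H d
    rw [← this]
    rfl
  rw [h1]
  exact Nat.cast_div_le

/-- the moment bound -/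
theorem sum_exp_hh {κ : ℝ} (hκ : 0 ≤ κ) (H : ℕ) :
    ∑ d ∈ Icc 1 H, Real.exp (κ * hh d) ≤ Real.exp (κ * Real.exp κ) * H := by
  classical
  set c : ℝ := κ * Real.exp κ with hc
  have hc0 : 0 ≤ c := by positivity
  set P : Finset ℕ := (Icc 1 H).filter Nat.Prime with hP
  have hPp : ∀ p ∈ P, p.Prime := fun p hp => (mem_filter.1 hp).2
  have h1 : ∀ d ∈ Icc 1 H, Real.exp (κ * hh d) ≤
      ∑ T ∈ P.powerset, ∏ p ∈ T, (if p ∣ d then c / p else 0) := by
    intro d hd
    rw [mem_Icc] at hd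
    have e1 : Real.exp (κ * hh d) = ∏ p ∈ d.primeFactors, Real.exp (κ * (1 / p)) := by
      rw [hh, mul_sum, Real.exp_sum]
    have e2 : ∏ p ∈ d.primeFactors, Real.exp (κ * (1 / p)) ≤
        ∏ p ∈ d.primeFactors, (1 + c / p) := by
      apply Finset.prod_le_prod
      · intro _ _; exact (Real.exp_pos _).le
      · intro p hp
        exact exp_div_le hκ (Nat.prime_of_mem_primeFactors hp)
    have e3 : ∏ p ∈ d.primeFactors, (1 + c / p) = ∏ p ∈ P, (1 + (if p ∣ d then c / p else 0)) := by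
      have hsub : d.primeFactors ⊆ P := by
        intro p hp
        have hp' := Nat.prime_of_mem_primeFactors hp
        rw [hP, mem_filter, mem_Icc]
        exact ⟨⟨hp'.one_le, (Nat.le_of_mem_primeFactors hp).trans hd.2⟩, hp'⟩
      rw [← Finset.prod_subset hsub]
      · apply Finset.prod_congr rfl
        intro p hp
        rw [if_pos (Nat.dvd_of_mem_primeFactors hp)]
      · intro p hp hp'
        rw [if_neg, add_zero]
        intro h
        exact hp' (Nat.mem_primeFactors.2 ⟨hPp p hp, h, by omega⟩)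
    rw [e1]
    refine e2.trans (le_of_eq ?_)
    rw [e3, Finset.prod_one_add]
  refine (sum_le_sum h1).trans ?_
  rw [sum_comm]
  have h2 : ∀ T ∈ P.powerset, ∑ d ∈ Icc 1 H, ∏ p ∈ T, (if p ∣ d then c / (p : ℝ) else 0) ≤
      H * ∏ p ∈ T, (c / (p : ℝ) ^ 2) := by
    intro T hT
    rw [mem_powerset] at hT
    have hTp : ∀ p ∈ T, p.Prime := fun p hp => hPp p (hT hp)
    have e1 : ∀ d ∈ Icc 1 H, ∏ p ∈ T, (if p ∣ d then c / (p : ℝ) else 0) =
        if (∏ p ∈ T, p) ∣ d then ∏ p ∈ T, (c / (p : ℝ)) else 0 := by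
      intro d _
      rw [Finset.prod_ite_zero]
      congr 1
      rw [eq_iff_iff]
      constructor
      · intro h
        exact Finset.prod_primes_dvd d (fun p hp => (hTp p hp).prime) h
      · intro h p hp
        exact (Finset.dvd_prod_of_mem (fun p => p) hp).trans h
    rw [sum_congr rfl e1, ← sum_filter, sum_const, nsmul_eq_mul]
    have hpos : 0 < ∏ p ∈ T, p := Finset.prod_pos fun p hp => (hTp p hp).pos
    have e2 := count_multiples H hpos
    have e3 : 0 ≤ ∏ p ∈ T, (c / (p : ℝ)) := Finset.prod_nonneg fun _ _ => by positivity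
    calc _ ≤ ((H : ℝ) / (∏ p ∈ T, p : ℕ)) * ∏ p ∈ T, (c / (p : ℝ)) := mul_le_mul_of_nonneg_right e2 e3
      _ = H * ∏ p ∈ T, (c / (p : ℝ) ^ 2) := by
          push_cast
          rw [div_mul_eq_mul_div, mul_div_assoc, ← Finset.prod_div_distrib]
          congr 1
          apply Finset.prod_congr rfl
          intro p hp
          have : (p : ℝ) ≠ 0 := by exact_mod_cast (hTp p hp).ne_zero
          field_simp
  refine (sum_le_sum h2).trans ?_
  rw [← mul_sum, ← Finset.prod_one_add, mul_comm]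
  apply mul_le_mul_of_nonneg_right _ (Nat.cast_nonneg _)
  have h3 : ∏ p ∈ P, (1 + c / (p : ℝ) ^ 2) ≤ Real.exp (∑ p ∈ P, c / (p : ℝ) ^ 2) := by
    rw [Real.exp_sum]
    apply Finset.prod_le_prod
    · intro _ _; positivity
    · intro p _
      have := Real.add_one_le_exp (c / (p : ℝ) ^ 2)
      linarith
  refine h3.trans (Real.exp_le_exp.2 ?_)
  have h4 : ∑ p ∈ P, c / (p : ℝ) ^ 2 = c * ∑ p ∈ P, 1 / (p : ℝ) ^ 2 := by
    rw [mul_sum]
    apply sum_congr rfl
    intro p _
    ring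
  have h5 : ∑ p ∈ P, 1 / (p : ℝ) ^ 2 ≤ 1 := by
    refine le_trans ?_ (sum_inv_sq_le H)
    apply sum_le_sum_of_subset_of_nonneg
    · intro p hp
      rw [hP, mem_filter, mem_Icc] at hp
      rw [mem_Icc]
      exact ⟨hp.2.two_le, hp.1.2⟩
    · intro _ _ _
      positivity
  rw [h4]
  nlinarith

end Pool.Agent.MPbca
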