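import Pool.Agent.Lib.MP_bca3e5_nt.Up

set_option autoImplicit false

/-!
The upper bound for the number of primes `n ≤ x` with `a n + 1` prime for all `a ∈ A`,
uniformly in `A`.
-/

namespace Pool.Agent.MPbca

open Finset

/-- the number of primes `n ≤ x` with `a n + 1` prime for all `a ∈ A` -/
def NA (A : Finset ℕ) (x : ℕ) : ℕ :=
  ((Icc 1 x).filter (fun n => n.Prime ∧ ∀ a ∈ A, (a * n + 1).Prime)).card

/-- the roots of `a r + 1` modulo `p` -/
def Rt (p a : ℕ) : Finset ℕ := (range p).filter (fun r => p ∣ a * r + 1)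

lemma card_Rt_le {p : ℕ} (hp : p.Prime) (a : ℕ) : (Rt p a).card ≤ 1 := by
  rw [Finset.card_le_one]
  intro r hr r' hr'
  unfold Rt at hr hr'
  rw [mem_filter, mem_range] at hr hr'
  have hcop : ¬ p ∣ a := by
    intro h
    have h1 : p ∣ 1 := (Nat.dvd_add_right (h.mul_right r)).1 hr.2
    exact hp.one_lt.ne' (Nat.dvd_one.1 h1)
  have h2 : a * r + 1 ≡ a * r' + 1 [MOD p] :=
    ((Nat.modEq_zero_iff_dvd).2 hr.2).trans ((Nat.modEq_zero_iff_dvd).2 hr'.2).symm
  have h3 : a * r ≡ a * r' [MOD p] := Nat.ModEq.add_right_cancel' 1 h2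
  have h4 : r ≡ r' [MOD p] :=
    Nat.ModEq.cancel_left_of_coprime (by
      have := (Nat.Prime.coprime_iff_not_dvd hp).2 hcop
      exact this) h3
  exact Nat.ModEq.eq_of_lt_of_lt h4 hr.1 hr'.1

lemma card_Rt_eq {p : ℕ} (hp : p.Prime) {a : ℕ} (ha : ¬ p ∣ a) : 1 ≤ (Rt p a).card := by
  have : Fact p.Prime := ⟨hp⟩
  rw [Nat.one_le_iff_ne_zero, Ne, Finset.card_eq_zero, ← Ne, ← Finset.nonempty_iff_ne_empty]
  refine ⟨(-(a : ZMod p)⁻¹).val, ?_⟩
  unfold Rt
  rw [mem_filter, mem_range]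
  refine ⟨ZMod.val_lt _, ?_⟩
  rw [← ZMod.natCast_eq_zero_iff]
  push_cast
  rw [ZMod.natCast_zmod_val]
  have ha' : (a : ZMod p) ≠ 0 := by
    rw [Ne, ZMod.natCast_eq_zero_iff]
    exact ha
  rw [mul_neg, mul_inv_cancel₀ ha']
  ring

/-- the excluded classes -/
def QA (A : Finset ℕ) (K : ℕ) (p n : ℕ) : Prop := K < p ∧ p ∣ n * ∏ a ∈ A, (a * n + 1)

instance (A : Finset ℕ) (K p : ℕ) : DecidablePred (QA A K p) := fun n => by
  unfold QA
  infer_instance

lemma QA_per (A : Finset ℕ) (K p x : ℕ) : QA A K p (x % p) ↔ QA A K p x := by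
  unfold QA
  rw [← ZMod.natCast_eq_zero_iff, ← ZMod.natCast_eq_zero_iff]
  push_cast
  rw [ZMod.natCast_mod]

lemma QA_filter {A : Finset ℕ} {K p : ℕ} (hp : p.Prime) (hK : K < p) :
    (range p).filter (QA A K p) = {0} ∪ A.biUnion (Rt p) := by
  ext r
  rw [mem_filter, mem_union, mem_singleton, mem_biUnion, mem_range]
  unfold QA Rt
  constructor
  · rintro ⟨h1, _, h2⟩
    rw [hp.dvd_mul, hp.prime.dvd_finsetProd_iff] at h2
    rcases h2 with h2 | ⟨a, ha, h2⟩
    · left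
      exact Nat.eq_zero_of_dvd_of_lt h2 h1
    · right
      exact ⟨a, ha, mem_filter.2 ⟨mem_range.2 h1, h2⟩⟩
  · rintro (h | ⟨a, ha, h⟩)
    · subst h
      exact ⟨hp.pos, hK, by simp⟩
    · rw [mem_filter, mem_range] at h
      refine ⟨h.1, hK, ?_⟩
      exact (h.2.trans (Finset.dvd_prod_of_mem (fun a => a * r + 1) ha)).mul_left r

lemma om_QA_le {A : Finset ℕ} {K p : ℕ} (hA : A.card + 1 ≤ K) (hp : p.Prime) :
    om (QA A K) p ≤ K := by
  unfold om
  by_cases hK : K < p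
  · rw [QA_filter hp hK]
    calc _ ≤ ({0} : Finset ℕ).card + (A.biUnion (Rt p)).card := card_union_le _ _
      _ ≤ 1 + ∑ a ∈ A, (Rt p a).card := by
          rw [card_singleton]
          exact Nat.add_le_add_left card_biUnion_le _
      _ ≤ 1 + ∑ a ∈ A, 1 := Nat.add_le_add_left (sum_le_sum fun a _ => card_Rt_le hp a) _
      _ = 1 + A.card := by rw [sum_const, smul_eq_mul, mul_one]
      _ ≤ K := by omega
  · have : (range p).filter (QA A K p) = ∅ := by
      rw [Finset.filter_eq_empty_iff]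
      intro r _ h
      exact hK h.1
    rw [this]
    simp

lemma om_QA_lt {A : Finset ℕ} {K p : ℕ} (hA : A.card + 1 ≤ K) (hp : p.Prime) :
    om (QA A K) p < p := by
  by_cases hK : K < p
  · exact lt_of_le_of_lt (om_QA_le hA hp) hK
  · unfold om
    have : (range p).filter (QA A K p) = ∅ := by
      rw [Finset.filter_eq_empty_iff]
      intro r _ h
      exact hK h.1
    rw [this]
    exact hp.pos

/-- the difference attached to a pair -/
def vv (x : ℕ × ℕ) : ℕ := if x.1 = x.2 then x.1 else ((x.1 : ℤ) - x.2).natAbs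

/-- the exceptional primes -/
def Bad (A : Finset ℕ) : Finset ℕ := (A ×ˢ A).biUnion (fun x => (vv x).primeFactors)

lemma om_QA_ge {A : Finset ℕ} {K p : ℕ} (hA : A.card + 1 = K) (hpos : ∀ a ∈ A, 0 < a)
    (hp : p.Prime) (hK : K < p) (hb : p ∉ Bad A) : K ≤ om (QA A K) p := by
  unfold om
  rw [QA_filter hp hK]
  have hnot : ∀ x ∈ A ×ˢ A, ¬ p ∣ vv x := by
    intro x hx h
    apply hb
    unfold Bad
    rw [mem_biUnion]
    refine ⟨x, hx, ?_⟩
    rw [Nat.mem_primeFactors]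
    refine ⟨hp, h, ?_⟩
    unfold vv
    split_ifs with h0
    · exact (hpos _ (mem_product.1 hx).1).ne'
    · rw [Ne, Int.natAbs_eq_zero, sub_eq_zero]
      exact_mod_cast h0
  have h1 : ∀ a ∈ A, ¬ p ∣ a := by
    intro a ha
    have := hnot (a, a) (mem_product.2 ⟨ha, ha⟩)
    unfold vv at this
    simpa using this
  rw [card_union_of_disjoint, card_singleton, card_biUnion]
  · have : ∑ a ∈ A, 1 ≤ ∑ a ∈ A, (Rt p a).card := sum_le_sum fun a ha => card_Rt_eq hp (h1 a ha)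
    rw [sum_const, smul_eq_mul, mul_one] at this
    omega
  · intro a ha b hb' hab
    show Disjoint (Rt p a) (Rt p b)
    rw [Finset.disjoint_left]
    intro r hr hr'
    unfold Rt at hr hr'
    rw [mem_filter, mem_range] at hr hr'
    have h2 := hnot (a, b) (mem_product.2 ⟨ha, hb'⟩)
    apply h2
    unfold vv
    rw [if_neg hab]
    rw [← Int.natCast_dvd]
    have h3 : (p : ℤ) ∣ (a : ℤ) * r + 1 := by exact_mod_cast hr.2
    have h4 : (p : ℤ) ∣ (b : ℤ) * r + 1 := by exact_mod_cast hr'.2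
    have h5 : (p : ℤ) ∣ ((a : ℤ) - b) * r := by
      have := dvd_sub h3 h4
      have e : (a : ℤ) * r + 1 - (b * r + 1) = ((a : ℤ) - b) * r := by ring
      rwa [e] at this
    rcases (Nat.prime_iff_prime_int.1 hp).dvd_or_dvd h5 with h6 | h6
    · exact h6
    · exfalso
      have h7 : (p : ℤ) ∣ 1 := (dvd_add_right (h6.mul_left (a : ℤ))).1 h3
      have h8 : p ∣ 1 := by exact_mod_cast h7
      exact hp.one_lt.ne' (Nat.dvd_one.1 h8)
  · rw [Finset.disjoint_left]
    intro r hr hr'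
    rw [mem_singleton] at hr
    subst hr
    rw [mem_biUnion] at hr'
    obtain ⟨a, _, h⟩ := hr'
    unfold Rt at h
    rw [mem_filter, mul_zero, zero_add] at h
    exact hp.one_lt.ne' (Nat.dvd_one.1 h.2)

lemma sqrt_le_div (K : ℕ) : ∃ X0 : ℕ, ∀ X : ℕ, X0 ≤ X →
    (Nat.sqrt X : ℝ) ≤ X / (Real.log X) ^ K := by
  have h := (isLittleO_log_rpow_rpow_atTop (K : ℝ) (show (0 : ℝ) < 1 / 2 by norm_num)).def
    (show (0 : ℝ) < 1 by norm_num)
  obtain ⟨x0, hx0⟩ := Filter.eventually_atTop.1 h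
  refine ⟨max ⌈x0⌉₊ 3, fun X hX => ?_⟩
  have h1 : x0 ≤ (X : ℝ) := (Nat.le_ceil x0).trans (by exact_mod_cast le_trans (le_max_left _ _) hX)
  have hX3 : (3 : ℝ) ≤ X := by exact_mod_cast le_trans (le_max_right _ _) hX
  have h2 := hx0 X h1
  have hlog : 0 < Real.log X := Real.log_pos (by linarith)
  rw [Real.norm_of_nonneg (by positivity), Real.norm_of_nonneg (by positivity), one_mul,
    Real.rpow_natCast, ← Real.sqrt_eq_rpow] at h2
  rw [le_div_iff₀ (by positivity)]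
  have h3 : (Nat.sqrt X : ℝ) ≤ Real.sqrt X := Real.nat_sqrt_le_real_sqrt
  calc (Nat.sqrt X : ℝ) * Real.log X ^ K ≤ Real.sqrt X * Real.sqrt X :=
        mul_le_mul h3 h2 (by positivity) (Real.sqrt_nonneg _)
    _ = X := Real.mul_self_sqrt (by linarith)

/-- the uniform upper bound -/
theorem NA_upper (s : ℕ) : ∃ C : ℝ, 0 < C ∧ ∃ X0 : ℕ, ∀ X : ℕ, X0 ≤ X → ∀ A : Finset ℕ,
    A.card = s → (∀ a ∈ A, 0 < a) →
    (NA A X : ℝ) ≤ C * (X / (Real.log X) ^ (s + 1)) *
      Real.exp ((s + 1 : ℕ) * ∑ p ∈ Bad A, (1 : ℝ) / p) := by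
  classical
  obtain ⟨C, hC, X0, hX0⟩ := upper_uniform (s + 1) (by omega)
  obtain ⟨X1, hX1⟩ := sqrt_le_div (s + 1)
  refine ⟨C + 1, by linarith, max X0 (max X1 2), fun X hX A hA hpos => ?_⟩
  have h0 := hX0 X (le_trans (le_max_left _ _) hX)
  have h1 := hX1 X (le_trans (le_trans (le_max_left _ _) (le_max_right _ _)) hX)
  have hX2 : 2 ≤ X := le_trans (le_trans (le_max_right _ _) (le_max_right _ _)) hX
  set T := (Icc 1 X).filter (fun n => n.Prime ∧ ∀ a ∈ A, (a * n + 1).Prime) with hT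
  set S := T.filter (fun n => X < n ^ 2) with hS
  have h2 := h0 (QA A (s + 1)) (fun p x => QA_per A (s + 1) p x)
    (fun p hp => om_QA_le (by omega) hp) (fun p hp => om_QA_lt (by omega) hp) (Bad A)
    (fun p hp hK hb => om_QA_ge (by omega) hpos hp hK hb) S (by
      intro n hn
      exact (mem_filter.1 (mem_filter.1 hn).1).1) (by
      intro n hn p hp hpX hQ
      rw [hS, mem_filter, hT, mem_filter] at hn
      obtain ⟨⟨_, hnp, hna⟩, hnX⟩ := hn
      unfold QA at hQ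
      obtain ⟨_, hQ⟩ := hQ
      rw [hp.dvd_mul, hp.prime.dvd_finsetProd_iff] at hQ
      rcases hQ with h | ⟨a, ha, h⟩
      · have : p = n := (Nat.prime_dvd_prime_iff_eq hp hnp).1 h
        subst this
        omega
      · have e1 : p = a * n + 1 := (Nat.prime_dvd_prime_iff_eq hp (hna a ha)).1 h
        have ha0 := hpos a ha
        have e2 : n ≤ p := by nlinarith
        have e3 : n ^ 2 ≤ p ^ 2 := Nat.pow_le_pow_left e2 2
        omega)
  have h3 : (NA A X : ℝ) ≤ S.card + Nat.sqrt X := by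
    have h4 : T.card ≤ S.card + Nat.sqrt X := by
      rw [← Finset.card_filter_add_card_filter_not (s := T) (fun n => X < n ^ 2), ← hS]
      apply Nat.add_le_add_left
      have h5 : (T.filter (fun n => ¬ X < n ^ 2)) ⊆ Icc 1 (Nat.sqrt X) := by
        intro n hn
        rw [mem_filter, hT, mem_filter, mem_Icc, not_lt] at hn
        rw [mem_Icc]
        exact ⟨hn.1.1.1, Nat.le_sqrt'.2 hn.2⟩
      have := card_le_card h5
      rwa [Nat.card_Icc, Nat.add_sub_cancel] at this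
    exact_mod_cast h4
  set EB := Real.exp ((s + 1 : ℕ) * ∑ p ∈ Bad A, (1 : ℝ) / p) with hEB
  have hEB1 : 1 ≤ EB := by
    apply Real.one_le_exp
    have : 0 ≤ ∑ p ∈ Bad A, (1 : ℝ) / p := sum_nonneg fun _ _ => by positivity
    positivity
  have hlog : 0 < Real.log X := Real.log_pos (by exact_mod_cast (by omega : 1 < X))
  have h6 : 0 ≤ (X : ℝ) / (Real.log X) ^ (s + 1) := by positivity
  have h7 : (X : ℝ) / (Real.log X) ^ (s + 1) ≤ (X / (Real.log X) ^ (s + 1)) * EB := by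
    calc _ = (X : ℝ) / (Real.log X) ^ (s + 1) * 1 := (mul_one _).symm
      _ ≤ _ := mul_le_mul_of_nonneg_left hEB1 h6
  calc (NA A X : ℝ) ≤ S.card + Nat.sqrt X := h3
    _ ≤ C * (X / (Real.log X) ^ (s + 1)) * EB + (X / (Real.log X) ^ (s + 1)) * EB :=
        add_le_add h2 (h1.trans h7)
    _ = _ := by ring

end Pool.Agent.MPbca
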