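import Pool.Agent.Lib.MP_bca3e5_nt.Mom
import Pool.Agent.Lib.MP_bca3e5_nt.NAup

set_option autoImplicit false

/-!
The second moment over the sets `A`.
-/

namespace Pool.Agent.MPbca

open Finset

lemma sum_Bad_le (A : Finset ℕ) : ∑ p ∈ Bad A, (1 : ℝ) / p ≤ ∑ x ∈ A ×ˢ A, hh (vv x) := by
  classical
  unfold Bad hh
  have key : ∀ S : Finset (ℕ × ℕ), ∑ p ∈ S.biUnion (fun x => (vv x).primeFactors), (1 : ℝ) / p ≤
      ∑ x ∈ S, ∑ p ∈ (vv x).primeFactors, (1 : ℝ) / p := by
    intro S
    induction S using Finset.induction_on with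
    | empty => simp
    | insert x S hx ih =>
      rw [Finset.biUnion_insert, Finset.sum_insert hx]
      have h1 := Finset.sum_union_inter (s₁ := (vv x).primeFactors)
        (s₂ := S.biUnion (fun x => (vv x).primeFactors)) (f := fun p => (1 : ℝ) / p)
      have h2 : 0 ≤ ∑ p ∈ (vv x).primeFactors ∩ S.biUnion (fun x => (vv x).primeFactors),
          (1 : ℝ) / p := sum_nonneg fun _ _ => by positivity
      linarith
  exact key (A ×ˢ A)

/-- exponential of a sum is at most the sum of the exponentials -/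
lemma exp_sum_le {ι : Type*} (S : Finset ι) (hS : S.Nonempty) (f : ι → ℝ) {R : ℝ} (hR : 0 ≤ R) :
    Real.exp (R * ∑ x ∈ S, f x) ≤ ∑ x ∈ S, Real.exp (R * S.card * f x) := by
  obtain ⟨y, hy, hmax⟩ := Finset.exists_max_image S f hS
  have h1 : ∑ x ∈ S, f x ≤ S.card * f y := by
    have := Finset.sum_le_card_nsmul S f (f y) hmax
    rwa [nsmul_eq_mul] at this
  calc Real.exp (R * ∑ x ∈ S, f x) ≤ Real.exp (R * S.card * f y) := by
        apply Real.exp_le_exp.2
        have := mul_le_mul_of_nonneg_left h1 hR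
        linarith
    _ ≤ _ := Finset.single_le_sum (f := fun x => Real.exp (R * S.card * f x))
        (fun _ _ => (Real.exp_pos _).le) hy

lemma card_containing (S B : Finset ℕ) (s : ℕ) :
    ((S.powersetCard s).filter (fun A => B ⊆ A)).card * S.card ^ B.card ≤ S.card ^ s := by
  classical
  rcases Nat.eq_zero_or_pos ((S.powersetCard s).filter (fun A => B ⊆ A)).card with h0 | hpos
  · rw [h0, zero_mul]; exact Nat.zero_le _
  obtain ⟨A0, hA0⟩ := Finset.card_pos.1 hpos
  rw [mem_filter, mem_powersetCard] at hA0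
  have hBs : B.card ≤ s := by
    rw [← hA0.1.2]
    exact card_le_card hA0.2
  have h1 : ((S.powersetCard s).filter (fun A => B ⊆ A)).card ≤
      (S.powersetCard (s - B.card)).card := by
    apply Finset.card_le_card_of_injOn (fun A => A \ B)
    · intro A hA
      simp only [coe_filter, mem_powersetCard, Set.mem_ofPred_eq] at hA
      simp only [mem_coe, mem_powersetCard]
      refine ⟨(Finset.sdiff_subset).trans hA.1.1, ?_⟩
      rw [Finset.card_sdiff_of_subset hA.2, hA.1.2]
    · intro A hA A' hA' h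
      simp only [coe_filter, mem_powersetCard, Set.mem_ofPred_eq] at hA hA'
      simp only at h
      rw [← Finset.sdiff_union_of_subset hA.2, h, Finset.sdiff_union_of_subset hA'.2]
  have h2 : (S.powersetCard (s - B.card)).card ≤ S.card ^ (s - B.card) := by
    rw [card_powersetCard]
    exact Nat.choose_le_pow _ _
  calc _ ≤ S.card ^ (s - B.card) * S.card ^ B.card := Nat.mul_le_mul_right _ (h1.trans h2)
    _ = S.card ^ s := by rw [← pow_add]; congr 1; omega

lemma sum_diff_le (f : ℕ → ℝ) (hf : ∀ d, 0 ≤ f d) (H a : ℕ) (ha : a ∈ Icc 1 H) :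
    ∑ b ∈ (Icc 1 H).filter (fun b => b ≠ a), f ((a : ℤ) - b).natAbs ≤ 2 * ∑ d ∈ Icc 1 H, f d := by
  classical
  rw [mem_Icc] at ha
  have hsplit : (Icc 1 H).filter (fun b => b ≠ a) = Ico 1 a ∪ Ioc a H := by
    ext b
    simp only [mem_filter, mem_Icc, mem_union, mem_Ico, mem_Ioc]
    omega
  rw [hsplit, Finset.sum_union (by
    rw [Finset.disjoint_left]
    intro b h1 h2
    rw [mem_Ico] at h1
    rw [mem_Ioc] at h2
    omega)]
  have h1 : ∑ b ∈ Ico 1 a, f ((a : ℤ) - b).natAbs ≤ ∑ d ∈ Icc 1 H, f d := by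
    rw [← Finset.sum_image (s := Ico 1 a) (g := fun b : ℕ => ((a : ℤ) - b).natAbs) (f := f)]
    · apply sum_le_sum_of_subset_of_nonneg
      · intro d hd
        rw [mem_image] at hd
        obtain ⟨b, hb, rfl⟩ := hd
        rw [mem_Ico] at hb
        rw [mem_Icc]
        omega
      · intro d _ _; exact hf d
    · intro b hb c hc h
      simp only [coe_Ico, Set.mem_Ico] at hb hc
      simp only at h
      omega
  have h2 : ∑ b ∈ Ioc a H, f ((a : ℤ) - b).natAbs ≤ ∑ d ∈ Icc 1 H, f d := by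
    rw [← Finset.sum_image (s := Ioc a H) (g := fun b : ℕ => ((a : ℤ) - b).natAbs) (f := f)]
    · apply sum_le_sum_of_subset_of_nonneg
      · intro d hd
        rw [mem_image] at hd
        obtain ⟨b, hb, rfl⟩ := hd
        rw [mem_Ioc] at hb
        rw [mem_Icc]
        omega
      · intro d _ _; exact hf d
    · intro b hb c hc h
      simp only [coe_Ioc, Set.mem_Ioc] at hb hc
      simp only at h
      omega
  linarith

/-- the moment of the singular factor over the sets `A` -/
theorem moment {s : ℕ} (hs : 1 ≤ s) {R : ℝ} (hR : 0 ≤ R) : ∃ C : ℝ, 0 < C ∧ ∀ H : ℕ, 1 ≤ H →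
    ∑ A ∈ (Icc 1 H).powersetCard s, Real.exp (R * ∑ p ∈ Bad A, (1 : ℝ) / p) ≤ C * (H : ℝ) ^ s := by
  classical
  set κ : ℝ := R * (s ^ 2 : ℕ) with hκ
  have hκ0 : 0 ≤ κ := by positivity
  set C0 : ℝ := Real.exp (κ * Real.exp κ) with hC0
  refine ⟨3 * C0, by positivity, fun H hH => ?_⟩
  have hH' : (0 : ℝ) < H := by exact_mod_cast hH
  set g : ℕ × ℕ → ℝ := fun x => Real.exp (κ * hh (vv x)) with hg
  have hg0 : ∀ x, 0 ≤ g x := fun x => (Real.exp_pos _).le
  have h1 : ∀ A ∈ (Icc 1 H).powersetCard s, Real.exp (R * ∑ p ∈ Bad A, (1 : ℝ) / p) ≤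
      ∑ x ∈ A ×ˢ A, g x := by
    intro A hA
    rw [mem_powersetCard] at hA
    have hne : (A ×ˢ A).Nonempty := by
      have : A.Nonempty := by
        rw [← Finset.card_pos, hA.2]; omega
      exact this.product this
    have h2 := exp_sum_le (A ×ˢ A) hne (fun x => hh (vv x)) hR
    rw [card_product, hA.2] at h2
    refine le_trans ?_ (h2.trans (le_of_eq ?_))
    · apply Real.exp_le_exp.2
      exact mul_le_mul_of_nonneg_left (sum_Bad_le A) hR
    · apply sum_congr rfl
      intro x _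
      rw [hg, hκ]
      simp only
      congr 2
      push_cast
      ring
  refine (sum_le_sum h1).trans ?_
  have h3 : ∑ A ∈ (Icc 1 H).powersetCard s, ∑ x ∈ A ×ˢ A, g x =
      ∑ x ∈ Icc 1 H ×ˢ Icc 1 H, g x *
        (((Icc 1 H).powersetCard s).filter (fun A => ({x.1, x.2} : Finset ℕ) ⊆ A)).card := by
    have e1 : ∀ A ∈ (Icc 1 H).powersetCard s, ∑ x ∈ A ×ˢ A, g x =
        ∑ x ∈ Icc 1 H ×ˢ Icc 1 H, if ({x.1, x.2} : Finset ℕ) ⊆ A then g x else 0 := by
      intro A hA
      rw [mem_powersetCard] at hA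
      rw [← sum_filter]
      apply sum_congr _ fun _ _ => rfl
      ext x
      rw [mem_product, mem_filter, mem_product, Finset.insert_subset_iff, Finset.singleton_subset_iff]
      constructor
      · intro h
        exact ⟨⟨hA.1 h.1, hA.1 h.2⟩, h⟩
      · intro h
        exact h.2
    rw [sum_congr rfl e1, sum_comm]
    apply sum_congr rfl
    intro x _
    rw [← sum_filter, sum_const, nsmul_eq_mul, mul_comm]
  rw [h3]
  have h4 : ∀ x ∈ Icc 1 H ×ˢ Icc 1 H, g x *
      (((Icc 1 H).powersetCard s).filter (fun A => ({x.1, x.2} : Finset ℕ) ⊆ A)).card ≤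
      (if x.1 = x.2 then g x * ((H : ℝ) ^ s / H) else g x * ((H : ℝ) ^ s / H ^ 2)) := by
    intro x _
    have e2 := card_containing (Icc 1 H) {x.1, x.2} s
    rw [Nat.card_Icc, Nat.add_sub_cancel] at e2
    split_ifs with h
    · apply mul_le_mul_of_nonneg_left _ (hg0 x)
      rw [le_div_iff₀ hH']
      rw [h, Finset.pair_eq_singleton, card_singleton, pow_one] at e2
      rw [h, Finset.pair_eq_singleton]
      exact_mod_cast e2
    · apply mul_le_mul_of_nonneg_left _ (hg0 x)
      rw [le_div_iff₀ (by positivity)]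
      rw [Finset.card_pair h] at e2
      exact_mod_cast e2
  refine (sum_le_sum h4).trans ?_
  rw [Finset.sum_product]
  have hmom := sum_exp_hh hκ0 H
  rw [← hC0] at hmom
  have h5 : ∀ a ∈ Icc 1 H, ∑ b ∈ Icc 1 H, (if (a, b).1 = (a, b).2 then g (a, b) * ((H : ℝ) ^ s / H)
      else g (a, b) * ((H : ℝ) ^ s / H ^ 2)) ≤
      Real.exp (κ * hh a) * ((H : ℝ) ^ s / H) + 2 * (C0 * H) * ((H : ℝ) ^ s / H ^ 2) := by
    intro a ha
    rw [← Finset.sum_filter_add_sum_filter_not (Icc 1 H) (fun b => b = a)]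
    apply add_le_add
    · rw [Finset.filter_eq', if_pos ha, sum_singleton]
      simp only [if_true]
      rw [hg]
      unfold vv
      simp
    · have e3 : ∑ b ∈ (Icc 1 H).filter (fun b => ¬ b = a),
          (if (a, b).1 = (a, b).2 then g (a, b) * ((H : ℝ) ^ s / H)
            else g (a, b) * ((H : ℝ) ^ s / H ^ 2)) =
          (∑ b ∈ (Icc 1 H).filter (fun b => b ≠ a), Real.exp (κ * hh ((a : ℤ) - b).natAbs)) *
            ((H : ℝ) ^ s / H ^ 2) := by
        rw [sum_mul]
        apply sum_congr rfl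
        intro b hb
        rw [mem_filter] at hb
        have hne : a ≠ b := fun h => hb.2 h.symm
        simp only
        rw [if_neg hne, hg]
        simp only
        unfold vv
        simp only
        rw [if_neg hne]
      rw [e3]
      apply mul_le_mul_of_nonneg_right _ (by positivity)
      have e4 := sum_diff_le (fun d => Real.exp (κ * hh d)) (fun d => (Real.exp_pos _).le) H a ha
      linarith
  refine (sum_le_sum h5).trans ?_
  rw [sum_add_distrib, ← sum_mul, sum_const, Nat.card_Icc, Nat.add_sub_cancel, nsmul_eq_mul]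
  have h6 : (∑ a ∈ Icc 1 H, Real.exp (κ * hh a)) * ((H : ℝ) ^ s / H) ≤ (C0 * H) * ((H : ℝ) ^ s / H) :=
    mul_le_mul_of_nonneg_right hmom (by positivity)
  have h7 : (C0 * H) * ((H : ℝ) ^ s / H) = C0 * (H : ℝ) ^ s := by field_simp
  have h8 : (H : ℝ) * (2 * (C0 * H) * ((H : ℝ) ^ s / H ^ 2)) = 2 * C0 * (H : ℝ) ^ s := by
    field_simp
  rw [h7] at h6
  rw [h8]
  linarith

end Pool.Agent.MPbca
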