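import Pool.Agent.Lib.MP_bca3e5_nt.PartB

/-!
The lower bound of Q1 for a positive proportion of the sets `A` of `s` coefficients up to a bound
`H` smaller than `x`, at a positive proportion of the scales `x = 2^k`.
-/

namespace Pool.Agent.Lib.MP_bca3e5_nt.OldBeyondSquareRoot

open Finset

/-- There is `δ > 0` such that for every `s ≥ 1` there are `c > 0` and `n₀` with the following
property. For every `n ≥ n₀` at least `c * n` of the integers `k` with
`(1/2 + δ) n ≤ k ≤ (1 - δ) n` are such that, with `x = 2^k` and `H = 2^(n-k)`, at least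
`c * (H choose s)` of the `s`-element sets `A ⊆ {1, ..., H}` satisfy
`N_A(x) ≥ c x / (log x)^(s+1)`, where `N_A(x)` is the number of primes `p ≤ x` with `a p + 1`
prime for all `a ∈ A`. -/
theorem result : ∃ δ : ℝ, 0 < δ ∧ ∀ s : ℕ, 1 ≤ s → ∃ c : ℝ, 0 < c ∧ ∃ n₀ : ℕ,
    ∀ n : ℕ, n₀ ≤ n → c * n ≤
      (((Finset.range (n + 1)).filter (fun k : ℕ =>
        (1 / 2 + δ) * n ≤ k ∧ (k : ℝ) ≤ (1 - δ) * n ∧
        c * ((2 ^ (n - k)).choose s : ℝ) ≤
          ((((Finset.Icc 1 (2 ^ (n - k))).powersetCard s).filter (fun A =>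
            c * (2 : ℝ) ^ k / (Real.log ((2 : ℝ) ^ k)) ^ (s + 1) ≤
            (((Finset.range (2 ^ k + 1)).filter
              (fun p => p.Prime ∧ ∀ a ∈ A, (a * p + 1).Prime)).card : ℝ))).card : ℝ))).card : ℝ) := by
  classical
  obtain ⟨δ, hδ, h⟩ := Pool.Agent.MPbca.partB
  refine ⟨δ, hδ, fun s hs => ?_⟩
  obtain ⟨c, hc, n₀, hn⟩ := h s hs
  refine ⟨c, hc, n₀, fun n hnn => (hn n hnn).trans (le_of_eq ?_)⟩
  have key : ∀ (A : Finset ℕ) (k : ℕ), Pool.Agent.MPbca.NA A (2 ^ k) =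
      ((range (2 ^ k + 1)).filter (fun p => p.Prime ∧ ∀ a ∈ A, (a * p + 1).Prime)).card := by
    intro A k
    unfold Pool.Agent.MPbca.NA
    congr 1
    ext p
    simp only [mem_filter, mem_Icc, mem_range]
    constructor
    · rintro ⟨⟨_, h6⟩, h7⟩
      exact ⟨by omega, h7⟩
    · rintro ⟨h6, h7⟩
      exact ⟨⟨h7.1.one_le, by omega⟩, h7⟩
  simp only [key]

end Pool.Agent.Lib.MP_bca3e5_nt.OldBeyondSquareRoot
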