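import Pool.Agent.Lib.MP_bca3e5_nt.PartA

/-!
The lower bound of Q1 for a positive proportion of the sets `A` of `s` coefficients up to `H`, for
every large `x` and every `H` with `x (log x)^56 ≤ H ≤ x^K`.
-/

namespace Pool.Agent.Lib.MP_bca3e5_nt.OldPositiveProportion

open Finset

/-- For `s ≥ 1` and `K > 1` there are `c > 0` and `x₀` such that for all real `x ≥ x₀` and all `H`
with `x (log x)^56 ≤ H ≤ x^K`, at least `c * (H choose s)` of the `s`-element sets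
`A ⊆ {1, ..., H}` satisfy `N_A(x) ≥ c x / (log x)^(s+1)`, where `N_A(x)` is the number of primes
`n ≤ x` with `a n + 1` prime for all `a ∈ A`. -/
theorem result (s : ℕ) (hs : 1 ≤ s) (K : ℝ) (hK : 1 < K) : ∃ c : ℝ, 0 < c ∧ ∃ x₀ : ℝ,
    ∀ x : ℝ, x₀ ≤ x → ∀ H : ℕ, x * (Real.log x) ^ 56 ≤ H → (H : ℝ) ≤ x ^ K →
      c * (H.choose s : ℝ) ≤
        ((((Finset.Icc 1 H).powersetCard s).filter (fun A => c * x / (Real.log x) ^ (s + 1) ≤
          (((Finset.range (⌊x⌋₊ + 1)).filter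
            (fun n => n.Prime ∧ ∀ a ∈ A, (a * n + 1).Prime)).card : ℝ))).card : ℝ) := by
  classical
  obtain ⟨c, hc, x₀, h⟩ := Pool.Agent.MPbca.partA hs hK
  refine ⟨c, hc, x₀, fun x hx H h1 h2 => (h x hx H h1 h2).trans (le_of_eq ?_)⟩
  congr!

end Pool.Agent.Lib.MP_bca3e5_nt.OldPositiveProportion
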