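import Pool.Agent.Lib.MP_bca3e5_nt.Sum2

set_option autoImplicit false

/-!
Sumsets: a positive proportion.
-/

namespace Pool.Agent.MPbca

open Finset

variable {d : ℕ}

/-- the set of the sums `t + b_1 + ... + b_d` -/
def AB (y : ℕ × (Fin d → Finset ℕ)) : Finset ℕ :=
  (Fintype.piFinset y.2).image (fun b => y.1 + ∑ i, b i)

/-- from choices to sets -/
def toB {k h : Fin d → ℕ} (y : ℕ × WW k h) : ℕ × (Fin d → Finset ℕ) :=
  (y.1, fun i => Finset.univ.image (fun a : Fin (k i) => (y.2 ⟨i, a⟩ : ℕ) + 1))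

lemma AB_toB {k h : Fin d → ℕ} (y : ℕ × WW k h) : AB (toB y) = AS y.1 y.2 := by
  classical
  ext a
  unfold AB AS toB sj
  simp only [Finset.mem_image, Fintype.mem_piFinset, Finset.mem_univ, true_and]
  constructor
  · rintro ⟨b, hb, rfl⟩
    choose j hj using hb
    refine ⟨j, ?_⟩
    congr 1
    exact Finset.sum_congr rfl fun i _ => hj i
  · rintro ⟨j, rfl⟩
    exact ⟨fun i => (y.2 ⟨i, j i⟩ : ℕ) + 1, fun i => ⟨j i, rfl⟩, rfl⟩

lemma card_AS {k h : Fin d → ℕ} (t : ℕ) (w : WW k h) (hw : Function.Injective (sj w)) :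
    (AS t w).card = ∏ i, k i := by
  classical
  have hinj : Function.Injective (fun j : ∀ i, Fin (k i) => t + sj w j) := by
    intro a b hab
    exact hw (by simpa using hab)
  unfold AS
  rw [Finset.card_image_of_injective _ hinj, Finset.card_univ, Fintype.card_pi]
  simp only [Fintype.card_fin]

lemma inj_coord {k h : Fin d → ℕ} (hk : ∀ i, 1 ≤ k i) (w : WW k h) (hw : Function.Injective (sj w))
    (i : Fin d) : Function.Injective (fun a : Fin (k i) => (w ⟨i, a⟩ : ℕ) + 1) := by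
  classical
  intro a b hab
  simp only at hab
  let j0 : ∀ i, Fin (k i) := fun i => ⟨0, hk i⟩
  have h1 : sj w (Function.update j0 i a) = sj w (Function.update j0 i b) := by
    unfold sj
    apply Finset.sum_congr rfl
    intro i' _
    by_cases hi : i' = i
    · subst hi
      rw [Function.update_self, Function.update_self]
      exact hab
    · rw [Function.update_of_ne hi, Function.update_of_ne hi]
  have h2 := hw h1
  have h3 := congrFun h2 i
  rwa [Function.update_self, Function.update_self] at h3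

lemma toB_mem {k h : Fin d → ℕ} (hk : ∀ i, 1 ≤ k i) {H : ℕ} (t : ℕ) (ht : t ∈ Icc 1 H) (w : WW k h)
    (hw : Function.Injective (sj w)) : toB (t, w) ∈
      Icc 1 H ×ˢ Fintype.piFinset (fun i => (Icc 1 (h i)).powersetCard (k i)) := by
  classical
  unfold toB
  rw [Finset.mem_product]
  refine ⟨ht, ?_⟩
  rw [Fintype.mem_piFinset]
  intro i
  rw [Finset.mem_powersetCard]
  constructor
  · intro b hb
    rw [Finset.mem_image] at hb
    obtain ⟨a, _, rfl⟩ := hb
    rw [Finset.mem_Icc]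
    have := (w ⟨i, a⟩).isLt
    exact ⟨by omega, this⟩
  · rw [Finset.card_image_of_injective _ (inj_coord hk w hw i), Finset.card_univ, Fintype.card_fin]

/-- the fibres of the map from choices to sets -/
lemma fibre_toB {k h : Fin d → ℕ} (S : Finset (ℕ × WW k h)) (y : ℕ × (Fin d → Finset ℕ)) :
    (S.filter (fun x => toB x = y)).card ≤ ∏ i, k i ^ k i := by
  classical
  rcases Finset.eq_empty_or_nonempty (S.filter (fun x => toB x = y)) with h0 | ⟨x0, hx0⟩
  · rw [h0]; simp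
  rw [Finset.mem_filter] at hx0
  have hcard : ∀ i, (y.2 i).card ≤ k i := by
    intro i
    rw [← hx0.2]
    unfold toB
    refine Finset.card_image_le.trans ?_
    rw [Finset.card_univ, Fintype.card_fin]
  have h1 : (S.filter (fun x => toB x = y)).card ≤
      (Fintype.piFinset (fun x : (Σ i : Fin d, Fin (k i)) =>
        (Finset.univ : Finset (Fin (h x.1))).filter (fun z : Fin (h x.1) => (z : ℕ) + 1 ∈ y.2 x.1))).card := by
    apply Finset.card_le_card_of_injOn (fun x => x.2)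
    · intro x hx
      simp only [Finset.coe_filter, Set.mem_ofPred_eq] at hx
      simp only [Finset.mem_coe]
      rw [Fintype.mem_piFinset]
      intro p
      rw [Finset.mem_filter]
      refine ⟨Finset.mem_univ _, ?_⟩
      rw [← hx.2]
      unfold toB
      exact Finset.mem_image_of_mem _ (Finset.mem_univ p.2)
    · intro x hx x' hx' he
      simp only [Finset.coe_filter, Set.mem_ofPred_eq] at hx hx'
      simp only at he
      apply Prod.ext _ he
      have h2 : (toB x).1 = (toB x').1 := by rw [hx.2, hx'.2]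
      exact h2
  refine h1.trans ?_
  rw [Fintype.card_piFinset, Fintype.prod_sigma]
  apply Finset.prod_le_prod'
  intro i _
  have h2 : ∀ a : Fin (k i), ((Finset.univ : Finset (Fin (h i))).filter
      (fun z : Fin (h i) => (z : ℕ) + 1 ∈ y.2 i)).card ≤ k i := by
    intro a
    refine le_trans ?_ (hcard i)
    apply Finset.card_le_card_of_injOn (fun z : Fin (h i) => (z : ℕ) + 1)
    · intro z hz
      simp only [Finset.coe_filter, Finset.mem_univ, true_and, Set.mem_ofPred_eq] at hz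
      exact hz
    · intro z _ z' _ he
      simp only at he
      apply Fin.ext
      omega
  calc ∏ a : Fin (k i), ((Finset.univ : Finset (Fin (h i))).filter
      (fun z : Fin (h i) => (z : ℕ) + 1 ∈ y.2 i)).card ≤ ∏ _a : Fin (k i), k i :=
        Finset.prod_le_prod' fun a _ => h2 a
    _ = k i ^ k i := by rw [Finset.prod_const, Finset.card_univ, Fintype.card_fin]

lemma NA_le_card (A : Finset ℕ) (X : ℕ) : NA A X ≤ (Px X).card := by
  unfold NA Px
  apply card_le_card
  intro n hn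
  rw [mem_filter] at hn ⊢
  exact ⟨hn.1, hn.2.1⟩

/-- from the average over `a` to a positive proportion of the sumsets -/
theorem deduceSum {c1 : ℝ} (hc1 : 0 < c1) (k : Fin d → ℕ) (hk : ∀ i, 1 ≤ k i) (hd : 1 ≤ d) :
    ∃ c : ℝ, 0 < c ∧ ∃ X0 : ℕ, ∀ X : ℕ, X0 ≤ X → ∀ (H : ℕ) (h : Fin d → ℕ),
    (∀ i, (Real.log X) ^ (∏ i, k i + 1) ≤ (h i : ℝ)) → (∀ i, h i ≤ H) →
    c1 * (X * H / (Real.log X) ^ 2) ≤ ∑ n ∈ Px X, (cnt n H : ℝ) →
    c * (H * ∏ i, (h i : ℝ) ^ k i) ≤
      (((Icc 1 H ×ˢ Fintype.piFinset (fun i => (Icc 1 (h i)).powersetCard (k i))).filter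
        (fun y => (AB y).card = ∏ i, k i ∧
          c * (X / (Real.log X) ^ (∏ i, k i + 1)) ≤ (NA (AB y) X : ℝ))).card : ℝ) := by
  classical
  set s : ℕ := ∏ i, k i with hs
  obtain ⟨C2, hC2, X2, hX2⟩ := card_Px
  obtain ⟨c3, hc3, m0, X1, hfirst⟩ := first_sum hc1 k hk
  obtain ⟨C3, hC3, X3, hX3⟩ := NA_upper s
  obtain ⟨C4, hC4, hmom⟩ := momentSum (R := 2 * (s + 1 : ℕ)) (by positivity) k hk
  set C5 : ℝ := C3 ^ 2 * C4 with hC5
  have hC5pos : 0 < C5 := by positivity
  set K : ℝ := ((∏ i, k i ^ k i : ℕ) : ℝ) with hK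
  have hKpos : 0 < K := by
    rw [hK]
    have : 0 < ∏ i, k i ^ k i := Finset.prod_pos fun i _ => pow_pos (hk i) _
    exact_mod_cast this
  set c' : ℝ := min (c3 / 4) (c3 ^ 2 / (16 * C5) / K) with hc'
  have hc'pos : 0 < c' := lt_min (by positivity) (by positivity)
  have hlogbig : ∀ᶠ X : ℕ in Filter.atTop, max (max 1 m0) (2 * (s : ℝ) ^ 2 * C2 / c3) ≤ Real.log X :=
    (Real.tendsto_log_atTop.comp tendsto_natCast_atTop_atTop).eventually_ge_atTop _
  obtain ⟨X4, hX4⟩ := Filter.eventually_atTop.1 hlogbig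
  refine ⟨c', hc'pos, max (max X1 X2) (max X3 X4), fun X hX H h hh1 hhH hsum => ?_⟩
  have hXa : max X1 X2 ≤ X := le_trans (le_max_left _ _) hX
  have hXb : max X3 X4 ≤ X := le_trans (le_max_right _ _) hX
  have hP := hX2 X (le_trans (le_max_right _ _) hXa)
  have hNA := hX3 X (le_trans (le_max_left _ _) hXb)
  have hL := hX4 X (le_trans (le_max_right _ _) hXb)
  set L := Real.log X with hLdef
  have hL1 : 1 ≤ L := le_trans (le_trans (le_max_left _ _) (le_max_left _ _)) hL
  have hLm : m0 ≤ L := le_trans (le_trans (le_max_right _ _) (le_max_left _ _)) hL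
  have hL2 : 2 * (s : ℝ) ^ 2 * C2 / c3 ≤ L := le_trans (le_max_right _ _) hL
  have hL0 : 0 < L := by linarith
  have hLs : L ≤ L ^ (s + 1) := by
    calc L = L ^ 1 := (pow_one L).symm
      _ ≤ L ^ (s + 1) := pow_le_pow_right₀ hL1 (by omega)
  have hX0 : (0 : ℝ) < X := by
    rcases Nat.eq_zero_or_pos X with h0 | h0
    · subst h0; simp at hLdef; linarith
    · exact_mod_cast h0
  have hhpos : ∀ i, (0 : ℝ) < h i := fun i => lt_of_lt_of_le (by positivity) (hh1 i)
  have hpos : ∀ i, 1 ≤ h i := fun i => by exact_mod_cast hhpos i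
  have hH1 : 1 ≤ H := le_trans (hpos ⟨0, hd⟩) (hhH _)
  have hH0 : (0 : ℝ) < H := by exact_mod_cast hH1
  set Y : ℝ := X / L ^ (s + 1) with hY
  have hYpos : 0 < Y := by positivity
  set W : ℝ := (Fintype.card (WW k h) : ℝ) with hW
  have hWeq : W = ∏ i, (h i : ℝ) ^ k i := by
    rw [hW, card_WW]
    push_cast
    rfl
  have hWpos : 0 < W := by
    rw [hWeq]
    exact Finset.prod_pos fun i _ => pow_pos (hhpos i) _
  set N : ℝ := H * W with hN
  have hNpos : 0 < N := by positivity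
  have h1 := hfirst X (le_trans (le_max_left _ _) hXa) H h hH1
    (fun i => hLm.trans (hLs.trans (hh1 i))) hhH hsum
  rw [← hY] at h1
  -- degenerate choices
  set Dg := (Finset.univ : Finset (WW k h)).filter (fun w => ¬ Function.Injective (sj w)) with hDg
  set Nd := (Finset.univ : Finset (WW k h)).filter (fun w => Function.Injective (sj w)) with hNd
  have hdeg : ∑ t ∈ Icc 1 H, ∑ w ∈ Dg, (NA (AS t w) X : ℝ) ≤ c3 / 2 * N * Y := by
    have e1 : ∀ t ∈ Icc 1 H, ∑ w ∈ Dg, (NA (AS t w) X : ℝ) ≤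
        ((s : ℝ) ^ 2 * (W / L ^ (s + 1))) * (C2 * (X / L)) := by
      intro t _
      calc ∑ w ∈ Dg, (NA (AS t w) X : ℝ) ≤ ∑ _w ∈ Dg, (C2 * (X / L)) := by
            apply Finset.sum_le_sum
            intro w _
            refine le_trans ?_ hP
            exact_mod_cast NA_le_card _ X
        _ = (Dg.card : ℝ) * (C2 * (X / L)) := by rw [Finset.sum_const, nsmul_eq_mul]
        _ ≤ _ := by
            apply mul_le_mul_of_nonneg_right _ (by positivity)
            exact card_degen (by positivity) hh1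
    refine (Finset.sum_le_sum e1).trans ?_
    rw [Finset.sum_const, Nat.card_Icc, Nat.add_sub_cancel, nsmul_eq_mul]
    have e2 : 2 * (s : ℝ) ^ 2 * C2 ≤ c3 * L := by
      rw [div_le_iff₀ hc3] at hL2
      linarith
    have e3 : (H : ℝ) * ((s : ℝ) ^ 2 * (W / L ^ (s + 1)) * (C2 * (X / L))) =
        (2 * (s : ℝ) ^ 2 * C2) * (H * W * (X / L ^ (s + 1)) / (2 * L)) := by
      field_simp
    rw [e3]
    calc (2 * (s : ℝ) ^ 2 * C2) * (H * W * (X / L ^ (s + 1)) / (2 * L)) ≤
          (c3 * L) * (H * W * (X / L ^ (s + 1)) / (2 * L)) :=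
          mul_le_mul_of_nonneg_right e2 (by positivity)
      _ = _ := by rw [hN, hY]; field_simp
  have hnon : c3 / 2 * N * Y ≤ ∑ t ∈ Icc 1 H, ∑ w ∈ Nd, (NA (AS t w) X : ℝ) := by
    have e1 : ∑ t ∈ Icc 1 H, ∑ w : WW k h, (NA (AS t w) X : ℝ) =
        ∑ t ∈ Icc 1 H, ∑ w ∈ Nd, (NA (AS t w) X : ℝ) +
        ∑ t ∈ Icc 1 H, ∑ w ∈ Dg, (NA (AS t w) X : ℝ) := by
      rw [← Finset.sum_add_distrib]
      apply Finset.sum_congr rfl
      intro t _
      exact (Finset.sum_filter_add_sum_filter_not Finset.univ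
        (fun w : WW k h => Function.Injective (sj w)) (fun w => (NA (AS t w) X : ℝ))).symm
    rw [e1] at h1
    linarith
  -- the family
  set F : Finset (ℕ × WW k h) := Icc 1 H ×ˢ Nd with hF
  have hsumF : ∀ f : ℕ × WW k h → ℝ, ∑ x ∈ F, f x = ∑ t ∈ Icc 1 H, ∑ w ∈ Nd, f (t, w) := by
    intro f
    rw [hF, Finset.sum_product]
  have hfst : c3 / 2 * N * Y ≤ ∑ x ∈ F, (NA (AS x.1 x.2) X : ℝ) := by
    rw [hsumF]; exact hnon
  have hmemF : ∀ x ∈ F, x.1 ∈ Icc 1 H ∧ Function.Injective (sj x.2) := by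
    intro x hx
    rw [hF, Finset.mem_product, hNd, Finset.mem_filter] at hx
    exact ⟨hx.1, hx.2.2⟩
  -- the second moment
  have hsecond : ∑ x ∈ F, (NA (AS x.1 x.2) X : ℝ) ^ 2 ≤ C5 * N * Y ^ 2 := by
    have e1 : ∀ x ∈ F, (NA (AS x.1 x.2) X : ℝ) ^ 2 ≤
        (C3 * Y) ^ 2 * Real.exp (2 * (s + 1 : ℕ) * ∑ p ∈ Bad (AS x.1 x.2), (1 : ℝ) / p) := by
      intro x hx
      obtain ⟨hx1, hx2⟩ := hmemF x hx
      have h2 := hNA (AS x.1 x.2) (card_AS x.1 x.2 hx2) (by
        intro a ha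
        unfold AS at ha
        rw [Finset.mem_image] at ha
        obtain ⟨j, _, rfl⟩ := ha
        rw [mem_Icc] at hx1
        omega)
      calc (NA (AS x.1 x.2) X : ℝ) ^ 2 ≤
            (C3 * Y * Real.exp ((s + 1 : ℕ) * ∑ p ∈ Bad (AS x.1 x.2), (1 : ℝ) / p)) ^ 2 :=
            pow_le_pow_left₀ (Nat.cast_nonneg _) h2 2
        _ = _ := by
            rw [mul_pow (C3 * Y), ← Real.exp_nat_mul]
            congr 2
            push_cast
            ring
    refine (sum_le_sum e1).trans ?_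
    rw [← mul_sum, hsumF]
    calc _ ≤ (C3 * Y) ^ 2 * (C4 * N) :=
          mul_le_mul_of_nonneg_left (hmom h H hpos hhH) (by positivity)
      _ = _ := by rw [hC5]; ring
  have hcardF : (F.card : ℝ) ≤ N := by
    rw [hF, card_product, Nat.card_Icc, Nat.add_sub_cancel, hN]
    push_cast
    apply mul_le_mul_of_nonneg_left _ hH0.le
    rw [hW]
    have : Nd.card ≤ Fintype.card (WW k h) := by
      rw [← Finset.card_univ]
      exact Finset.card_filter_le _ _
    exact_mod_cast this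
  -- Cauchy-Schwarz
  set G := F.filter (fun x => c' * Y ≤ (NA (AS x.1 x.2) X : ℝ)) with hG
  have hbad : ∑ x ∈ F.filter (fun x => ¬ c' * Y ≤ (NA (AS x.1 x.2) X : ℝ)),
      (NA (AS x.1 x.2) X : ℝ) ≤ c3 / 4 * N * Y := by
    calc _ ≤ ∑ x ∈ F.filter (fun x => ¬ c' * Y ≤ (NA (AS x.1 x.2) X : ℝ)), (c' * Y) := by
          apply sum_le_sum
          intro x hx
          rw [mem_filter, not_le] at hx
          exact hx.2.le
      _ ≤ N * (c' * Y) := by
          rw [sum_const, nsmul_eq_mul]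
          apply mul_le_mul_of_nonneg_right _ (by positivity)
          refine le_trans ?_ hcardF
          exact_mod_cast card_filter_le _ _
      _ ≤ N * (c3 / 4 * Y) := by
          apply mul_le_mul_of_nonneg_left _ (by positivity)
          exact mul_le_mul_of_nonneg_right (min_le_left _ _) hYpos.le
      _ = _ := by ring
  have hgood : c3 / 4 * N * Y ≤ ∑ x ∈ G, (NA (AS x.1 x.2) X : ℝ) := by
    have h2 := Finset.sum_filter_add_sum_filter_not F
      (fun x => c' * Y ≤ (NA (AS x.1 x.2) X : ℝ)) (fun x => (NA (AS x.1 x.2) X : ℝ))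
    rw [← hG] at h2
    linarith
  have hCS : (∑ x ∈ G, (NA (AS x.1 x.2) X : ℝ)) ^ 2 ≤
      (G.card : ℝ) * ∑ x ∈ G, (NA (AS x.1 x.2) X : ℝ) ^ 2 :=
    sq_sum_le_card_mul_sum_sq
  have hG2 : ∑ x ∈ G, (NA (AS x.1 x.2) X : ℝ) ^ 2 ≤ C5 * N * Y ^ 2 := by
    refine le_trans ?_ hsecond
    exact sum_le_sum_of_subset_of_nonneg (filter_subset _ _) fun _ _ _ => by positivity
  have h2 : (c3 / 4 * N * Y) ^ 2 ≤ (G.card : ℝ) * (C5 * N * Y ^ 2) := by
    calc _ ≤ (∑ x ∈ G, (NA (AS x.1 x.2) X : ℝ)) ^ 2 := pow_le_pow_left₀ (by positivity) hgood 2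
      _ ≤ _ := hCS.trans (mul_le_mul_of_nonneg_left hG2 (Nat.cast_nonneg _))
  have h3 : c3 ^ 2 / (16 * C5) * N ≤ G.card := by
    have e1 : 0 < C5 * N * Y ^ 2 := by positivity
    have e2 : c3 ^ 2 / (16 * C5) * N * (C5 * N * Y ^ 2) = (c3 / 4 * N * Y) ^ 2 := by
      field_simp
      ring
    rw [← e2] at h2
    exact le_of_mul_le_mul_right h2 e1
  -- the sets
  set T := (Icc 1 H ×ˢ Fintype.piFinset (fun i => (Icc 1 (h i)).powersetCard (k i))).filter
        (fun y => (AB y).card = s ∧ c' * Y ≤ (NA (AB y) X : ℝ)) with hT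
  have hmaps : ∀ x ∈ G, toB x ∈ T := by
    intro x hx
    rw [hG, Finset.mem_filter] at hx
    obtain ⟨hx1, hx2⟩ := hmemF x hx.1
    rw [hT, Finset.mem_filter, AB_toB]
    exact ⟨toB_mem hk x.1 hx1 x.2 hx2, card_AS x.1 x.2 hx2, hx.2⟩
  have h4 : G.card ≤ (∏ i, k i ^ k i) * T.card := by
    have := Finset.card_le_mul_card_image_of_maps_to hmaps (∏ i, k i ^ k i)
      (fun y _ => fibre_toB G y)
    exact this
  have h5 : (G.card : ℝ) ≤ K * T.card := by
    rw [hK]
    exact_mod_cast h4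
  have h6 : c' * N ≤ T.card := by
    have e1 : c' * N ≤ c3 ^ 2 / (16 * C5) / K * N :=
      mul_le_mul_of_nonneg_right (min_le_right _ _) hNpos.le
    have e2 : c3 ^ 2 / (16 * C5) / K * N = (c3 ^ 2 / (16 * C5) * N) / K := by ring
    refine e1.trans ?_
    rw [e2, div_le_iff₀ hKpos]
    linarith
  rw [← hWeq]
  exact h6

end Pool.Agent.MPbca
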