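import Pool.Agent.Lib.MP_bca3e5_nt.PartA
import Pool.Agent.Lib.MP_bca3e5_nt.Sum3

/-!
The lower bound of Q1 for a positive proportion of the translated sumsets
`A = t + B_1 + ... + B_d` in arbitrary boxes (for example Hilbert cubes).
-/

namespace Pool.Agent.Lib.MP_bca3e5_nt.OldSumsets

open Finset

/-- Let `d ≥ 2`, `k_1, ..., k_d ≥ 2`, `s = k_1 ⋯ k_d` and `K > 1`. There are `c > 0` and `x₀` such
that for all real `x ≥ x₀`, all `H` with `x (log x)^56 ≤ H ≤ x^K` and all `h_1, ..., h_d` with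
`(log x)^(s+1) ≤ h_i ≤ H`, at least `c * H * (h_1 choose k_1) ⋯ (h_d choose k_d)` of the tuples
`(t, B_1, ..., B_d)` with `1 ≤ t ≤ H`, `B_i ⊆ {1, ..., h_i}` and `|B_i| = k_i` are such that the set
`A = t + B_1 + ... + B_d` of all sums `t + b_1 + ... + b_d` (`b_i ∈ B_i`) has exactly `s` elements
and satisfies `N_A(x) ≥ c x / (log x)^(s+1)`, where `N_A(x)` is the number of primes `n ≤ x` with
`a n + 1` prime for all `a ∈ A`. -/
theorem result (d : ℕ) (hd : 2 ≤ d) (k : Fin d → ℕ) (hk : ∀ i, 2 ≤ k i) (K : ℝ) (hK : 1 < K) :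
    ∃ c : ℝ, 0 < c ∧ ∃ x₀ : ℝ, ∀ x : ℝ, x₀ ≤ x →
      ∀ H : ℕ, x * (Real.log x) ^ 56 ≤ H → (H : ℝ) ≤ x ^ K →
      ∀ h : Fin d → ℕ, (∀ i, (Real.log x) ^ (∏ i, k i + 1) ≤ (h i : ℝ)) → (∀ i, h i ≤ H) →
      c * (H * ∏ i, ((h i).choose (k i) : ℝ)) ≤
        (((Finset.Icc 1 H ×ˢ Fintype.piFinset (fun i => (Finset.Icc 1 (h i)).powersetCard (k i))).filter
          (fun y : ℕ × (Fin d → Finset ℕ) =>
            ((Fintype.piFinset y.2).image (fun b => y.1 + ∑ i, b i)).card = ∏ i, k i ∧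
            c * x / (Real.log x) ^ (∏ i, k i + 1) ≤
            (((Finset.range (⌊x⌋₊ + 1)).filter (fun n => n.Prime ∧
              ∀ b ∈ Fintype.piFinset y.2, ((y.1 + ∑ i, b i) * n + 1).Prime)).card : ℝ))).card : ℝ) := by
  classical
  set s : ℕ := ∏ i, k i with hs
  obtain ⟨c1, hc1, X1, h1⟩ := Pool.Agent.MPbca.first_moment_A (K := 2 * K) (by linarith only [hK])
  obtain ⟨c, hc, X0, h0⟩ := Pool.Agent.MPbca.deduceSum hc1 k
    (fun i => le_trans (by norm_num) (hk i)) (le_trans (by norm_num) hd)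
  refine ⟨c / 2, by positivity, max (max (X0 : ℝ) X1) 3 + 1, fun x hx H hH1 hH2 h hh1 hh2 => ?_⟩
  set n : ℕ := ⌊x⌋₊ with hn
  have hx4 : (4 : ℝ) ≤ x := by
    have : (3 : ℝ) ≤ max (max (X0 : ℝ) X1) 3 := le_max_right _ _
    linarith
  have hxX0 : (X0 : ℝ) + 1 ≤ x := by
    have : (X0 : ℝ) ≤ max (max (X0 : ℝ) X1) 3 := le_trans (le_max_left _ _) (le_max_left _ _)
    linarith
  have hxX1 : (X1 : ℝ) + 1 ≤ x := by
    have : (X1 : ℝ) ≤ max (max (X0 : ℝ) X1) 3 := le_trans (le_max_right _ _) (le_max_left _ _)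
    linarith
  have hnx : (n : ℝ) ≤ x := Nat.floor_le (by linarith)
  have hxn : x < n + 1 := Nat.lt_floor_add_one x
  have hn3 : (3 : ℝ) ≤ n := by linarith
  have hnX0 : X0 ≤ n := by
    have : (X0 : ℝ) ≤ n := by linarith
    exact_mod_cast this
  have hnX1 : X1 ≤ n := by
    have : (X1 : ℝ) ≤ n := by linarith
    exact_mod_cast this
  have hlogn : 0 < Real.log n := Real.log_pos (by linarith)
  have hlogx : Real.log n ≤ Real.log x := Real.log_le_log (by linarith) hnx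
  have hfm := h1 n hnX1 H (by
    refine le_trans ?_ hH1
    exact mul_le_mul hnx (pow_le_pow_left₀ hlogn.le hlogx 56) (by positivity) (by linarith)) (by
    refine hH2.trans ?_
    have h2 : x ≤ (n : ℝ) ^ 2 := by nlinarith only [hx4, hxn]
    calc x ^ K ≤ ((n : ℝ) ^ 2) ^ K := Real.rpow_le_rpow (by linarith) h2 (by linarith)
      _ = (n : ℝ) ^ (2 * K) := by
          rw [← Real.rpow_natCast, ← Real.rpow_mul (by linarith)]
          norm_num)
  have hmain := h0 n hnX0 H h (fun i => le_trans (pow_le_pow_left₀ hlogn.le hlogx _) (hh1 i)) hh2 hfm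
  have h3 : c / 2 * (H * ∏ i, ((h i).choose (k i) : ℝ)) ≤ c * (H * ∏ i, (h i : ℝ) ^ k i) := by
    have e1 : ∏ i, ((h i).choose (k i) : ℝ) ≤ ∏ i, (h i : ℝ) ^ k i :=
      Finset.prod_le_prod (fun i _ => Nat.cast_nonneg _) fun i _ => by
        exact_mod_cast Nat.choose_le_pow (h i) (k i)
    have e2 : (0 : ℝ) ≤ ∏ i, ((h i).choose (k i) : ℝ) :=
      Finset.prod_nonneg fun i _ => Nat.cast_nonneg _
    have e3 : (H : ℝ) * ∏ i, ((h i).choose (k i) : ℝ) ≤ H * ∏ i, (h i : ℝ) ^ k i :=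
      mul_le_mul_of_nonneg_left e1 (Nat.cast_nonneg _)
    have e4 : 0 ≤ (H : ℝ) * ∏ i, ((h i).choose (k i) : ℝ) := mul_nonneg (Nat.cast_nonneg _) e2
    nlinarith only [e3, e4, hc]
  refine h3.trans (hmain.trans ?_)
  refine Nat.cast_le.2 (card_le_card ?_)
  intro y hy
  rw [mem_filter] at hy ⊢
  obtain ⟨hy1, hy2, hy3⟩ := hy
  refine ⟨hy1, hy2, ?_⟩
  have h5 : Pool.Agent.MPbca.NA (Pool.Agent.MPbca.AB y) n =
      ((range (n + 1)).filter (fun m => m.Prime ∧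
        ∀ b ∈ Fintype.piFinset y.2, ((y.1 + ∑ i, b i) * m + 1).Prime)).card := by
    unfold Pool.Agent.MPbca.NA Pool.Agent.MPbca.AB
    congr 1
    ext m
    simp only [mem_filter, mem_Icc, mem_range, mem_image]
    constructor
    · rintro ⟨⟨_, h6⟩, h7, h8⟩
      exact ⟨by omega, h7, fun b hb => h8 _ ⟨b, hb, rfl⟩⟩
    · rintro ⟨h6, h7, h8⟩
      refine ⟨⟨h7.one_le, by omega⟩, h7, ?_⟩
      rintro a ⟨b, hb, rfl⟩
      exact h8 b hb
  rw [← h5]
  refine le_trans ?_ hy3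
  have h6 : x / (Real.log x) ^ (s + 1) ≤ 2 * (n / (Real.log n) ^ (s + 1)) := by
    have h7 : x / (Real.log x) ^ (s + 1) ≤ (2 * n) / (Real.log n) ^ (s + 1) := by
      apply div_le_div₀ (by positivity) (by linarith only [hx4, hxn]) (by positivity)
      exact pow_le_pow_left₀ hlogn.le hlogx _
    rw [mul_div_assoc] at h7
    exact h7
  calc c / 2 * x / (Real.log x) ^ (s + 1) = c / 2 * (x / (Real.log x) ^ (s + 1)) := by ring
    _ ≤ c / 2 * (2 * (n / (Real.log n) ^ (s + 1))) := mul_le_mul_of_nonneg_left h6 (by positivity)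
    _ = _ := by ring

end Pool.Agent.Lib.MP_bca3e5_nt.OldSumsets
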