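import Pool.Agent.Lib.MP_bca3e5_nt.Cnt
import Pool.Agent.Lib.MP_bca3e5_nt.LS6

set_option autoImplicit false

/-!
The average over `a ≤ H` for `x (log x)^56 ≤ H ≤ x^K`.
-/

namespace Pool.Agent.MPbca

open Finset ArithmeticFunction Filter
open Pool.Agent.MP89da58 (tri cX Om psiAP psiX Om_nonneg Om_le Om_eq_zero_of_large psiX_lower)

theorem first_moment_A {K : ℝ} (hK : 1 ≤ K) : ∃ c1 : ℝ, 0 < c1 ∧ ∃ X0 : ℕ,
    ∀ x : ℕ, X0 ≤ x → ∀ H : ℕ, (x : ℝ) * (Real.log x) ^ 56 ≤ H → (H : ℝ) ≤ (x : ℝ) ^ K →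
    c1 * (x * H / (Real.log x) ^ 2) ≤ ∑ n ∈ Px x, (cnt n H : ℝ) := by
  classical
  obtain ⟨c, hc, Y0, hpsi⟩ := psiX_lower
  set κ : ℝ := 1 + K with hκ
  have hκ0 : 0 < κ := by positivity
  have hκ1 : 1 ≤ κ := by linarith
  have hbv := bv_log (ε := 1 / (2 * κ)) (by positivity)
  obtain ⟨Y1, hY1⟩ := eventually_atTop.1 hbv
  obtain ⟨X2, hX2⟩ := card_window
  -- largeness conditions on x
  have hA : ∀ᶠ x : ℝ in atTop, max (max 6 (5 * κ ^ 27)) (max (1200000 / c) (512 * κ / c)) ≤ Real.log x :=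
    Real.tendsto_log_atTop.eventually_ge_atTop _
  have hC : ∀ᶠ x : ℝ in atTop, max 400 (max Y0 Y1) ≤ x := eventually_ge_atTop _
  obtain ⟨X3, hX3⟩ := eventually_atTop.1
    ((tendsto_natCast_atTop_atTop (R := ℝ)).eventually (hA.and hC))
  refine ⟨c / (22 * 64 * κ), by positivity, max X2 X3, fun x hx H hH1 hH2 => ?_⟩
  obtain ⟨hxA, hxC⟩ := hX3 x (le_trans (le_max_right _ _) hx)
  have hx400 : (400 : ℝ) ≤ x := le_trans (le_max_left _ _) hxC
  have hxY0 : Y0 ≤ (x : ℝ) := le_trans (le_trans (le_max_left _ _) (le_max_right _ _)) hxC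
  have hxY1 : Y1 ≤ (x : ℝ) := le_trans (le_trans (le_max_right _ _) (le_max_right _ _)) hxC
  have hx0 : (0 : ℝ) < x := by linarith only [hx400]
  have hx1 : (1 : ℝ) ≤ x := by linarith only [hx400]
  have hxe : Real.exp 1 ≤ x := by
    have := Real.exp_one_lt_d9
    linarith
  set L := Real.log x with hL
  have hL6 : 6 ≤ L := le_trans (le_trans (le_max_left _ _) (le_max_left _ _)) hxA
  have hLκ : 5 * κ ^ 27 ≤ L := le_trans (le_trans (le_max_right _ _) (le_max_left _ _)) hxA
  have hLc : 1200000 / c ≤ L := le_trans (le_trans (le_max_left _ _) (le_max_right _ _)) hxA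
  have hLκc : 512 * κ / c ≤ L := le_trans (le_trans (le_max_right _ _) (le_max_right _ _)) hxA
  have hL1 : 1 ≤ L := by linarith
  have hL0 : 0 < L := by linarith
  set X : ℝ := x * H / 22 with hX
  have hH0 : (0 : ℝ) < H := lt_of_lt_of_le (by positivity) hH1
  -- size of X
  have hXlow : (x : ℝ) ^ 2 * L ^ 56 / 22 ≤ X := by
    rw [hX]
    apply div_le_div_of_nonneg_right _ (by norm_num)
    calc (x : ℝ) ^ 2 * L ^ 56 = x * (x * L ^ 56) := by ring
      _ ≤ (x : ℝ) * H := mul_le_mul_of_nonneg_left hH1 hx0.le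
  have hXup : 3 * X ≤ (x : ℝ) ^ κ := by
    have h1 : (x : ℝ) * H ≤ (x : ℝ) ^ κ := by
      calc (x : ℝ) * H ≤ x * (x : ℝ) ^ K := mul_le_mul_of_nonneg_left hH2 hx0.le
        _ = (x : ℝ) ^ κ := by rw [hκ, Real.rpow_add hx0, Real.rpow_one]
    rw [hX]
    have : 0 ≤ (x : ℝ) * H := by positivity
    linarith only [h1, this]
  have hL56 : 22 ≤ L ^ 56 := by
    calc (22 : ℝ) ≤ 6 ^ 2 := by norm_num
      _ ≤ L ^ 2 := pow_le_pow_left₀ (by norm_num) hL6 2
      _ ≤ L ^ 56 := pow_le_pow_right₀ hL1 (by norm_num)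
  have hXx2 : (x : ℝ) ^ 2 ≤ X := by
    refine le_trans ?_ hXlow
    rw [le_div_iff₀ (by norm_num)]
    exact mul_le_mul_of_nonneg_left hL56 (by positivity)
  have hXx : (x : ℝ) ≤ X := by
    refine le_trans ?_ hXx2
    nlinarith only [hx400]
  have hX0 : 0 < X := by linarith
  have hX1 : 1 ≤ X := by linarith
  have hXe : Real.exp 1 ≤ X := by linarith
  have hpsi' := hpsi X (by linarith only [hxY0, hXx])
  have hlogX2 : 2 * L ≤ Real.log X := by
    have := Real.log_le_log (by positivity) hXx2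
    rw [Real.log_pow] at this
    exact_mod_cast this
  have hl3 : Real.log (3 * X) ≤ κ * L := by
    have := Real.log_le_log (by positivity) hXup
    rwa [Real.log_rpow hx0] at this
  have hl30 : 0 ≤ Real.log (3 * X) := Real.log_nonneg (by linarith only [hx400, hXx])
  -- the window
  set R0 : ℕ := (x + 7) / 8 with hR0
  have hR0a : x ≤ 8 * R0 := by omega
  have hR0b : 8 * R0 ≤ x + 7 := by omega
  have hR0a' : (x : ℝ) ≤ 8 * R0 := by exact_mod_cast hR0a
  have hR0b' : 8 * (R0 : ℝ) ≤ x + 7 := by exact_mod_cast hR0b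
  have hlogXκ : Real.log X ≤ κ * L := by
    refine le_trans ?_ hl3
    apply Real.log_le_log hX0
    linarith only [hx400, hXx]
  have hlogX0 : 0 ≤ Real.log X := Real.log_nonneg hX1
  have hcond1 : X ^ (1 / (2 * κ)) ≤ (R0 : ℝ) := by
    have h1 : X ^ (1 / (2 * κ)) ≤ (x : ℝ) ^ (1 / 2 : ℝ) := by
      calc X ^ (1 / (2 * κ)) ≤ ((x : ℝ) ^ κ) ^ (1 / (2 * κ)) :=
            Real.rpow_le_rpow hX0.le (by linarith only [hx400, hXup, hXx]) (by positivity)
        _ = (x : ℝ) ^ (κ * (1 / (2 * κ))) := by rw [← Real.rpow_mul hx0.le]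
        _ = (x : ℝ) ^ (1 / 2 : ℝ) := by
            congr 1
            field_simp
    have h2 : (x : ℝ) ^ (1 / 2 : ℝ) ≤ x / 8 := by
      rw [← Real.sqrt_eq_rpow]
      have h3 : Real.sqrt x * Real.sqrt x = x := Real.mul_self_sqrt hx0.le
      have h4 : 20 ≤ Real.sqrt x := by
        apply Real.le_sqrt_of_sq_le
        calc (20 : ℝ) ^ 2 = 400 := by norm_num
          _ ≤ x := hx400
      nlinarith only [hx400, h3, h4]
    linarith only [hR0a', h1, h2]
  have hcond2 : (x : ℝ) * (Real.log X) ^ 27 ≤ Real.sqrt X := by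
    apply Real.le_sqrt_of_sq_le
    refine le_trans ?_ hXlow
    have h1 : (Real.log X) ^ 27 ≤ κ ^ 27 * L ^ 27 := by
      rw [← mul_pow]
      exact pow_le_pow_left₀ hlogX0 hlogXκ 27
    have h2 : 5 * (Real.log X) ^ 27 ≤ L ^ 28 := by
      calc 5 * (Real.log X) ^ 27 ≤ 5 * (κ ^ 27 * L ^ 27) := by linarith only [h1]
        _ = (5 * κ ^ 27) * L ^ 27 := by ring
        _ ≤ L * L ^ 27 := mul_le_mul_of_nonneg_right hLκ (by positivity)
        _ = L ^ 28 := by ring
    have h3 : 25 * ((Real.log X) ^ 27) ^ 2 ≤ L ^ 56 := by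
      calc 25 * ((Real.log X) ^ 27) ^ 2 = (5 * (Real.log X) ^ 27) ^ 2 := by ring
        _ ≤ (L ^ 28) ^ 2 := pow_le_pow_left₀ (by positivity) h2 2
        _ = L ^ 56 := by ring
    have h4 : 0 ≤ ((Real.log X) ^ 27) ^ 2 := by (clear * -; positivity)
    rw [mul_pow, le_div_iff₀ (by norm_num)]
    have h5 : (x : ℝ) ^ 2 * ((Real.log X) ^ 27) ^ 2 * 22 ≤ (x : ℝ) ^ 2 * L ^ 56 := by
      have : (x : ℝ) ^ 2 * ((Real.log X) ^ 27) ^ 2 * 22 =
          (x : ℝ) ^ 2 * (22 * ((Real.log X) ^ 27) ^ 2) := by ring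
      rw [this]
      apply mul_le_mul_of_nonneg_left _ (by positivity)
      linarith only [hL56, h3]
    exact h5
  have hbv' := hY1 X (by linarith only [hxY1, hXx]) R0 x hcond1 hR0a' hcond2
  set Wn := (Ioc R0 x).filter Nat.Prime with hWn
  have hcard := hX2 x (le_trans (le_max_left _ _) hx) R0 (by linarith only [hR0b'])
  rw [← hWn, ← hL] at hcard
  have hWmem : ∀ n ∈ Wn, n.Prime ∧ R0 < n ∧ n ≤ x := by
    intro n hn
    rw [hWn, mem_filter, mem_Ioc] at hn
    exact ⟨hn.2, hn.1.1, hn.1.2⟩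
  -- lower bound
  have hlow : c * X / (4 * L) - 300000 * (X / (Real.log X) ^ 2) ≤ ∑ n ∈ Wn, psiAP X n 1 := by
    have h1 : ∑ n ∈ Wn, (psiX X / ((n : ℝ) - 1) - |psiAP X n 1 - psiX X / ((n : ℝ) - 1)|) ≤
        ∑ n ∈ Wn, psiAP X n 1 := by
      apply sum_le_sum
      intro n _
      have := neg_abs_le (psiAP X n 1 - psiX X / ((n : ℝ) - 1))
      linarith only [this]
    refine le_trans ?_ h1
    rw [sum_sub_distrib]
    have h2 : c * X / (4 * L) ≤ ∑ n ∈ Wn, psiX X / ((n : ℝ) - 1) := by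
      have h3 : ∑ n ∈ Wn, c * X / x ≤ ∑ n ∈ Wn, psiX X / ((n : ℝ) - 1) := by
        apply sum_le_sum
        intro n hn
        obtain ⟨hnp, _, hnx⟩ := hWmem n hn
        have hn2 : (2 : ℝ) ≤ n := by exact_mod_cast hnp.two_le
        have hnx' : (n : ℝ) ≤ x := by exact_mod_cast hnx
        apply div_le_div₀
        · exact (by positivity : 0 ≤ c * X).trans hpsi'
        · exact hpsi'
        · linarith only [hn2]
        · linarith only [hnx']
      refine le_trans ?_ h3
      rw [sum_const, nsmul_eq_mul]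
      calc c * X / (4 * L) = (x / (4 * L)) * (c * X / x) := by field_simp
        _ ≤ (Wn.card : ℝ) * (c * X / x) := mul_le_mul_of_nonneg_right hcard (by positivity)
    linarith only [hbv', h2]
  -- upper bound
  have hup : ∑ n ∈ Wn, psiAP X n 1 ≤ 8 * (κ * L) * ∑ n ∈ Px x, (cnt n H : ℝ) +
      32 * (X / L ^ 27) * (κ * L) := by
    have h1 : ∀ n ∈ Wn, psiAP X n 1 ≤ 8 * (κ * L) * (cnt n H : ℝ) +
        16 * Real.sqrt (3 * X) * (κ * L) := by
      intro n hn
      obtain ⟨hnp, hnR, _⟩ := hWmem n hn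
      have h2 := psiAP_le_cnt hXe hnp.two_le (H := H) (by
        have h3 : (x : ℝ) ≤ 8 * n := by
          have : x ≤ 8 * n := by omega
          exact_mod_cast this
        rw [hX]
        have h4 := Real.exp_one_lt_d9
        have h5 : Real.exp 1 * (x * H / 22) = (Real.exp 1 / 22) * (x * H) := by ring
        rw [h5]
        calc (Real.exp 1 / 22) * (x * H) ≤ (1 / 8) * (x * H) := by
              apply mul_le_mul_of_nonneg_right _ (by positivity)
              linarith only [h4]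
          _ = (x / 8) * H := by ring
          _ ≤ n * H := by
              apply mul_le_mul_of_nonneg_right _ hH0.le
              linarith only [h3])
      refine h2.trans (add_le_add ?_ ?_)
      · apply mul_le_mul_of_nonneg_right _ (Nat.cast_nonneg _)
        linarith only [hl3]
      · exact mul_le_mul_of_nonneg_left hl3 (by positivity)
    refine (sum_le_sum h1).trans ?_
    rw [sum_add_distrib, ← mul_sum, sum_const, nsmul_eq_mul]
    apply add_le_add
    · apply mul_le_mul_of_nonneg_left _ (by positivity)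
      apply sum_le_sum_of_subset_of_nonneg
      · intro n hn
        obtain ⟨hnp, _, hnx⟩ := hWmem n hn
        unfold Px
        rw [mem_filter, mem_Icc]
        exact ⟨⟨hnp.one_le, hnx⟩, hnp⟩
      · intro _ _ _
        exact Nat.cast_nonneg _
    · have h6 : (Wn.card : ℝ) ≤ Real.sqrt X / L ^ 27 := by
        rw [le_div_iff₀ (by positivity)]
        have h61 : (Wn.card : ℝ) ≤ x := by
          have : Wn.card ≤ x := by
            refine (card_filter_le _ _).trans ?_
            rw [Nat.card_Ioc]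
            omega
          exact_mod_cast this
        have h62 : L ^ 27 ≤ (Real.log X) ^ 27 := pow_le_pow_left₀ hL0.le (by linarith only [hL6, hlogX2]) 27
        calc (Wn.card : ℝ) * L ^ 27 ≤ x * (Real.log X) ^ 27 := by (clear * - h61 h62 hL6 hx400; gcongr)
          _ ≤ Real.sqrt X := hcond2
      have h7 : Real.sqrt (3 * X) ≤ 2 * Real.sqrt X := by
        rw [show (2 : ℝ) * Real.sqrt X = Real.sqrt 4 * Real.sqrt X by
          rw [show (4 : ℝ) = 2 ^ 2 by norm_num, Real.sqrt_sq (by norm_num)],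
          ← Real.sqrt_mul (by norm_num)]
        apply Real.sqrt_le_sqrt
        linarith only [hx400, hXx]
      have h8 : Real.sqrt X * Real.sqrt X = X := Real.mul_self_sqrt hX0.le
      calc (Wn.card : ℝ) * (16 * Real.sqrt (3 * X) * (κ * L))
          ≤ (Real.sqrt X / L ^ 27) * (16 * (2 * Real.sqrt X) * (κ * L)) := by (clear * - h6 h7 hK hL6 hx400 hH0; gcongr)
        _ = 32 * ((Real.sqrt X * Real.sqrt X) / L ^ 27) * (κ * L) := by ring
        _ = _ := by rw [h8]
  -- conclusion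
  have hsmall : 300000 * (X / (Real.log X) ^ 2) + 32 * (X / L ^ 27) * (κ * L) ≤ c * X / (8 * L) := by
    have h1 : 300000 * (X / (Real.log X) ^ 2) ≤ c * X / (16 * L) := by
      have h2 : X / (Real.log X) ^ 2 ≤ X / (2 * L) ^ 2 :=
        div_le_div_of_nonneg_left hX0.le (by positivity)
          (pow_le_pow_left₀ (by positivity) hlogX2 2)
      have h3 : 300000 * (X / (2 * L) ^ 2) = (X / (16 * L)) * (1200000 / L) := by
        field_simp; norm_num
      have h4 : 1200000 / L ≤ c := by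
        rw [div_le_iff₀ hL0]
        rw [div_le_iff₀ hc] at hLc
        linarith only [hLc]
      calc 300000 * (X / (Real.log X) ^ 2) ≤ 300000 * (X / (2 * L) ^ 2) := by linarith only [h2]
        _ = (X / (16 * L)) * (1200000 / L) := h3
        _ ≤ (X / (16 * L)) * c := mul_le_mul_of_nonneg_left h4 (by positivity)
        _ = c * X / (16 * L) := by ring
    have h5 : 32 * (X / L ^ 27) * (κ * L) ≤ c * X / (16 * L) := by
      have h6 : 32 * (X / L ^ 27) * (κ * L) = (X / (16 * L)) * (512 * κ / L ^ 25) := by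
        have : L ^ 27 = L ^ 25 * L ^ 2 := by ring
        rw [this]
        field_simp; norm_num
      have h7 : 512 * κ / L ^ 25 ≤ c := by
        rw [div_le_iff₀ (by positivity)]
        rw [div_le_iff₀ hc] at hLκc
        have h8 : L ≤ L ^ 25 := by
          calc L = L ^ 1 := (pow_one L).symm
            _ ≤ L ^ 25 := pow_le_pow_right₀ hL1 (by norm_num)
        calc 512 * κ ≤ L * c := hLκc
          _ ≤ L ^ 25 * c := mul_le_mul_of_nonneg_right h8 hc.le
          _ = c * L ^ 25 := by ring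
      rw [h6]
      calc (X / (16 * L)) * (512 * κ / L ^ 25) ≤ (X / (16 * L)) * c :=
            mul_le_mul_of_nonneg_left h7 (by positivity)
        _ = c * X / (16 * L) := by ring
    have h9 : c * X / (8 * L) = c * X / (16 * L) + c * X / (16 * L) := by
      field_simp; norm_num
    linarith only [h1, h5, h9]
  have hfin : c * X / (8 * L) ≤ 8 * (κ * L) * ∑ n ∈ Px x, (cnt n H : ℝ) := by
    have h1 : c * X / (4 * L) = c * X / (8 * L) + c * X / (8 * L) := by
      field_simp; ring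
    linarith only [hlow, hup, hsmall, h1]
  have h2 : c / (22 * 64 * κ) * (x * H / L ^ 2) = (c * X / (8 * L)) / (8 * (κ * L)) := by
    rw [hX]
    field_simp
    ring
  rw [h2, div_le_iff₀ (by positivity)]
  linarith only [hfin]

/-- a positive proportion of the sets `A`, natural numbers version -/
theorem partA_nat {s : ℕ} (hs : 1 ≤ s) {K : ℝ} (hK : 1 ≤ K) : ∃ c : ℝ, 0 < c ∧ ∃ X0 : ℕ,
    ∀ x : ℕ, X0 ≤ x → ∀ H : ℕ, (x : ℝ) * (Real.log x) ^ 56 ≤ H → (H : ℝ) ≤ (x : ℝ) ^ K →
    c * (H : ℝ) ^ s ≤ ((((Icc 1 H).powersetCard s).filter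
      (fun A => c * (x / (Real.log x) ^ (s + 1)) ≤ (NA A x : ℝ))).card : ℝ) := by
  obtain ⟨c1, hc1, X1, h1⟩ := first_moment_A hK
  obtain ⟨c, hc, X2, h2⟩ := deduce hs hc1
  refine ⟨c, hc, max (max X1 X2) 3, fun x hx H hH1 hH2 => ?_⟩
  have hx3 : 3 ≤ x := le_trans (le_max_right _ _) hx
  have hx3' : (3 : ℝ) ≤ x := by exact_mod_cast hx3
  refine h2 x (le_trans (le_trans (le_max_right _ _) (le_max_left _ _)) hx) H ?_
    (h1 x (le_trans (le_trans (le_max_left _ _) (le_max_left _ _)) hx) H hH1 hH2)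
  refine le_trans ?_ hH1
  have hL : 1 ≤ Real.log x := by
    rw [Real.le_log_iff_exp_le (by linarith only [hx3'])]
    have := Real.exp_one_lt_d9
    linarith only [hx3', this]
  calc (Real.log x) ^ 2 ≤ (Real.log x) ^ 56 := pow_le_pow_right₀ hL (by norm_num)
    _ = 1 * (Real.log x) ^ 56 := (one_mul _).symm
    _ ≤ x * (Real.log x) ^ 56 := by
        apply mul_le_mul_of_nonneg_right _ (by positivity)
        linarith

/-- a positive proportion of the sets `A` -/
theorem partA {s : ℕ} (hs : 1 ≤ s) {K : ℝ} (hK : 1 < K) : ∃ c : ℝ, 0 < c ∧ ∃ x0 : ℝ,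
    ∀ x : ℝ, x0 ≤ x → ∀ H : ℕ, x * (Real.log x) ^ 56 ≤ H → (H : ℝ) ≤ x ^ K →
    c * (H.choose s : ℝ) ≤ ((((Icc 1 H).powersetCard s).filter
      (fun A => c * x / (Real.log x) ^ (s + 1) ≤
        (((range (⌊x⌋₊ + 1)).filter (fun n => n.Prime ∧ ∀ a ∈ A, (a * n + 1).Prime)).card : ℝ))).card
          : ℝ) := by
  classical
  obtain ⟨c, hc, X0, h⟩ := partA_nat hs (K := 2 * K) (by linarith only [hK])
  refine ⟨c / 2, by positivity, max (X0 : ℝ) 3 + 1, fun x hx H hH1 hH2 => ?_⟩
  set n : ℕ := ⌊x⌋₊ with hn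
  have hx4 : (4 : ℝ) ≤ x := by
    have : (3 : ℝ) ≤ max (X0 : ℝ) 3 := le_max_right _ _
    linarith
  have hxX0 : (X0 : ℝ) + 1 ≤ x := by
    have : (X0 : ℝ) ≤ max (X0 : ℝ) 3 := le_max_left _ _
    linarith
  have hnx : (n : ℝ) ≤ x := Nat.floor_le (by linarith)
  have hxn : x < n + 1 := Nat.lt_floor_add_one x
  have hn3 : (3 : ℝ) ≤ n := by linarith
  have hnX0 : X0 ≤ n := by
    have : (X0 : ℝ) ≤ n := by linarith
    exact_mod_cast this
  have hlogn : 0 < Real.log n := Real.log_pos (by linarith)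
  have hlogx : Real.log n ≤ Real.log x := Real.log_le_log (by linarith) hnx
  have h1 := h n hnX0 H (by
    refine le_trans ?_ hH1
    exact mul_le_mul hnx (pow_le_pow_left₀ hlogn.le hlogx 56) (by positivity) (by linarith)) (by
    refine hH2.trans ?_
    have h2 : x ≤ (n : ℝ) ^ 2 := by nlinarith only [hx4, hxn]
    calc x ^ K ≤ ((n : ℝ) ^ 2) ^ K := Real.rpow_le_rpow (by linarith) h2 (by linarith)
      _ = (n : ℝ) ^ (2 * K) := by
          rw [← Real.rpow_natCast, ← Real.rpow_mul (by linarith)]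
          norm_num)
  have h2 : (H.choose s : ℝ) ≤ (H : ℝ) ^ s := by exact_mod_cast Nat.choose_le_pow H s
  have h3 : c / 2 * (H.choose s : ℝ) ≤ c * (H : ℝ) ^ s := by
    have : (0 : ℝ) ≤ (H.choose s : ℝ) := Nat.cast_nonneg _
    nlinarith only [hc, h2]
  refine h3.trans (h1.trans ?_)
  have h4 : ((Icc 1 H).powersetCard s).filter
      (fun A => c * (n / (Real.log n) ^ (s + 1)) ≤ (NA A n : ℝ)) ⊆
      ((Icc 1 H).powersetCard s).filter
      (fun A => c / 2 * x / (Real.log x) ^ (s + 1) ≤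
        (((range (n + 1)).filter (fun m => m.Prime ∧ ∀ a ∈ A, (a * m + 1).Prime)).card : ℝ)) := by
    intro A hA
    rw [mem_filter] at hA ⊢
    refine ⟨hA.1, ?_⟩
    have h5 : NA A n = ((range (n + 1)).filter (fun m => m.Prime ∧ ∀ a ∈ A, (a * m + 1).Prime)).card := by
      unfold NA
      congr 1
      ext m
      simp only [mem_filter, mem_Icc, mem_range]
      constructor
      · rintro ⟨⟨_, h6⟩, h7⟩
        exact ⟨by omega, h7⟩
      · rintro ⟨h6, h7⟩
        exact ⟨⟨h7.1.one_le, by omega⟩, h7⟩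
    rw [← h5]
    refine le_trans ?_ hA.2
    have h6 : x / (Real.log x) ^ (s + 1) ≤ 2 * (n / (Real.log n) ^ (s + 1)) := by
      have h7 : x / (Real.log x) ^ (s + 1) ≤ (2 * n) / (Real.log n) ^ (s + 1) := by
        apply div_le_div₀ (by positivity) (by linarith only [hx4, hxn]) (by positivity)
        exact pow_le_pow_left₀ hlogn.le hlogx _
      rw [mul_div_assoc] at h7
      exact h7
    calc c / 2 * x / (Real.log x) ^ (s + 1) = c / 2 * (x / (Real.log x) ^ (s + 1)) := by ring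
      _ ≤ c / 2 * (2 * (n / (Real.log n) ^ (s + 1))) := mul_le_mul_of_nonneg_left h6 (by positivity)
      _ = _ := by ring
  exact_mod_cast card_le_card h4

end Pool.Agent.MPbca
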