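import Pool.Agent.Lib.MP_bca3e5_nt.PartB

set_option autoImplicit false

/-!
Many scales `x = 2^k`, `H = 2^(n-k) < x` with a good average over `a ≤ H`.
-/

namespace Pool.Agent.MPbca

open Finset ArithmeticFunction Filter

/-- many good scales beyond the square root -/
theorem scalesB : ∃ δ : ℝ, 0 < δ ∧ ∃ c1 : ℝ, 0 < c1 ∧ ∀ M X2 : ℕ, ∃ n0 : ℕ, ∀ n : ℕ, n0 ≤ n →
    c1 * n ≤ (((range (n + 1)).filter (fun k : ℕ =>
      (1 / 2 + δ) * n ≤ k ∧ (k : ℝ) ≤ (1 - δ) * n ∧
      1 ≤ k ∧ X2 ≤ 2 ^ k ∧ (Real.log ((2 ^ k : ℕ) : ℝ)) ^ M ≤ ((2 ^ (n - k) : ℕ) : ℝ) ∧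
      c1 * (((2 ^ k : ℕ) : ℝ) * ((2 ^ (n - k) : ℕ) : ℝ) / (Real.log ((2 ^ k : ℕ) : ℝ)) ^ 2) ≤
        ∑ p ∈ Px (2 ^ k), (cnt p (2 ^ (n - k)) : ℝ))).card : ℝ) := by
  classical
  obtain ⟨δ, hδ0, hδ8, c0, hc0, hsc⟩ := scales
  refine ⟨δ / 2, by positivity, c0 / 96, by positivity, fun M X2 => ?_⟩
  have t1 : Tendsto (fun n : ℕ => (2 : ℝ) ^ n / 6) atTop atTop :=
    (tendsto_pow_atTop_atTop_of_one_lt (by norm_num)).atTop_div_const (by norm_num)
  have e1 := t1.eventually hsc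
  have e2 := t1.eventually (eventually_ge_atTop (Real.exp 8))
  have e3 : ∀ᶠ n : ℕ in atTop, (n : ℝ) ^ M ≤ (2 : ℝ) ^ (δ * n) := by
    have h1 := ev_poly_log 1 (show 0 < δ / 2 by positivity) M
    have h2 := (tendsto_pow_atTop_atTop_of_one_lt (show (1 : ℝ) < 2 by norm_num)).eventually h1
    have h3 : ∀ᶠ n : ℕ in atTop, (2 : ℝ) ^ M ≤ 2 ^ (δ / 2 * n) := by
      have h4 : ∀ᶠ n : ℕ in atTop, (M : ℝ) ≤ δ / 2 * n := by
        have h5 : Tendsto (fun n : ℕ => δ / 2 * (n : ℝ)) atTop atTop :=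
          tendsto_natCast_atTop_atTop.const_mul_atTop (by positivity)
        exact h5.eventually_ge_atTop _
      filter_upwards [h4] with n hn
      calc (2 : ℝ) ^ M = 2 ^ (M : ℝ) := (Real.rpow_natCast _ _).symm
        _ ≤ 2 ^ (δ / 2 * n) := Real.rpow_le_rpow_of_exponent_le (by norm_num) hn
    filter_upwards [h2, h3] with n hn hn3
    rw [Real.log_pow, one_mul, ← Real.rpow_natCast (2 : ℝ) n, ← Real.rpow_mul (by norm_num)] at hn
    have h4 : (n : ℝ) ^ M ≤ 2 ^ M * (n * Real.log 2) ^ M := by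
      have := Real.log_two_gt_d9
      have h5 : (1 : ℝ) / 2 ≤ Real.log 2 := by linarith
      rw [← mul_pow]
      apply pow_le_pow_left₀ (Nat.cast_nonneg _)
      have h6 : (n : ℝ) * (1 / 2) ≤ n * Real.log 2 := mul_le_mul_of_nonneg_left h5 (Nat.cast_nonneg _)
      linarith
    calc (n : ℝ) ^ M ≤ 2 ^ M * (n * Real.log 2) ^ M := h4
      _ ≤ 2 ^ (δ / 2 * n) * 2 ^ (n * (δ / 2)) := by
          apply mul_le_mul hn3 hn (by positivity) (by positivity)
      _ = 2 ^ (δ * n) := by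
          rw [← Real.rpow_add (by norm_num)]; congr 1; ring
  have e4 : ∀ᶠ n : ℕ in atTop, 6 / δ ≤ (n : ℝ) :=
    tendsto_natCast_atTop_atTop.eventually_ge_atTop _
  have e5 : ∀ᶠ n : ℕ in atTop, (X2 : ℝ) ≤ (2 : ℝ) ^ ((1 / 2 : ℝ) * n) := by
    have h5 : Tendsto (fun n : ℕ => (2 : ℝ) ^ ((1 / 2 : ℝ) * n)) atTop atTop := by
      have h6 : (fun n : ℕ => (2 : ℝ) ^ ((1 / 2 : ℝ) * n)) = fun n : ℕ => ((2 : ℝ) ^ (1 / 2 : ℝ)) ^ n := by
        funext n
        rw [Real.rpow_mul (by norm_num), Real.rpow_natCast]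
      rw [h6]
      apply tendsto_pow_atTop_atTop_of_one_lt
      exact Real.one_lt_rpow (by norm_num) (by norm_num)
    exact h5.eventually_ge_atTop _
  obtain ⟨n0, hn0⟩ := eventually_atTop.1 (e1.and (e2.and (e3.and (e4.and e5))))
  refine ⟨max n0 8, fun n hn => ?_⟩
  obtain ⟨h1, hXe, h3, h4, h5⟩ := hn0 n (le_trans (le_max_left _ _) hn)
  have hn8 : 8 ≤ n := le_trans (le_max_right _ _) hn
  have hn8' : (8 : ℝ) ≤ n := by exact_mod_cast hn8
  set X : ℝ := (2 : ℝ) ^ n / 6 with hX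
  have hX0 : 0 < X := by positivity
  have hX1 : 1 ≤ X := le_trans (Real.one_le_exp (by norm_num)) hXe
  have hXe1 : Real.exp 1 ≤ X := le_trans (Real.exp_le_exp.2 (by norm_num)) hXe
  have hX6 : 6 * X = (2 : ℝ) ^ n := by rw [hX]; ring
  have hlog2a := Real.log_two_gt_d9
  have hlog2b := Real.log_two_lt_d9
  have hlog2 : 0 < Real.log 2 := by linarith only [hlog2a, hlog2b]
  have hlog6 : Real.log 6 ≤ 3 * Real.log 2 := by
    have := Real.log_le_log (by norm_num) (show (6 : ℝ) ≤ 2 ^ 3 by norm_num)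
    rw [Real.log_pow] at this
    exact_mod_cast this
  have hlog60 : 0 ≤ Real.log 6 := Real.log_nonneg (by norm_num)
  have hlogX : Real.log X = n * Real.log 2 - Real.log 6 := by
    rw [hX, Real.log_div (by positivity) (by norm_num), Real.log_pow]
  have hδn : 6 ≤ δ * n := by
    rw [div_le_iff₀ hδ0] at h4
    linarith only [h4]
  -- the left side
  have hleft : c0 / 96 * n ≤ c0 * Real.log X := by
    have h6 : (n : ℝ) / 4 ≤ Real.log X := by
      rw [hlogX]
      nlinarith only [hlog2a, hlog2b, hlog6, hδn, hδ8]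
    have h6' : (n : ℝ) / 96 ≤ Real.log X := by
      have : (0 : ℝ) ≤ n := Nat.cast_nonneg _
      linarith
    calc c0 / 96 * n = c0 * (n / 96) := by ring
      _ ≤ _ := mul_le_mul_of_nonneg_left h6' hc0.le
  refine (hleft.trans h1).trans ?_
  have hsub : (range (⌊Real.log X / Real.log 2⌋₊ + 1)).filter (fun k : ℕ =>
      X ^ (1 / 2 + δ) ≤ (2 : ℝ) ^ k ∧ (2 : ℝ) ^ k ≤ X ^ (1 - δ) ∧ c0 * X ≤ mk X k) ⊆
      (range (n + 1)).filter (fun k : ℕ =>
      (1 / 2 + δ / 2) * n ≤ k ∧ (k : ℝ) ≤ (1 - δ / 2) * n ∧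
      1 ≤ k ∧ X2 ≤ 2 ^ k ∧ (Real.log ((2 ^ k : ℕ) : ℝ)) ^ M ≤ ((2 ^ (n - k) : ℕ) : ℝ) ∧
      c0 / 96 * (((2 ^ k : ℕ) : ℝ) * ((2 ^ (n - k) : ℕ) : ℝ) / (Real.log ((2 ^ k : ℕ) : ℝ)) ^ 2) ≤
        ∑ p ∈ Px (2 ^ k), (cnt p (2 ^ (n - k)) : ℝ)) := by
    intro k hk
    rw [mem_filter] at hk
    obtain ⟨_, hk1, hk2, hk3⟩ := hk
    -- size of k
    have hkl : (1 / 2 + δ / 2) * n ≤ k := by
      have h6 := Real.log_le_log (by positivity) hk1
      rw [Real.log_rpow hX0, Real.log_pow, hlogX] at h6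
      have h7 : (1 / 2 + δ) * ((n : ℝ) - 3) * Real.log 2 ≤ k * Real.log 2 := by
        refine le_trans ?_ h6
        rw [mul_assoc]
        apply mul_le_mul_of_nonneg_left _ (by linarith only [hδ0, hlog2a, hlog2b])
        linarith only [hlog6]
      have h8 := le_of_mul_le_mul_right h7 hlog2
      nlinarith only [hδ8, hlog2a, hlog2b, hδn, h8]
    have hku : (k : ℝ) ≤ (1 - δ) * n := by
      have h6 := Real.log_le_log (by positivity) hk2
      rw [Real.log_rpow hX0, Real.log_pow, hlogX] at h6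
      have h7 : (k : ℝ) * Real.log 2 ≤ (1 - δ) * n * Real.log 2 := by
        refine h6.trans ?_
        rw [mul_assoc]
        apply mul_le_mul_of_nonneg_left _ (by linarith only [hδ8, hlog2a, hlog2b])
        linarith only [hlog60]
      exact le_of_mul_le_mul_right h7 hlog2
    have hkn : k ≤ n := by
      have : (k : ℝ) ≤ n := by nlinarith only [hlog2a, hlog2b, hδn, hku]
      exact_mod_cast this
    have hk4 : (n : ℝ) / 2 ≤ k := by nlinarith only [hlog2a, hlog2b, hδn, hkl]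
    have hk1' : 1 ≤ k := by
      have : (1 : ℝ) ≤ k := by linarith only [hlog2a, hlog2b, hδn, hkl, hku]
      exact_mod_cast this
    rw [mem_filter, mem_range]
    refine ⟨by omega, hkl, by nlinarith only [hlog2a, hlog2b, hδn, hku], hk1', ?_⟩
    set H : ℕ := 2 ^ (n - k) with hH
    have hxH : (2 : ℝ) ^ k * (H : ℝ) = (2 : ℝ) ^ n := by
      rw [hH]
      push_cast
      rw [← pow_add]
      congr 1
      omega
    have h6 := first_moment_B hXe1 hk1' (H := H) (by rw [hxH, hX6])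
    set x : ℕ := 2 ^ k with hx
    have hxc : (x : ℝ) = (2 : ℝ) ^ k := by rw [hx]; push_cast; rfl
    have hlx : Real.log ((2 : ℝ) ^ k) = k * Real.log 2 := Real.log_pow _ _
    have hlx0 : 0 < Real.log ((2 : ℝ) ^ k) := by
      rw [hlx]
      have : (0 : ℝ) < k := by linarith only [hlog2a, hlog2b, hδn, hkl, hku]
      positivity
    have hl3 : Real.log (3 * X) ≤ 2 * Real.log ((2 : ℝ) ^ k) := by
      have h7 : Real.log (3 * X) ≤ n * Real.log 2 := by
        rw [← Real.log_pow]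
        apply Real.log_le_log (by positivity)
        linarith only [hX, hX1, hlog2a, hlog2b]
      rw [hlx]
      nlinarith only [hδn, hkl, h7, hδ0, hlog2b, hδ8, hlog2a]
    have hl30 : 0 ≤ Real.log (3 * X) := Real.log_nonneg (by linarith only [hX1, hlog2a, hlog2b])
    set SS := ∑ n ∈ Px x, (cnt n H : ℝ) with hSS
    have hSS0 : 0 ≤ SS := sum_nonneg fun _ _ => Nat.cast_nonneg _
    have h7 : c0 * X ≤ 16 * (Real.log ((2 : ℝ) ^ k)) ^ 2 * SS := by
      calc c0 * X ≤ mk X k := hk3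
        _ ≤ Real.log ((2 : ℝ) ^ k) * (8 * Real.log (3 * X)) * SS := h6
        _ ≤ Real.log ((2 : ℝ) ^ k) * (8 * (2 * Real.log ((2 : ℝ) ^ k))) * SS := by
            apply mul_le_mul_of_nonneg_right _ hSS0
            apply mul_le_mul_of_nonneg_left _ hlx0.le
            linarith only [hl3]
        _ = _ := by ring
    have h8 : c0 / 96 * (x * H / (Real.log x) ^ 2) ≤ SS := by
      rw [hxc, hxH, ← hX6]
      have h9 : c0 / 96 * (6 * X / (Real.log ((2 : ℝ) ^ k)) ^ 2) =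
          c0 * X / (16 * (Real.log ((2 : ℝ) ^ k)) ^ 2) := by
        field_simp
        ring
      rw [h9, div_le_iff₀ (by positivity)]
      linarith only [h7]
    have hxX2 : X2 ≤ x := by
      have h9 : (X2 : ℝ) ≤ x := by
        rw [hxc]
        refine h5.trans ?_
        rw [← Real.rpow_natCast]
        exact Real.rpow_le_rpow_of_exponent_le (by norm_num) (by linarith only [hlog2a, hlog2b, hδn, hkl])
      exact_mod_cast h9
    have hHlog : (Real.log x) ^ M ≤ (H : ℝ) := by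
      rw [hxc, hlx]
      have h9 : (k : ℝ) * Real.log 2 ≤ n := by
        have h10 : (k : ℝ) ≤ n := by exact_mod_cast hkn
        have h11 : (0 : ℝ) ≤ k := Nat.cast_nonneg _
        nlinarith only [hlog2a, hlog2b, hδn, hku, hδ8]
      have h10 : ((k : ℝ) * Real.log 2) ^ M ≤ (n : ℝ) ^ M := by
        apply pow_le_pow_left₀ _ h9
        positivity
      refine h10.trans (h3.trans ?_)
      rw [hH]
      push_cast
      rw [← Real.rpow_natCast]
      apply Real.rpow_le_rpow_of_exponent_le (by norm_num)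
      rw [Nat.cast_sub hkn]
      linarith only [hku]
    exact ⟨hxX2, hHlog, h8⟩
  exact_mod_cast card_le_card hsub

end Pool.Agent.MPbca
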