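import Pool.Agent.Lib.MP_bca3e5_nt.Ded

set_option autoImplicit false

/-!
From the average over `a ≤ H` to a positive proportion of the sets `A` of diameter at most a
multiple of `log x`.
-/

namespace Pool.Agent.MPbca

open Finset

/-- the number of `a ∈ S` with `a n + 1` prime -/
def cntS (S : Finset ℕ) (n : ℕ) : ℕ := (S.filter (fun a => (a * n + 1).Prime)).card

lemma sum_NA_S (s x : ℕ) (S : Finset ℕ) : ∑ A ∈ S.powersetCard s, NA A x =
    ∑ n ∈ Px x, (cntS S n).choose s := by
  classical
  have h1 : ∀ A ∈ S.powersetCard s, NA A x =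
      ∑ n ∈ Px x, if A ⊆ S.filter (fun a => (a * n + 1).Prime) then 1 else 0 := by
    intro A hA
    rw [mem_powersetCard] at hA
    rw [← Finset.card_filter]
    unfold NA Px
    rw [Finset.filter_filter]
    congr 1
    apply Finset.filter_congr
    intro n _
    constructor
    · rintro ⟨h1, h2⟩
      exact ⟨h1, fun a ha => mem_filter.2 ⟨hA.1 ha, h2 a ha⟩⟩
    · rintro ⟨h1, h2⟩
      exact ⟨h1, fun a ha => (mem_filter.1 (h2 ha)).2⟩
  rw [sum_congr rfl h1, sum_comm]
  apply sum_congr rfl
  intro n _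
  rw [← Finset.card_filter]
  unfold cntS
  rw [← Finset.card_powersetCard]
  congr 1
  ext A
  rw [mem_filter, mem_powersetCard, mem_powersetCard]
  constructor
  · rintro ⟨⟨_, h2⟩, h3⟩
    exact ⟨h3, h2⟩
  · rintro ⟨h1, h2⟩
    exact ⟨⟨h1.trans (filter_subset _ _), h2⟩, h1⟩

/-- the blocks of length `D` -/
def blk (D H j : ℕ) : Finset ℕ := (Icc 1 H).filter (fun a => (a - 1) / D = j)

lemma mem_blk {D H j a : ℕ} (hD : 1 ≤ D) (h : a ∈ blk D H j) :
    a ∈ Icc 1 H ∧ j * D < a ∧ a ≤ j * D + D := by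
  unfold blk at h
  rw [mem_filter] at h
  refine ⟨h.1, ?_⟩
  rw [mem_Icc] at h
  have h1 := Nat.div_mul_le_self (a - 1) D
  have h2 := Nat.lt_div_mul_add (a := a - 1) (b := D) (by omega)
  rw [h.2] at h1 h2
  omega

lemma card_blk_le {D : ℕ} (hD : 1 ≤ D) (H j : ℕ) : (blk D H j).card ≤ D := by
  have h : blk D H j ⊆ Ioc (j * D) (j * D + D) := by
    intro a ha
    have := mem_blk hD ha
    rw [mem_Ioc]
    exact this.2
  have := card_le_card h
  rwa [Nat.card_Ioc, Nat.add_sub_cancel_left] at this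

lemma sum_blk {M : Type*} [AddCommMonoid M] (D H : ℕ) (f : ℕ → M) :
    ∑ j ∈ range (H / D + 1), ∑ a ∈ blk D H j, f a = ∑ a ∈ Icc 1 H, f a := by
  unfold blk
  apply Finset.sum_fiberwise_of_maps_to
  intro a ha
  rw [mem_Icc] at ha
  rw [mem_range]
  have : (a - 1) / D ≤ H / D := Nat.div_le_div_right (by omega)
  omega

lemma card_containing' (S B : Finset ℕ) (s D : ℕ) (hS : S.card ≤ D) :
    ((S.powersetCard s).filter (fun A => B ⊆ A)).card * D ^ B.card ≤ D ^ s := by
  classical
  rcases Nat.eq_zero_or_pos ((S.powersetCard s).filter (fun A => B ⊆ A)).card with h0 | hpos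
  · rw [h0, zero_mul]; exact Nat.zero_le _
  obtain ⟨A0, hA0⟩ := Finset.card_pos.1 hpos
  rw [mem_filter, mem_powersetCard] at hA0
  have hBs : B.card ≤ s := by
    rw [← hA0.1.2]
    exact card_le_card hA0.2
  have h1 : ((S.powersetCard s).filter (fun A => B ⊆ A)).card ≤
      (S.powersetCard (s - B.card)).card := by
    apply Finset.card_le_card_of_injOn (fun A => A \ B)
    · intro A hA
      simp only [coe_filter, mem_powersetCard, Set.mem_ofPred_eq] at hA
      simp only [mem_coe, mem_powersetCard]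
      refine ⟨(Finset.sdiff_subset).trans hA.1.1, ?_⟩
      rw [Finset.card_sdiff_of_subset hA.2, hA.1.2]
    · intro A hA A' hA' h
      simp only [coe_filter, mem_powersetCard, Set.mem_ofPred_eq] at hA hA'
      simp only at h
      rw [← Finset.sdiff_union_of_subset hA.2, h, Finset.sdiff_union_of_subset hA'.2]
  have h2 : (S.powersetCard (s - B.card)).card ≤ D ^ (s - B.card) := by
    rw [card_powersetCard]
    exact (Nat.choose_le_pow _ _).trans (Nat.pow_le_pow_left hS _)
  calc _ ≤ D ^ (s - B.card) * D ^ B.card := Nat.mul_le_mul_right _ (h1.trans h2)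
    _ = D ^ s := by rw [← pow_add]; congr 1; omega

lemma sum_diff_le' (f : ℕ → ℝ) (hf : ∀ d, 0 ≤ f d) (S : Finset ℕ) (u D a : ℕ) (hS : S ⊆ Ioc u (u + D))
    (ha : a ∈ S) :
    ∑ b ∈ S.filter (fun b => b ≠ a), f ((a : ℤ) - b).natAbs ≤ 2 * ∑ d ∈ Icc 1 D, f d := by
  classical
  have ha' := hS ha
  rw [mem_Ioc] at ha'
  have hsub : S.filter (fun b => b ≠ a) ⊆ Ioo u a ∪ Ioc a (u + D) := by
    intro b hb
    rw [mem_filter] at hb
    have := hS hb.1
    simp only [mem_union, mem_Ioo, mem_Ioc] at this ⊢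
    omega
  refine (sum_le_sum_of_subset_of_nonneg hsub fun b _ _ => hf _).trans ?_
  rw [Finset.sum_union (by
    rw [Finset.disjoint_left]
    intro b h1 h2
    rw [mem_Ioo] at h1
    rw [mem_Ioc] at h2
    omega)]
  have h1 : ∑ b ∈ Ioo u a, f ((a : ℤ) - b).natAbs ≤ ∑ d ∈ Icc 1 D, f d := by
    rw [← Finset.sum_image (s := Ioo u a) (g := fun b : ℕ => ((a : ℤ) - b).natAbs) (f := f)]
    · apply sum_le_sum_of_subset_of_nonneg
      · intro d hd
        rw [mem_image] at hd
        obtain ⟨b, hb, rfl⟩ := hd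
        rw [mem_Ioo] at hb
        rw [mem_Icc]
        omega
      · intro d _ _; exact hf d
    · intro b hb c hc h
      simp only [coe_Ioo, Set.mem_Ioo] at hb hc
      simp only at h
      omega
  have h2 : ∑ b ∈ Ioc a (u + D), f ((a : ℤ) - b).natAbs ≤ ∑ d ∈ Icc 1 D, f d := by
    rw [← Finset.sum_image (s := Ioc a (u + D)) (g := fun b : ℕ => ((a : ℤ) - b).natAbs) (f := f)]
    · apply sum_le_sum_of_subset_of_nonneg
      · intro d hd
        rw [mem_image] at hd
        obtain ⟨b, hb, rfl⟩ := hd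
        rw [mem_Ioc] at hb
        rw [mem_Icc]
        omega
      · intro d _ _; exact hf d
    · intro b hb c hc h
      simp only [coe_Ioc, Set.mem_Ioc] at hb hc
      simp only at h
      omega
  linarith

/-- the moment of the singular factor over the sets `A` in short blocks -/
theorem momentShort {s : ℕ} (hs : 1 ≤ s) {R : ℝ} (hR : 0 ≤ R) : ∃ C : ℝ, 0 < C ∧
    ∀ H D : ℕ, 1 ≤ D → ∑ j ∈ range (H / D + 1), ∑ A ∈ (blk D H j).powersetCard s,
      Real.exp (R * ∑ p ∈ Bad A, (1 : ℝ) / p) ≤ C * (H * ((D : ℝ) ^ s / D)) := by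
  classical
  set κ : ℝ := R * (s ^ 2 : ℕ) with hκ
  have hκ0 : 0 ≤ κ := by positivity
  set C0 : ℝ := Real.exp (κ * Real.exp κ) with hC0
  refine ⟨3 * C0, by positivity, fun H D hD => ?_⟩
  have hD' : (0 : ℝ) < D := by exact_mod_cast hD
  set g : ℕ × ℕ → ℝ := fun x => Real.exp (κ * hh (vv x)) with hg
  have hg0 : ∀ x, 0 ≤ g x := fun x => (Real.exp_pos _).le
  have hblock : ∀ j ∈ range (H / D + 1), ∑ A ∈ (blk D H j).powersetCard s,
      Real.exp (R * ∑ p ∈ Bad A, (1 : ℝ) / p) ≤
      ∑ a ∈ blk D H j, (Real.exp (κ * hh a) * ((D : ℝ) ^ s / D) + 2 * C0 * ((D : ℝ) ^ s / D)) := by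
    intro j _
    set S := blk D H j with hS
    have hcard : S.card ≤ D := card_blk_le hD H j
    have hsub : S ⊆ Ioc (j * D) (j * D + D) := by
      intro a ha
      rw [mem_Ioc]
      exact (mem_blk hD ha).2
    have h1 : ∀ A ∈ S.powersetCard s, Real.exp (R * ∑ p ∈ Bad A, (1 : ℝ) / p) ≤
        ∑ x ∈ A ×ˢ A, g x := by
      intro A hA
      rw [mem_powersetCard] at hA
      have hne : (A ×ˢ A).Nonempty := by
        have : A.Nonempty := by
          rw [← Finset.card_pos, hA.2]; omega
        exact this.product this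
      have h2 := exp_sum_le (A ×ˢ A) hne (fun x => hh (vv x)) hR
      rw [card_product, hA.2] at h2
      refine le_trans ?_ (h2.trans (le_of_eq ?_))
      · apply Real.exp_le_exp.2
        exact mul_le_mul_of_nonneg_left (sum_Bad_le A) hR
      · apply sum_congr rfl
        intro x _
        rw [hg, hκ]
        simp only
        congr 2
        push_cast
        ring
    refine (sum_le_sum h1).trans ?_
    have h3 : ∑ A ∈ S.powersetCard s, ∑ x ∈ A ×ˢ A, g x =
        ∑ x ∈ S ×ˢ S, g x *
          ((S.powersetCard s).filter (fun A => ({x.1, x.2} : Finset ℕ) ⊆ A)).card := by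
      have e1 : ∀ A ∈ S.powersetCard s, ∑ x ∈ A ×ˢ A, g x =
          ∑ x ∈ S ×ˢ S, if ({x.1, x.2} : Finset ℕ) ⊆ A then g x else 0 := by
        intro A hA
        rw [mem_powersetCard] at hA
        rw [← sum_filter]
        apply sum_congr _ fun _ _ => rfl
        ext x
        rw [mem_product, mem_filter, mem_product, Finset.insert_subset_iff, Finset.singleton_subset_iff]
        constructor
        · intro h
          exact ⟨⟨hA.1 h.1, hA.1 h.2⟩, h⟩
        · intro h
          exact h.2
      rw [sum_congr rfl e1, sum_comm]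
      apply sum_congr rfl
      intro x _
      rw [← sum_filter, sum_const, nsmul_eq_mul, mul_comm]
    rw [h3]
    have h4 : ∀ x ∈ S ×ˢ S, g x *
        ((S.powersetCard s).filter (fun A => ({x.1, x.2} : Finset ℕ) ⊆ A)).card ≤
        (if x.1 = x.2 then g x * ((D : ℝ) ^ s / D) else g x * ((D : ℝ) ^ s / D ^ 2)) := by
      intro x _
      have e2 := card_containing' S {x.1, x.2} s D hcard
      split_ifs with h
      · apply mul_le_mul_of_nonneg_left _ (hg0 x)
        rw [le_div_iff₀ hD']
        rw [h, Finset.pair_eq_singleton, card_singleton, pow_one] at e2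
        rw [h, Finset.pair_eq_singleton]
        exact_mod_cast e2
      · apply mul_le_mul_of_nonneg_left _ (hg0 x)
        rw [le_div_iff₀ (by positivity)]
        rw [Finset.card_pair h] at e2
        exact_mod_cast e2
    refine (sum_le_sum h4).trans ?_
    rw [Finset.sum_product]
    have hmom := sum_exp_hh hκ0 D
    rw [← hC0] at hmom
    apply sum_le_sum
    intro a ha
    rw [← Finset.sum_filter_add_sum_filter_not S (fun b => b = a)]
    apply add_le_add
    · rw [Finset.filter_eq', if_pos ha, sum_singleton]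
      simp only [if_true]
      rw [hg]
      unfold vv
      simp
    · have e3 : ∑ b ∈ S.filter (fun b => ¬ b = a),
          (if (a, b).1 = (a, b).2 then g (a, b) * ((D : ℝ) ^ s / D)
            else g (a, b) * ((D : ℝ) ^ s / D ^ 2)) =
          (∑ b ∈ S.filter (fun b => b ≠ a), Real.exp (κ * hh ((a : ℤ) - b).natAbs)) *
            ((D : ℝ) ^ s / D ^ 2) := by
        rw [sum_mul]
        apply sum_congr rfl
        intro b hb
        rw [mem_filter] at hb
        have hne : a ≠ b := fun h => hb.2 h.symm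
        simp only
        rw [if_neg hne, hg]
        simp only
        unfold vv
        simp only
        rw [if_neg hne]
      rw [e3]
      have e4 := sum_diff_le' (fun d => Real.exp (κ * hh d)) (fun d => (Real.exp_pos _).le) S
        (j * D) D a hsub ha
      calc _ ≤ (2 * (C0 * D)) * ((D : ℝ) ^ s / D ^ 2) := by
            apply mul_le_mul_of_nonneg_right _ (by positivity)
            linarith
        _ = _ := by field_simp
  refine (sum_le_sum hblock).trans ?_
  rw [sum_blk D H (fun a => Real.exp (κ * hh a) * ((D : ℝ) ^ s / D) + 2 * C0 * ((D : ℝ) ^ s / D))]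
  rw [sum_add_distrib, ← sum_mul, sum_const, Nat.card_Icc, Nat.add_sub_cancel, nsmul_eq_mul]
  have hmom := sum_exp_hh hκ0 H
  rw [← hC0] at hmom
  have h6 : (∑ a ∈ Icc 1 H, Real.exp (κ * hh a)) * ((D : ℝ) ^ s / D) ≤
      (C0 * H) * ((D : ℝ) ^ s / D) := mul_le_mul_of_nonneg_right hmom (by positivity)
  calc _ ≤ (C0 * H) * ((D : ℝ) ^ s / D) + H * (2 * C0 * ((D : ℝ) ^ s / D)) := by linarith
    _ = _ := by ring

end Pool.Agent.MPbca
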