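import Pool.Agent.Lib.MP_bca3e5_nt.Short

set_option autoImplicit false

/-!
From the average over `a ≤ H` to a positive proportion of the sets `A` of diameter at most a
multiple of `log x`.
-/

namespace Pool.Agent.MPbca

open Finset

lemma sum_cntS_blk (D H n : ℕ) : ∑ j ∈ range (H / D + 1), cntS (blk D H j) n = cnt n H := by
  unfold cntS cnt
  simp_rw [Finset.card_filter]
  exact sum_blk D H (fun a => if (a * n + 1).Prime then 1 else 0)

/-- from the average over `a` to a positive proportion of the sets `A` of small diameter -/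
theorem deduceShort {s : ℕ} (hs : 1 ≤ s) {c1 : ℝ} (hc1 : 0 < c1) : ∃ K0 : ℝ, 0 < K0 ∧
    ∃ c : ℝ, 0 < c ∧ ∃ X0 : ℕ,
    ∀ X : ℕ, X0 ≤ X → ∀ H : ℕ, (Real.log X) ^ 2 ≤ (H : ℝ) →
    c1 * (X * H / (Real.log X) ^ 2) ≤ ∑ n ∈ Px X, (cnt n H : ℝ) →
    c * (H : ℝ) * (Real.log X) ^ (s - 1) ≤ ((((Icc 1 H).powersetCard s).filter
      (fun A : Finset ℕ => (∀ a ∈ A, ∀ b ∈ A, (a : ℝ) ≤ b + K0 * Real.log X) ∧
        c * (X / (Real.log X) ^ (s + 1)) ≤ (NA A X : ℝ))).card : ℝ) := by
  classical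
  obtain ⟨C2, hC2, X2, hX2⟩ := card_Px
  obtain ⟨C3, hC3, X3, hX3⟩ := NA_upper s
  obtain ⟨C4, hC4, hmom⟩ := momentShort hs (R := 2 * (s + 1 : ℕ)) (by positivity)
  set K0 : ℝ := 8 * s * C2 / c1 + 2 with hK0
  have hs0 : (0 : ℝ) < s := by exact_mod_cast (by omega : 0 < s)
  have hK0pos : 2 ≤ K0 := by
    have : 0 < 8 * s * C2 / c1 := by positivity
    linarith
  set c3 : ℝ := (c1 / 2) ^ s / (s.factorial * (2 * C2) ^ (s - 1)) with hc3
  have hfac : (0 : ℝ) < s.factorial := by exact_mod_cast Nat.factorial_pos s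
  have hc3pos : 0 < c3 := by positivity
  set C5 : ℝ := C3 ^ 2 * C4 with hC5
  have hC5pos : 0 < C5 := by positivity
  set c' : ℝ := min (c3 / 4) (c3 ^ 2 / (4 * C5)) with hc'
  have hc'pos : 0 < c' := lt_min (by positivity) (by positivity)
  have hlogbig : ∀ᶠ X : ℕ in Filter.atTop, K0 + 2 ≤ Real.log X :=
    (Real.tendsto_log_atTop.comp tendsto_natCast_atTop_atTop).eventually_ge_atTop _
  obtain ⟨X4, hX4⟩ := Filter.eventually_atTop.1 hlogbig
  refine ⟨K0, by linarith, c', hc'pos, max (max X2 X3) X4, fun X hX H hH hsum => ?_⟩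
  have hP := hX2 X (le_trans (le_trans (le_max_left _ _) (le_max_left _ _)) hX)
  have hNA := hX3 X (le_trans (le_trans (le_max_right _ _) (le_max_left _ _)) hX)
  have hL := hX4 X (le_trans (le_max_right _ _) hX)
  set L := Real.log X with hLdef
  have hL0 : 0 < L := by linarith
  have hX0 : (0 : ℝ) < X := by
    rcases Nat.eq_zero_or_pos X with h | h
    · subst h; simp at hLdef; linarith
    · exact_mod_cast h
  have hH0 : (0 : ℝ) < H := lt_of_lt_of_le (by positivity) hH
  have hH1 : 1 ≤ H := by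
    have : 0 < H := by exact_mod_cast hH0
    omega
  set D : ℕ := ⌊K0 * L⌋₊ with hD
  have hDle : (D : ℝ) ≤ K0 * L := Nat.floor_le (by positivity)
  have hDge : K0 / 2 * L ≤ D := by
    have h1 : K0 * L < D + 1 := Nat.lt_floor_add_one _
    nlinarith
  have hDL : L ≤ D := by nlinarith
  have hD0 : (0 : ℝ) < D := by linarith
  have hD1 : 1 ≤ D := by
    have : 0 < D := by exact_mod_cast hD0
    omega
  have hDH : (D : ℝ) ≤ H := by nlinarith
  set J : ℕ := H / D + 1 with hJ
  have hJle : (J : ℝ) ≤ 2 * (H / D) := by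
    have h1 : ((H / D : ℕ) : ℝ) ≤ H / D := Nat.cast_div_le
    have h2 : 1 ≤ (H : ℝ) / D := by rw [le_div_iff₀ hD0]; linarith
    rw [hJ]
    push_cast
    linarith
  set Y : ℝ := X / L ^ (s + 1) with hY
  have hYpos : 0 < Y := by positivity
  set N : ℝ := H * ((D : ℝ) ^ s / D) with hN
  have hNpos : 0 < N := by positivity
  -- the first moment
  have hfirst : c3 * N * Y ≤ ∑ j ∈ range J, ∑ A ∈ (blk D H j).powersetCard s, (NA A X : ℝ) := by
    have e1 : ∑ j ∈ range J, ∑ A ∈ (blk D H j).powersetCard s, (NA A X : ℝ) =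
        ∑ y ∈ range J ×ˢ Px X, ((cntS (blk D H y.1) y.2).choose s : ℝ) := by
      rw [Finset.sum_product]
      apply sum_congr rfl
      intro j _
      exact_mod_cast sum_NA_S s X (blk D H j)
    rw [e1]
    have e2 : ∀ y ∈ range J ×ˢ Px X, (((cntS (blk D H y.1) y.2 - s : ℕ) : ℝ)) ^ s / s.factorial ≤
        ((cntS (blk D H y.1) y.2).choose s : ℝ) := by
      intro y _
      rw [div_le_iff₀ hfac]
      have h1 : (cntS (blk D H y.1) y.2 - s) ^ s ≤ (cntS (blk D H y.1) y.2).choose s * s.factorial := by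
        have h2 := Nat.pow_sub_le_descFactorial (cntS (blk D H y.1) y.2) s
        rw [Nat.descFactorial_eq_factorial_mul_choose] at h2
        calc (cntS (blk D H y.1) y.2 - s) ^ s ≤ (cntS (blk D H y.1) y.2 + 1 - s) ^ s :=
              Nat.pow_le_pow_left (by omega) s
          _ ≤ _ := by rw [mul_comm]; exact h2
      exact_mod_cast h1
    refine le_trans ?_ (sum_le_sum e2)
    rw [← sum_div]
    obtain ⟨t, rfl⟩ : ∃ t, s = t + 1 := ⟨s - 1, by omega⟩
    have e3 := pow_sum_div_card_le_sum_pow (s := range J ×ˢ Px X)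
      (f := fun y => ((cntS (blk D H y.1) y.2 - (t + 1) : ℕ) : ℝ))
      (fun _ _ => Nat.cast_nonneg _) t
    have hcardle : ((range J ×ˢ Px X).card : ℝ) ≤ 2 * C2 * (X * H / (L * D)) := by
      rw [card_product, card_range]
      push_cast
      calc (J : ℝ) * (Px X).card ≤ (2 * (H / D)) * (C2 * (X / L)) :=
            mul_le_mul hJle hP (Nat.cast_nonneg _) (by positivity)
        _ = _ := by field_simp
    have e4 : c1 / 2 * (X * H / L ^ 2) ≤
        ∑ y ∈ range J ×ˢ Px X, ((cntS (blk D H y.1) y.2 - (t + 1) : ℕ) : ℝ) := by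
      have h1 : ∑ y ∈ range J ×ˢ Px X, ((cntS (blk D H y.1) y.2 : ℝ) - (t + 1 : ℕ)) ≤
          ∑ y ∈ range J ×ˢ Px X, ((cntS (blk D H y.1) y.2 - (t + 1) : ℕ) : ℝ) := by
        apply sum_le_sum
        intro y _
        have : cntS (blk D H y.1) y.2 ≤ (cntS (blk D H y.1) y.2 - (t + 1)) + (t + 1) := by omega
        have h2 : (cntS (blk D H y.1) y.2 : ℝ) ≤
            ((cntS (blk D H y.1) y.2 - (t + 1) : ℕ) : ℝ) + ((t + 1 : ℕ) : ℝ) := by
          exact_mod_cast this
        linarith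
      refine le_trans ?_ h1
      rw [sum_sub_distrib, sum_const, nsmul_eq_mul]
      have h0 : ∑ y ∈ range J ×ˢ Px X, (cntS (blk D H y.1) y.2 : ℝ) = ∑ n ∈ Px X, (cnt n H : ℝ) := by
        rw [Finset.sum_product_right]
        apply sum_congr rfl
        intro n _
        exact_mod_cast sum_cntS_blk D H n
      rw [h0]
      have h2 : ((range J ×ˢ Px X).card : ℝ) * (t + 1 : ℕ) ≤ c1 / 2 * (X * H / L ^ 2) := by
        have h3 : ((range J ×ˢ Px X).card : ℝ) * (t + 1 : ℕ) ≤
            2 * C2 * (X * H / (L * D)) * (t + 1 : ℕ) :=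
          mul_le_mul_of_nonneg_right hcardle (by positivity)
        refine h3.trans ?_
        have h4 : 4 * ((t + 1 : ℕ) : ℝ) * C2 * L ≤ c1 * D := by
          have h5 : 4 * ((t + 1 : ℕ) : ℝ) * C2 ≤ c1 * (K0 / 2) := by
            rw [hK0]
            have h6 : c1 * ((8 * ((t + 1 : ℕ) : ℝ) * C2 / c1 + 2) / 2) =
                4 * ((t + 1 : ℕ) : ℝ) * C2 + c1 := by
              field_simp
              ring
            rw [h6]
            linarith
          calc 4 * ((t + 1 : ℕ) : ℝ) * C2 * L ≤ c1 * (K0 / 2) * L :=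
                mul_le_mul_of_nonneg_right h5 hL0.le
            _ = c1 * (K0 / 2 * L) := by ring
            _ ≤ c1 * D := mul_le_mul_of_nonneg_left hDge hc1.le
        have h5 : 2 * C2 * (X * H / (L * D)) * ((t + 1 : ℕ) : ℝ) =
            (4 * ((t + 1 : ℕ) : ℝ) * C2 * L) * (X * H / (2 * L ^ 2 * D)) := by
          field_simp
          ring
        rw [h5]
        calc (4 * ((t + 1 : ℕ) : ℝ) * C2 * L) * (X * H / (2 * L ^ 2 * D)) ≤
              (c1 * D) * (X * H / (2 * L ^ 2 * D)) :=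
              mul_le_mul_of_nonneg_right h4 (by positivity)
          _ = c1 / 2 * (X * H / L ^ 2) := by field_simp
      linarith
    have hPpos : 0 < ((range J ×ˢ Px X).card : ℝ) := by
      rcases Nat.eq_zero_or_pos (range J ×ˢ Px X).card with h | h
      · rw [Finset.card_eq_zero] at h
        rw [h, sum_empty] at e4
        have : 0 < c1 / 2 * (X * H / L ^ 2) := by positivity
        linarith
      · exact_mod_cast h
    have e5 : (c1 / 2 * (X * H / L ^ 2)) ^ (t + 1) / (2 * C2 * (X * H / (L * D))) ^ t ≤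
        (∑ y ∈ range J ×ˢ Px X, ((cntS (blk D H y.1) y.2 - (t + 1) : ℕ) : ℝ)) ^ (t + 1) /
          ((range J ×ˢ Px X).card : ℝ) ^ t := by
      apply div_le_div₀
      · positivity
      · exact pow_le_pow_left₀ (by positivity) e4 _
      · positivity
      · exact pow_le_pow_left₀ hPpos.le hcardle _
    have e6 := e5.trans e3
    refine le_trans (le_of_eq ?_) (div_le_div_of_nonneg_right e6 hfac.le)
    rw [hc3, hY, hN, Nat.add_sub_cancel]
    have hL' : (L ^ 2) ^ (t + 1) = L ^ (t + 1 + 1) * L ^ t := by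
      rw [← pow_mul, ← pow_add]; congr 1; ring
    rw [mul_pow (c1 / 2), div_pow (X * (H : ℝ)), mul_pow (X : ℝ) (H : ℝ), mul_pow (2 * C2),
      div_pow (X * (H : ℝ)) (L * D), mul_pow (X : ℝ) (H : ℝ), mul_pow L (D : ℝ),
      hL', pow_succ (X : ℝ) t, pow_succ (H : ℝ) t, pow_succ (D : ℝ) t]
    have hLt : L ^ t ≠ 0 := by positivity
    have hLt2 : L ^ (t + 1 + 1) ≠ 0 := by positivity
    have hXt : (X : ℝ) ^ t ≠ 0 := by positivity
    have hHt : (H : ℝ) ^ t ≠ 0 := by positivity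
    have hDt : (D : ℝ) ^ t ≠ 0 := by positivity
    have hCt : (2 * C2) ^ t ≠ 0 := by positivity
    generalize L ^ t = l1 at *
    generalize L ^ (t + 1 + 1) = l2 at *
    generalize (X : ℝ) ^ t = x1 at *
    generalize (H : ℝ) ^ t = y1 at *
    generalize (D : ℝ) ^ t = z1 at *
    generalize (2 * C2) ^ t = k1 at *
    field_simp
  -- the second moment
  have hsecond : ∑ j ∈ range J, ∑ A ∈ (blk D H j).powersetCard s, (NA A X : ℝ) ^ 2 ≤
      C5 * N * Y ^ 2 := by
    have e1 : ∀ j ∈ range J, ∀ A ∈ (blk D H j).powersetCard s, (NA A X : ℝ) ^ 2 ≤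
        (C3 * Y) ^ 2 * Real.exp (2 * (s + 1 : ℕ) * ∑ p ∈ Bad A, (1 : ℝ) / p) := by
      intro j _ A hA
      rw [mem_powersetCard] at hA
      have h1 := hNA A hA.2 (fun a ha => (mem_Icc.1 (mem_blk hD1 (hA.1 ha)).1).1)
      calc (NA A X : ℝ) ^ 2 ≤
            (C3 * Y * Real.exp ((s + 1 : ℕ) * ∑ p ∈ Bad A, (1 : ℝ) / p)) ^ 2 :=
            pow_le_pow_left₀ (Nat.cast_nonneg _) h1 2
        _ = _ := by
            rw [mul_pow (C3 * Y), ← Real.exp_nat_mul]
            congr 2
            push_cast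
            ring
    refine (sum_le_sum fun j hj => sum_le_sum (e1 j hj)).trans ?_
    simp_rw [← mul_sum]
    calc _ ≤ (C3 * Y) ^ 2 * (C4 * N) :=
          mul_le_mul_of_nonneg_left (hmom H D hD1) (by positivity)
      _ = _ := by rw [hC5]; ring
  -- the family
  set F : Finset (Finset ℕ) := (range J).biUnion (fun j => (blk D H j).powersetCard s) with hF
  have hdisj : ∀ i ∈ range J, ∀ j ∈ range J, i ≠ j →
      Disjoint ((blk D H i).powersetCard s) ((blk D H j).powersetCard s) := by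
    intro i _ j _ hij
    rw [Finset.disjoint_left]
    intro A hA hA'
    rw [mem_powersetCard] at hA hA'
    have : A.Nonempty := by
      rw [← Finset.card_pos, hA.2]; omega
    obtain ⟨a, ha⟩ := this
    have h1 := hA.1 ha
    have h2 := hA'.1 ha
    unfold blk at h1 h2
    rw [mem_filter] at h1 h2
    exact hij (h1.2.symm.trans h2.2)
  have hsumF : ∀ f : Finset ℕ → ℝ, ∑ A ∈ F, f A =
      ∑ j ∈ range J, ∑ A ∈ (blk D H j).powersetCard s, f A := by
    intro f
    rw [hF]
    exact Finset.sum_biUnion (fun i hi j hj hij => hdisj i hi j hj hij)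
  rw [← hsumF] at hfirst hsecond
  have hcardF : (F.card : ℝ) ≤ 2 * N := by
    have h1 : F.card ≤ ∑ j ∈ range J, ((blk D H j).powersetCard s).card := card_biUnion_le
    have h2 : ∑ j ∈ range J, ((blk D H j).powersetCard s).card ≤ J * D ^ s := by
      have : ∀ j ∈ range J, ((blk D H j).powersetCard s).card ≤ D ^ s := by
        intro j _
        rw [card_powersetCard]
        exact (Nat.choose_le_pow _ _).trans (Nat.pow_le_pow_left (card_blk_le hD1 H j) s)
      refine (Finset.sum_le_card_nsmul _ _ _ this).trans ?_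
      rw [card_range, smul_eq_mul]
    calc (F.card : ℝ) ≤ J * (D : ℝ) ^ s := by exact_mod_cast h1.trans h2
      _ ≤ (2 * (H / D)) * (D : ℝ) ^ s := mul_le_mul_of_nonneg_right hJle (by positivity)
      _ = _ := by rw [hN]; ring
  -- Cauchy-Schwarz
  set G := F.filter (fun A => c' * Y ≤ (NA A X : ℝ)) with hG
  have hbad : ∑ A ∈ F.filter (fun A => ¬ c' * Y ≤ (NA A X : ℝ)),
      (NA A X : ℝ) ≤ c3 / 2 * N * Y := by
    calc _ ≤ ∑ A ∈ F.filter (fun A => ¬ c' * Y ≤ (NA A X : ℝ)), (c' * Y) := by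
          apply sum_le_sum
          intro A hA
          rw [mem_filter, not_le] at hA
          exact hA.2.le
      _ ≤ (2 * N) * (c' * Y) := by
          rw [sum_const, nsmul_eq_mul]
          apply mul_le_mul_of_nonneg_right _ (by positivity)
          refine le_trans ?_ hcardF
          exact_mod_cast card_filter_le _ _
      _ ≤ (2 * N) * (c3 / 4 * Y) := by
          apply mul_le_mul_of_nonneg_left _ (by positivity)
          exact mul_le_mul_of_nonneg_right (min_le_left _ _) hYpos.le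
      _ = _ := by ring
  have hgood : c3 / 2 * N * Y ≤ ∑ A ∈ G, (NA A X : ℝ) := by
    have h1 := Finset.sum_filter_add_sum_filter_not F
      (fun A => c' * Y ≤ (NA A X : ℝ)) (fun A => (NA A X : ℝ))
    rw [← hG] at h1
    linarith
  have hCS : (∑ A ∈ G, (NA A X : ℝ)) ^ 2 ≤ (G.card : ℝ) * ∑ A ∈ G, (NA A X : ℝ) ^ 2 :=
    sq_sum_le_card_mul_sum_sq
  have hG2 : ∑ A ∈ G, (NA A X : ℝ) ^ 2 ≤ C5 * N * Y ^ 2 := by
    refine le_trans ?_ hsecond
    exact sum_le_sum_of_subset_of_nonneg (filter_subset _ _) fun _ _ _ => by positivity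
  have h1 : (c3 / 2 * N * Y) ^ 2 ≤ (G.card : ℝ) * (C5 * N * Y ^ 2) := by
    calc _ ≤ (∑ A ∈ G, (NA A X : ℝ)) ^ 2 := pow_le_pow_left₀ (by positivity) hgood 2
      _ ≤ _ := hCS.trans (mul_le_mul_of_nonneg_left hG2 (Nat.cast_nonneg _))
  have h2 : c3 ^ 2 / (4 * C5) * N ≤ G.card := by
    have h3 : 0 < C5 * N * Y ^ 2 := by positivity
    have h4 : c3 ^ 2 / (4 * C5) * N * (C5 * N * Y ^ 2) =
        (c3 / 2 * N * Y) ^ 2 := by
      field_simp
      ring
    rw [← h4] at h1
    exact le_of_mul_le_mul_right h1 h3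
  have h3 : c' * (H : ℝ) * L ^ (s - 1) ≤ c3 ^ 2 / (4 * C5) * N := by
    have h4 : (H : ℝ) * L ^ (s - 1) ≤ N := by
      rw [hN]
      apply mul_le_mul_of_nonneg_left _ hH0.le
      have h5 : (D : ℝ) ^ s / D = (D : ℝ) ^ (s - 1) := by
        obtain ⟨t, rfl⟩ : ∃ t, s = t + 1 := ⟨s - 1, by omega⟩
        rw [Nat.add_sub_cancel, pow_succ]
        field_simp
      rw [h5]
      exact pow_le_pow_left₀ hL0.le hDL _
    calc c' * (H : ℝ) * L ^ (s - 1) = c' * (H * L ^ (s - 1)) := by ring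
      _ ≤ c3 ^ 2 / (4 * C5) * N := by
        apply mul_le_mul (min_le_right _ _) h4 (by positivity) (by positivity)
  refine (h3.trans h2).trans ?_
  have h4 : G ⊆ ((Icc 1 H).powersetCard s).filter
      (fun A : Finset ℕ => (∀ a ∈ A, ∀ b ∈ A, (a : ℝ) ≤ b + K0 * L) ∧
        c' * (X / L ^ (s + 1)) ≤ (NA A X : ℝ)) := by
    intro A hA
    rw [hG, mem_filter, hF, mem_biUnion] at hA
    obtain ⟨⟨j, _, hA⟩, hA2⟩ := hA
    rw [mem_powersetCard] at hA
    rw [mem_filter, mem_powersetCard]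
    refine ⟨⟨fun a ha => (mem_blk hD1 (hA.1 ha)).1, hA.2⟩, ?_, hA2⟩
    intro a ha b hb
    have h5 := (mem_blk hD1 (hA.1 ha)).2
    have h6 := (mem_blk hD1 (hA.1 hb)).2
    have h7 : a ≤ b + D := by omega
    have h8 : (a : ℝ) ≤ b + D := by exact_mod_cast h7
    linarith
  exact_mod_cast card_le_card h4

end Pool.Agent.MPbca
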