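import Mathlib

set_option autoImplicit false

/-!
Sidorenko's inequality for complete multipartite hypergraphs.
-/

namespace Pool.Agent.MPbca

open Finset

/-- the power mean inequality -/
lemma avg_pow_le {ι : Type*} (S : Finset ι) (f : ι → ℝ) (hf : ∀ i ∈ S, 0 ≤ f i) (k : ℕ)
    (hS : S.Nonempty) : (S.card : ℝ) * ((∑ i ∈ S, f i) / S.card) ^ k ≤ ∑ i ∈ S, f i ^ k := by
  have h0 : (0 : ℝ) < S.card := by exact_mod_cast hS.card_pos
  rcases k with _ | t
  · simp
  · have h1 := pow_sum_div_card_le_sum_pow (s := S) (f := f) hf t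
    refine le_trans (le_of_eq ?_) h1
    rw [div_pow, pow_succ (S.card : ℝ) t]
    field_simp

lemma avg_pow_le_univ {ι : Type*} [Fintype ι] [Nonempty ι] (f : ι → ℝ) (hf : ∀ i, 0 ≤ f i) (k : ℕ) :
    (Fintype.card ι : ℝ) * ((∑ i, f i) / Fintype.card ι) ^ k ≤ ∑ i, f i ^ k :=
  avg_pow_le Finset.univ f (fun i _ => hf i) k Finset.univ_nonempty

/-- Sidorenko's inequality for complete multipartite hypergraphs -/
theorem sidorenko : ∀ (d : ℕ) (X : Fin d → Type) [∀ i, Fintype (X i)] [∀ i, Nonempty (X i)]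
    (k : Fin d → ℕ) (f : (∀ i, X i) → ℝ), (∀ u, 0 ≤ f u) →
    (∏ i, (Fintype.card (X i) : ℝ) ^ k i) *
      ((∑ u, f u) / ∏ i, (Fintype.card (X i) : ℝ)) ^ (∏ i, k i) ≤
      ∑ v : ∀ i, Fin (k i) → X i, ∏ j : ∀ i, Fin (k i), f (fun i => v i (j i)) := by
  classical
  intro d
  induction d with
  | zero =>
    intro X _ _ k f hf
    have e1 : ∑ u : (∀ i : Fin 0, X i), f u = f default := Fintype.sum_unique _
    have e2 : ∑ v : (∀ i : Fin 0, Fin (k i) → X i), ∏ j : (∀ i : Fin 0, Fin (k i)),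
        f (fun i => v i (j i)) = f default := by
      rw [Fintype.sum_unique]
      rw [Fintype.prod_unique]
      congr 1
      funext i
      exact i.elim0
    rw [e1, e2]
    simp only [Finset.univ_eq_empty, Finset.prod_empty, div_one, pow_one, one_mul, le_refl]
  | succ d ih =>
    intro X _ _ k f hf
    set n0 : ℝ := (Fintype.card (X 0) : ℝ) with hn0
    set N' : ℝ := ∏ i : Fin d, (Fintype.card (X i.succ) : ℝ) ^ k i.succ with hN'
    set U' : ℝ := ∏ i : Fin d, (Fintype.card (X i.succ) : ℝ) with hU'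
    set s' : ℕ := ∏ i : Fin d, k i.succ with hs'
    have hn0pos : 0 < n0 := by rw [hn0]; exact_mod_cast Fintype.card_pos
    have hcpos : ∀ i, (0 : ℝ) < (Fintype.card (X i) : ℝ) := fun i => by
      exact_mod_cast Fintype.card_pos
    have hN'pos : 0 < N' := Finset.prod_pos fun i _ => pow_pos (hcpos _) _
    have hU'pos : 0 < U' := Finset.prod_pos fun i _ => hcpos _
    -- rewriting the right side
    have hR : ∑ v : ∀ i, Fin (k i) → X i, ∏ j : ∀ i, Fin (k i), f (fun i => v i (j i)) =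
        ∑ v0 : Fin (k 0) → X 0, ∑ v' : ∀ i : Fin d, Fin (k i.succ) → X i.succ,
          ∏ j' : ∀ i : Fin d, Fin (k i.succ),
            ∏ j0 : Fin (k 0), f (Fin.cons (v0 j0) (fun i => v' i (j' i))) := by
      rw [← Equiv.sum_comp (Fin.consEquiv (fun i => Fin (k i) → X i)), Fintype.sum_prod_type]
      refine Finset.sum_congr rfl fun v0 _ => Finset.sum_congr rfl fun v' _ => ?_
      rw [← Equiv.prod_comp (Fin.consEquiv (fun i => Fin (k i))), Fintype.prod_prod_type,
        Finset.prod_comm]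
      refine Finset.prod_congr rfl fun j' _ => Finset.prod_congr rfl fun j0 _ => ?_
      congr 1
      funext i
      refine Fin.cases ?_ (fun i => ?_) i
      · rfl
      · rfl
    have hT : ∑ u, f u = ∑ u' : ∀ i : Fin d, X i.succ, ∑ t : X 0, f (Fin.cons t u') := by
      rw [← Equiv.sum_comp (Fin.consEquiv X), Fintype.sum_prod_type, Finset.sum_comm]
      rfl
    -- the two averages
    set T : ℝ := ∑ u, f u with hTdef
    have h1 : U' * (T / U') ^ (k 0) ≤
        ∑ v0 : Fin (k 0) → X 0, ∑ u' : ∀ i : Fin d, X i.succ,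
          ∏ j0 : Fin (k 0), f (Fin.cons (v0 j0) u') := by
      rw [Finset.sum_comm]
      have e1 : ∀ u' : ∀ i : Fin d, X i.succ,
          ∑ v0 : Fin (k 0) → X 0, ∏ j0 : Fin (k 0), f (Fin.cons (v0 j0) u') =
          (∑ t : X 0, f (Fin.cons t u')) ^ (k 0) := by
        intro u'
        have := Finset.prod_univ_sum (fun _ : Fin (k 0) => (Finset.univ : Finset (X 0)))
          (fun _ t => f (Fin.cons t u'))
        rw [Finset.prod_const, Finset.card_univ, Fintype.card_fin, Fintype.piFinset_univ] at this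
        exact this.symm
      rw [Finset.sum_congr rfl fun u' _ => e1 u']
      have e2 := avg_pow_le_univ (fun u' : ∀ i : Fin d, X i.succ => ∑ t : X 0, f (Fin.cons t u'))
        (fun u' => Finset.sum_nonneg fun t _ => hf _) (k 0)
      have e3 : (Fintype.card (∀ i : Fin d, X i.succ) : ℝ) = U' := by
        rw [Fintype.card_pi, hU']
        push_cast
        rfl
      rw [e3, ← hT] at e2
      exact e2
    rw [hR]
    have h2 : ∀ v0 : Fin (k 0) → X 0, N' * ((∑ u' : ∀ i : Fin d, X i.succ,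
        ∏ j0 : Fin (k 0), f (Fin.cons (v0 j0) u')) / U') ^ s' ≤
        ∑ v' : ∀ i : Fin d, Fin (k i.succ) → X i.succ, ∏ j' : ∀ i : Fin d, Fin (k i.succ),
            ∏ j0 : Fin (k 0), f (Fin.cons (v0 j0) (fun i => v' i (j' i))) := by
      intro v0
      exact ih (fun i => X i.succ) (fun i => k i.succ)
        (fun u' => ∏ j0 : Fin (k 0), f (Fin.cons (v0 j0) u'))
        (fun u' => Finset.prod_nonneg fun _ _ => hf _)
    refine le_trans ?_ (Finset.sum_le_sum fun v0 _ => h2 v0)
    rw [← Finset.mul_sum]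
    have h3 := avg_pow_le_univ (fun v0 : Fin (k 0) → X 0 => (∑ u' : ∀ i : Fin d, X i.succ,
        ∏ j0 : Fin (k 0), f (Fin.cons (v0 j0) u')) / U')
        (fun v0 => div_nonneg (Finset.sum_nonneg fun u' _ => Finset.prod_nonneg fun _ _ => hf _)
          hU'pos.le) s'
    have e4 : (Fintype.card (Fin (k 0) → X 0) : ℝ) = n0 ^ k 0 := by
      rw [Fintype.card_fun, Fintype.card_fin]
      push_cast
      rfl
    rw [e4, ← Finset.sum_div] at h3
    refine le_trans ?_ (mul_le_mul_of_nonneg_left h3 hN'pos.le)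
    rw [Fin.prod_univ_succ, Fin.prod_univ_succ, Fin.prod_univ_succ, ← hn0, ← hN', ← hU', ← hs']
    have h4 : (T / (n0 * U')) ^ (k 0) ≤ (∑ v0 : Fin (k 0) → X 0, ∑ u' : ∀ i : Fin d, X i.succ,
          ∏ j0 : Fin (k 0), f (Fin.cons (v0 j0) u')) / U' / n0 ^ k 0 := by
      rw [le_div_iff₀ (pow_pos hn0pos _), le_div_iff₀ hU'pos]
      refine le_trans (le_of_eq ?_) h1
      rw [div_pow, div_pow, mul_pow]
      field_simp
    have hT0 : 0 ≤ T := Finset.sum_nonneg fun u _ => hf u
    calc n0 ^ k 0 * N' * (T / (n0 * U')) ^ (k 0 * s') =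
          N' * (n0 ^ k 0 * ((T / (n0 * U')) ^ (k 0)) ^ s') := by rw [pow_mul]; ring
      _ ≤ _ := by
          apply mul_le_mul_of_nonneg_left _ hN'pos.le
          apply mul_le_mul_of_nonneg_left _ (pow_pos hn0pos _).le
          exact pow_le_pow_left₀ (by positivity) h4 _

/-- averaging over one coordinate -/
lemma sum_update {σ : Type} [Fintype σ] [DecidableEq σ] {X : σ → Type} [∀ x, Fintype (X x)]
    (x0 : σ) (G : (∀ x, X x) → ℝ) :
    ∑ w : ∀ x, X x, ∑ z : X x0, G (Function.update w x0 z) =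
      Fintype.card (X x0) * ∑ w : ∀ x, X x, G w := by
  classical
  let e : ((∀ x, X x) × X x0) ≃ ((∀ x, X x) × X x0) :=
    { toFun := fun p => (Function.update p.1 x0 p.2, p.1 x0)
      invFun := fun p => (Function.update p.1 x0 p.2, p.1 x0)
      left_inv := fun p => by simp
      right_inv := fun p => by simp }
  have h1 : ∑ p : (∀ x, X x) × X x0, G (e p).1 = ∑ p : (∀ x, X x) × X x0, G p.1 :=
    Equiv.sum_comp e (fun p => G p.1)
  rw [Fintype.sum_prod_type, Fintype.sum_prod_type] at h1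
  refine h1.trans ?_
  simp only [Finset.sum_const, Finset.card_univ, nsmul_eq_mul]
  rw [← Finset.mul_sum]

end Pool.Agent.MPbca
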