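import Pool.Agent.Lib.MP_bca3e5_nt.Ded
import Pool.Agent.Lib.MP_bca3e5_nt.Sid

set_option autoImplicit false

/-!
Sumsets: degenerate configurations and the moment of the singular factor.
-/

namespace Pool.Agent.MPbca

open Finset

variable {d : ℕ} {k : Fin d → ℕ} {h : Fin d → ℕ}

/-- the choices of all the summands -/
abbrev WW (k h : Fin d → ℕ) : Type := ∀ x : (Σ i : Fin d, Fin (k i)), Fin (h x.1)

/-- the sum attached to `j` -/
def sj (w : WW k h) (j : ∀ i, Fin (k i)) : ℕ := ∑ i, ((w ⟨i, j i⟩ : ℕ) + 1)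

/-- the set of the sums -/
def AS (t : ℕ) (w : WW k h) : Finset ℕ := Finset.univ.image (fun j : ∀ i, Fin (k i) => t + sj w j)

lemma card_WW (k h : Fin d → ℕ) : Fintype.card (WW k h) = ∏ i, h i ^ k i := by
  rw [Fintype.card_pi]
  simp only [Fintype.card_fin]
  rw [Fintype.prod_sigma]
  apply Finset.prod_congr rfl
  intro i _
  simp

lemma sj_update_self (w : WW k h) (j : ∀ i, Fin (k i)) (i0 : Fin d) (z : Fin (h i0)) :
    sj (Function.update w ⟨i0, j i0⟩ z) j + w ⟨i0, j i0⟩ = sj w j + z := by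
  classical
  unfold sj
  rw [← Finset.add_sum_erase _ _ (Finset.mem_univ i0),
    ← Finset.add_sum_erase (Finset.univ) (fun i => ((w ⟨i, j i⟩ : ℕ) + 1)) (Finset.mem_univ i0)]
  have h1 : ∑ i ∈ Finset.univ.erase i0, (((Function.update w ⟨i0, j i0⟩ z) ⟨i, j i⟩ : ℕ) + 1) =
      ∑ i ∈ Finset.univ.erase i0, ((w ⟨i, j i⟩ : ℕ) + 1) := by
    apply Finset.sum_congr rfl
    intro i hi
    rw [Finset.mem_erase] at hi
    rw [Function.update_of_ne]
    intro hc
    exact hi.1 (congrArg Sigma.fst hc)
  rw [h1, Function.update_self]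
  ring

lemma sj_update_ne (w : WW k h) (j j' : ∀ i, Fin (k i)) (i0 : Fin d) (z : Fin (h i0))
    (hne : j i0 ≠ j' i0) : sj (Function.update w ⟨i0, j i0⟩ z) j' = sj w j' := by
  classical
  unfold sj
  apply Finset.sum_congr rfl
  intro i _
  rw [Function.update_of_ne]
  intro hc
  have h1 : i = i0 := congrArg Sigma.fst hc
  subst h1
  have h2 : j' i = j i := by simpa using hc
  exact hne h2.symm

lemma sj_le (w : WW k h) (j : ∀ i, Fin (k i)) : sj w j ≤ ∑ i, h i := by
  unfold sj
  apply Finset.sum_le_sum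
  intro i _
  have := (w ⟨i, j i⟩).isLt
  exact this

/-- the number of `w` with a given coincidence -/
lemma card_coin (j j' : ∀ i, Fin (k i)) (i0 : Fin d) (hne : j i0 ≠ j' i0) :
    (((Finset.univ : Finset (WW k h)).filter (fun w => sj w j = sj w j')).card : ℝ) * h i0 ≤
      Fintype.card (WW k h) := by
  classical
  have h1 := sum_update (X := fun x : (Σ i : Fin d, Fin (k i)) => Fin (h x.1)) ⟨i0, j i0⟩
    (fun w => if sj w j = sj w j' then (1 : ℝ) else 0)
  rw [Fintype.card_fin] at h1
  have h2 : ∑ w : WW k h, (if sj w j = sj w j' then (1 : ℝ) else 0) =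
      ((Finset.univ : Finset (WW k h)).filter (fun w => sj w j = sj w j')).card := by
    rw [← Finset.sum_filter, Finset.sum_const, nsmul_eq_mul, mul_one]
  rw [h2] at h1
  rw [mul_comm, ← h1]
  calc _ ≤ ∑ w : WW k h, (1 : ℝ) := by
        apply Finset.sum_le_sum
        intro w _
        rw [← Finset.sum_filter, Finset.sum_const, nsmul_eq_mul, mul_one]
        have : ((Finset.univ : Finset (Fin (h i0))).filter (fun z =>
            sj (Function.update w ⟨i0, j i0⟩ z) j = sj (Function.update w ⟨i0, j i0⟩ z) j')).card ≤ 1 := by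
          rw [Finset.card_le_one]
          intro a ha b hb
          rw [Finset.mem_filter] at ha hb
          have e1 := sj_update_self w j i0 a
          have e2 := sj_update_self w j i0 b
          have e3 := sj_update_ne w j j' i0 a hne
          have e4 := sj_update_ne w j j' i0 b hne
          have e5 := ha.2
          have e6 := hb.2
          apply Fin.ext
          omega
        exact_mod_cast this
    _ = _ := by rw [Finset.sum_const, nsmul_eq_mul, mul_one, Finset.card_univ]

/-- the number of degenerate `w` -/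
lemma card_degen {Lb : ℝ} (hL : 0 < Lb) (hh : ∀ i, Lb ≤ (h i : ℝ)) :
    (((Finset.univ : Finset (WW k h)).filter (fun w => ¬ Function.Injective (sj w))).card : ℝ) ≤
      ((∏ i, k i : ℕ) : ℝ) ^ 2 * (Fintype.card (WW k h) / Lb) := by
  classical
  have h1 : (Finset.univ : Finset (WW k h)).filter (fun w => ¬ Function.Injective (sj w)) ⊆
      ((Finset.univ : Finset ((∀ i, Fin (k i)) × (∀ i, Fin (k i)))).filter
        (fun y => y.1 ≠ y.2)).biUnion
        (fun y => (Finset.univ : Finset (WW k h)).filter (fun w => sj w y.1 = sj w y.2)) := by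
    intro w hw
    rw [Finset.mem_filter] at hw
    have h2 := hw.2
    unfold Function.Injective at h2
    push Not at h2
    obtain ⟨j, j', h3, h4⟩ := h2
    rw [Finset.mem_biUnion]
    exact ⟨(j, j'), by simp [h4], by simp [h3]⟩
  have h2 : ((((Finset.univ : Finset ((∀ i, Fin (k i)) × (∀ i, Fin (k i)))).filter
        (fun y => y.1 ≠ y.2)).biUnion
        (fun y => (Finset.univ : Finset (WW k h)).filter (fun w => sj w y.1 = sj w y.2))).card : ℝ) ≤
      ∑ y ∈ (Finset.univ : Finset ((∀ i, Fin (k i)) × (∀ i, Fin (k i)))).filter (fun y => y.1 ≠ y.2),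
        (Fintype.card (WW k h) / Lb : ℝ) := by
    refine le_trans (Nat.cast_le.2 Finset.card_biUnion_le) ?_
    push_cast
    apply Finset.sum_le_sum
    intro y hy
    rw [Finset.mem_filter] at hy
    obtain ⟨i0, hi0⟩ := Function.ne_iff.1 hy.2
    have h3 := card_coin (h := h) y.1 y.2 i0 hi0
    rw [le_div_iff₀ hL]
    refine le_trans ?_ h3
    exact mul_le_mul_of_nonneg_left (hh i0) (Nat.cast_nonneg _)
  refine le_trans (by exact_mod_cast Finset.card_le_card h1) (h2.trans ?_)
  rw [Finset.sum_const, nsmul_eq_mul]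
  apply mul_le_mul_of_nonneg_right _ (div_nonneg (Nat.cast_nonneg _) hL.le)
  have h4 : ((Finset.univ : Finset ((∀ i, Fin (k i)) × (∀ i, Fin (k i)))).filter
      (fun y => y.1 ≠ y.2)).card ≤ (∏ i, k i) ^ 2 := by
    refine (Finset.card_filter_le _ _).trans ?_
    rw [Finset.card_univ, Fintype.card_prod, Fintype.card_pi]
    simp only [Fintype.card_fin]
    rw [sq]
  exact_mod_cast h4

/-- sums over an injective family of integers -/
lemma sum_natAbs_le {Z : Type*} [Fintype Z] (F : Z → ℤ) (hF : Function.Injective F) (M : ℕ)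
    (hM : ∀ z, (F z).natAbs ≤ M) (φ : ℕ → ℝ) (hφ : ∀ m, 0 ≤ φ m) :
    ∑ z, φ (F z).natAbs ≤ 2 * ∑ m ∈ Finset.range (M + 1), φ m := by
  classical
  rw [← Finset.sum_filter_add_sum_filter_not Finset.univ (fun z => 0 ≤ F z)]
  have h1 : ∑ z ∈ Finset.univ.filter (fun z => 0 ≤ F z), φ (F z).natAbs ≤
      ∑ m ∈ Finset.range (M + 1), φ m := by
    rw [← Finset.sum_image (s := Finset.univ.filter (fun z => 0 ≤ F z)) (g := fun z => (F z).natAbs)
      (f := φ)]
    · apply Finset.sum_le_sum_of_subset_of_nonneg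
      · intro m hm
        rw [Finset.mem_image] at hm
        obtain ⟨z, _, rfl⟩ := hm
        rw [Finset.mem_range]
        have := hM z
        omega
      · intro m _ _; exact hφ m
    · intro z hz z' hz' he
      simp only [Finset.coe_filter, Finset.mem_univ, true_and, Set.mem_ofPred_eq] at hz hz'
      simp only at he
      apply hF
      omega
  have h2 : ∑ z ∈ Finset.univ.filter (fun z => ¬ 0 ≤ F z), φ (F z).natAbs ≤
      ∑ m ∈ Finset.range (M + 1), φ m := by
    rw [← Finset.sum_image (s := Finset.univ.filter (fun z => ¬ 0 ≤ F z))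
      (g := fun z => (F z).natAbs) (f := φ)]
    · apply Finset.sum_le_sum_of_subset_of_nonneg
      · intro m hm
        rw [Finset.mem_image] at hm
        obtain ⟨z, _, rfl⟩ := hm
        rw [Finset.mem_range]
        have := hM z
        omega
      · intro m _ _; exact hφ m
    · intro z hz z' hz' he
      simp only [Finset.coe_filter, Finset.mem_univ, true_and, Set.mem_ofPred_eq] at hz hz'
      simp only at he
      apply hF
      omega
  linarith

/-- the difference of two sums -/
lemma diff_le (w : WW k h) (j j' : ∀ i, Fin (k i)) (i0 : Fin d)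
    (hmax : ∀ i, j i ≠ j' i → h i ≤ h i0) : ((sj w j : ℤ) - sj w j').natAbs ≤ d * h i0 := by
  classical
  have h1 : (sj w j : ℤ) - sj w j' = ∑ i, (((w ⟨i, j i⟩ : ℕ) : ℤ) - ((w ⟨i, j' i⟩ : ℕ) : ℤ)) := by
    unfold sj
    push_cast
    rw [← Finset.sum_sub_distrib]
    apply Finset.sum_congr rfl
    intro i _
    ring
  have h2 : |(sj w j : ℤ) - sj w j'| ≤ ∑ _i : Fin d, (h i0 : ℤ) := by
    rw [h1]
    refine (Finset.abs_sum_le_sum_abs _ _).trans (Finset.sum_le_sum fun i _ => ?_)
    by_cases hij : j i = j' i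
    · rw [hij, sub_self, abs_zero]
      exact Int.natCast_nonneg _
    · have e1 := (w ⟨i, j i⟩).isLt
      have e2 := (w ⟨i, j' i⟩).isLt
      have e3 := hmax i hij
      simp only at e1 e2
      rw [abs_le]
      constructor <;> omega
  rw [Finset.sum_const, Finset.card_univ, Fintype.card_fin, nsmul_eq_mul] at h2
  have h3 : (((sj w j : ℤ) - sj w j').natAbs : ℤ) ≤ ((d * h i0 : ℕ) : ℤ) := by
    rw [Int.natCast_natAbs]
    push_cast
    exact h2
  exact_mod_cast h3

/-- the moment for a difference -/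
lemma moment_diff {κ : ℝ} (hκ : 0 ≤ κ) (hpos : ∀ i, 1 ≤ h i) (j j' : ∀ i, Fin (k i)) (hne : j ≠ j') :
    ∑ w : WW k h, Real.exp (κ * hh ((sj w j : ℤ) - sj w j').natAbs) ≤
      2 * (1 + Real.exp (κ * Real.exp κ) * d) * Fintype.card (WW k h) := by
  classical
  set C0 := Real.exp (κ * Real.exp κ) with hC0
  have hne' : ((Finset.univ : Finset (Fin d)).filter (fun i => j i ≠ j' i)).Nonempty := by
    obtain ⟨i, hi⟩ := Function.ne_iff.1 hne
    exact ⟨i, by simp [hi]⟩
  obtain ⟨i0, hi0, hmax⟩ := Finset.exists_max_image _ h hne'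
  rw [Finset.mem_filter] at hi0
  have hmax' : ∀ i, j i ≠ j' i → h i ≤ h i0 := fun i hi => hmax i (by simp [hi])
  have h0 : (0 : ℝ) < h i0 := by exact_mod_cast hpos i0
  have h1 := sum_update (X := fun x : (Σ i : Fin d, Fin (k i)) => Fin (h x.1)) ⟨i0, j i0⟩
    (fun w => Real.exp (κ * hh ((sj w j : ℤ) - sj w j').natAbs))
  rw [Fintype.card_fin] at h1
  have h2 : ∀ w : WW k h, ∑ z : Fin (h i0), Real.exp (κ * hh
      ((sj (Function.update w ⟨i0, j i0⟩ z) j : ℤ) - sj (Function.update w ⟨i0, j i0⟩ z) j').natAbs) ≤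
      2 * (1 + C0 * d) * h i0 := by
    intro w
    have e1 := sum_natAbs_le (fun z : Fin (h i0) => (sj (Function.update w ⟨i0, j i0⟩ z) j : ℤ) -
      sj (Function.update w ⟨i0, j i0⟩ z) j') (by
        intro a b hab
        simp only at hab
        have e1 := sj_update_self w j i0 a
        have e2 := sj_update_self w j i0 b
        have e3 := sj_update_ne w j j' i0 a hi0.2
        have e4 := sj_update_ne w j j' i0 b hi0.2
        apply Fin.ext
        omega) (d * h i0) (fun z => diff_le _ j j' i0 hmax')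
        (fun m => Real.exp (κ * hh m)) (fun m => (Real.exp_pos _).le)
    refine e1.trans ?_
    have e2 : ∑ m ∈ Finset.range (d * h i0 + 1), Real.exp (κ * hh m) =
        1 + ∑ m ∈ Finset.Icc 1 (d * h i0), Real.exp (κ * hh m) := by
      rw [Finset.sum_range_succ']
      have e3 : Real.exp (κ * hh 0) = 1 := by
        unfold hh
        simp
      rw [e3, add_comm]
      congr 1
      rw [Finset.range_eq_Ico, Finset.sum_Ico_add' (fun m => Real.exp (κ * hh m)) 0 (d * h i0) 1]
      rfl
    rw [e2]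
    have e3 := sum_exp_hh hκ (d * h i0)
    rw [← hC0] at e3
    push_cast at e3
    have e4 : (1 : ℝ) ≤ h i0 := by exact_mod_cast hpos i0
    nlinarith
  have h3 : ∑ w : WW k h, ∑ z : Fin (h i0), Real.exp (κ * hh
      ((sj (Function.update w ⟨i0, j i0⟩ z) j : ℤ) - sj (Function.update w ⟨i0, j i0⟩ z) j').natAbs) ≤
      ∑ w : WW k h, 2 * (1 + C0 * d) * (h i0 : ℝ) := Finset.sum_le_sum fun w _ => h2 w
  rw [Finset.sum_const, nsmul_eq_mul, Finset.card_univ] at h3
  have h4 : (h i0 : ℝ) * ∑ w : WW k h, Real.exp (κ * hh ((sj w j : ℤ) - sj w j').natAbs) ≤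
      (h i0 : ℝ) * (2 * (1 + C0 * d) * Fintype.card (WW k h)) := by
    rw [← h1]
    refine h3.trans (le_of_eq ?_)
    ring
  exact le_of_mul_le_mul_left h4 h0

/-- the moment for one form -/
lemma moment_one {κ : ℝ} (hκ : 0 ≤ κ) (H : ℕ) (hH : ∀ i, h i ≤ H) (j : ∀ i, Fin (k i)) (w : WW k h) :
    ∑ t ∈ Finset.Icc 1 H, Real.exp (κ * hh (t + sj w j)) ≤
      Real.exp (κ * Real.exp κ) * ((d + 1) * H) := by
  classical
  have h1 : ∑ t ∈ Finset.Icc 1 H, Real.exp (κ * hh (t + sj w j)) ≤
      ∑ m ∈ Finset.Icc 1 (H + sj w j), Real.exp (κ * hh m) := by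
    rw [← Finset.sum_image (s := Finset.Icc 1 H) (g := fun t => t + sj w j)
      (f := fun m => Real.exp (κ * hh m)) (fun a _ b _ hab => by simpa using hab)]
    apply Finset.sum_le_sum_of_subset_of_nonneg
    · intro m hm
      rw [Finset.mem_image] at hm
      obtain ⟨t, ht, rfl⟩ := hm
      rw [Finset.mem_Icc] at ht ⊢
      omega
    · intro _ _ _; exact (Real.exp_pos _).le
  refine h1.trans ((sum_exp_hh hκ _).trans ?_)
  apply mul_le_mul_of_nonneg_left _ (Real.exp_pos _).le
  have h2 : sj w j ≤ d * H := by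
    refine (sj_le w j).trans ?_
    refine (Finset.sum_le_sum fun i _ => hH i).trans ?_
    simp
  have h3 : H + sj w j ≤ (d + 1) * H := by
    rw [Nat.succ_mul]
    omega
  exact_mod_cast h3

/-- the moment of the singular factor over the sumsets -/
theorem momentSum {R : ℝ} (hR : 0 ≤ R) (k : Fin d → ℕ) (hk : ∀ i, 1 ≤ k i) : ∃ C : ℝ, 0 < C ∧
    ∀ (h : Fin d → ℕ) (H : ℕ), (∀ i, 1 ≤ h i) → (∀ i, h i ≤ H) →
    ∑ t ∈ Finset.Icc 1 H, ∑ w ∈ (Finset.univ : Finset (WW k h)).filter
      (fun w => Function.Injective (sj w)),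
      Real.exp (R * ∑ p ∈ Bad (AS t w), (1 : ℝ) / p) ≤ C * (H * Fintype.card (WW k h)) := by
  classical
  set s : ℕ := ∏ i, k i with hs
  have hspos : 1 ≤ s := Nat.one_le_iff_ne_zero.2 (Finset.prod_ne_zero_iff.2 fun i _ => by
    have := hk i; omega)
  set κ : ℝ := R * (s ^ 2 : ℕ) with hκ
  have hκ0 : 0 ≤ κ := by positivity
  set C0 : ℝ := Real.exp (κ * Real.exp κ) with hC0
  have hC0pos : 0 < C0 := Real.exp_pos _
  refine ⟨s * (C0 * (d + 1)) + (s : ℝ) ^ 2 * (2 * (1 + C0 * d)), by positivity, fun h H hpos hH => ?_⟩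
  -- pointwise
  have h1 : ∀ t ∈ Finset.Icc 1 H, ∀ w ∈ (Finset.univ : Finset (WW k h)).filter
      (fun w => Function.Injective (sj w)), Real.exp (R * ∑ p ∈ Bad (AS t w), (1 : ℝ) / p) ≤
      ∑ j : ∀ i, Fin (k i), Real.exp (κ * hh (t + sj w j)) +
      ∑ y ∈ (Finset.univ : Finset ((∀ i, Fin (k i)) × (∀ i, Fin (k i)))).filter (fun y => y.1 ≠ y.2),
        Real.exp (κ * hh ((sj w y.1 : ℤ) - sj w y.2).natAbs) := by
    intro t _ w hw
    rw [Finset.mem_filter] at hw
    have hinj : Function.Injective (fun j : ∀ i, Fin (k i) => t + sj w j) := by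
      intro a b hab
      exact hw.2 (by simpa using hab)
    have hcardA : (AS t w).card = s := by
      unfold AS
      rw [Finset.card_image_of_injective _ hinj, Finset.card_univ, Fintype.card_pi]
      simp only [Fintype.card_fin]
      rfl
    have hne : (AS t w ×ˢ AS t w).Nonempty := by
      have : (AS t w).Nonempty := by
        rw [← Finset.card_pos, hcardA]; omega
      exact this.product this
    have h2 := exp_sum_le (AS t w ×ˢ AS t w) hne (fun x => hh (vv x)) hR
    rw [card_product, hcardA] at h2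
    have h3 : Real.exp (R * ∑ p ∈ Bad (AS t w), (1 : ℝ) / p) ≤
        ∑ x ∈ AS t w ×ˢ AS t w, Real.exp (κ * hh (vv x)) := by
      refine le_trans ?_ (h2.trans (le_of_eq ?_))
      · apply Real.exp_le_exp.2
        exact mul_le_mul_of_nonneg_left (sum_Bad_le _) hR
      · apply sum_congr rfl
        intro x _
        rw [hκ]
        congr 2
        push_cast
        ring
    refine h3.trans (le_of_eq ?_)
    have h4 : ∑ x ∈ AS t w ×ˢ AS t w, Real.exp (κ * hh (vv x)) =
        ∑ y : (∀ i, Fin (k i)) × (∀ i, Fin (k i)), Real.exp (κ * hh (vv (t + sj w y.1, t + sj w y.2))) := by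
      rw [Finset.sum_product, Fintype.sum_prod_type]
      unfold AS
      rw [Finset.sum_image (fun a _ b _ hab => hinj hab)]
      apply Finset.sum_congr rfl
      intro j _
      rw [Finset.sum_image (fun a _ b _ hab => hinj hab)]
    rw [h4, ← Finset.sum_filter_add_sum_filter_not Finset.univ
      (fun y : (∀ i, Fin (k i)) × (∀ i, Fin (k i)) => y.1 = y.2)]
    congr 1
    · rw [← Finset.sum_image (s := (Finset.univ : Finset (∀ i, Fin (k i)))) (g := fun j => (j, j))
        (f := fun y : (∀ i, Fin (k i)) × (∀ i, Fin (k i)) =>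
          Real.exp (κ * hh (t + sj w y.1))) (fun a _ b _ hab => (Prod.mk.inj hab).1)]
      have e1 : (Finset.univ : Finset (∀ i, Fin (k i))).image (fun j => (j, j)) =
          Finset.univ.filter (fun y : (∀ i, Fin (k i)) × (∀ i, Fin (k i)) => y.1 = y.2) := by
        ext y
        simp only [Finset.mem_image, Finset.mem_univ, true_and, Finset.mem_filter]
        constructor
        · rintro ⟨j, rfl⟩; rfl
        · intro hy; exact ⟨y.1, Prod.ext rfl hy⟩
      rw [e1]
      apply Finset.sum_congr rfl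
      intro y hy
      rw [Finset.mem_filter] at hy
      unfold vv
      simp only [hy.2, if_true]
    · apply Finset.sum_congr rfl
      intro y hy
      rw [Finset.mem_filter] at hy
      have hne2 : t + sj w y.1 ≠ t + sj w y.2 := fun hc => hy.2 (hinj hc)
      unfold vv
      simp only [hne2, if_false]
      congr 4
      push_cast
      ring
  refine (Finset.sum_le_sum fun t ht => Finset.sum_le_sum (h1 t ht)).trans ?_
  -- drop the condition
  have h2 : ∀ t ∈ Finset.Icc 1 H, ∑ w ∈ (Finset.univ : Finset (WW k h)).filter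
      (fun w => Function.Injective (sj w)), (∑ j : ∀ i, Fin (k i), Real.exp (κ * hh (t + sj w j)) +
      ∑ y ∈ (Finset.univ : Finset ((∀ i, Fin (k i)) × (∀ i, Fin (k i)))).filter (fun y => y.1 ≠ y.2),
        Real.exp (κ * hh ((sj w y.1 : ℤ) - sj w y.2).natAbs)) ≤
      ∑ w : WW k h, (∑ j : ∀ i, Fin (k i), Real.exp (κ * hh (t + sj w j)) +
      ∑ y ∈ (Finset.univ : Finset ((∀ i, Fin (k i)) × (∀ i, Fin (k i)))).filter (fun y => y.1 ≠ y.2),
        Real.exp (κ * hh ((sj w y.1 : ℤ) - sj w y.2).natAbs)) := by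
    intro t _
    apply Finset.sum_le_sum_of_subset_of_nonneg (Finset.filter_subset _ _)
    intro _ _ _
    positivity
  refine (Finset.sum_le_sum h2).trans ?_
  simp_rw [Finset.sum_add_distrib]
  have hcardJ : (Fintype.card (∀ i, Fin (k i)) : ℝ) = s := by
    rw [Fintype.card_pi]
    simp only [Fintype.card_fin]
    rfl
  have h3 : ∑ t ∈ Finset.Icc 1 H, ∑ w : WW k h, ∑ j : ∀ i, Fin (k i), Real.exp (κ * hh (t + sj w j)) ≤
      s * (C0 * (d + 1)) * (H * Fintype.card (WW k h)) := by
    rw [Finset.sum_comm]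
    have e1 : ∀ w : WW k h, ∑ t ∈ Finset.Icc 1 H, ∑ j : ∀ i, Fin (k i),
        Real.exp (κ * hh (t + sj w j)) ≤ s * (C0 * ((d + 1) * H)) := by
      intro w
      rw [Finset.sum_comm]
      refine (Finset.sum_le_sum fun j _ => moment_one hκ0 H hH j w).trans ?_
      rw [Finset.sum_const, Finset.card_univ, nsmul_eq_mul, hcardJ]
    refine (Finset.sum_le_sum fun w _ => e1 w).trans ?_
    rw [Finset.sum_const, Finset.card_univ, nsmul_eq_mul]
    apply le_of_eq
    ring
  have h4 : ∑ _t ∈ Finset.Icc 1 H, ∑ w : WW k h, ∑ y ∈ (Finset.univ :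
      Finset ((∀ i, Fin (k i)) × (∀ i, Fin (k i)))).filter (fun y => y.1 ≠ y.2),
        Real.exp (κ * hh ((sj w y.1 : ℤ) - sj w y.2).natAbs) ≤
      (s : ℝ) ^ 2 * (2 * (1 + C0 * d)) * (H * Fintype.card (WW k h)) := by
    rw [Finset.sum_const, Nat.card_Icc, Nat.add_sub_cancel, nsmul_eq_mul, Finset.sum_comm]
    have e1 : ∑ y ∈ (Finset.univ : Finset ((∀ i, Fin (k i)) × (∀ i, Fin (k i)))).filter
        (fun y => y.1 ≠ y.2), ∑ w : WW k h, Real.exp (κ * hh ((sj w y.1 : ℤ) - sj w y.2).natAbs) ≤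
        (s : ℝ) ^ 2 * (2 * (1 + C0 * d) * Fintype.card (WW k h)) := by
      refine (Finset.sum_le_sum fun y hy => moment_diff hκ0 hpos y.1 y.2
        (Finset.mem_filter.1 hy).2).trans ?_
      rw [Finset.sum_const, nsmul_eq_mul, ← hC0]
      apply mul_le_mul_of_nonneg_right _ (by positivity)
      have e2 : ((Finset.univ : Finset ((∀ i, Fin (k i)) × (∀ i, Fin (k i)))).filter
          (fun y => y.1 ≠ y.2)).card ≤ s ^ 2 := by
        refine (Finset.card_filter_le _ _).trans ?_
        rw [Finset.card_univ, Fintype.card_prod, Fintype.card_pi]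
        simp only [Fintype.card_fin]
        rw [sq]
      exact_mod_cast e2
    calc _ ≤ (H : ℝ) * ((s : ℝ) ^ 2 * (2 * (1 + C0 * d) * Fintype.card (WW k h))) :=
          mul_le_mul_of_nonneg_left e1 (Nat.cast_nonneg _)
      _ = _ := by ring
  calc _ ≤ s * (C0 * (d + 1)) * (H * Fintype.card (WW k h)) +
      (s : ℝ) ^ 2 * (2 * (1 + C0 * d)) * (H * Fintype.card (WW k h)) := add_le_add h3 h4
    _ = _ := by ring

end Pool.Agent.MPbca
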