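import Pool.Agent.Lib.MP_bca3e5_nt.Sum1

set_option autoImplicit false

/-!
Sumsets: the first moment.
-/

namespace Pool.Agent.MPbca

open Finset

variable {d : ℕ}

/-- the upper bound on average over `a ≤ M` -/
lemma cnt_upper : ∃ C : ℝ, 0 < C ∧ ∃ X0 : ℕ, ∀ X : ℕ, X0 ≤ X → ∀ M : ℕ,
    ∑ n ∈ Px X, (cnt n M : ℝ) ≤ C * (X * M / (Real.log X) ^ 2) := by
  classical
  obtain ⟨C3, hC3, X3, hX3⟩ := NA_upper 1
  obtain ⟨C4, hC4, hmom⟩ := moment (s := 1) le_rfl (R := (1 + 1 : ℕ)) (by positivity)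
  refine ⟨C3 * C4, by positivity, X3, fun X hX M => ?_⟩
  rcases Nat.eq_zero_or_pos M with h0 | hM
  · subst h0
    have : ∀ n ∈ Px X, (cnt n 0 : ℝ) = 0 := by
      intro n _
      unfold cnt
      simp
    rw [Finset.sum_congr rfl this]
    simp
  have h1 : ∑ n ∈ Px X, (cnt n M : ℝ) = ∑ A ∈ (Icc 1 M).powersetCard 1, (NA A X : ℝ) := by
    have := sum_NA 1 M X
    simp only [Nat.choose_one_right] at this
    exact_mod_cast this.symm
  rw [h1]
  have h2 : ∀ A ∈ (Icc 1 M).powersetCard 1, (NA A X : ℝ) ≤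
      C3 * (X / (Real.log X) ^ (1 + 1)) * Real.exp ((1 + 1 : ℕ) * ∑ p ∈ Bad A, (1 : ℝ) / p) := by
    intro A hA
    rw [mem_powersetCard] at hA
    exact hX3 X hX A hA.2 (fun a ha => (mem_Icc.1 (hA.1 ha)).1)
  refine (sum_le_sum h2).trans ?_
  rw [← mul_sum]
  have h3 : 0 ≤ C3 * ((X : ℝ) / (Real.log X) ^ (1 + 1)) := by positivity
  refine (mul_le_mul_of_nonneg_left (hmom M hM) h3).trans (le_of_eq ?_)
  rw [pow_one]
  ring

lemma NA_AS {k h : Fin d → ℕ} (t : ℕ) (w : WW k h) (X : ℕ) : (NA (AS t w) X : ℝ) =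
    ∑ n ∈ Px X, ∏ j : ∀ i, Fin (k i), (if ((t + sj w j) * n + 1).Prime then (1 : ℝ) else 0) := by
  classical
  have h1 : ∀ n ∈ Px X, ∏ j : ∀ i, Fin (k i), (if ((t + sj w j) * n + 1).Prime then (1 : ℝ) else 0) =
      if ∀ a ∈ AS t w, (a * n + 1).Prime then (1 : ℝ) else 0 := by
    intro n _
    rw [Finset.prod_ite_zero]
    simp only [Finset.prod_const_one]
    congr 1
    rw [eq_iff_iff]
    unfold AS
    constructor
    · intro h2 a ha
      rw [Finset.mem_image] at ha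
      obtain ⟨j, _, rfl⟩ := ha
      exact h2 j (Finset.mem_univ j)
    · intro h2 j _
      exact h2 _ (Finset.mem_image_of_mem _ (Finset.mem_univ j))
  rw [Finset.sum_congr rfl h1, ← Finset.sum_filter, Finset.sum_const, nsmul_eq_mul, mul_one]
  unfold NA Px
  rw [Finset.filter_filter]

/-- for one shift -/
lemma shift_ge (n H σ : ℕ) : (cnt n H : ℝ) - cnt n σ ≤
    ∑ t ∈ Icc 1 H, (if ((t + σ) * n + 1).Prime then (1 : ℝ) else 0) := by
  classical
  rw [← Finset.sum_filter, Finset.sum_const, nsmul_eq_mul, mul_one]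
  have h1 : cnt n H ≤ cnt n σ + ((Icc 1 H).filter (fun t => ((t + σ) * n + 1).Prime)).card := by
    unfold cnt
    have h2 : (Icc 1 H).filter (fun a => (a * n + 1).Prime) ⊆
        (Icc 1 σ).filter (fun a => (a * n + 1).Prime) ∪
        ((Icc 1 H).filter (fun t => ((t + σ) * n + 1).Prime)).image (fun t => t + σ) := by
      intro a ha
      rw [mem_filter, mem_Icc] at ha
      rw [mem_union]
      by_cases hσ : a ≤ σ
      · left
        rw [mem_filter, mem_Icc]
        exact ⟨⟨ha.1.1, hσ⟩, ha.2⟩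
      · right
        rw [mem_image]
        refine ⟨a - σ, ?_, by omega⟩
        rw [mem_filter, mem_Icc]
        have h3 : a - σ + σ = a := by omega
        rw [h3]
        exact ⟨⟨by omega, by omega⟩, ha.2⟩
    refine (card_le_card h2).trans ((card_union_le _ _).trans ?_)
    exact Nat.add_le_add_left card_image_le _
  have h2 : (cnt n H : ℝ) ≤ cnt n σ + ((Icc 1 H).filter (fun t => ((t + σ) * n + 1).Prime)).card := by
    exact_mod_cast h1
  linarith

/-- the size of the sub-box -/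
lemma card_subbox (h m : Fin d → ℕ) (hm : ∀ i, m i ≤ h i) :
    ((Finset.univ : Finset (∀ i, Fin (h i))).filter (fun u => ∀ i, (u i : ℕ) + 1 ≤ m i)).card =
      ∏ i, m i := by
  classical
  have h1 : (Finset.univ : Finset (∀ i, Fin (h i))).filter (fun u => ∀ i, (u i : ℕ) + 1 ≤ m i) =
      Fintype.piFinset (fun i => (Finset.univ : Finset (Fin (h i))).filter
        (fun z : Fin (h i) => (z : ℕ) + 1 ≤ m i)) := by
    ext u
    simp [Fintype.mem_piFinset]
  rw [h1, Fintype.card_piFinset]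
  apply Finset.prod_congr rfl
  intro i _
  have h2 : ((Finset.univ : Finset (Fin (h i))).filter
      (fun z : Fin (h i) => (z : ℕ) + 1 ≤ m i)).card =
      ((Finset.range (m i))).card := by
    rw [← Finset.card_map Fin.valEmbedding]
    congr 1
    ext a
    simp only [Finset.mem_map, Finset.mem_filter, Finset.mem_univ, true_and, Fin.valEmbedding_apply,
      Finset.mem_range]
    constructor
    · rintro ⟨z, hz, rfl⟩; omega
    · intro ha
      exact ⟨⟨a, lt_of_lt_of_le ha (hm i)⟩, by simpa using ha, rfl⟩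
  rw [h2, Finset.card_range]

/-- Sidorenko for one `n` and `t` -/
lemma sid_one {k h : Fin d → ℕ} (hpos : ∀ i, 1 ≤ h i) (t n : ℕ) :
    (Fintype.card (WW k h) : ℝ) * ((∑ u : ∀ i, Fin (h i),
      (if ((t + ∑ i, ((u i : ℕ) + 1)) * n + 1).Prime then (1 : ℝ) else 0)) /
      ∏ i, (h i : ℝ)) ^ (∏ i, k i) ≤
    ∑ w : WW k h, ∏ j : ∀ i, Fin (k i), (if ((t + sj w j) * n + 1).Prime then (1 : ℝ) else 0) := by
  classical
  have hne : ∀ i, Nonempty (Fin (h i)) := fun i => ⟨⟨0, hpos i⟩⟩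
  have h1 := sidorenko d (fun i => Fin (h i)) k
    (fun u => if ((t + ∑ i, ((u i : ℕ) + 1)) * n + 1).Prime then (1 : ℝ) else 0)
    (fun u => by positivity)
  simp only [Fintype.card_fin] at h1
  rw [card_WW]
  push_cast
  refine h1.trans (le_of_eq ?_)
  rw [← Equiv.sum_comp (Equiv.piCurry (fun (i : Fin d) (_ : Fin (k i)) => Fin (h i)))]
  rfl

/-- the first moment over the sumsets -/
theorem first_sum {c1 : ℝ} (hc1 : 0 < c1) (k : Fin d → ℕ) (hk : ∀ i, 1 ≤ k i) :
    ∃ c3 : ℝ, 0 < c3 ∧ ∃ m0 : ℝ, ∃ X0 : ℕ, ∀ X : ℕ, X0 ≤ X → ∀ (H : ℕ) (h : Fin d → ℕ), 1 ≤ H →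
    (∀ i, m0 ≤ (h i : ℝ)) → (∀ i, h i ≤ H) →
    c1 * (X * H / (Real.log X) ^ 2) ≤ ∑ n ∈ Px X, (cnt n H : ℝ) →
    c3 * (H * Fintype.card (WW k h)) * (X / (Real.log X) ^ (∏ i, k i + 1)) ≤
      ∑ t ∈ Icc 1 H, ∑ w : WW k h, (NA (AS t w) X : ℝ) := by
  classical
  obtain ⟨C2, hC2, X2, hX2⟩ := card_Px
  obtain ⟨C, hC, X3, hX3⟩ := cnt_upper
  set s : ℕ := ∏ i, k i with hs
  have hspos : 1 ≤ s := Nat.one_le_iff_ne_zero.2 (Finset.prod_ne_zero_iff.2 fun i _ => by
    have := hk i; omega)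
  set η : ℝ := min 1 (c1 / (2 * C * (d + 1))) with hη
  have hηpos : 0 < η := lt_min one_pos (by positivity)
  have hη1 : η ≤ 1 := min_le_left _ _
  have hη2 : C * (d * η) ≤ c1 / 2 := by
    have h1 : η ≤ c1 / (2 * C * (d + 1)) := min_le_right _ _
    rw [le_div_iff₀ (by positivity)] at h1
    have h2 : 0 ≤ C * η := by positivity
    nlinarith
  set c' : ℝ := (η / 2) ^ d * (c1 / 2) with hc'
  have hc'pos : 0 < c' := by positivity
  refine ⟨c' ^ s / C2 ^ (s - 1), by positivity, 2 / η, max (max X2 X3) 3,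
    fun X hX H h hH1 hm0 hhH hsum => ?_⟩
  have hP := hX2 X (le_trans (le_trans (le_max_left _ _) (le_max_left _ _)) hX)
  have hcu := hX3 X (le_trans (le_trans (le_max_right _ _) (le_max_left _ _)) hX)
  have hX3' : 3 ≤ X := le_trans (le_max_right _ _) hX
  have hX0 : (0 : ℝ) < X := by exact_mod_cast (by omega : 0 < X)
  set L := Real.log X with hLdef
  have hL0 : 0 < L := Real.log_pos (by exact_mod_cast (by omega : 1 < X))
  have hH0 : (0 : ℝ) < H := by exact_mod_cast hH1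
  have hpos : ∀ i, 1 ≤ h i := by
    intro i
    have h1 := hm0 i
    have h2 : 0 < 2 / η := by positivity
    have h3 : (0 : ℝ) < h i := by linarith
    exact_mod_cast h3
  have hhpos : ∀ i, (0 : ℝ) < h i := fun i => by exact_mod_cast hpos i
  set U : ℝ := ∏ i, (h i : ℝ) with hU
  have hUpos : 0 < U := Finset.prod_pos fun i _ => hhpos i
  -- notation
  set f : ℕ → ℕ → (∀ i, Fin (h i)) → ℝ := fun n t u =>
    if ((t + ∑ i, ((u i : ℕ) + 1)) * n + 1).Prime then (1 : ℝ) else 0 with hf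
  have hf0 : ∀ n t u, 0 ≤ f n t u := fun n t u => by
    rw [hf]; positivity
  -- the average
  have havg : c' * U * (X * H / L ^ 2) ≤ ∑ y ∈ Px X ×ˢ Icc 1 H, ∑ u, f y.1 y.2 u := by
    set m : Fin d → ℕ := fun i => ⌊η * h i⌋₊ with hm
    have hmle : ∀ i, (m i : ℝ) ≤ η * h i := fun i => Nat.floor_le (by positivity)
    have hmge : ∀ i, η / 2 * h i ≤ m i := by
      intro i
      have h1 : η * h i < m i + 1 := Nat.lt_floor_add_one _
      have h2 := hm0 i
      rw [div_le_iff₀ hηpos] at h2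
      linarith
    have hmh : ∀ i, m i ≤ h i := by
      intro i
      have h1 := hmle i
      have h2 : η * h i ≤ h i := by
        have := hhpos i
        nlinarith
      exact_mod_cast h1.trans h2
    set B := (Finset.univ : Finset (∀ i, Fin (h i))).filter (fun u => ∀ i, (u i : ℕ) + 1 ≤ m i) with hB
    have hBcard : (B.card : ℝ) = ∏ i, (m i : ℝ) := by
      rw [hB, card_subbox h m hmh]
      push_cast
      rfl
    have hBge : (η / 2) ^ d * U ≤ B.card := by
      rw [hBcard, hU]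
      have : (η / 2) ^ d * ∏ i, (h i : ℝ) = ∏ i, (η / 2 * h i) := by
        rw [Finset.prod_mul_distrib, Finset.prod_const, Finset.card_univ, Fintype.card_fin]
      rw [this]
      exact Finset.prod_le_prod (fun i _ => by positivity) fun i _ => hmge i
    rw [Finset.sum_comm]
    have h1 : ∑ u ∈ B, ∑ y ∈ Px X ×ˢ Icc 1 H, f y.1 y.2 u ≤
        ∑ u, ∑ y ∈ Px X ×ˢ Icc 1 H, f y.1 y.2 u := by
      apply Finset.sum_le_sum_of_subset_of_nonneg (Finset.subset_univ _)
      intro u _ _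
      exact Finset.sum_nonneg fun y _ => hf0 _ _ _
    refine le_trans ?_ h1
    have h2 : ∀ u ∈ B, c1 / 2 * (X * H / L ^ 2) ≤ ∑ y ∈ Px X ×ˢ Icc 1 H, f y.1 y.2 u := by
      intro u hu
      rw [hB, Finset.mem_filter] at hu
      rw [Finset.sum_product]
      set σ : ℕ := ∑ i, ((u i : ℕ) + 1) with hσ
      have hσle : (σ : ℝ) ≤ d * η * H := by
        have e1 : σ ≤ ∑ i, m i := Finset.sum_le_sum fun i _ => hu.2 i
        have e2 : ((∑ i, m i : ℕ) : ℝ) ≤ ∑ _i : Fin d, η * H := by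
          push_cast
          apply Finset.sum_le_sum
          intro i _
          refine (hmle i).trans ?_
          have : (h i : ℝ) ≤ H := by exact_mod_cast hhH i
          exact mul_le_mul_of_nonneg_left this hηpos.le
        rw [Finset.sum_const, Finset.card_univ, Fintype.card_fin, nsmul_eq_mul] at e2
        have e3 : (σ : ℝ) ≤ ((∑ i, m i : ℕ) : ℝ) := by exact_mod_cast e1
        linarith
      have e1 : ∑ n ∈ Px X, ((cnt n H : ℝ) - cnt n σ) ≤
          ∑ n ∈ Px X, ∑ t ∈ Icc 1 H, f n t u := by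
        apply Finset.sum_le_sum
        intro n _
        exact shift_ge n H σ
      refine le_trans ?_ e1
      rw [Finset.sum_sub_distrib]
      have e2 := hcu σ
      have e3 : C * (X * σ / L ^ 2) ≤ c1 / 2 * (X * H / L ^ 2) := by
        have e4 : C * (σ : ℝ) ≤ c1 / 2 * H := by
          calc C * (σ : ℝ) ≤ C * (d * η * H) := mul_le_mul_of_nonneg_left hσle hC.le
            _ = C * (d * η) * H := by ring
            _ ≤ c1 / 2 * H := mul_le_mul_of_nonneg_right hη2 hH0.le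
        calc C * (X * σ / L ^ 2) = (C * σ) * (X / L ^ 2) := by ring
          _ ≤ (c1 / 2 * H) * (X / L ^ 2) := mul_le_mul_of_nonneg_right e4 (by positivity)
          _ = _ := by ring
      linarith
    calc c' * U * (X * H / L ^ 2) = ((η / 2) ^ d * U) * (c1 / 2 * (X * H / L ^ 2)) := by
          rw [hc']; ring
      _ ≤ B.card * (c1 / 2 * (X * H / L ^ 2)) := mul_le_mul_of_nonneg_right hBge (by positivity)
      _ = ∑ _u ∈ B, (c1 / 2 * (X * H / L ^ 2)) := by rw [Finset.sum_const, nsmul_eq_mul]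
      _ ≤ _ := Finset.sum_le_sum h2
  -- Jensen
  have hneP : (Px X ×ˢ Icc 1 H).Nonempty := by
    by_contra hc
    rw [Finset.not_nonempty_iff_eq_empty] at hc
    rw [hc, Finset.sum_empty] at havg
    have : 0 < c' * U * (X * H / L ^ 2) := by positivity
    linarith
  have hjen := avg_pow_le (Px X ×ˢ Icc 1 H) (fun y => (∑ u, f y.1 y.2 u) / U)
    (fun y _ => div_nonneg (Finset.sum_nonneg fun u _ => hf0 _ _ _) hUpos.le) s hneP
  have hNle : ((Px X ×ˢ Icc 1 H).card : ℝ) ≤ C2 * (X * H / L) := by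
    rw [card_product, Nat.card_Icc, Nat.add_sub_cancel]
    push_cast
    calc ((Px X).card : ℝ) * H ≤ C2 * (X / L) * H := mul_le_mul_of_nonneg_right hP hH0.le
      _ = _ := by ring
  have hNpos : (0 : ℝ) < ((Px X ×ˢ Icc 1 H).card : ℝ) := by exact_mod_cast hneP.card_pos
  have hlow : c' ^ s / C2 ^ (s - 1) * (X * H / L ^ (s + 1)) ≤
      ∑ y ∈ Px X ×ˢ Icc 1 H, ((∑ u, f y.1 y.2 u) / U) ^ s := by
    refine le_trans ?_ hjen
    rw [← Finset.sum_div]
    set SS := ∑ y ∈ Px X ×ˢ Icc 1 H, ∑ u, f y.1 y.2 u with hSS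
    set N := ((Px X ×ˢ Icc 1 H).card : ℝ) with hN
    have e1 : c' * (X * H / L ^ 2) ≤ SS / U := by
      rw [le_div_iff₀ hUpos]
      linarith
    obtain ⟨r, hr⟩ : ∃ r, s = r + 1 := ⟨s - 1, by omega⟩
    rw [hr, Nat.add_sub_cancel]
    have e2 : N * (SS / U / N) ^ (r + 1) = (SS / U) ^ (r + 1) / N ^ r := by
      rw [div_pow (SS / U), pow_succ N r]
      field_simp
    rw [e2]
    have e3 : (c' * (X * H / L ^ 2)) ^ (r + 1) / (C2 * (X * H / L)) ^ r ≤
        (SS / U) ^ (r + 1) / N ^ r := by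
      apply div_le_div₀
      · positivity
      · exact pow_le_pow_left₀ (by positivity) e1 _
      · positivity
      · exact pow_le_pow_left₀ hNpos.le hNle _
    refine le_trans (le_of_eq ?_) e3
    rw [mul_pow c' (X * (H : ℝ) / L ^ 2), mul_pow C2 (X * (H : ℝ) / L),
      div_pow (X * (H : ℝ)) (L ^ 2), div_pow (X * (H : ℝ)) L]
    have hL' : (L ^ 2) ^ (r + 1) = L ^ (r + 1 + 1) * L ^ r := by
      rw [← pow_mul, ← pow_add]; congr 1; ring
    rw [hL', pow_succ (X * (H : ℝ)) r]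
    have h1 : L ^ r ≠ 0 := by positivity
    have h2 : L ^ (r + 1 + 1) ≠ 0 := by positivity
    have h3 : (X * (H : ℝ)) ^ r ≠ 0 := by positivity
    have h4 : C2 ^ r ≠ 0 := by positivity
    generalize L ^ r = l1 at *
    generalize L ^ (r + 1 + 1) = l2 at *
    generalize (X * (H : ℝ)) ^ r = x1 at *
    generalize C2 ^ r = k1 at *
    field_simp
  -- Sidorenko
  have hNA : ∑ t ∈ Icc 1 H, ∑ w : WW k h, (NA (AS t w) X : ℝ) =
      ∑ y ∈ Px X ×ˢ Icc 1 H, ∑ w : WW k h, ∏ j : ∀ i, Fin (k i),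
        (if ((y.2 + sj w j) * y.1 + 1).Prime then (1 : ℝ) else 0) := by
    rw [Finset.sum_product_right]
    apply Finset.sum_congr rfl
    intro t _
    rw [Finset.sum_comm]
    apply Finset.sum_congr rfl
    intro w _
    exact NA_AS t w X
  rw [hNA]
  have hW0 : (0 : ℝ) ≤ Fintype.card (WW k h) := Nat.cast_nonneg _
  calc c' ^ s / C2 ^ (s - 1) * (H * Fintype.card (WW k h)) * (X / L ^ (s + 1)) =
        Fintype.card (WW k h) * (c' ^ s / C2 ^ (s - 1) * (X * H / L ^ (s + 1))) := by ring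
    _ ≤ Fintype.card (WW k h) * ∑ y ∈ Px X ×ˢ Icc 1 H, ((∑ u, f y.1 y.2 u) / U) ^ s :=
        mul_le_mul_of_nonneg_left hlow hW0
    _ = ∑ y ∈ Px X ×ˢ Icc 1 H, Fintype.card (WW k h) * ((∑ u, f y.1 y.2 u) / U) ^ s := by
        rw [Finset.mul_sum]
    _ ≤ _ := Finset.sum_le_sum fun y _ => sid_one hpos y.2 y.1

end Pool.Agent.MPbca
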