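import Pool.Agent.Lib.MP_0da313_nt.BV.Hooley
import Pool.Agent.Lib.MP_0da313_nt.Final
import Pool.Agent.Lib.MP_bca3e5_nt.Mer

set_option autoImplicit false

/-!
An upper bound sieve of dimension `K`, uniform in the excluded classes.
-/

namespace Pool.Agent.MPbca

open Finset
open Pool.Agent.Lib.MP_0da313_nt Pool.Agent.BVall

/-- number of excluded classes -/
def om (Q : ℕ → ℕ → Prop) [∀ p, DecidablePred (Q p)] (p : ℕ) : ℕ := ((range p).filter (Q p)).card

lemma card_small_products (P : Finset ℕ) (hP : ∀ p ∈ P, p.Prime) (M : ℕ) :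
    (P.powerset.filter (fun T => ∏ p ∈ T, p ≤ M)).card ≤ M := by
  have h : (P.powerset.filter (fun T => ∏ p ∈ T, p ≤ M)).card ≤ (Icc 1 M).card := by
    apply Finset.card_le_card_of_injOn (fun T => ∏ p ∈ T, p)
    · intro T hT
      simp only [coe_filter, mem_powerset, Set.mem_ofPred_eq] at hT
      simp only [coe_Icc, Set.mem_Icc]
      exact ⟨Finset.prod_pos fun p hp => (hP p (hT.1 hp)).pos, hT.2⟩
    · intro T hT T' hT' h
      simp only [coe_filter, mem_powerset, Set.mem_ofPred_eq] at hT hT'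
      have e1 := Nat.primeFactors_prod (s := T) (fun p hp => hP p (hT.1 hp))
      have e2 := Nat.primeFactors_prod (s := T') (fun p hp => hP p (hT'.1 hp))
      simp only at h
      rw [← e1, ← e2, h]
  rwa [Nat.card_Icc, Nat.add_sub_cancel] at h

theorem sieve_upper (K n : ℕ) (Q : ℕ → ℕ → Prop) [∀ p, DecidablePred (Q p)]
    (hQ : ∀ p x, Q p (x % p) ↔ Q p x) (hK : ∀ p, p.Prime → om Q p ≤ K)
    (hp : ∀ p, p.Prime → om Q p < p) (X : ℕ) :
    (((Ico 1 (1 + X)).filter (fun x => ∀ p ∈ PK K n, ¬ Q p x)).card : ℝ) ≤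
      2 * X * W (fun p => (om Q p : ℝ) / p) (PK K n) + (lev K n : ℝ) ^ 2 := by
  classical
  set ρ : ℕ → ℝ := fun p => (om Q p : ℝ) / p with hρ
  have hdens : Dens K ρ := by
    refine ⟨fun p => by positivity, fun p hpp => ?_, fun p hpp => ?_⟩
    · have hp0 : (0 : ℝ) < p := by exact_mod_cast hpp.pos
      have h1 : (om Q p : ℝ) + 1 ≤ p := by exact_mod_cast hp p hpp
      rw [hρ]
      simp only
      rw [div_le_iff₀ hp0]
      have : (1 - 1 / (p : ℝ)) * p = p - 1 := by field_simp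
      rw [this]
      linarith
    · have hp0 : (0 : ℝ) < p := by exact_mod_cast hpp.pos
      rw [hρ]
      simp only
      exact div_le_div_of_nonneg_right (by exact_mod_cast hK p hpp) hp0.le
  have hprime : ∀ p ∈ PK K n, p.Prime := fun p hp => (mem_PK.1 hp).1
  have hA : ∀ T ⊆ PK K n, ∏ p ∈ T, p ≤ lev K n →
      |∑ x ∈ Ico 1 (1 + X), (fun _ => (1 : ℝ)) x * ∏ p ∈ T, (if Q p x then (1 : ℝ) else 0)
        - X * ∏ p ∈ T, ρ p| ≤ (fun _ : Finset ℕ => (lev K n : ℝ)) T := by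
    intro T hT hlev
    have h1 := count_estimate Q hQ T (fun p hp => hprime p (hT hp)) X
    simp only [one_mul]
    refine h1.trans ?_
    have h2 : ∏ p ∈ T, ((range p).filter (Q p)).card ≤ ∏ p ∈ T, p := by
      apply Finset.prod_le_prod'
      intro p hp'
      exact (hp p (hprime p (hT hp'))).le
    exact_mod_cast h2.trans hlev
  have h1 := (repB_YK K n).sum_estimate (Ico 1 (1 + X)) (fun _ => (1 : ℝ))
    (fun x p => if Q p x then (1 : ℝ) else 0) X ρ (fun _ => (lev K n : ℝ)) hA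
  have h2 : ∑ T ∈ (PK K n).powerset.filter (fun T => ∏ p ∈ T, p ≤ lev K n), (lev K n : ℝ) ≤
      (lev K n : ℝ) ^ 2 := by
    rw [sum_const, nsmul_eq_mul, pow_two]
    apply mul_le_mul_of_nonneg_right _ (Nat.cast_nonneg _)
    exact_mod_cast card_small_products (PK K n) hprime (lev K n)
  have h3 : (((Ico 1 (1 + X)).filter (fun x => ∀ p ∈ PK K n, ¬ Q p x)).card : ℝ) ≤
      ∑ x ∈ Ico 1 (1 + X), (fun _ => (1 : ℝ)) x * YK K n (fun p => if Q p x then (1 : ℝ) else 0) := by
    rw [Finset.card_filter]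
    push_cast
    apply Finset.sum_le_sum
    intro x _
    have hpt := (pointwise_K K n (ρ := fun p => if Q p x then (1 : ℝ) else 0)
      (fun p _ => by split_ifs <;> norm_num)
      (fun p _ => by split_ifs <;> norm_num)).1
    simp only [one_mul]
    refine le_trans ?_ hpt
    split_ifs with hq
    · have : W (fun p => if Q p x then (1 : ℝ) else 0) (PK K n) = 1 := by
        unfold W
        apply Finset.prod_eq_one
        intro p hp'
        simp [hq p hp']
      rw [this]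
    · exact W_nonneg fun p _ => by split_ifs <;> norm_num
  have h4 := (abs_le.1 h1).2
  have h5 := hdens.YK_upper n
  have h6 : (X : ℝ) * YK K n ρ ≤ 2 * X * W ρ (PK K n) := by
    have := mul_le_mul_of_nonneg_left h5 (Nat.cast_nonneg (α := ℝ) X)
    linarith
  linarith

/-- the sifted density, uniformly -/
lemma W_upper (K n : ℕ) (Q : ℕ → ℕ → Prop) [∀ p, DecidablePred (Q p)]
    (hp : ∀ p, p.Prime → om Q p < p) (Bad : Finset ℕ)
    (hbad : ∀ p, p.Prime → K < p → p ∉ Bad → K ≤ om Q p) :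
    W (fun p => (om Q p : ℝ) / p) (PK K n) ≤
      Real.exp (K * (K + 2)) * Real.exp (K * ∑ p ∈ Bad, (1 : ℝ) / p) /
        (Real.log (2 ^ (2 ^ (K + n)))) ^ K := by
  classical
  have hsplit : W (fun p => (om Q p : ℝ) / p) (PK K n) ≤
      ∏ p ∈ (PK K n).filter (fun p => K < p ∧ p ∉ Bad), Real.exp (-(K * ((1 : ℝ) / p))) := by
    unfold W
    rw [← Finset.prod_filter_mul_prod_filter_not (PK K n) (fun p => K < p ∧ p ∉ Bad)]
    have h1 : ∏ p ∈ (PK K n).filter (fun p => K < p ∧ p ∉ Bad), (1 - (om Q p : ℝ) / p) ≤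
        ∏ p ∈ (PK K n).filter (fun p => K < p ∧ p ∉ Bad), Real.exp (-(K * ((1 : ℝ) / p))) := by
      apply Finset.prod_le_prod
      · intro p hp'
        have hpp := (mem_PK.1 (mem_filter.1 hp').1).1
        have hp0 : (0 : ℝ) < p := by exact_mod_cast hpp.pos
        have : (om Q p : ℝ) / p ≤ 1 := by
          rw [div_le_one hp0]
          exact_mod_cast (hp p hpp).le
        linarith
      · intro p hp'
        rw [mem_filter] at hp'
        have hpp := (mem_PK.1 hp'.1).1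
        have hp0 : (0 : ℝ) < p := by exact_mod_cast hpp.pos
        have h2 : (K : ℝ) ≤ om Q p := by exact_mod_cast hbad p hpp hp'.2.1 hp'.2.2
        have h3 : (K : ℝ) * (1 / p) ≤ (om Q p : ℝ) / p := by
          rw [mul_one_div]
          exact div_le_div_of_nonneg_right h2 hp0.le
        have h4 := Real.add_one_le_exp (-(K * ((1 : ℝ) / p)))
        linarith
    have h2 : ∏ p ∈ (PK K n).filter (fun p => ¬ (K < p ∧ p ∉ Bad)), (1 - (om Q p : ℝ) / p) ≤ 1 := by
      apply Finset.prod_le_one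
      · intro p hp'
        have hpp := (mem_PK.1 (mem_filter.1 hp').1).1
        have hp0 : (0 : ℝ) < p := by exact_mod_cast hpp.pos
        have : (om Q p : ℝ) / p ≤ 1 := by
          rw [div_le_one hp0]
          exact_mod_cast (hp p hpp).le
        linarith
      · intro p _
        have : (0 : ℝ) ≤ (om Q p : ℝ) / p := by positivity
        linarith
    have h3 : 0 ≤ ∏ p ∈ (PK K n).filter (fun p => ¬ (K < p ∧ p ∉ Bad)), (1 - (om Q p : ℝ) / p) := by
      apply Finset.prod_nonneg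
      intro p hp'
      have hpp := (mem_PK.1 (mem_filter.1 hp').1).1
      have hp0 : (0 : ℝ) < p := by exact_mod_cast hpp.pos
      have : (om Q p : ℝ) / p ≤ 1 := by
        rw [div_le_one hp0]
        exact_mod_cast (hp p hpp).le
      linarith
    calc _ ≤ (∏ p ∈ (PK K n).filter (fun p => K < p ∧ p ∉ Bad), Real.exp (-(K * ((1 : ℝ) / p)))) * 1 :=
          mul_le_mul h1 h2 h3 (Finset.prod_nonneg fun _ _ => (Real.exp_pos _).le)
      _ = _ := mul_one _
  refine hsplit.trans ?_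
  rw [← Real.exp_sum, Finset.sum_neg_distrib, ← Finset.mul_sum]
  set N : ℕ := 2 ^ (2 ^ (K + n)) with hN
  have hN2 : 2 ≤ N := by
    rw [hN]
    calc 2 = 2 ^ 1 := rfl
      _ ≤ _ := Nat.pow_le_pow_right (by norm_num) Nat.one_le_two_pow
  have hPK : (PK K n) = (Icc 1 N).filter Nat.Prime := by
    ext p
    rw [mem_PK, mem_filter, mem_Icc, ← hN]
    constructor
    · rintro ⟨h1, h2⟩
      exact ⟨⟨h1.one_le, h2⟩, h1⟩
    · rintro ⟨h1, h2⟩
      exact ⟨h2, h1.2⟩
  have hmer := sum_inv_prime_ge N hN2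
  rw [← hPK] at hmer
  have h5 : ∑ p ∈ PK K n, (1 : ℝ) / p ≤
      ∑ p ∈ (PK K n).filter (fun p => K < p ∧ p ∉ Bad), (1 : ℝ) / p + K + ∑ p ∈ Bad, (1 : ℝ) / p := by
    rw [← Finset.sum_filter_add_sum_filter_not (PK K n) (fun p => K < p ∧ p ∉ Bad), add_assoc]
    apply add_le_add le_rfl
    have h6 : (PK K n).filter (fun p => ¬ (K < p ∧ p ∉ Bad)) ⊆ Icc 1 K ∪ Bad := by
      intro p hp'
      rw [mem_filter] at hp'
      rw [mem_union, mem_Icc]
      have hpp := (mem_PK.1 hp'.1).1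
      by_cases hb : p ∈ Bad
      · right; exact hb
      · left
        have := hp'.2
        refine ⟨hpp.one_le, ?_⟩
        by_contra hcon
        exact this ⟨by omega, hb⟩
    calc ∑ p ∈ (PK K n).filter (fun p => ¬ (K < p ∧ p ∉ Bad)), (1 : ℝ) / p
        ≤ ∑ p ∈ Icc 1 K ∪ Bad, (1 : ℝ) / p :=
          sum_le_sum_of_subset_of_nonneg h6 fun _ _ _ => by positivity
      _ ≤ ∑ p ∈ Icc 1 K, (1 : ℝ) / p + ∑ p ∈ Bad, (1 : ℝ) / p := by
          rw [← Finset.sum_union_inter]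
          have : 0 ≤ ∑ p ∈ Icc 1 K ∩ Bad, (1 : ℝ) / p := sum_nonneg fun _ _ => by positivity
          linarith
      _ ≤ K + ∑ p ∈ Bad, (1 : ℝ) / p := by
          apply add_le_add _ le_rfl
          calc ∑ p ∈ Icc 1 K, (1 : ℝ) / p ≤ ∑ p ∈ Icc 1 K, (1 : ℝ) := by
                apply sum_le_sum
                intro p hp'
                have : (1 : ℝ) ≤ p := by exact_mod_cast (mem_Icc.1 hp').1
                rw [div_le_one (by linarith)]
                exact this
            _ = K := by simp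
  have hlogN : 0 < Real.log (N : ℝ) := Real.log_pos (by exact_mod_cast hN2)
  have hNcast : (2 : ℝ) ^ (2 ^ (K + n)) = (N : ℝ) := by rw [hN]; push_cast; rfl
  rw [hNcast]
  set S := ∑ p ∈ (PK K n).filter (fun p => K < p ∧ p ∉ Bad), (1 : ℝ) / p with hS
  set SB := ∑ p ∈ Bad, (1 : ℝ) / p with hSB
  have h7 : Real.log (Real.log N) - 2 - K - SB ≤ S := by linarith
  have hK0 : (0 : ℝ) ≤ K := Nat.cast_nonneg K
  have h8 : Real.exp (-(K * S)) ≤ Real.exp (K * (K + 2) + K * SB - K * Real.log (Real.log N)) := by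
    apply Real.exp_le_exp.2
    nlinarith
  refine h8.trans (le_of_eq ?_)
  rw [Real.exp_sub, Real.exp_add]
  congr 1
  rw [mul_comm, Real.exp_mul, Real.exp_log hlogN, Real.rpow_natCast]

/-- the upper bound sieve, uniform in the excluded classes -/
theorem upper_uniform (K : ℕ) (hK : 1 ≤ K) : ∃ C : ℝ, 0 < C ∧ ∃ X0 : ℕ, ∀ X : ℕ, X0 ≤ X →
    ∀ (Q : ℕ → ℕ → Prop) [∀ p, DecidablePred (Q p)], (∀ p x, Q p (x % p) ↔ Q p x) →
    (∀ p, p.Prime → om Q p ≤ K) → (∀ p, p.Prime → om Q p < p) → ∀ Bad : Finset ℕ,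
    (∀ p, p.Prime → K < p → p ∉ Bad → K ≤ om Q p) → ∀ S : Finset ℕ, S ⊆ Icc 1 X →
    (∀ x ∈ S, ∀ p, p.Prime → p ^ 2 ≤ X → ¬ Q p x) →
    (S.card : ℝ) ≤ C * (X / (Real.log X) ^ K) * Real.exp (K * ∑ p ∈ Bad, (1 : ℝ) / p) := by
  classical
  obtain ⟨X₀, hX₀⟩ := choose_level K hK
  set C0 : ℕ := ∏ p ∈ small K, p with hC0
  set C1 : ℝ := (128 * K : ℝ) ^ K with hC1
  have hK' : (1 : ℝ) ≤ K := by exact_mod_cast hK
  have hC1pos : 0 < C1 := by positivity
  refine ⟨2 * Real.exp (K * (K + 2)) * C1 + (C0 : ℝ) ^ 2 * C1, by positivity, max X₀ 3, ?_⟩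
  intro X hX Q _ hQ hωK hωp Bad hbad S hS hSQ
  obtain ⟨n, hn1, hn2, hn3⟩ := hX₀ X (le_trans (le_max_left _ _) hX)
  have hX3 : 3 ≤ X := le_trans (le_max_right _ _) hX
  set z : ℕ := 2 ^ (2 ^ (K + n)) with hz
  have hz1 : 1 ≤ z := Nat.one_le_two_pow
  have hz2 : 2 ≤ z := by
    rw [hz]
    calc 2 = 2 ^ 1 := rfl
      _ ≤ _ := Nat.pow_le_pow_right (by norm_num) Nat.one_le_two_pow
  have hzX : z ^ (48 * K + 16) ≤ X := by
    refine le_trans (le_of_eq ?_) hn2
    rw [hz, ← pow_mul, ← pow_mul]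
    congr 1
    ring
  have hlev : lev K n = C0 * z ^ (16 * K + 6) := by
    unfold lev
    rw [← hC0, hz, ← pow_mul]
  have hz2X : z ^ 2 ≤ X := le_trans (Nat.pow_le_pow_right hz1 (by omega)) hzX
  have hsub : S ⊆ (Ico 1 (1 + X)).filter (fun x => ∀ p ∈ PK K n, ¬ Q p x) := by
    intro x hx
    rw [mem_filter, mem_Ico]
    have h1 := mem_Icc.1 (hS hx)
    refine ⟨⟨h1.1, by omega⟩, fun p hp => ?_⟩
    rw [mem_PK] at hp
    apply hSQ x hx p hp.1
    refine le_trans (Nat.pow_le_pow_left hp.2 2) ?_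
    exact hz2X
  have h1 : (S.card : ℝ) ≤ 2 * X * W (fun p => (om Q p : ℝ) / p) (PK K n) + (lev K n : ℝ) ^ 2 := by
    refine le_trans ?_ (sieve_upper K n Q hQ hωK hωp X)
    exact_mod_cast card_le_card hsub
  have h2 := W_upper K n Q hωp Bad hbad
  have hzcast : (2 : ℝ) ^ (2 ^ (K + n)) = (z : ℝ) := by rw [hz]; push_cast; rfl
  rw [hzcast] at h2
  set EB := Real.exp (K * ∑ p ∈ Bad, (1 : ℝ) / p) with hEB
  have hEB1 : 1 ≤ EB := by
    apply Real.one_le_exp
    have : 0 ≤ ∑ p ∈ Bad, (1 : ℝ) / p := sum_nonneg fun _ _ => by positivity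
    positivity
  have hX0' : (0 : ℝ) < X := by
    have : 0 < X := by omega
    exact_mod_cast this
  have hlogX : 0 < Real.log X := Real.log_pos (by
    have : 1 < X := by omega
    exact_mod_cast this)
  have hz0 : (0 : ℝ) < z := by exact_mod_cast hz1
  have hlogz : 0 < Real.log z := Real.log_pos (by exact_mod_cast hz2)
  have hll : Real.log X ≤ 128 * K * Real.log z := by
    have h3 : (X : ℝ) ≤ (z : ℝ) ^ (128 * K) := by
      have : X ≤ z ^ (128 * K) := by omega
      exact_mod_cast this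
    have h4 := Real.log_le_log hX0' h3
    rw [Real.log_pow] at h4
    push_cast at h4
    exact h4
  have hllK : (Real.log X) ^ K ≤ C1 * (Real.log z) ^ K := by
    rw [hC1, ← mul_pow]
    exact pow_le_pow_left₀ hlogX.le hll K
  have hmain : 2 * (X : ℝ) * W (fun p => (om Q p : ℝ) / p) (PK K n) ≤
      2 * Real.exp (K * (K + 2)) * C1 * (X / (Real.log X) ^ K) * EB := by
    have h5 : 1 / (Real.log z) ^ K ≤ C1 / (Real.log X) ^ K := by
      rw [div_le_div_iff₀ (by positivity) (by positivity), one_mul]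
      exact hllK
    calc 2 * (X : ℝ) * W (fun p => (om Q p : ℝ) / p) (PK K n)
        ≤ 2 * X * (Real.exp (K * (K + 2)) * EB / (Real.log z) ^ K) :=
          mul_le_mul_of_nonneg_left h2 (by positivity)
      _ = 2 * X * (Real.exp (K * (K + 2)) * EB) * (1 / (Real.log z) ^ K) := by ring
      _ ≤ 2 * X * (Real.exp (K * (K + 2)) * EB) * (C1 / (Real.log X) ^ K) :=
          mul_le_mul_of_nonneg_left h5 (by positivity)
      _ = _ := by ring
  have herr : (lev K n : ℝ) ^ 2 ≤ (C0 : ℝ) ^ 2 * C1 * (X / (Real.log X) ^ K) * EB := by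
    have h6 : (lev K n : ℝ) ^ 2 * (Real.log X) ^ K ≤ (C0 : ℝ) ^ 2 * C1 * X := by
      rw [hlev]
      push_cast
      have h7 : (Real.log X) ^ K ≤ C1 * (z : ℝ) ^ K := by
        refine hllK.trans (mul_le_mul_of_nonneg_left ?_ hC1pos.le)
        exact pow_le_pow_left₀ hlogz.le (by
          have := Real.log_le_sub_one_of_pos hz0
          linarith) K
      have h8 : ((z : ℝ) ^ (16 * K + 6)) ^ 2 * (z : ℝ) ^ K ≤ X := by
        have h9 : (z ^ (16 * K + 6)) ^ 2 * z ^ K ≤ X := by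
          refine le_trans ?_ hzX
          rw [← pow_mul, ← pow_add]
          apply Nat.pow_le_pow_right hz1
          omega
        exact_mod_cast h9
      calc ((C0 : ℝ) * (z : ℝ) ^ (16 * K + 6)) ^ 2 * (Real.log X) ^ K
          ≤ ((C0 : ℝ) * (z : ℝ) ^ (16 * K + 6)) ^ 2 * (C1 * (z : ℝ) ^ K) :=
            mul_le_mul_of_nonneg_left h7 (by positivity)
        _ = (C0 : ℝ) ^ 2 * C1 * (((z : ℝ) ^ (16 * K + 6)) ^ 2 * (z : ℝ) ^ K) := by ring
        _ ≤ _ := mul_le_mul_of_nonneg_left h8 (by positivity)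
    have h10 : (lev K n : ℝ) ^ 2 ≤ (C0 : ℝ) ^ 2 * C1 * (X / (Real.log X) ^ K) := by
      rw [← mul_div_assoc, le_div_iff₀ (by positivity)]
      exact h6
    have h11 : 0 ≤ (C0 : ℝ) ^ 2 * C1 * (X / (Real.log X) ^ K) := by positivity
    calc _ ≤ (C0 : ℝ) ^ 2 * C1 * (X / (Real.log X) ^ K) * 1 := by linarith
      _ ≤ _ := mul_le_mul_of_nonneg_left hEB1 h11
  calc (S.card : ℝ) ≤ _ := h1
    _ ≤ _ := add_le_add hmain herr
    _ = _ := by ring

end Pool.Agent.MPbca
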